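import Mathlib

set_option autoImplicit false

/-!
Assignment duality with integer costs, its symmetric version, averaging over a finite group,
the parity lemma, and transport along tight edges.
-/

namespace Pool.Lib18ea5f

open Finset

variable {X : Type*} [Fintype X] [DecidableEq X]

/-- Integer assignment duality. -/
theorem egervary (E : X → X → Prop) (c : X → X → ℤ) (p0 : Equiv.Perm X) (h0 : ∀ x, E x (p0 x)) :
    ∃ (u v : X → ℤ) (p : Equiv.Perm X), (∀ x y, E x y → u x + v y ≤ c x y) ∧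
      (∀ x, E x (p x) ∧ u x + v (p x) = c x (p x)) := by
  classical
  let F : ℕ → Prop := fun k => ∃ u v : X → ℤ, (∀ x y, E x y → u x + v y ≤ c x y) ∧
    (∑ x, c x (p0 x)) - (∑ x, u x) - (∑ x, v x) = k
  have hnn : ∀ u v : X → ℤ, (∀ x y, E x y → u x + v y ≤ c x y) →
      0 ≤ (∑ x, c x (p0 x)) - (∑ x, u x) - (∑ x, v x) := by
    intro u v h
    have h1 : ∑ x, v x = ∑ x, v (p0 x) := (Equiv.sum_comp p0 v).symm
    have h2 : ∑ x, (u x + v (p0 x)) ≤ ∑ x, c x (p0 x) :=
      Finset.sum_le_sum fun x _ => h x (p0 x) (h0 x)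
    rw [Finset.sum_add_distrib] at h2
    linarith
  have hex : ∃ k, F k := by
    obtain ⟨B, hB⟩ : ∃ B : ℤ, ∀ x y, B ≤ c x y := by
      obtain ⟨B, hB⟩ := (Set.finite_range (fun q : X × X => c q.1 q.2)).bddBelow
      exact ⟨B, fun x y => hB ⟨(x, y), rfl⟩⟩
    have hf : ∀ x y, E x y → (fun _ : X => B) x + (fun _ : X => (0 : ℤ)) y ≤ c x y := by
      intro x y _
      simpa using hB x y
    exact ⟨((∑ x, c x (p0 x)) - (∑ x, (fun _ : X => B) x) - (∑ x, (fun _ : X => (0 : ℤ)) x)).toNat,
      fun _ => B, fun _ => 0, hf, (Int.toNat_of_nonneg (hnn _ _ hf)).symm⟩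
  obtain ⟨u, v, hf, hk⟩ := Nat.find_spec hex
  have hmin : ∀ u' v' : X → ℤ, (∀ x y, E x y → u' x + v' y ≤ c x y) →
      (∑ x, u' x) + (∑ x, v' x) ≤ (∑ x, u x) + (∑ x, v x) := by
    intro u' v' hf'
    have h1 := hnn u' v' hf'
    have h2 : F ((∑ x, c x (p0 x)) - (∑ x, u' x) - (∑ x, v' x)).toNat :=
      ⟨u', v', hf', (Int.toNat_of_nonneg h1).symm⟩
    have h3 := Nat.find_min' hex h2
    have h4 : ((Nat.find hex : ℕ) : ℤ) ≤
        (((∑ x, c x (p0 x)) - (∑ x, u' x) - (∑ x, v' x)).toNat : ℤ) := by exact_mod_cast h3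
    rw [Int.toNat_of_nonneg h1] at h4
    linarith
  let t : X → Finset X := fun x => Finset.univ.filter fun y => E x y ∧ u x + v y = c x y
  have hall : ∀ s : Finset X, s.card ≤ (s.biUnion t).card := by
    intro s
    by_contra hcon
    push Not at hcon
    have hf' : ∀ x y, E x y → (fun x => u x + if x ∈ s then 1 else 0) x +
        (fun y => v y - if y ∈ s.biUnion t then 1 else 0) y ≤ c x y := by
      intro x y hxy
      have h1 := hf x y hxy
      simp only
      by_cases hx : x ∈ s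
      · by_cases hy : y ∈ s.biUnion t
        · simp only [hx, hy, if_true]; linarith
        · have h2 : u x + v y ≠ c x y := by
            intro h
            apply hy
            rw [Finset.mem_biUnion]
            exact ⟨x, hx, by simp only [t, Finset.mem_filter]; exact ⟨Finset.mem_univ _, hxy, h⟩⟩
          have h3 : u x + v y < c x y := lt_of_le_of_ne h1 h2
          simp only [hx, hy, if_true, if_false]
          omega
      · by_cases hy : y ∈ s.biUnion t
        · simp only [hx, hy, if_true, if_false]; linarith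
        · simp only [hx, hy, if_false]; linarith
    have h2 := hmin _ _ hf'
    rw [Finset.sum_add_distrib, Finset.sum_sub_distrib] at h2
    have h3 : ∑ x, (if x ∈ s then (1 : ℤ) else 0) = s.card := by
      rw [Finset.sum_ite_mem]; simp
    have h4 : ∑ x, (if x ∈ s.biUnion t then (1 : ℤ) else 0) = (s.biUnion t).card := by
      rw [Finset.sum_ite_mem]; simp
    rw [h3, h4] at h2
    have h5 : ((s.biUnion t).card : ℤ) < s.card := by exact_mod_cast hcon
    linarith
  obtain ⟨f, hinj, hft⟩ := (Finset.all_card_le_biUnion_card_iff_exists_injective t).mp hall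
  have hbij : Function.Bijective f := Finite.injective_iff_bijective.mp hinj
  refine ⟨u, v, Equiv.ofBijective f hbij, hf, fun x => ?_⟩
  have := hft x
  simp only [t, Finset.mem_filter] at this
  exact this.2

/-- feasible half-potentials -/
def Feas (c : X → X → ℤ) (τ : X → ℝ) : Prop := ∀ x y, x ≠ y → τ x + τ y ≤ c x y

/-- optimal half-potentials -/
def Opt (c : X → X → ℤ) (τ : X → ℝ) : Prop :=
  Feas c τ ∧ ∃ p : Equiv.Perm X, (∀ x, p x ≠ x) ∧ (∑ x, (c x (p x) : ℝ)) = 2 * ∑ x, τ x

lemma feas_le {c : X → X → ℤ} {τ : X → ℝ} (h : Feas c τ) (p : Equiv.Perm X)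
    (hp : ∀ x, p x ≠ x) : 2 * ∑ x, τ x ≤ ∑ x, (c x (p x) : ℝ) := by
  have h1 : ∑ x, τ (p x) = ∑ x, τ x := Equiv.sum_comp p τ
  have h2 : ∑ x, (τ x + τ (p x)) ≤ ∑ x, (c x (p x) : ℝ) :=
    Finset.sum_le_sum fun x _ => h x (p x) (hp x).symm
  rw [Finset.sum_add_distrib, h1] at h2
  linarith

lemma opt_tight {c : X → X → ℤ} {τ : X → ℝ} (h : Feas c τ) (p : Equiv.Perm X)
    (hp : ∀ x, p x ≠ x) (he : (∑ x, (c x (p x) : ℝ)) = 2 * ∑ x, τ x) (x : X) :
    τ x + τ (p x) = c x (p x) := by
  have h1 : ∑ x, τ (p x) = ∑ x, τ x := Equiv.sum_comp p τ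
  have h2 : ∑ x, (τ x + τ (p x)) = ∑ x, (c x (p x) : ℝ) := by
    rw [Finset.sum_add_distrib, h1]; linarith
  have h3 := (Finset.sum_eq_sum_iff_of_le (fun x _ => h x (p x) (hp x).symm)).mp h2
  exact h3 x (Finset.mem_univ x)

/-- two optimal solutions have the same value, and any convex combination is optimal. -/
lemma opt_sum_eq {c : X → X → ℤ} {τ τ' : X → ℝ} (h : Opt c τ) (h' : Opt c τ') :
    ∑ x, τ x = ∑ x, τ' x := by
  obtain ⟨hf, p, hp, he⟩ := h
  obtain ⟨hf', p', hp', he'⟩ := h'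
  have h1 := feas_le hf p' hp'
  have h2 := feas_le hf' p hp
  linarith

lemma exists_derangement (h : 2 ≤ Fintype.card X) : ∃ p : Equiv.Perm X, ∀ x, p x ≠ x := by
  set n := Fintype.card X with hn
  haveI : NeZero n := ⟨by omega⟩
  let e := Fintype.equivFin X
  refine ⟨(e.trans (Equiv.addRight (1 : Fin n))).trans e.symm, fun x hx => ?_⟩
  simp only [Equiv.trans_apply, Equiv.coe_addRight] at hx
  rw [Equiv.symm_apply_eq] at hx
  have h1 : (1 : Fin n) = 0 := by
    have : e x + 1 = e x + 0 := by rw [add_zero]; exact hx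
    exact add_left_cancel this
  have h2 : ((1 : Fin n) : ℕ) = ((0 : Fin n) : ℕ) := by rw [h1]
  rw [Fin.val_one', Fin.val_zero] at h2
  have h3 : 1 % n = 1 := Nat.mod_eq_of_lt (by omega)
  omega

lemma opt_exists (c : X → X → ℤ) (hs : ∀ x y, c x y = c y x) (h : 2 ≤ Fintype.card X) :
    ∃ τ, Opt c τ := by
  obtain ⟨p0, hp0⟩ := exists_derangement (X := X) h
  obtain ⟨u, v, p, hf, ht⟩ := egervary (fun x y => x ≠ y) c p0 (fun x => (hp0 x).symm)
  refine ⟨fun x => ((u x : ℝ) + v x) / 2, fun x y hxy => ?_, p, fun x => (ht x).1.symm, ?_⟩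
  · have h1 := hf x y hxy
    have h2 := hf y x hxy.symm
    rw [← hs x y] at h2
    have h1' : (u x : ℝ) + v y ≤ c x y := by exact_mod_cast h1
    have h2' : (u y : ℝ) + v x ≤ c x y := by exact_mod_cast h2
    simp only
    linarith
  · have h1 : ∀ x, (c x (p x) : ℝ) = (u x : ℝ) + v (p x) := by
      intro x
      have := (ht x).2
      rw [← this]; push_cast; rfl
    simp_rw [h1]
    rw [Finset.sum_add_distrib, Equiv.sum_comp p (fun x => (v x : ℝ)), ← Finset.sum_div,
      Finset.sum_add_distrib]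
    ring

lemma opt_zero {c : X → X → ℤ} (hc : ∀ x y, x ≠ y → c x y = 0) {τ : X → ℝ} (h : Opt c τ)
    (h3 : 3 ≤ Fintype.card X) (x : X) : τ x = 0 := by
  obtain ⟨hf, p, hp, he⟩ := h
  have hf' : ∀ x y, x ≠ y → τ x + τ y ≤ 0 := by
    intro x y hxy
    have := hf x y hxy
    rw [hc x y hxy] at this
    simpa using this
  have hsum : ∑ x, τ x = 0 := by
    have h1 : ∑ x, (c x (p x) : ℝ) = 0 := by
      refine Finset.sum_eq_zero fun x _ => ?_
      rw [hc x (p x) (hp x).symm]; simp
    linarith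
  have hle : ∀ x, τ x ≤ 0 := by
    intro x
    by_contra hx
    push Not at hx
    have h1 : ∑ y ∈ Finset.univ.erase x, τ y ≤ ∑ y ∈ Finset.univ.erase x, (-τ x) := by
      refine Finset.sum_le_sum fun y hy => ?_
      have := hf' x y (Finset.ne_of_mem_erase hy).symm
      linarith
    rw [Finset.sum_const, Finset.card_erase_of_mem (Finset.mem_univ x), Finset.card_univ,
      nsmul_eq_mul] at h1
    have h2 := Finset.add_sum_erase Finset.univ τ (Finset.mem_univ x)
    rw [hsum] at h2
    have h4 : (2 : ℝ) ≤ ((Fintype.card X - 1 : ℕ) : ℝ) := by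
      have : 2 ≤ Fintype.card X - 1 := by omega
      exact_mod_cast this
    nlinarith
  have h1 := (Finset.sum_eq_zero_iff_of_nonpos (fun x _ => hle x)).mp hsum
  exact h1 x (Finset.mem_univ x)

/-- Averaging over a finite group. -/
theorem exists_inv_opt {G W : Type*} [Group G] [Fintype G] [MulAction G X] [MulAction G W]
    (c : W → X → X → ℤ) (hs : ∀ w x y, c w x y = c w y x)
    (hinv : ∀ (g : G) w x y, c (g • w) (g • x) (g • y) = c w x y) (hX : 2 ≤ Fintype.card X) :
    ∃ τ : W → X → ℝ, (∀ (g : G) w x, τ (g • w) (g • x) = τ w x) ∧ ∀ w, Opt (c w) (τ w) := by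
  classical
  choose τ0 h0 using fun w => opt_exists (c w) (hs w) hX
  have hcard : (0 : ℝ) < Fintype.card G := by exact_mod_cast Fintype.card_pos
  refine ⟨fun w x => (∑ g : G, τ0 (g • w) (g • x)) / Fintype.card G, fun h w x => ?_, fun w => ?_⟩
  · simp only
    congr 1
    rw [← Equiv.sum_comp (Equiv.mulRight h) (fun g : G => τ0 (g • w) (g • x))]
    refine Finset.sum_congr rfl fun g _ => ?_
    simp only [Equiv.coe_mulRight, mul_smul]
  · -- each translate is optimal
    have hopt : ∀ g : G, Opt (c w) (fun x => τ0 (g • w) (g • x)) := by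
      intro g
      obtain ⟨hf, p, hp, he⟩ := h0 (g • w)
      refine ⟨fun x y hxy => ?_, ((MulAction.toPerm g).trans p).trans (MulAction.toPerm g).symm,
        fun x hx => ?_, ?_⟩
      · have := hf (g • x) (g • y) (fun h => hxy (MulAction.injective g h))
        rwa [hinv] at this
      · simp only [Equiv.trans_apply, MulAction.toPerm_apply, Equiv.symm_apply_eq] at hx
        exact hp _ hx
      · have e1 : ∀ x, c w x ((((MulAction.toPerm g).trans p).trans
            (MulAction.toPerm g).symm) x) = c (g • w) (g • x) (p (g • x)) := by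
          intro x
          simp only [Equiv.trans_apply, MulAction.toPerm_apply, MulAction.toPerm_symm_apply]
          rw [← hinv g w x (g⁻¹ • p (g • x)), smul_inv_smul]
        simp_rw [e1]
        have e2 := Equiv.sum_comp (MulAction.toPerm g : Equiv.Perm X)
          (fun x => (c (g • w) x (p x) : ℝ))
        have e3 := Equiv.sum_comp (MulAction.toPerm g : Equiv.Perm X) (fun x => τ0 (g • w) x)
        simp only [MulAction.toPerm_apply] at e2 e3
        rw [e2, e3, he]
    refine ⟨fun x y hxy => ?_, ?_⟩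
    · simp only
      rw [← add_div, ← Finset.sum_add_distrib, div_le_iff₀ hcard]
      calc ∑ g : G, (τ0 (g • w) (g • x) + τ0 (g • w) (g • y))
          ≤ ∑ _g : G, (c w x y : ℝ) := Finset.sum_le_sum fun g _ => (hopt g).1 x y hxy
        _ = c w x y * Fintype.card G := by
            rw [Finset.sum_const, Finset.card_univ, nsmul_eq_mul]; ring
    · obtain ⟨hf1, p, hp, he⟩ := hopt 1
      refine ⟨p, hp, ?_⟩
      have e1 : ∀ g : G, ∑ x, τ0 (g • w) (g • x) = ∑ x, τ0 ((1 : G) • w) ((1 : G) • x) :=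
        fun g => opt_sum_eq (hopt g) (hopt 1)
      rw [he, ← Finset.sum_div, Finset.sum_comm]
      simp_rw [e1]
      rw [Finset.sum_const, Finset.card_univ, nsmul_eq_mul]
      field_simp

/-- Parity of the optimal half-potentials. -/
theorem parity {c : X → X → ℤ} {τ : X → ℝ} (h : Opt c τ)
    (hodd : Odd (Fintype.card X))
    (hpl : ∀ x y z t, x ≠ y → x ≠ z → x ≠ t → y ≠ z → y ≠ t → z ≠ t →
      ¬ (c x y + c z t < c x z + c y t ∧ c x y + c z t < c x t + c y z)) :
    ∃ ε : ℤ, (ε = 0 ∨ ε = 1) ∧ ∀ x, ∃ k : ℤ, 2 * τ x = 2 * k + ε := by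
  classical
  obtain ⟨hf, p, hp, he⟩ := h
  have ht := opt_tight hf p hp he
  -- key: if x has half-integral value then all have the same class
  have key : ∀ ε : ℤ, (∃ x, ∃ k : ℤ, 2 * τ x = 2 * k + ε) → ∀ z, ∃ k : ℤ, 2 * τ z = 2 * k + ε := by
    rintro ε ⟨x, k, hk⟩ z
    by_contra hz
    push Not at hz
    set y := p x with hy
    set t := p z with htdef
    have hxy : τ x + τ y = c x y := ht x
    have hzt : τ z + τ t = c z t := ht z
    have hcl : ∀ s : X, ∀ u : X, (∃ k : ℤ, 2 * τ s = 2 * k + ε) →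
        (∀ k : ℤ, 2 * τ u ≠ 2 * k + ε) → s ≠ u ∧ τ s + τ u < c s u := by
      rintro s u ⟨k, hk⟩ hu
      have hne : s ≠ u := by rintro rfl; exact hu k hk
      refine ⟨hne, lt_of_le_of_ne (hf s u hne) fun heq => ?_⟩
      apply hu (c s u - k - ε)
      push_cast
      linarith
    have hyc : ∃ k : ℤ, 2 * τ y = 2 * k + ε :=
      ⟨c x y - k - ε, by push_cast; linarith⟩
    have htc : ∀ k : ℤ, 2 * τ t ≠ 2 * k + ε := by
      intro k' hk'
      apply hz (c z t - k' - ε)
      push_cast
      linarith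
    have h1 := hcl x z ⟨k, hk⟩ hz
    have h2 := hcl x t ⟨k, hk⟩ htc
    have h3 := hcl y z hyc hz
    have h4 := hcl y t hyc htc
    refine hpl x y z t (hp x).symm h1.1 h2.1 h3.1 h4.1 (hp z).symm ⟨?_, ?_⟩
    · have : ((c x y + c z t : ℤ) : ℝ) < ((c x z + c y t : ℤ) : ℝ) := by
        push_cast; linarith [h1.2, h4.2]
      exact_mod_cast this
    · have : ((c x y + c z t : ℤ) : ℝ) < ((c x t + c y z : ℤ) : ℝ) := by
        push_cast; linarith [h2.2, h3.2]
      exact_mod_cast this
  by_cases h0 : ∃ x, ∃ k : ℤ, 2 * τ x = 2 * k + (0 : ℤ)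
  · exact ⟨0, Or.inl rfl, key 0 h0⟩
  by_cases h1 : ∃ x, ∃ k : ℤ, 2 * τ x = 2 * k + (1 : ℤ)
  · exact ⟨1, Or.inr rfl, key 1 h1⟩
  exfalso
  push Not at h0 h1
  -- the fractional parts avoid 0 and 1/2
  have hfr : ∀ x, Int.fract (τ x) ≠ 0 ∧ Int.fract (τ x) ≠ 1 / 2 := by
    intro x
    have hx := Int.floor_add_fract (τ x)
    constructor
    · intro h
      apply h0 x ⌊τ x⌋
      push_cast; linarith
    · intro h
      apply h1 x ⌊τ x⌋
      push_cast; linarith
  have hsw : ∀ x, Int.fract (τ x) + Int.fract (τ (p x)) = 1 := by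
    intro x
    have e1 := Int.floor_add_fract (τ x)
    have e2 := Int.floor_add_fract (τ (p x))
    have e3 := ht x
    have a1 := Int.fract_nonneg (τ x)
    have a2 := Int.fract_nonneg (τ (p x))
    have b1 := Int.fract_lt_one (τ x)
    have b2 := Int.fract_lt_one (τ (p x))
    have c1 : 0 < Int.fract (τ x) := lt_of_le_of_ne a1 (hfr x).1.symm
    have hZ : Int.fract (τ x) + Int.fract (τ (p x)) =
        ((c x (p x) - ⌊τ x⌋ - ⌊τ (p x)⌋ : ℤ) : ℝ) := by
      push_cast; linarith
    have l1 : (0 : ℝ) < ((c x (p x) - ⌊τ x⌋ - ⌊τ (p x)⌋ : ℤ) : ℝ) := by rw [← hZ]; linarith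
    have l2 : ((c x (p x) - ⌊τ x⌋ - ⌊τ (p x)⌋ : ℤ) : ℝ) < 2 := by rw [← hZ]; linarith
    have l1' : 0 < c x (p x) - ⌊τ x⌋ - ⌊τ (p x)⌋ := by exact_mod_cast l1
    have l2' : c x (p x) - ⌊τ x⌋ - ⌊τ (p x)⌋ < 2 := by exact_mod_cast l2
    have l3 : c x (p x) - ⌊τ x⌋ - ⌊τ (p x)⌋ = 1 := by omega
    rw [hZ, l3]; norm_num
  set P := Finset.univ.filter fun x => Int.fract (τ x) < 1 / 2 with hP
  set Q := Finset.univ.filter fun x => ¬ Int.fract (τ x) < 1 / 2 with hQ
  have hPQ : P.card = Q.card := by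
    apply le_antisymm
    · apply Finset.card_le_card_of_injOn p
      · intro x hx
        simp only [hP, hQ, Finset.coe_filter, Finset.mem_univ, true_and, Set.mem_ofPred_eq] at hx ⊢
        have := hsw x
        linarith
      · exact p.injective.injOn
    · apply Finset.card_le_card_of_injOn p
      · intro x hx
        simp only [hP, hQ, Finset.coe_filter, Finset.mem_univ, true_and, Set.mem_ofPred_eq] at hx ⊢
        have h2 := hsw x
        have h3 : Int.fract (τ x) ≠ 1 / 2 := (hfr x).2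
        have h4 : 1 / 2 < Int.fract (τ x) := lt_of_le_of_ne (not_lt.mp hx) h3.symm
        linarith
      · exact p.injective.injOn
  have hcard : P.card + Q.card = Fintype.card X := by
    rw [← Finset.card_univ]
    exact Finset.card_filter_add_card_filter_not _
  rw [← hcard, hPQ] at hodd
  exact (Nat.not_odd_iff_even.mpr ⟨Q.card, rfl⟩) hodd

end Pool.Lib18ea5f
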