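import Mathlib

set_option autoImplicit false

/-!
Cover lemma: a finite set of points in a product of real and complex discs whose pairwise
adelic distances are bounded below has bounded cardinality.
-/

namespace Pool.Lib18ea5f

open Finset

/-- A natural number with `Q ≤ n ^ d` and `n ^ d ≤ 2 ^ d * (1 + Q)`. -/
lemma exists_nat_pow (d : ℕ) (hd : 1 ≤ d) (Q : ℝ) :
    ∃ n : ℕ, 1 ≤ n ∧ Q ≤ (n : ℝ) ^ d ∧ (n : ℝ) ^ d ≤ 2 ^ d * (1 + max Q 0) := by
  classical
  have hex : ∃ n : ℕ, 1 ≤ n ∧ Q ≤ (n : ℝ) ^ d := by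
    obtain ⟨n, hn⟩ := exists_nat_ge (max Q 1)
    have h1 : (1 : ℝ) ≤ n := le_trans (le_max_right _ _) hn
    refine ⟨n, by exact_mod_cast h1, ?_⟩
    calc Q ≤ n := le_trans (le_max_left _ _) hn
      _ = (n : ℝ) ^ 1 := by simp
      _ ≤ (n : ℝ) ^ d := pow_le_pow_right₀ h1 hd
  refine ⟨Nat.find hex, (Nat.find_spec hex).1, (Nat.find_spec hex).2, ?_⟩
  set n := Nat.find hex with hn
  have hn1 : 1 ≤ n := (Nat.find_spec hex).1
  have hQ0 : (0 : ℝ) ≤ max Q 0 := le_max_right _ _
  rcases Nat.lt_or_ge 1 n with h | h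
  · have hlt := Nat.find_min hex (m := n - 1) (by omega)
    have h3 : ((n - 1 : ℕ) : ℝ) ^ d < Q := by
      by_contra hcon
      exact hlt ⟨by omega, not_lt.mp hcon⟩
    have h4 : (n : ℝ) ≤ 2 * ((n - 1 : ℕ) : ℝ) := by
      have : n ≤ 2 * (n - 1) := by omega
      exact_mod_cast this
    calc (n : ℝ) ^ d ≤ (2 * ((n - 1 : ℕ) : ℝ)) ^ d := pow_le_pow_left₀ (by positivity) h4 d
      _ = 2 ^ d * ((n - 1 : ℕ) : ℝ) ^ d := by rw [mul_pow]
      _ ≤ 2 ^ d * (1 + max Q 0) := by
          apply mul_le_mul_of_nonneg_left _ (by positivity)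
          have := le_max_left Q 0
          linarith
  · have : n = 1 := by omega
    rw [this]
    simp only [Nat.cast_one, one_pow]
    have h2 : (1 : ℝ) ≤ 2 ^ d := one_le_pow₀ (by norm_num)
    nlinarith

/-- Cover lemma. `m v` is `1` for a real place, `2` for a complex place. -/
lemma cover {α ι : Type*} [Fintype ι] (m : ι → ℕ) (hm : ∀ v, m v = 1 ∨ m v = 2)
    (hne : Nonempty ι)
    (S : Finset α) (t : α → ι → ℂ) (him : ∀ v, m v = 1 → ∀ a, (t a v).im = 0)
    (R : ι → ℝ) (hR : ∀ v, 0 < R v)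
    (hdiam : ∀ a ∈ S, ∀ b ∈ S, ∀ v, ‖t a v - t b v‖ ≤ R v)
    (η : ℝ) (hη : 0 < η)
    (hsep : ∀ a ∈ S, ∀ b ∈ S, a ≠ b → η ≤ ∏ v, ‖t a v - t b v‖ ^ m v) :
    (S.card : ℝ) ≤ 12 ^ (∑ v, m v) * (1 + (∏ v, R v ^ m v) / η) := by
  classical
  set d := ∑ v, m v with hd
  have hd1 : 1 ≤ d := by
    obtain ⟨v⟩ := hne
    calc 1 ≤ m v := by rcases hm v with h | h <;> omega
      _ ≤ d := Finset.single_le_sum (f := m) (fun _ _ => Nat.zero_le _) (Finset.mem_univ v)
  rcases S.eq_empty_or_nonempty with hS | ⟨a0, ha0⟩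
  · subst hS
    have : 0 ≤ (∏ v, R v ^ m v) / η := by
      apply div_nonneg _ hη.le
      exact Finset.prod_nonneg fun v _ => pow_nonneg (hR v).le _
    simp only [Finset.card_empty, Nat.cast_zero]
    positivity
  set P := ∏ v, R v ^ m v with hP
  have hPpos : 0 < P := Finset.prod_pos fun v _ => pow_pos (hR v) _
  -- choose n with n ^ d > 2 ^ d * P / η : use the bound for twice that
  obtain ⟨n, hn1, hnQ, hnU⟩ := exists_nat_pow d hd1 (2 ^ d * (P / η))
  have hQpos : 0 < 2 ^ d * (P / η) := by positivity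
  rw [max_eq_left hQpos.le] at hnU
  have hn0 : (0 : ℝ) < n := by exact_mod_cast hn1
  -- the cell map
  let f : α → (ι → ℤ × ℤ) := fun a v =>
    (⌊n * ((t a v - t a0 v).re / R v)⌋, ⌊n * ((t a v - t a0 v).im / R v)⌋)
  let cell : ι → Finset (ℤ × ℤ) := fun v =>
    (Finset.Icc (-(n : ℤ)) n) ×ˢ (if m v = 1 then {0} else Finset.Icc (-(n : ℤ)) n)
  have hcard : (Fintype.piFinset cell).card = (2 * n + 1) ^ d := by
    rw [Fintype.card_piFinset, hd, ← Finset.prod_pow_eq_pow_sum]
    refine Finset.prod_congr rfl fun v _ => ?_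
    have hI : (Finset.Icc (-(n : ℤ)) n).card = 2 * n + 1 := by
      rw [Int.card_Icc]; omega
    simp only [cell, Finset.card_product]
    rcases hm v with h | h
    · simp [h, hI]
    · simp [h, hI, sq]
  have hbd : ∀ (x : ℝ) (r : ℝ), 0 < r → |x| ≤ r → ⌊(n : ℝ) * (x / r)⌋ ∈ Finset.Icc (-(n : ℤ)) n := by
    intro x r hr hx
    have h1 : |x / r| ≤ 1 := by
      rw [abs_div, abs_of_pos hr]; exact (div_le_one hr).mpr hx
    rw [abs_le] at h1
    rw [Finset.mem_Icc]
    constructor
    · rw [Int.le_floor]; push_cast; nlinarith [h1.1]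
    · have : ((n : ℝ) * (x / r)) < (n : ℤ) + 1 := by push_cast; nlinarith [h1.2]
      exact Int.lt_add_one_iff.mp (Int.floor_lt.mpr (by push_cast at this ⊢; linarith))
  have hmaps : ∀ a ∈ S, f a ∈ Fintype.piFinset cell := by
    intro a ha
    rw [Fintype.mem_piFinset]
    intro v
    have hd' := hdiam a ha a0 ha0 v
    simp only [f, cell, Finset.mem_product]
    constructor
    · exact hbd _ _ (hR v) (le_trans (Complex.abs_re_le_norm _) hd')
    · rcases hm v with h | h
      · have h1 := him v h a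
        have h2 := him v h a0
        simp [h, Complex.sub_im, h1, h2]
      · simp only [h]
        exact hbd _ _ (hR v) (le_trans (Complex.abs_im_le_norm _) hd')
  by_contra hcon
  push Not at hcon
  -- number of cells
  have hcells : ((Fintype.piFinset cell).card : ℝ) ≤ 12 ^ d * (1 + P / η) := by
    rw [hcard]
    push_cast
    have h3n : (2 * (n : ℝ) + 1) ≤ 3 * n := by
      have : (1 : ℝ) ≤ n := by exact_mod_cast hn1
      linarith
    have h2d : (1 : ℝ) ≤ 2 ^ d := one_le_pow₀ (by norm_num)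
    calc (2 * (n : ℝ) + 1) ^ d ≤ (3 * n) ^ d := pow_le_pow_left₀ (by positivity) h3n d
      _ = 3 ^ d * (n : ℝ) ^ d := by rw [mul_pow]
      _ ≤ 3 ^ d * (2 ^ d * (1 + 2 ^ d * (P / η))) := by gcongr
      _ ≤ 3 ^ d * (2 ^ d * (2 ^ d * (1 + P / η))) := by
          have hPη : 0 < P / η := by positivity
          gcongr
          nlinarith
      _ = 12 ^ d * (1 + P / η) := by
          have : (12 : ℝ) ^ d = 3 ^ d * (2 ^ d * 2 ^ d) := by
            rw [← mul_pow, ← mul_pow]; norm_num
          rw [this]; ring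
  have hlt : (Fintype.piFinset cell).card < S.card := by
    exact_mod_cast lt_of_le_of_lt hcells hcon
  obtain ⟨a, ha, b, hb, hab, hfab⟩ :=
    Finset.exists_ne_map_eq_of_card_lt_of_maps_to hlt hmaps
  have hs := hsep a ha b hb hab
  -- every local distance is small
  have hloc : ∀ v, ‖t a v - t b v‖ ^ m v < (2 * R v / n) ^ m v := by
    intro v
    have hf := congrFun hfab v
    simp only [f, Prod.mk.injEq] at hf
    have hfl : ∀ (x y r : ℝ), 0 < r → ⌊(n : ℝ) * (x / r)⌋ = ⌊(n : ℝ) * (y / r)⌋ →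
        |x - y| < r / n := by
      intro x y r hr h
      have := Int.abs_sub_lt_one_of_floor_eq_floor h
      rw [← mul_sub, ← sub_div, abs_mul, abs_div, abs_of_pos hn0, abs_of_pos hr] at this
      rw [lt_div_iff₀ hn0]
      rw [mul_div_assoc', div_lt_one hr] at this
      linarith
    have h1 := hfl _ _ _ (hR v) hf.1
    have hre : |(t a v - t b v).re| < R v / n := by
      simpa [Complex.sub_re] using h1
    rcases hm v with h | h
    · have hi1 := him v h a
      have hi2 := him v h b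
      have hnorm : ‖t a v - t b v‖ = |(t a v - t b v).re| := by
        have him0 : (t a v - t b v).im = 0 := by simp [hi1, hi2]
        rw [Complex.norm_eq_sqrt_sq_add_sq, him0]
        simp [Real.sqrt_sq_eq_abs]
      rw [h, pow_one, pow_one, hnorm]
      have : R v / n ≤ 2 * R v / n := by
        have := hR v
        gcongr
        linarith
      linarith
    · have h2 := hfl _ _ _ (hR v) hf.2
      have him' : |(t a v - t b v).im| < R v / n := by
        simpa [Complex.sub_im] using h2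
      rw [h]
      have hn2 : ‖t a v - t b v‖ < 2 * R v / n := by
        calc ‖t a v - t b v‖ ≤ |(t a v - t b v).re| + |(t a v - t b v).im| :=
              Complex.norm_le_abs_re_add_abs_im _
          _ < R v / n + R v / n := add_lt_add hre him'
          _ = 2 * R v / n := by ring
      exact pow_lt_pow_left₀ hn2 (norm_nonneg _) (by norm_num)
  have hprodlt : ∏ v, ‖t a v - t b v‖ ^ m v < ∏ v, (2 * R v / n) ^ m v := by
    have hpos : ∀ v, 0 < ‖t a v - t b v‖ ^ m v := by
      intro v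
      by_contra hneg
      have h0 : ‖t a v - t b v‖ ^ m v = 0 := le_antisymm (not_lt.mp hneg) (by positivity)
      have : ∏ v, ‖t a v - t b v‖ ^ m v = 0 := Finset.prod_eq_zero (Finset.mem_univ v) h0
      linarith
    exact Finset.prod_lt_prod_of_nonempty (fun v _ => hpos v) (fun v _ => hloc v)
      (Finset.univ_nonempty)
  have hprodeq : ∏ v, (2 * R v / n) ^ m v = 2 ^ d * P / (n : ℝ) ^ d := by
    simp_rw [div_pow, mul_pow]
    rw [Finset.prod_div_distrib, Finset.prod_mul_distrib, Finset.prod_pow_eq_pow_sum,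
      Finset.prod_pow_eq_pow_sum]
  rw [hprodeq] at hprodlt
  have hnd : 0 < (n : ℝ) ^ d := by positivity
  have : η * (n : ℝ) ^ d < 2 ^ d * P := by
    have := lt_of_le_of_lt hs hprodlt
    rwa [lt_div_iff₀ hnd] at this
  have h2 : 2 ^ d * (P / η) * η ≤ (n : ℝ) ^ d * η := by gcongr
  have h3 : 2 ^ d * (P / η) * η = 2 ^ d * P := by field_simp
  linarith

end Pool.Lib18ea5f
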