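import Mathlib

set_option autoImplicit false

/-!
The divisor bound for ideals in the ring of integers of a number field.
-/

namespace Pool.Lib18ea5f

open Finset NumberField UniqueFactorizationMonoid

variable (K : Type*) [Field K] [NumberField K]

lemma succ_le_mul_two_rpow {ε : ℝ} (hε : 0 < ε) (k : ℕ) :
    ((k : ℝ) + 1) ≤ max 1 (1 / (ε * Real.log 2)) * ((2 : ℝ) ^ (k : ℕ)) ^ ε := by
  have hlog : 0 < Real.log 2 := Real.log_pos (by norm_num)
  have h1 : ((2 : ℝ) ^ (k : ℕ)) ^ ε = Real.exp (ε * k * Real.log 2) := by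
    rw [← Real.rpow_natCast, ← Real.rpow_mul (by norm_num), Real.rpow_def_of_pos (by norm_num)]
    congr 1; ring
  have h2 : 1 + ε * Real.log 2 * k ≤ ((2 : ℝ) ^ (k : ℕ)) ^ ε := by
    rw [h1]
    have := Real.add_one_le_exp (ε * k * Real.log 2)
    linarith
  set c := max 1 (1 / (ε * Real.log 2)) with hc
  have hc1 : 1 ≤ c := le_max_left _ _
  have hc2 : 1 ≤ c * (ε * Real.log 2) := by
    have : 1 / (ε * Real.log 2) ≤ c := le_max_right _ _
    rwa [div_le_iff₀ (by positivity)] at this
  have hk : (0 : ℝ) ≤ k := Nat.cast_nonneg k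
  calc (k : ℝ) + 1 ≤ c * 1 + (c * (ε * Real.log 2)) * k := by nlinarith
    _ = c * (1 + ε * Real.log 2 * k) := by ring
    _ ≤ _ := by gcongr

/-- Divisor bound for ideals of `𝓞 K`. -/
theorem ideal_divisor_bound (ε : ℝ) (hε : 0 < ε) :
    ∃ C : ℝ, 1 ≤ C ∧ ∀ d : Ideal (𝓞 K), d ≠ ⊥ →
      {g : Ideal (𝓞 K) | g ∣ d}.Finite ∧
      (({g : Ideal (𝓞 K) | g ∣ d}.ncard : ℕ) : ℝ) ≤ C * (Ideal.absNorm d : ℝ) ^ ε := by
  classical
  set c := max 1 (1 / (ε * Real.log 2)) with hc
  have hc1 : 1 ≤ c := le_max_left _ _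
  obtain ⟨B, hB⟩ := exists_nat_ge ((2 : ℝ) ^ (1 / ε))
  have hfin : {p : Ideal (𝓞 K) | Ideal.absNorm p ≤ B}.Finite := Ideal.finite_setOfPred_absNorm_le B
  set F := hfin.toFinset with hF
  refine ⟨c ^ F.card, one_le_pow₀ hc1, fun d hd => ?_⟩
  have hd0 : d ≠ 0 := hd
  -- injection into submultisets
  have hinj : ∀ g ∈ {g : Ideal (𝓞 K) | g ∣ d}, ∀ g' ∈ {g : Ideal (𝓞 K) | g ∣ d},
      normalizedFactors g = normalizedFactors g' → g = g' := by
    intro g hg g' hg' h
    have hg0 : g ≠ 0 := fun h0 => hd0 (zero_dvd_iff.mp (h0 ▸ hg))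
    have hg0' : g' ≠ 0 := fun h0 => hd0 (zero_dvd_iff.mp (h0 ▸ hg'))
    have e1 := prod_normalizedFactors_eq hg0
    have e2 := prod_normalizedFactors_eq hg0'
    rw [h] at e1
    rw [e1] at e2
    simpa using e2
  have hmaps : Set.MapsTo (normalizedFactors (α := Ideal (𝓞 K))) {g : Ideal (𝓞 K) | g ∣ d}
      (Finset.Iic (normalizedFactors d) : Finset (Multiset (Ideal (𝓞 K)))) := by
    intro g hg
    have hg0 : g ≠ 0 := fun h0 => hd0 (zero_dvd_iff.mp (h0 ▸ hg))
    simp only [Finset.coe_Iic, Set.mem_Iic]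
    exact (dvd_iff_normalizedFactors_le_normalizedFactors hg0 hd0).mp hg
  have hfinD : {g : Ideal (𝓞 K) | g ∣ d}.Finite :=
    Set.Finite.of_injOn hmaps hinj (Finset.finite_toSet _)
  refine ⟨hfinD, ?_⟩
  have hcard : {g : Ideal (𝓞 K) | g ∣ d}.ncard ≤ (Finset.Iic (normalizedFactors d)).card := by
    rw [← Set.ncard_coe_finset]
    exact Set.ncard_le_ncard_of_injOn _ hmaps hinj (Finset.finite_toSet _)
  rw [Multiset.card_Iic] at hcard
  -- the norm
  have hnorm : (Ideal.absNorm d : ℝ) ^ ε =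
      ∏ p ∈ (normalizedFactors d).toFinset,
        (((Ideal.absNorm p : ℝ)) ^ ((normalizedFactors d).count p)) ^ ε := by
    have h1 : d = ∏ p ∈ (normalizedFactors d).toFinset, p ^ ((normalizedFactors d).count p) := by
      rw [← Finset.prod_multiset_count]
      have := prod_normalizedFactors_eq hd0
      rw [this]; simp
    conv_lhs => rw [h1]
    rw [map_prod]
    push_cast
    rw [← Real.finsetProd_rpow _ _ (fun p _ => by positivity)]
    refine Finset.prod_congr rfl fun p _ => ?_
    rw [map_pow]; push_cast; rfl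
  have hterm : ∀ p ∈ (normalizedFactors d).toFinset,
      (((normalizedFactors d).count p + 1 : ℕ) : ℝ) ≤
        (if p ∈ F then c else 1) *
          (((Ideal.absNorm p : ℝ)) ^ ((normalizedFactors d).count p)) ^ ε := by
    intro p hp
    have hpprime : Prime p := prime_of_normalized_factor p (Multiset.mem_toFinset.mp hp)
    have hN2 : 2 ≤ Ideal.absNorm p := by
      have h0 : Ideal.absNorm p ≠ 0 := by
        rw [Ne, Ideal.absNorm_eq_zero_iff]; exact hpprime.ne_zero
      have h1 : Ideal.absNorm p ≠ 1 := by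
        rw [Ne, Ideal.absNorm_eq_one_iff]
        intro h; exact hpprime.not_isUnit (by rw [h, ← Ideal.one_eq_top]; exact isUnit_one)
      omega
    set k := (normalizedFactors d).count p with hk
    push_cast
    by_cases hpF : p ∈ F
    · simp only [hpF, if_true]
      refine (succ_le_mul_two_rpow hε k).trans ?_
      have : (2 : ℝ) ≤ Ideal.absNorm p := by exact_mod_cast hN2
      gcongr
    · simp only [hpF, if_false, one_mul]
      have hNB : B < Ideal.absNorm p := by
        by_contra hle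
        exact hpF (by rw [hF, Set.Finite.mem_toFinset]; exact not_lt.mp hle)
      have hN : (2 : ℝ) ^ (1 / ε) ≤ Ideal.absNorm p := by
        have : (B : ℝ) < Ideal.absNorm p := by exact_mod_cast hNB
        linarith
      have h2 : (2 : ℝ) ≤ (Ideal.absNorm p : ℝ) ^ ε := by
        calc (2 : ℝ) = ((2 : ℝ) ^ (1 / ε)) ^ ε := by
              rw [← Real.rpow_mul (by norm_num), one_div, inv_mul_cancel₀ hε.ne', Real.rpow_one]
          _ ≤ _ := Real.rpow_le_rpow (by positivity) hN hε.le
      calc (k : ℝ) + 1 ≤ (2 : ℝ) ^ k := by exact_mod_cast Nat.lt_two_pow_self (n := k)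
        _ ≤ ((Ideal.absNorm p : ℝ) ^ ε) ^ k := pow_le_pow_left₀ (by norm_num) h2 k
        _ = (((Ideal.absNorm p : ℝ)) ^ k) ^ ε := by
            rw [← Real.rpow_natCast, ← Real.rpow_natCast, ← Real.rpow_mul (by positivity),
              ← Real.rpow_mul (by positivity), mul_comm]
  calc (({g : Ideal (𝓞 K) | g ∣ d}.ncard : ℕ) : ℝ)
      ≤ ((∏ p ∈ (normalizedFactors d).toFinset, ((normalizedFactors d).count p + 1) : ℕ) : ℝ) := by
        exact_mod_cast hcard
    _ = ∏ p ∈ (normalizedFactors d).toFinset, (((normalizedFactors d).count p + 1 : ℕ) : ℝ) := by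
        push_cast; rfl
    _ ≤ ∏ p ∈ (normalizedFactors d).toFinset, ((if p ∈ F then c else 1) *
          (((Ideal.absNorm p : ℝ)) ^ ((normalizedFactors d).count p)) ^ ε) :=
        Finset.prod_le_prod (fun p _ => by positivity) hterm
    _ = (∏ p ∈ (normalizedFactors d).toFinset, (if p ∈ F then c else 1)) *
          (Ideal.absNorm d : ℝ) ^ ε := by
        rw [Finset.prod_mul_distrib, hnorm]
    _ ≤ c ^ F.card * (Ideal.absNorm d : ℝ) ^ ε := by
        gcongr
        rw [← Finset.prod_filter, Finset.prod_const]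
        apply pow_le_pow_right₀ hc1
        apply Finset.card_le_card
        intro p hp
        exact (Finset.mem_filter.mp hp).2

end Pool.Lib18ea5f
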