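import Mathlib

set_option autoImplicit false

/-!
Integral representatives of points, contents, and heights.
-/

namespace Pool.Lib18ea5f

open Finset NumberField

variable {K : Type*} [Field K] [NumberField K]

/-- The content ideal of a vector of algebraic integers. -/
noncomputable def cI {ι : Type*} (x : ι → 𝓞 K) : Ideal (𝓞 K) := Ideal.span (Set.range x)

/-- Local norm at an infinite place. -/
noncomputable def nv {ι : Type*} (v : InfinitePlace K) (x : ι → 𝓞 K) : ℝ := ⨆ i, v (x i : K)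

/-- Product of the local norms over the infinite places. -/
noncomputable def infN {ι : Type*} (x : ι → 𝓞 K) : ℝ :=
  ∏ v : InfinitePlace K, nv v x ^ v.mult

/-- Height of a vector of algebraic integers. -/
noncomputable def ht {ι : Type*} (x : ι → 𝓞 K) : ℝ :=
  Height.mulHeight (fun i => (x i : K))

lemma mem_cI {ι : Type*} (x : ι → 𝓞 K) (i : ι) : x i ∈ cI x :=
  Ideal.subset_span (Set.mem_range_self i)

lemma cI_ne_bot {ι : Type*} {x : ι → 𝓞 K} (hx : x ≠ 0) : cI x ≠ ⊥ := by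
  obtain ⟨i, hi⟩ := Function.ne_iff.mp hx
  intro h
  have := mem_cI x i
  rw [h, Ideal.mem_bot] at this
  exact hi this

lemma absNorm_pos {I : Ideal (𝓞 K)} (hI : I ≠ ⊥) : (0 : ℝ) < (Ideal.absNorm I : ℝ) := by
  have : Ideal.absNorm I ≠ 0 := by rwa [Ne, Ideal.absNorm_eq_zero_iff]
  exact_mod_cast Nat.pos_of_ne_zero this

lemma one_le_absNorm {I : Ideal (𝓞 K)} (hI : I ≠ ⊥) : (1 : ℝ) ≤ (Ideal.absNorm I : ℝ) := by
  have : Ideal.absNorm I ≠ 0 := by rwa [Ne, Ideal.absNorm_eq_zero_iff]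
  exact_mod_cast Nat.pos_of_ne_zero this

lemma coe_ne_zero {ι : Type*} {x : ι → 𝓞 K} (hx : x ≠ 0) : (fun i => (x i : K)) ≠ 0 := by
  obtain ⟨i, hi⟩ := Function.ne_iff.mp hx
  refine Function.ne_iff.mpr ⟨i, ?_⟩
  simpa using hi

/-- The height in terms of the infinite norm and the content. -/
lemma ht_mul_absNorm {ι : Type*} [Finite ι] {x : ι → 𝓞 K} (hx : x ≠ 0) :
    ht x * (Ideal.absNorm (cI x) : ℝ) = infN x := by
  have h1 := NumberField.mulHeight_eq (coe_ne_zero hx)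
  have h2 := NumberField.absNorm_mul_finprod_finitePlace_eq_one hx
  unfold ht infN nv cI
  rw [h1]
  rw [mul_assoc, mul_comm (∏ᶠ v : FinitePlace K, ⨆ i, v (x i : K))]
  rw [h2, mul_one]

lemma ht_eq {ι : Type*} [Finite ι] {x : ι → 𝓞 K} (hx : x ≠ 0) :
    ht x = infN x / (Ideal.absNorm (cI x) : ℝ) := by
  rw [eq_div_iff (absNorm_pos (cI_ne_bot hx)).ne', ht_mul_absNorm hx]

lemma one_le_ht {ι : Type*} [Finite ι] (x : ι → 𝓞 K) : 1 ≤ ht x := Height.one_le_mulHeight _

lemma ht_pos {ι : Type*} [Finite ι] (x : ι → 𝓞 K) : 0 < ht x := Height.mulHeight_pos _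

lemma le_nv {ι : Type*} [Finite ι] (v : InfinitePlace K) (x : ι → 𝓞 K) (i : ι) :
    v (x i : K) ≤ nv v x :=
  le_ciSup (f := fun i => v (x i : K)) (Set.finite_range _).bddAbove i

lemma nv_nonneg {ι : Type*} (v : InfinitePlace K) (x : ι → 𝓞 K) : 0 ≤ nv v x :=
  Real.iSup_nonneg fun _ => apply_nonneg _ _

lemma nv_le {ι : Type*} [Nonempty ι] (v : InfinitePlace K) (x : ι → 𝓞 K) {B : ℝ}
    (h : ∀ i, v (x i : K) ≤ B) : nv v x ≤ B := ciSup_le h

lemma nv_pos {ι : Type*} [Finite ι] (v : InfinitePlace K) {x : ι → 𝓞 K} (hx : x ≠ 0) :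
    0 < nv v x := by
  obtain ⟨i, hi⟩ := Function.ne_iff.mp hx
  have hi' : (x i : K) ≠ 0 := by simpa using hi
  exact lt_of_lt_of_le (InfinitePlace.pos_iff.mpr hi') (le_nv v x i)

lemma exists_nv_eq {ι : Type*} [Finite ι] [Nonempty ι] (v : InfinitePlace K) (x : ι → 𝓞 K) :
    ∃ i, v (x i : K) = nv v x := exists_eq_ciSup_of_finite

/-- Clearing denominators. -/
lemma exists_int_rep {ι : Type*} [Finite ι] {y : ι → K} (hy : y ≠ 0) :
    ∃ x : ι → 𝓞 K, x ≠ 0 ∧ ∃ c : K, c ≠ 0 ∧ (fun i => (x i : K)) = c • y := by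
  obtain ⟨b, hb⟩ := IsLocalization.exist_integer_multiples_of_finite (nonZeroDivisors (𝓞 K)) y
  choose x hx using hb
  have hb0 : ((b : 𝓞 K) : K) ≠ 0 := by
    have := nonZeroDivisors.coe_ne_zero b
    simpa using this
  have hxy : (fun i => (x i : K)) = ((b : 𝓞 K) : K) • y := by
    funext i
    have := hx i
    rw [Algebra.smul_def] at this
    simpa [Pi.smul_apply] using this
  refine ⟨x, ?_, _, hb0, hxy⟩
  rintro rfl
  apply hy
  funext i
  have := congrFun hxy i
  simp only [Pi.zero_apply, map_zero, Pi.smul_apply, smul_eq_mul] at this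
  have := mul_eq_zero.mp this.symm
  simpa using this.resolve_left hb0

/-- The norm of an algebraic integer as a product over infinite places. -/
lemma prod_inf_eq_absNorm (δ : 𝓞 K) :
    ∏ v : InfinitePlace K, (v (δ : K)) ^ v.mult = (Ideal.absNorm (Ideal.span {δ}) : ℝ) := by
  rw [InfinitePlace.prod_eq_abs_norm, Ideal.absNorm_span_singleton]
  have h : Algebra.norm ℚ (δ : K) = ((Algebra.norm ℤ δ : ℤ) : ℚ) := (Algebra.coe_norm_int δ).symm
  rw [h]
  rw [Nat.cast_natAbs]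
  push_cast
  rfl

end Pool.Lib18ea5f
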