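import Mathlib
import Pool.Agent.Lib18ea5f.Rep
import Pool.Agent.Lib18ea5f.Cover
import Pool.Agent.Lib18ea5f.IdealDiv

set_option autoImplicit false

/-!
Points of bounded height on a smooth curve of bidegree `(1,1)` in `P^1 × P^1`, uniformly in the
curve.
-/

namespace Pool.Lib18ea5f

open Finset NumberField

variable {K : Type*} [Field K] [NumberField K]

/-- `Mᵀ x` -/
def mulT (M : Fin 2 × Fin 2 → 𝓞 K) (x : Fin 2 → 𝓞 K) : Fin 2 → 𝓞 K :=
  fun j => M (0, j) * x 0 + M (1, j) * x 1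

def detM (M : Fin 2 × Fin 2 → 𝓞 K) : 𝓞 K := M (0, 0) * M (1, 1) - M (0, 1) * M (1, 0)

def det2 (x y : Fin 2 → 𝓞 K) : 𝓞 K := x 0 * y 1 - x 1 * y 0

lemma cI_mulT_le (M : Fin 2 × Fin 2 → 𝓞 K) (x : Fin 2 → 𝓞 K) :
    cI (mulT M x) ≤ cI M * cI x := by
  unfold cI
  rw [Ideal.span_le]
  rintro _ ⟨j, rfl⟩
  exact Ideal.add_mem _ (Ideal.mul_mem_mul (mem_cI M _) (mem_cI x _))
    (Ideal.mul_mem_mul (mem_cI M _) (mem_cI x _))

lemma exists_gI (M : Fin 2 × Fin 2 → 𝓞 K) (x : Fin 2 → 𝓞 K) :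
    ∃ g : Ideal (𝓞 K), cI (mulT M x) = cI M * cI x * g :=
  Ideal.dvd_iff_le.mpr (cI_mulT_le M x)

/-- The gcd ideal. -/
noncomputable def gI (M : Fin 2 × Fin 2 → 𝓞 K) (x : Fin 2 → 𝓞 K) : Ideal (𝓞 K) :=
  (exists_gI M x).choose

lemma gI_spec (M : Fin 2 × Fin 2 → 𝓞 K) (x : Fin 2 → 𝓞 K) :
    cI (mulT M x) = cI M * cI x * gI M x := (exists_gI M x).choose_spec

lemma detM_ne_zero_M {M : Fin 2 × Fin 2 → 𝓞 K} (hM : detM M ≠ 0) : M ≠ 0 := by
  rintro rfl
  exact hM (by simp [detM])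

lemma det_mul_x (M : Fin 2 × Fin 2 → 𝓞 K) (x : Fin 2 → 𝓞 K) :
    detM M * x 0 = M (1, 1) * mulT M x 0 - M (1, 0) * mulT M x 1 ∧
    detM M * x 1 = M (0, 0) * mulT M x 1 - M (0, 1) * mulT M x 0 := by
  unfold detM mulT
  constructor <;> ring

lemma mulT_ne_zero {M : Fin 2 × Fin 2 → 𝓞 K} (hM : detM M ≠ 0) {x : Fin 2 → 𝓞 K} (hx : x ≠ 0) :
    mulT M x ≠ 0 := by
  intro h
  apply hx
  have h01 := det_mul_x M x
  rw [h] at h01
  simp only [Pi.zero_apply, mul_zero, sub_zero, mul_eq_zero, hM, false_or] at h01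
  funext i
  fin_cases i
  · exact h01.1
  · exact h01.2

lemma gI_dvd {M : Fin 2 × Fin 2 → 𝓞 K} {x : Fin 2 → 𝓞 K} (hx : x ≠ 0) :
    cI M * cI M * gI M x ∣ Ideal.span {detM M} := by
  have hcx : cI x ≠ ⊥ := cI_ne_bot hx
  have h1 : Ideal.span {detM M} * cI x ≤ cI M * cI (mulT M x) := by
    unfold cI
    rw [Ideal.span_mul_span', Ideal.span_le]
    rintro _ ⟨a, ha, _, ⟨j, rfl⟩, rfl⟩
    rw [Set.mem_singleton_iff] at ha
    subst ha
    have h01 := det_mul_x M x
    have hmem : ∀ p q : Fin 2 × Fin 2, ∀ j k : Fin 2,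
        M p * mulT M x j - M q * mulT M x k ∈
          Ideal.span (Set.range M) * Ideal.span (Set.range (mulT M x)) := by
      intro p q j k
      exact Ideal.sub_mem _ (Ideal.mul_mem_mul (mem_cI M _) (mem_cI (mulT M x) _))
        (Ideal.mul_mem_mul (mem_cI M _) (mem_cI (mulT M x) _))
    fin_cases j
    · simp only [Fin.zero_eta, SetLike.mem_coe]
      rw [h01.1]; exact hmem _ _ _ _
    · simp only [Fin.mk_one, SetLike.mem_coe]
      rw [h01.2]; exact hmem _ _ _ _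
  rw [gI_spec] at h1
  have h2 : (cI M * cI M * gI M x) * cI x ∣ Ideal.span {detM M} * cI x := by
    rw [Ideal.dvd_iff_le]
    refine h1.trans (le_of_eq ?_)
    ring
  exact (mul_dvd_mul_iff_right (a := cI M * cI M * gI M x) (by simpa using hcx)).mp h2

lemma gI_ne_bot {M : Fin 2 × Fin 2 → 𝓞 K} (hM : detM M ≠ 0) {x : Fin 2 → 𝓞 K} (hx : x ≠ 0) :
    gI M x ≠ ⊥ := by
  intro h
  have := gI_spec M x
  rw [h, Ideal.mul_bot] at this
  exact cI_ne_bot (mulT_ne_zero hM hx) this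

/-- The congruence between two points with the same gcd ideal. -/
lemma det2_mem {M : Fin 2 × Fin 2 → 𝓞 K} (hM : M ≠ 0) {x y : Fin 2 → 𝓞 K}
    (hg : gI M x = gI M y) :
    cI x * cI y * gI M x ∣ Ideal.span {det2 x y} := by
  have hcM : cI M ≠ ⊥ := cI_ne_bot hM
  have h1 : Ideal.span {det2 x y} * cI M ≤ cI x * cI y * gI M x * cI M := by
    conv_lhs => unfold cI
    rw [Ideal.span_mul_span', Ideal.span_le]
    rintro _ ⟨a, ha, _, ⟨⟨i, j⟩, rfl⟩, rfl⟩
    rw [Set.mem_singleton_iff] at ha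
    subst ha
    have hX : cI y * cI (mulT M x) ≤ cI x * cI y * gI M x * cI M := by
      rw [gI_spec]; exact le_of_eq (by ring)
    have hY : cI x * cI (mulT M y) ≤ cI x * cI y * gI M x * cI M := by
      rw [gI_spec, hg]; exact le_of_eq (by ring)
    have hmem : ∀ k l : Fin 2,
        y k * mulT M x j - x l * mulT M y j ∈ cI x * cI y * gI M x * cI M := by
      intro k l
      exact Ideal.sub_mem _ (hX (Ideal.mul_mem_mul (mem_cI _ _) (mem_cI _ _)))
        (hY (Ideal.mul_mem_mul (mem_cI _ _) (mem_cI _ _)))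
    have hmem' : ∀ k l : Fin 2,
        x l * mulT M y j - y k * mulT M x j ∈ cI x * cI y * gI M x * cI M := by
      intro k l
      exact Ideal.sub_mem _ (hY (Ideal.mul_mem_mul (mem_cI _ _) (mem_cI _ _)))
        (hX (Ideal.mul_mem_mul (mem_cI _ _) (mem_cI _ _)))
    have e0 : det2 x y * M (0, j) = y 1 * mulT M x j - x 1 * mulT M y j := by
      unfold det2 mulT; ring
    have e1 : det2 x y * M (1, j) = x 0 * mulT M y j - y 0 * mulT M x j := by
      unfold det2 mulT; ring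
    fin_cases i
    · simp only [Fin.zero_eta, SetLike.mem_coe]
      rw [e0]; exact hmem _ _
    · simp only [Fin.mk_one, SetLike.mem_coe]
      rw [e1]; exact hmem' _ _
  have h2 : (cI x * cI y * gI M x) * cI M ∣ Ideal.span {det2 x y} * cI M :=
    Ideal.dvd_iff_le.mpr h1
  exact (mul_dvd_mul_iff_right (by simpa using hcM)).mp h2

lemma absNorm_le_of_dvd {I J : Ideal (𝓞 K)} (hJ : J ≠ ⊥) (h : I ∣ J) :
    (Ideal.absNorm I : ℝ) ≤ Ideal.absNorm J := by
  have h1 : Ideal.absNorm I ∣ Ideal.absNorm J := map_dvd Ideal.absNorm h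
  have h2 : Ideal.absNorm J ≠ 0 := by rwa [Ne, Ideal.absNorm_eq_zero_iff]
  exact_mod_cast Nat.le_of_dvd (Nat.pos_of_ne_zero h2) h1

/-- The global lower bound for the determinant. -/
lemma absNorm_le_prod_det2 {M : Fin 2 × Fin 2 → 𝓞 K} (hM : M ≠ 0) {x y : Fin 2 → 𝓞 K}
    (hxy : det2 x y ≠ 0) (hg : gI M x = gI M y) :
    (Ideal.absNorm (cI x) : ℝ) * Ideal.absNorm (cI y) * Ideal.absNorm (gI M x) ≤
      ∏ v : InfinitePlace K, (v (det2 x y : K)) ^ v.mult := by
  rw [prod_inf_eq_absNorm]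
  have h := absNorm_le_of_dvd (by simpa [Ideal.span_singleton_eq_bot] using hxy)
    (det2_mem hM hg)
  simpa [map_mul] using h

/-- `ρ_v(x)`. -/
noncomputable def rho (M : Fin 2 × Fin 2 → 𝓞 K) (x : Fin 2 → 𝓞 K) (v : InfinitePlace K) : ℝ :=
  nv v (mulT M x) / (nv v M * nv v x)

lemma abs_sub_le' (v : InfinitePlace K) (a b : K) : v (a - b) ≤ v a + v b := by
  rw [← v.norm_embedding_eq, ← v.norm_embedding_eq, ← v.norm_embedding_eq, map_sub]
  exact norm_sub_le _ _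

lemma abs_add_le' (v : InfinitePlace K) (a b : K) : v (a + b) ≤ v a + v b := by
  rw [← v.norm_embedding_eq, ← v.norm_embedding_eq, ← v.norm_embedding_eq, map_add]
  exact norm_add_le _ _

lemma nv_mulT_le (v : InfinitePlace K) (M : Fin 2 × Fin 2 → 𝓞 K) (x : Fin 2 → 𝓞 K) :
    nv v (mulT M x) ≤ 2 * (nv v M * nv v x) := by
  apply nv_le
  intro j
  have h1 := le_nv v M (0, j)
  have h2 := le_nv v M (1, j)
  have h3 := le_nv v x 0
  have h4 := le_nv v x 1
  have e : ((mulT M x j : 𝓞 K) : K) = (M (0, j) : K) * (x 0 : K) + (M (1, j) : K) * (x 1 : K) := by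
    simp [mulT]
  rw [e]
  refine (abs_add_le' v _ _).trans ?_
  rw [map_mul, map_mul]
  have := mul_le_mul h1 h3 (apply_nonneg _ _) (nv_nonneg v M)
  have := mul_le_mul h2 h4 (apply_nonneg _ _) (nv_nonneg v M)
  linarith

lemma rho_le_two {M : Fin 2 × Fin 2 → 𝓞 K} (hM : M ≠ 0) {x : Fin 2 → 𝓞 K} (hx : x ≠ 0)
    (v : InfinitePlace K) : rho M x v ≤ 2 := by
  unfold rho
  rw [div_le_iff₀ (mul_pos (nv_pos v hM) (nv_pos v hx))]
  exact nv_mulT_le v M x

lemma rho_pos {M : Fin 2 × Fin 2 → 𝓞 K} (hM : detM M ≠ 0) {x : Fin 2 → 𝓞 K} (hx : x ≠ 0)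
    (v : InfinitePlace K) : 0 < rho M x v :=
  div_pos (nv_pos v (mulT_ne_zero hM hx)) (mul_pos (nv_pos v (detM_ne_zero_M hM)) (nv_pos v hx))

/-- Local distance is controlled by `ρ`. -/
lemma local_dist {M : Fin 2 × Fin 2 → 𝓞 K} (hM : M ≠ 0) {x y : Fin 2 → 𝓞 K}
    (hx : x ≠ 0) (hy : y ≠ 0) (v : InfinitePlace K) :
    v (det2 x y : K) / (nv v x * nv v y) ≤ rho M x v + rho M y v := by
  have hMv := nv_pos v hM
  have hxv := nv_pos v hx
  have hyv := nv_pos v hy
  have key : v (det2 x y : K) * nv v M ≤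
      nv v y * nv v (mulT M x) + nv v x * nv v (mulT M y) := by
    obtain ⟨⟨i, j⟩, hij⟩ := exists_nv_eq v M
    rw [← hij, ← map_mul]
    have e0 : ((det2 x y : 𝓞 K) : K) * (M (0, j) : K) =
        (y 1 : K) * (mulT M x j : K) - (x 1 : K) * (mulT M y j : K) := by
      have : det2 x y * M (0, j) = y 1 * mulT M x j - x 1 * mulT M y j := by
        unfold det2 mulT; ring
      exact_mod_cast congrArg (fun z : 𝓞 K => (z : K)) this
    have e1 : ((det2 x y : 𝓞 K) : K) * (M (1, j) : K) =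
        (x 0 : K) * (mulT M y j : K) - (y 0 : K) * (mulT M x j : K) := by
      have : det2 x y * M (1, j) = x 0 * mulT M y j - y 0 * mulT M x j := by
        unfold det2 mulT; ring
      exact_mod_cast congrArg (fun z : 𝓞 K => (z : K)) this
    have b1 : ∀ k, v ((y k : K) * (mulT M x j : K)) ≤ nv v y * nv v (mulT M x) := by
      intro k; rw [map_mul]
      exact mul_le_mul (le_nv v y k) (le_nv v _ j) (apply_nonneg _ _) (nv_nonneg v y)
    have b2 : ∀ k, v ((x k : K) * (mulT M y j : K)) ≤ nv v x * nv v (mulT M y) := by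
      intro k; rw [map_mul]
      exact mul_le_mul (le_nv v x k) (le_nv v _ j) (apply_nonneg _ _) (nv_nonneg v x)
    fin_cases i
    · simp only [Fin.zero_eta] at *
      rw [e0]
      refine (abs_sub_le' v _ _).trans ?_
      have := b1 1; have := b2 1; linarith
    · simp only [Fin.mk_one] at *
      rw [e1]
      refine (abs_sub_le' v _ _).trans ?_
      have := b1 0; have := b2 0; linarith
  unfold rho
  rw [div_le_iff₀ (mul_pos hxv hyv)]
  have : (nv v (mulT M x) / (nv v M * nv v x) + nv v (mulT M y) / (nv v M * nv v y)) *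
      (nv v x * nv v y) =
      (nv v y * nv v (mulT M x) + nv v x * nv v (mulT M y)) / nv v M := by
    field_simp
  rw [this, le_div_iff₀ hMv]
  exact key

/-- Product of the `ρ_v`. -/
lemma prod_rho {M : Fin 2 × Fin 2 → 𝓞 K} (hM : detM M ≠ 0) {x : Fin 2 → 𝓞 K} (hx : x ≠ 0) :
    ∏ v : InfinitePlace K, rho M x v ^ v.mult =
      (Ideal.absNorm (gI M x) : ℝ) * ht (mulT M x) / (ht M * ht x) := by
  have hM0 := detM_ne_zero_M hM
  have hy := mulT_ne_zero hM hx
  have h1 : ∏ v : InfinitePlace K, rho M x v ^ v.mult = infN (mulT M x) / (infN M * infN x) := by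
    unfold rho infN
    simp_rw [div_pow, mul_pow]
    rw [Finset.prod_div_distrib, Finset.prod_mul_distrib]
  have hN : (Ideal.absNorm (cI (mulT M x)) : ℝ) =
      Ideal.absNorm (cI M) * Ideal.absNorm (cI x) * Ideal.absNorm (gI M x) := by
    rw [gI_spec]; simp [map_mul]
  rw [h1, ← ht_mul_absNorm hy, ← ht_mul_absNorm hM0, ← ht_mul_absNorm hx, hN]
  have a1 := (absNorm_pos (cI_ne_bot hM0)).ne'
  have a2 := (absNorm_pos (cI_ne_bot hx)).ne'
  have a3 := (ht_pos M).ne'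
  have a4 := (ht_pos x).ne'
  field_simp

end Pool.Lib18ea5f
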