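import Mathlib
import Pool.Agent.Lib18ea5f.Curve

set_option autoImplicit false

/-!
Counting points in one class, then the number of classes.
-/

namespace Pool.Lib18ea5f

open Finset NumberField

variable {K : Type*} [Field K] [NumberField K]

/-- Affine coordinate in a chart. -/
noncomputable def tc (x : Fin 2 → 𝓞 K) (s : Fin 2) (v : InfinitePlace K) : ℂ :=
  v.embedding ((x (1 - s) : K) / (x s : K))

lemma tc_im (x : Fin 2 → 𝓞 K) (s : Fin 2) (v : InfinitePlace K) (h : v.mult = 1) :
    (tc x s v).im = 0 := by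
  have hr : v.IsReal := by
    by_contra hc
    have : v.mult = 2 := by simp [InfinitePlace.mult, hc]
    omega
  have h2 := InfinitePlace.isReal_iff.mp hr
  unfold tc
  have h3 := RingHom.congr_fun h2 ((x (1 - s) : K) / (x s : K))
  rw [ComplexEmbedding.conjugate_coe_eq] at h3
  exact Complex.conj_eq_iff_im.mp h3

/-- the coordinate difference in a common chart. -/
lemma tc_sub_norm (x y : Fin 2 → 𝓞 K) (s : Fin 2) (v : InfinitePlace K)
    (hx : x ≠ 0) (hy : y ≠ 0)
    (hxs : v (x s : K) = nv v x) (hys : v (y s : K) = nv v y) :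
    ‖tc x s v - tc y s v‖ = v (det2 x y : K) / (nv v x * nv v y) := by
  have hxp := nv_pos v hx
  have hyp := nv_pos v hy
  have hx0 : (x s : K) ≠ 0 := by
    intro h; rw [h, map_zero] at hxs; linarith
  have hy0 : (y s : K) ≠ 0 := by
    intro h; rw [h, map_zero] at hys; linarith
  unfold tc
  rw [← map_sub, InfinitePlace.norm_embedding_eq]
  rw [← hxs, ← hys, ← map_mul v, ← map_div₀ v]
  have hdet : ((det2 x y : 𝓞 K) : K) = (x 0 : K) * (y 1 : K) - (x 1 : K) * (y 0 : K) := by
    simp [det2]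
  rw [hdet]
  fin_cases s
  · have hx0' : (x 0 : K) ≠ 0 := hx0
    have hy0' : (y 0 : K) ≠ 0 := hy0
    have e : ((x (1 - 0) : K) / (x 0 : K) - (y (1 - 0) : K) / (y 0 : K)) =
        -(((x 0 : K) * (y 1 : K) - (x 1 : K) * (y 0 : K)) / ((x 0 : K) * (y 0 : K))) := by
      simp only [sub_zero]
      field_simp
      ring
    simp only [Fin.zero_eta]
    rw [e]
    rw [← v.norm_embedding_eq, ← v.norm_embedding_eq, map_neg, norm_neg]
  · have hx0' : (x 1 : K) ≠ 0 := hx0
    have hy0' : (y 1 : K) ≠ 0 := hy0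
    have e : ((x (1 - 1) : K) / (x 1 : K) - (y (1 - 1) : K) / (y 1 : K)) =
        (((x 0 : K) * (y 1 : K) - (x 1 : K) * (y 0 : K)) / ((x 1 : K) * (y 1 : K))) := by
      simp only [sub_self]
      field_simp
    simp only [Fin.mk_one]
    rw [e]

lemma mult_cases (v : InfinitePlace K) : v.mult = 1 ∨ v.mult = 2 := by
  unfold InfinitePlace.mult
  split_ifs <;> simp

lemma prod_const_mult (c : ℝ) :
    ∏ v : InfinitePlace K, c ^ v.mult = c ^ (Module.finrank ℚ K) := by
  rw [Finset.prod_pow_eq_pow_sum, InfinitePlace.sum_mult_eq]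

/-- Count of one class: same gcd ideal, same chart, `H(x)` and `ρ_v` of given dyadic size. -/
lemma class_count {α : Type*} (M : Fin 2 × Fin 2 → 𝓞 K) (hM : detM M ≠ 0)
    (S : Finset α) (x : α → Fin 2 → 𝓞 K) (hx : ∀ a, x a ≠ 0)
    (hdet : ∀ a ∈ S, ∀ b ∈ S, a ≠ b → det2 (x a) (x b) ≠ 0)
    (X2 : ℝ) (hX20 : 0 ≤ X2) (hX2 : ∀ a ∈ S, ht (mulT M (x a)) ≤ X2)
    (g : Ideal (𝓞 K)) (hg : ∀ a ∈ S, gI M (x a) = g)
    (s : InfinitePlace K → Fin 2) (hs : ∀ a ∈ S, ∀ v, v (x a (s v) : K) = nv v (x a))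
    (X : ℝ) (hX : 0 < X) (hHX : ∀ a ∈ S, X ≤ ht (x a) ∧ ht (x a) ≤ 2 * X)
    (r : InfinitePlace K → ℝ) (hr0 : ∀ v, 0 < r v)
    (hr : ∀ a ∈ S, ∀ v, r v ≤ rho M (x a) v ∧ rho M (x a) v ≤ 2 * r v) :
    (S.card : ℝ) ≤ 12 ^ (Module.finrank ℚ K) *
      (1 + 4 ^ (Module.finrank ℚ K + 1) * (X2 * X / ht M)) := by
  classical
  have hM0 := detM_ne_zero_M hM
  have hHM := ht_pos M
  rcases S.eq_empty_or_nonempty with hS | ⟨a0, ha0⟩
  · subst hS
    simp only [Finset.card_empty, Nat.cast_zero]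
    positivity
  set N : ℝ := (Ideal.absNorm g : ℝ) with hN
  have hNpos : 0 < N := by
    rw [hN, ← hg a0 ha0]; exact absNorm_pos (gI_ne_bot hM (hx a0))
  have hη : 0 < N / (2 * X) ^ 2 := by positivity
  have hcov := cover (α := α) (ι := InfinitePlace K) (fun v => v.mult) mult_cases inferInstance
    S (fun a v => tc (x a) (s v) v) (fun v hv a => tc_im _ _ _ hv)
    (fun v => 4 * r v) (fun v => by have := hr0 v; positivity)
    (fun a ha b hb v => by
      rw [tc_sub_norm _ _ _ _ (hx a) (hx b) (hs a ha v) (hs b hb v)]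
      refine (local_dist hM0 (hx a) (hx b) v).trans ?_
      have h1 := (hr a ha v).2
      have h2 := (hr b hb v).2
      linarith)
    (N / (2 * X) ^ 2) hη
    (fun a ha b hb hab => by
      have h1 : ∏ v : InfinitePlace K, ‖tc (x a) (s v) v - tc (x b) (s v) v‖ ^ v.mult =
          (∏ v : InfinitePlace K, (v (det2 (x a) (x b) : K)) ^ v.mult) /
            (infN (x a) * infN (x b)) := by
        unfold infN
        rw [← Finset.prod_mul_distrib, ← Finset.prod_div_distrib]
        refine Finset.prod_congr rfl fun v _ => ?_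
        rw [tc_sub_norm _ _ _ _ (hx a) (hx b) (hs a ha v) (hs b hb v), div_pow, mul_pow]
      rw [h1]
      have h2 := absNorm_le_prod_det2 hM0 (hdet a ha b hb hab) ((hg a ha).trans (hg b hb).symm)
      rw [hg a ha] at h2
      have ca := absNorm_pos (cI_ne_bot (hx a))
      have cb := absNorm_pos (cI_ne_bot (hx b))
      have ia : infN (x a) = ht (x a) * (Ideal.absNorm (cI (x a)) : ℝ) :=
        (ht_mul_absNorm (hx a)).symm
      have ib : infN (x b) = ht (x b) * (Ideal.absNorm (cI (x b)) : ℝ) :=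
        (ht_mul_absNorm (hx b)).symm
      have pa := ht_pos (x a)
      have pb := ht_pos (x b)
      have hprod : ht (x a) * ht (x b) ≤ (2 * X) ^ 2 := by
        rw [sq]
        exact mul_le_mul (hHX a ha).2 (hHX b hb).2 pb.le (by positivity)
      calc N / (2 * X) ^ 2 ≤ N / (ht (x a) * ht (x b)) := by gcongr
        _ = ((Ideal.absNorm (cI (x a)) : ℝ) * Ideal.absNorm (cI (x b)) * N) /
              (infN (x a) * infN (x b)) := by
            rw [ia, ib]; field_simp
        _ ≤ _ := by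
            have : 0 < infN (x a) * infN (x b) := by rw [ia, ib]; positivity
            gcongr)
  rw [InfinitePlace.sum_mult_eq] at hcov
  refine hcov.trans ?_
  gcongr
  -- bound of the product of the radii
  have hprodR : ∏ v : InfinitePlace K, (4 * r v) ^ v.mult ≤
      4 ^ (Module.finrank ℚ K) * (N * X2 / (ht M * X)) := by
    have h1 : ∏ v : InfinitePlace K, (4 * r v) ^ v.mult =
        4 ^ (Module.finrank ℚ K) * ∏ v : InfinitePlace K, r v ^ v.mult := by
      simp_rw [mul_pow]
      rw [Finset.prod_mul_distrib, prod_const_mult]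
    rw [h1]
    gcongr
    calc ∏ v : InfinitePlace K, r v ^ v.mult ≤ ∏ v : InfinitePlace K, rho M (x a0) v ^ v.mult :=
          Finset.prod_le_prod (fun v _ => pow_nonneg (hr0 v).le _)
            (fun v _ => pow_le_pow_left₀ (hr0 v).le (hr a0 ha0 v).1 _)
      _ = N * ht (mulT M (x a0)) / (ht M * ht (x a0)) := by
          rw [prod_rho hM (hx a0), hg a0 ha0]
      _ ≤ N * X2 / (ht M * X) := by
          have h2 := hX2 a0 ha0
          have h3 := (hHX a0 ha0).1
          gcongr
  calc (∏ v : InfinitePlace K, (4 * r v) ^ v.mult) / (N / (2 * X) ^ 2)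
      ≤ (4 ^ (Module.finrank ℚ K) * (N * X2 / (ht M * X))) / (N / (2 * X) ^ 2) := by gcongr
    _ = 4 ^ (Module.finrank ℚ K + 1) * (X2 * X / ht M) := by
        field_simp; ring

end Pool.Lib18ea5f
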