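import Mathlib

set_option autoImplicit false
set_option linter.unusedSectionVars false

/-!
Transport along almost tight edges, for costs obeying an approximate four point condition.
-/

namespace Pool.Lib18ea5f

open Finset

variable {X : Type*} [Fintype X] [DecidableEq X] {Y : Type*} [Fintype Y] [DecidableEq Y]

/-- the graph of far from tight pairs. -/
def farG (δ : X → X → ℝ) (hs : ∀ x y, δ x y = δ y x) (κ : ℝ) : SimpleGraph X where
  Adj x y := x ≠ y ∧ κ < δ x y
  symm := ⟨fun x y h => ⟨h.1.symm, by rw [hs]; exact h.2⟩⟩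
  loopless := ⟨fun x h => h.1 rfl⟩

theorem walk_far (δ : X → X → ℝ) (hs : ∀ x y, δ x y = δ y x) (hδ : ∀ x y, x ≠ y → 0 ≤ δ x y)
    (η : ℝ) (hη : 0 ≤ η) (p : Equiv.Perm X) (hp : ∀ x, p x ≠ x) (hpt : ∀ x, δ x (p x) = 0)
    (h4 : ∀ x y z t, x ≠ y → x ≠ z → x ≠ t → y ≠ z → y ≠ t → z ≠ t →
      min (δ x y + δ z t) (δ x t + δ y z) - η ≤ δ x z + δ y t)
    (n : ℕ) {x z : X} (w : (farG δ hs (n * η)).Walk x z) :
    w.length ≤ n → x ≠ z →
      n * η - (w.length - 1) * η < δ x z := by
  induction w with
  | nil => intro _ h; exact absurd rfl h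
  | @cons x y z h w ih =>
    intro hl hxz
    rw [SimpleGraph.Walk.length_cons] at hl
    have hxy : x ≠ y ∧ n * η < δ x y := h
    by_cases hyz : y = z
    · subst hyz
      have h1 : (0 : ℝ) ≤ (w.length : ℝ) * η := by positivity
      rw [SimpleGraph.Walk.length_cons]
      push_cast
      linarith [hxy.2]
    have ih' := ih (by omega) hyz
    have hlpos : 1 ≤ w.length := by
      rcases Nat.eq_zero_or_pos w.length with h0 | h0
      · exact absurd (SimpleGraph.Walk.eq_of_length_eq_zero h0) hyz
      · exact h0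
    have hlr : (1 : ℝ) ≤ w.length := by exact_mod_cast hlpos
    have hln : (w.length : ℝ) ≤ n := by
      have : w.length ≤ n := by omega
      exact_mod_cast this
    have hpos : 0 < δ y z := by
      refine lt_of_le_of_lt ?_ ih'
      have : 0 ≤ ((n : ℝ) - (w.length - 1)) * η := mul_nonneg (by linarith) hη
      linarith
    have hpos2 : 0 < δ y x := by
      rw [hs]
      refine lt_of_le_of_lt ?_ hxy.2
      positivity
    set t := p y with ht
    have h0 : δ y t = 0 := hpt y
    have htx : x ≠ t := by
      intro h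
      rw [← h] at h0
      linarith
    have htz : z ≠ t := by
      intro h
      rw [← h] at h0
      linarith
    have hyt : y ≠ t := (hp y).symm
    have h5 := h4 x y z t hxy.1 hxz htx hyz hyt htz
    rw [h0, add_zero] at h5
    have h6 := hδ z t htz
    have h7 := hδ x t htx
    rw [SimpleGraph.Walk.length_cons]
    push_cast
    refine lt_of_lt_of_le ?_ h5
    have hm : (n : ℝ) * η - (w.length - 1) * η < min (δ x y + δ z t) (δ x t + δ y z) := by
      apply lt_min
      · have : 0 ≤ ((w.length : ℝ) - 1) * η := mul_nonneg (by linarith) hη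
        linarith [hxy.2]
      · linarith
    linarith

theorem reach_far (δ : X → X → ℝ) (hs : ∀ x y, δ x y = δ y x) (hδ : ∀ x y, x ≠ y → 0 ≤ δ x y)
    (η : ℝ) (hη : 0 ≤ η) (p : Equiv.Perm X) (hp : ∀ x, p x ≠ x) (hpt : ∀ x, δ x (p x) = 0)
    (h4 : ∀ x y z t, x ≠ y → x ≠ z → x ≠ t → y ≠ z → y ≠ t → z ≠ t →
      min (δ x y + δ z t) (δ x t + δ y z) - η ≤ δ x z + δ y t)
    {x z : X} (h : (farG δ hs (Fintype.card X * η)).Reachable x z) (hxz : x ≠ z) :
    0 < δ x z := by
  classical
  obtain ⟨w⟩ := h
  have hw := w.toPath.2.length_lt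
  have h1 := walk_far δ hs hδ η hη p hp hpt h4 (Fintype.card X) (w.toPath : _) (by omega) hxz
  refine lt_of_le_of_lt ?_ h1
  have h2 : (((w.toPath : (farG δ hs (Fintype.card X * η)).Walk x z).length : ℕ) : ℝ) ≤
      Fintype.card X := by exact_mod_cast hw.le
  have h3 : 0 ≤ ((Fintype.card X : ℝ) -
      ((((w.toPath : (farG δ hs (Fintype.card X * η)).Walk x z).length : ℕ) : ℝ) - 1)) * η :=
    mul_nonneg (by linarith) hη
  linarith

theorem tight_transport (f : Y → X) (hodd : Odd (Fintype.card X))
    (hnef : ∀ A : Finset X, 2 * A.card < Fintype.card X →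
      2 * (Finset.univ.filter fun y => f y ∈ A).card ≤ Fintype.card Y)
    (δ : X → X → ℝ) (hs : ∀ x y, δ x y = δ y x) (hδ : ∀ x y, x ≠ y → 0 ≤ δ x y)
    (η : ℝ) (hη : 0 ≤ η) (p : Equiv.Perm X) (hp : ∀ x, p x ≠ x) (hpt : ∀ x, δ x (p x) = 0)
    (h4 : ∀ x y z t, x ≠ y → x ≠ z → x ≠ t → y ≠ z → y ≠ t → z ≠ t →
      min (δ x y + δ z t) (δ x t + δ y z) - η ≤ δ x z + δ y t) :
    ∃ σ : Equiv.Perm Y, ∀ y, f (σ y) ≠ f y ∧ δ (f y) (f (σ y)) ≤ Fintype.card X * η := by
  classical
  set Γ := farG δ hs (Fintype.card X * η) with hΓ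
  let cc : X → Γ.ConnectedComponent := Γ.connectedComponentMk
  let B : X → Finset X := fun x => Finset.univ.filter fun y => cc y = cc x
  have hB : ∀ x, 2 * (B x).card < Fintype.card X := by
    intro x
    have h1 : ((B x).image p) ⊆ (B x)ᶜ := by
      intro y hy
      obtain ⟨z, hz, rfl⟩ := Finset.mem_image.mp hy
      rw [Finset.mem_compl]
      intro h
      have hz' : cc z = cc x := (Finset.mem_filter.mp hz).2
      have hpz : cc (p z) = cc x := (Finset.mem_filter.mp h).2
      have h2 : Γ.Reachable z (p z) := SimpleGraph.ConnectedComponent.eq.mp (hz'.trans hpz.symm)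
      have h3 := reach_far δ hs hδ η hη p hp hpt h4 h2 (hp z).symm
      rw [hpt z] at h3
      exact lt_irrefl _ h3
    have h2 := Finset.card_le_card h1
    rw [Finset.card_image_of_injective _ p.injective, Finset.card_compl] at h2
    have h3 : (B x).card ≤ Fintype.card X := Finset.card_le_univ _
    obtain ⟨k, hk⟩ := hodd
    omega
  let t : Y → Finset Y := fun y => Finset.univ.filter fun y' => cc (f y') ≠ cc (f y)
  have hall : ∀ s : Finset Y, s.card ≤ (s.biUnion t).card := by
    intro s
    rcases s.eq_empty_or_nonempty with rfl | ⟨y0, hy0⟩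
    · simp
    by_cases hex : ∃ y1 ∈ s, cc (f y1) ≠ cc (f y0)
    · obtain ⟨y1, hy1, hne⟩ := hex
      have : s.biUnion t = Finset.univ := by
        rw [Finset.eq_univ_iff_forall]
        intro y
        rw [Finset.mem_biUnion]
        by_cases h : cc (f y) = cc (f y0)
        · refine ⟨y1, hy1, ?_⟩
          simp only [t, Finset.mem_filter, Finset.mem_univ, true_and]
          rw [h]; exact hne.symm
        · refine ⟨y0, hy0, ?_⟩
          simp only [t, Finset.mem_filter, Finset.mem_univ, true_and]
          exact h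
      rw [this, Finset.card_univ]
      exact Finset.card_le_univ _
    · push Not at hex
      have h1 : s ⊆ Finset.univ.filter fun y => f y ∈ B (f y0) := by
        intro y hy
        simp only [B, Finset.mem_filter, Finset.mem_univ, true_and]
        exact hex y hy
      have h2 : (Finset.univ.filter fun y => f y ∈ B (f y0))ᶜ ⊆ s.biUnion t := by
        intro y hy
        rw [Finset.mem_biUnion]
        refine ⟨y0, hy0, ?_⟩
        simp only [B, Finset.mem_compl, Finset.mem_filter, Finset.mem_univ, true_and] at hy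
        simp only [t, Finset.mem_filter, Finset.mem_univ, true_and]
        exact hy
      have h3 := Finset.card_le_card h1
      have h4 := Finset.card_le_card h2
      rw [Finset.card_compl] at h4
      have h5 := hnef (B (f y0)) (hB _)
      have h6 : (Finset.univ.filter fun y => f y ∈ B (f y0)).card ≤ Fintype.card Y :=
        Finset.card_le_univ _
      omega
  obtain ⟨g, hinj, hgt⟩ := (Finset.all_card_le_biUnion_card_iff_exists_injective t).mp hall
  refine ⟨Equiv.ofBijective g (Finite.injective_iff_bijective.mp hinj), fun y => ?_⟩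
  have h1 := hgt y
  simp only [t, Finset.mem_filter, Finset.mem_univ, true_and] at h1
  simp only [Equiv.ofBijective_apply]
  have h2 : f (g y) ≠ f y := fun h => h1 (by rw [h])
  refine ⟨h2, ?_⟩
  by_contra hcon
  push Not at hcon
  apply h1
  have hadj : Γ.Adj (f y) (f (g y)) := by
    rw [hΓ]
    exact ⟨h2.symm, hcon⟩
  exact SimpleGraph.ConnectedComponent.eq.mpr hadj.reachable.symm

end Pool.Lib18ea5f
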