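import Mathlib
import Pool.Agent.Lib18ea5f.Assign
import Pool.Agent.Lib18ea5f.Trans
import Pool.Agent.Lib18ea5f.ClassCount

set_option autoImplicit false
set_option linter.unusedSectionVars false

/-!
The finite part of the balancing theorem.
-/

namespace Pool.Lib18ea5f

open Finset NumberField UniqueFactorizationMonoid
open scoped Pointwise

section ideals

variable {M : Type*} [Field M] [NumberField M]

open Classical in
/-- the exponent of an ideal `P` in the factorisation of `I` -/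
noncomputable def cnt (P I : Ideal (𝓞 M)) : ℕ := Multiset.count P (normalizedFactors I)

lemma cnt_mul (P : Ideal (𝓞 M)) {I J : Ideal (𝓞 M)} (hI : I ≠ ⊥) (hJ : J ≠ ⊥) :
    cnt P (I * J) = cnt P I + cnt P J := by
  classical
  unfold cnt
  rw [normalizedFactors_mul (by simpa using hI) (by simpa using hJ), Multiset.count_add]

lemma cnt_prod (P : Ideal (𝓞 M)) {ι : Type*} (s : Finset ι) (I : ι → Ideal (𝓞 M))
    (h : ∀ i ∈ s, I i ≠ ⊥) : cnt P (∏ i ∈ s, I i) = ∑ i ∈ s, cnt P (I i) := by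
  classical
  induction s using Finset.induction_on with
  | empty =>
    simp only [Finset.prod_empty, Finset.sum_empty]
    unfold cnt
    rw [normalizedFactors_one]
    simp
  | insert a s ha ih =>
    rw [Finset.prod_insert ha, Finset.sum_insert ha, cnt_mul, ih]
    · exact fun i hi => h i (Finset.mem_insert_of_mem hi)
    · exact h a (Finset.mem_insert_self a s)
    · rw [Ne, ← Ideal.zero_eq_bot, Finset.prod_eq_zero_iff]
      rintro ⟨i, hi, hi0⟩
      exact h i (Finset.mem_insert_of_mem hi) (by rw [hi0, Ideal.zero_eq_bot])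

lemma cnt_le_of_dvd (P : Ideal (𝓞 M)) {I J : Ideal (𝓞 M)} (hI : I ≠ ⊥) (hJ : J ≠ ⊥)
    (h : I ∣ J) : cnt P I ≤ cnt P J := by
  classical
  unfold cnt
  exact Multiset.count_le_of_le _
    ((dvd_iff_normalizedFactors_le_normalizedFactors (by simpa using hI) (by simpa using hJ)).mp h)

lemma eq_prod_cnt {I : Ideal (𝓞 M)} (hI : I ≠ ⊥) (s : Finset (Ideal (𝓞 M)))
    (hs : ∀ P ∈ normalizedFactors I, P ∈ s) : I = ∏ P ∈ s, P ^ cnt P I := by
  classical
  conv_lhs => rw [← Ideal.prod_normalizedFactors_eq_self hI]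
  unfold cnt
  refine Finset.prod_multiset_count_of_subset _ _ fun P hP => hs P ?_
  exact Multiset.mem_toFinset.mp hP

lemma pow_dvd_of_le_cnt {P I : Ideal (𝓞 M)} (hI : I ≠ ⊥) {k : ℕ} (h : k ≤ cnt P I) :
    P ^ k ∣ I := by
  classical
  have h1 : Multiset.replicate k P ≤ normalizedFactors I := by
    rw [← Multiset.le_count_iff_replicate_le]
    exact h
  have h2 := Multiset.prod_dvd_prod_of_le h1
  rwa [Multiset.prod_replicate, Ideal.prod_normalizedFactors_eq_self hI] at h2

lemma le_cnt_of_pow_dvd {P I : Ideal (𝓞 M)} (hP : Prime P) (hI : I ≠ ⊥) {k : ℕ} (h : P ^ k ∣ I) :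
    k ≤ cnt P I := by
  classical
  have h0 : P ^ k ≠ 0 := pow_ne_zero _ hP.ne_zero
  have h1 := (dvd_iff_normalizedFactors_le_normalizedFactors h0 (by simpa using hI)).mp h
  have h2 := Multiset.count_le_of_le P h1
  rw [normalizedFactors_pow, Multiset.count_nsmul] at h2
  have h3 : normalizedFactors P = {P} := by
    have := normalizedFactors_irreducible hP.irreducible
    simpa using this
  rw [h3] at h2
  simpa [cnt] using h2

variable {K : Type*} [Field K] [Algebra K M]

lemma cnt_smul (g : M ≃ₐ[K] M) (P I : Ideal (𝓞 M)) (hI : I ≠ ⊥) :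
    cnt (g • P) (g • I) = cnt P I := by
  classical
  have hprime : ∀ Q ∈ (normalizedFactors I).map (fun Q => g • Q), Prime Q := by
    intro Q hQ
    obtain ⟨R, hR, rfl⟩ := Multiset.mem_map.mp hQ
    have h1 := prime_of_normalized_factor R hR
    have h2 : (g • R : Ideal (𝓞 M)) ≠ ⊥ := by
      intro h
      apply h1.ne_zero
      have h3 : g⁻¹ • (g • R) = R := inv_smul_smul g R
      rw [h] at h3
      rw [← h3, Ideal.smul_bot]
      rfl
    rw [Ideal.prime_iff_isPrime h2]
    have h3 : R.IsPrime := Ideal.isPrime_of_prime h1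
    exact (Ideal.IsPrime.smul_iff g).mpr h3
  have h1 : (g • I : Ideal (𝓞 M)) = ((normalizedFactors I).map (fun Q => g • Q)).prod := by
    conv_lhs => rw [← Ideal.prod_normalizedFactors_eq_self hI]
    exact map_multiset_prod (MulSemiringAction.toRingHom (M ≃ₐ[K] M) (Ideal (𝓞 M)) g) _
  unfold cnt
  rw [h1, normalizedFactors_prod_of_prime hprime]
  exact Multiset.count_map_eq_count' (fun Q => g • Q) _ (MulAction.injective g) P

lemma absNorm_eq_prod {I : Ideal (𝓞 M)} (hI : I ≠ ⊥) (s : Finset (Ideal (𝓞 M)))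
    (hs : ∀ P ∈ normalizedFactors I, P ∈ s) :
    Ideal.absNorm I = ∏ P ∈ s, Ideal.absNorm P ^ cnt P I := by
  conv_lhs => rw [eq_prod_cnt hI s hs]
  rw [map_prod]
  refine Finset.prod_congr rfl fun P _ => ?_
  rw [map_pow]

end ideals

variable {K M X : Type*} [Field K] [Field M] [NumberField M] [Algebra K M]
  [Finite (M ≃ₐ[K] M)] [Fintype X] [DecidableEq X] [MulAction (M ≃ₐ[K] M) X]

/-- the four term data -/
structure Pfam (K : Type*) {M X : Type*} [Field K] [Field M] [NumberField M] [Algebra K M]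
    [MulAction (M ≃ₐ[K] M) X] (p : X → X → 𝓞 M) : Prop where
  ne0 : ∀ x y, x ≠ y → p x y ≠ 0
  anti : ∀ x y, p y x = - p x y
  plu : ∀ x y z t, p x y * p z t - p x z * p y t + p x t * p y z = 0
  eqv : ∀ (g : M ≃ₐ[K] M) x y, p (g • x) (g • y) = g • p x y

lemma Pfam.self {p : X → X → 𝓞 M} (h : Pfam K p) (x : X) : p x x = 0 := by
  have h1 := h.anti x x
  have h2 : (2 : 𝓞 M) * p x x = 0 := by linear_combination h1
  rcases mul_eq_zero.mp h2 with h3 | h3
  · exact absurd h3 two_ne_zero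
  · exact h3

lemma smul_span (g : M ≃ₐ[K] M) (a : 𝓞 M) : g • (Ideal.span {a}) = Ideal.span {g • a} := by
  rw [Ideal.pointwise_smul_def, Ideal.map_span, Set.image_singleton]
  rfl

theorem finite_part {p : X → X → 𝓞 M} (hp : Pfam K p) (hodd : Odd (Fintype.card X))
    (h3 : 3 ≤ Fintype.card X) {Y : Type*} [Fintype Y] [DecidableEq Y] (f : Y → X)
    (hnef : ∀ A : Finset X, 2 * A.card < Fintype.card X →
      2 * (Finset.univ.filter fun y => f y ∈ A).card ≤ Fintype.card Y) :
    ∃ (J : Ideal (𝓞 M)) (b : X → Ideal (𝓞 M)), J ≠ ⊥ ∧ (∀ x, b x ≠ ⊥) ∧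
      (∀ (g : M ≃ₐ[K] M) x, b (g • x) = g • b x) ∧
      (∀ x y, x ≠ y → ∀ r ∈ b x, ∀ s ∈ b y, r * s * p x y ∈ J) ∧
      Ideal.absNorm (cI (fun σ : Equiv.Perm Y => ∏ y, p (f y) (f (σ y)))) *
        (∏ y, Ideal.absNorm (b (f y)) ^ 2) ≤ Ideal.absNorm J ^ Fintype.card Y := by
  classical
  have : Fintype (M ≃ₐ[K] M) := Fintype.ofFinite _
  have hspan0 : ∀ x y, x ≠ y → Ideal.span {p x y} ≠ ⊥ := by
    intro x y hxy h
    exact hp.ne0 x y hxy (Ideal.span_singleton_eq_bot.mp h)
  let c : Ideal (𝓞 M) → X → X → ℤ := fun P x y => (cnt P (Ideal.span {p x y}) : ℤ)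
  have hcs : ∀ P x y, c P x y = c P y x := by
    intro P x y
    simp only [c]
    rw [hp.anti x y, Ideal.span_singleton_neg]
  have hcinv : ∀ (g : M ≃ₐ[K] M) P x y, c (g • P) (g • x) (g • y) = c P x y := by
    intro g P x y
    simp only [c]
    rw [hp.eqv, ← smul_span]
    by_cases hxy : x = y
    · subst hxy
      have h0 : Ideal.span {p x x} = ⊥ := by rw [hp.self x]; simp
      rw [h0, Ideal.smul_bot]
      unfold cnt
      rw [← Ideal.zero_eq_bot, normalizedFactors_zero]
      simp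
    · rw [cnt_smul g P _ (hspan0 x y hxy)]
  obtain ⟨τ, hτinv, hτopt⟩ := exists_inv_opt (G := M ≃ₐ[K] M) c hcs hcinv (by omega)
  -- the set of primes
  let s : Finset (Ideal (𝓞 M)) :=
    Finset.univ.biUnion fun q : X × X => (normalizedFactors (Ideal.span {p q.1 q.2})).toFinset
  have hsmem : ∀ x y, ∀ P ∈ normalizedFactors (Ideal.span {p x y}), P ∈ s := by
    intro x y P hP
    simp only [s, Finset.mem_biUnion]
    exact ⟨(x, y), Finset.mem_univ _, Multiset.mem_toFinset.mpr hP⟩
  have hsprime : ∀ P ∈ s, Prime P := by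
    intro P hP
    simp only [s, Finset.mem_biUnion] at hP
    obtain ⟨q, _, hq⟩ := hP
    exact prime_of_normalized_factor P (Multiset.mem_toFinset.mp hq)
  have hscard : ∀ P ∈ s, ∃ x y, x ≠ y ∧ cnt P (Ideal.span {p x y}) ≠ 0 := by
    intro P hP
    simp only [s, Finset.mem_biUnion] at hP
    obtain ⟨q, _, hq⟩ := hP
    have hq' := Multiset.mem_toFinset.mp hq
    refine ⟨q.1, q.2, ?_, ?_⟩
    · intro h
      rw [h, hp.self, Set.singleton_zero, Ideal.span_zero, ← Ideal.zero_eq_bot,
        normalizedFactors_zero] at hq'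
      exact absurd hq' (Multiset.notMem_zero _)
    · unfold cnt
      exact (Multiset.count_pos.mpr hq').ne'
  have hsG : ∀ (g : M ≃ₐ[K] M), ∀ P ∈ s, g • P ∈ s := by
    intro g P hP
    obtain ⟨x, y, hxy, hc⟩ := hscard P hP
    apply hsmem (g • x) (g • y)
    have h1 := hcinv g P x y
    simp only [c] at h1
    have h2 : cnt (g • P) (Ideal.span {p (g • x) (g • y)}) ≠ 0 := by
      have : cnt (g • P) (Ideal.span {p (g • x) (g • y)}) = cnt P (Ideal.span {p x y}) := by
        exact_mod_cast h1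
      rw [this]; exact hc
    unfold cnt at h2
    exact Multiset.count_pos.mp (Nat.pos_of_ne_zero h2)
  -- four point property
  have hfour : ∀ P, Prime P → ∀ x y z t, x ≠ y → x ≠ z → x ≠ t → y ≠ z → y ≠ t → z ≠ t →
      min (c P x y + c P z t) (c P x t + c P y z) ≤ c P x z + c P y t := by
    intro P hP x y z t hxy hxz hxt hyz hyt hzt
    simp only [c]
    have hne : ∀ x y z t, x ≠ y → z ≠ t → Ideal.span {p x y * p z t} ≠ ⊥ := by
      intro x y z t h1 h2 h
      rw [Ideal.span_singleton_eq_bot] at h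
      rcases mul_eq_zero.mp h with h | h
      · exact hp.ne0 _ _ h1 h
      · exact hp.ne0 _ _ h2 h
    have hcm : ∀ x y z t, x ≠ y → z ≠ t → cnt P (Ideal.span {p x y * p z t}) =
        cnt P (Ideal.span {p x y}) + cnt P (Ideal.span {p z t}) := by
      intro x y z t h1 h2
      rw [← Ideal.span_singleton_mul_span_singleton, cnt_mul P (hspan0 _ _ h1) (hspan0 _ _ h2)]
    have hplu : p x z * p y t = p x y * p z t + p x t * p y z := by
      linear_combination -(hp.plu x y z t)
    set k := min (cnt P (Ideal.span {p x y * p z t})) (cnt P (Ideal.span {p x t * p y z})) with hk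
    have h1 : P ^ k ∣ Ideal.span {p x y * p z t} :=
      pow_dvd_of_le_cnt (hne _ _ _ _ hxy hzt) (min_le_left _ _)
    have h2 : P ^ k ∣ Ideal.span {p x t * p y z} :=
      pow_dvd_of_le_cnt (hne _ _ _ _ hxt hyz) (min_le_right _ _)
    rw [Ideal.dvd_span_singleton] at h1 h2
    have h3 : P ^ k ∣ Ideal.span {p x z * p y t} := by
      rw [Ideal.dvd_span_singleton, hplu]
      exact Ideal.add_mem _ h1 h2
    have h4 := le_cnt_of_pow_dvd hP (hne _ _ _ _ hxz hyt) h3
    rw [hk, hcm _ _ _ _ hxy hzt, hcm _ _ _ _ hxt hyz, hcm _ _ _ _ hxz hyt] at h4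
    exact_mod_cast h4
  -- parity
  have hpar : ∀ P, Prime P → ∃ ε : ℤ, (ε = 0 ∨ ε = 1) ∧ ∀ x, ∃ k : ℤ, 2 * τ P x = 2 * k + ε := by
    intro P hP
    refine parity (hτopt P) hodd ?_
    intro x y z t hxy hxz hxt hyz hyt hzt ⟨h1, h2⟩
    have h4 := hfour P hP x z y t hxz hxy hxt hyz.symm hzt hyt
    have e1 : c P z y = c P y z := hcs P z y
    rw [e1] at h4
    rcases le_total (c P x z + c P y t) (c P x t + c P y z) with h | h
    · rw [min_eq_left h] at h4; omega
    · rw [min_eq_right h] at h4; omega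
  have hparc : ∀ P, ∃ ε : ℤ, Prime P → ((ε = 0 ∨ ε = 1) ∧ ∀ x, ∃ k : ℤ, 2 * τ P x = 2 * k + ε) := by
    intro P
    by_cases hP : Prime P
    · obtain ⟨ε, h⟩ := hpar P hP
      exact ⟨ε, fun _ => h⟩
    · exact ⟨0, fun h => absurd h hP⟩
  choose ε hε using hparc
  -- upper bound for τ
  obtain ⟨N0, hN0⟩ : ∃ N0 : ℕ, ∀ P ∈ s, ∀ x, τ P x ≤ N0 := by
    obtain ⟨B, hB⟩ := (s.finite_toSet.image2 (fun P x => τ P x) (Set.finite_univ (α := X))).bddAbove
    obtain ⟨N0, hN0⟩ := exists_nat_ge B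
    exact ⟨N0, fun P hP x => (hB (Set.mem_image2_of_mem hP (Set.mem_univ x))).trans hN0⟩
  let k : Ideal (𝓞 M) → X → ℕ := fun P x => ⌈(N0 : ℝ) - τ P x⌉.toNat
  have hk : ∀ P ∈ s, ∀ x, 2 * (k P x : ℝ) = 2 * (N0 - τ P x) + ε P := by
    intro P hP x
    obtain ⟨hε01, hεk⟩ := hε P (hsprime P hP)
    obtain ⟨kk, hkk⟩ := hεk x
    have h1 : ⌈(N0 : ℝ) - τ P x⌉ = (N0 : ℤ) - kk := by
      rw [Int.ceil_eq_iff]
      rcases hε01 with h | h
      · rw [h] at hkk
        push_cast at hkk ⊢
        constructor <;> linarith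
      · rw [h] at hkk
        push_cast at hkk ⊢
        constructor <;> linarith
    have h2 : 0 ≤ ⌈(N0 : ℝ) - τ P x⌉ := Int.ceil_nonneg (by linarith [hN0 P hP x])
    have h3 : ((k P x : ℕ) : ℝ) = ((N0 : ℤ) - kk : ℤ) := by
      have h4 : ((k P x : ℕ) : ℤ) = (N0 : ℤ) - kk := by
        simp only [k]
        rw [Int.toNat_of_nonneg h2, h1]
      exact_mod_cast h4
    rw [h3]
    push_cast
    linarith
  have hkinv : ∀ (g : M ≃ₐ[K] M) P x, k (g • P) (g • x) = k P x := by
    intro g P x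
    simp only [k]
    rw [hτinv]
  let j : Ideal (𝓞 M) → ℕ := fun P => 2 * N0 + (ε P).toNat
  have hj : ∀ P ∈ s, (j P : ℝ) = 2 * N0 + ε P := by
    intro P hP
    obtain ⟨hε01, _⟩ := hε P (hsprime P hP)
    simp only [j]
    push_cast
    congr 1
    have : (((ε P).toNat : ℤ) : ℝ) = (ε P : ℝ) := by
      rw [Int.toNat_of_nonneg]
      rcases hε01 with h | h <;> rw [h] <;> norm_num
    exact_mod_cast this
  have hPne : ∀ P ∈ s, P ≠ (0 : Ideal (𝓞 M)) := fun P hP => (hsprime P hP).ne_zero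
  refine ⟨∏ P ∈ s, P ^ j P, fun x => ∏ P ∈ s, P ^ k P x, ?_, fun x => ?_, fun g x => ?_,
    fun x y hxy r hr s' hs' => ?_, ?_⟩
  · rw [← Ideal.zero_eq_bot]
    exact Finset.prod_ne_zero_iff.mpr fun P hP => pow_ne_zero _ (hPne P hP)
  · rw [← Ideal.zero_eq_bot]
    exact Finset.prod_ne_zero_iff.mpr fun P hP => pow_ne_zero _ (hPne P hP)
  · rw [Finset.smul_prod']
    symm
    refine Finset.prod_bij (fun P _ => g • P) (fun P hP => hsG g P hP)
      (fun P _ Q _ h => MulAction.injective g h) (fun Q hQ => ⟨g⁻¹ • Q, hsG _ Q hQ, by simp⟩)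
      fun P hP => ?_
    rw [smul_pow', hkinv]
  · -- divisibility
    have h1 : r * s' * p x y ∈ (∏ P ∈ s, P ^ k P x) * (∏ P ∈ s, P ^ k P y) *
        Ideal.span {p x y} :=
      Ideal.mul_mem_mul (Ideal.mul_mem_mul hr hs') (Ideal.mem_span_singleton_self _)
    have h2 : (∏ P ∈ s, P ^ j P) ∣ (∏ P ∈ s, P ^ k P x) * (∏ P ∈ s, P ^ k P y) *
        Ideal.span {p x y} := by
      have e1 := eq_prod_cnt (hspan0 x y hxy) s (hsmem x y)
      rw [e1, ← Finset.prod_mul_distrib, ← Finset.prod_mul_distrib]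
      refine Finset.prod_dvd_prod_of_dvd _ _ fun P hP => ?_
      rw [← pow_add, ← pow_add]
      apply pow_dvd_pow
      have hf := (hτopt P).1 x y hxy
      have k1 := hk P hP x
      have k2 := hk P hP y
      have k3 := hj P hP
      have hc' : (c P x y : ℝ) = (cnt P (Ideal.span {p x y}) : ℝ) := by simp [c]
      rw [hc'] at hf
      have h5 : (j P : ℝ) ≤ ((k P x + k P y + cnt P (Ideal.span {p x y}) : ℕ) : ℝ) := by
        push_cast
        linarith
      exact_mod_cast h5
    exact (Ideal.dvd_iff_le.mp h2) h1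
  · set Iv : Equiv.Perm Y → 𝓞 M := fun σ => ∏ y, p (f y) (f (σ y)) with hIv
    by_cases hcI : cI Iv = ⊥
    · rw [hcI, Ideal.absNorm_bot, zero_mul]
      exact Nat.zero_le _
    -- tight permutations
    have htight : ∀ P ∈ s, ∃ σ : Equiv.Perm Y, (∀ y, f (σ y) ≠ f y) ∧
        (∑ y, (c P (f y) (f (σ y)) : ℝ)) = 2 * ∑ y, τ P (f y) := by
      intro P hP
      obtain ⟨hfeas, π, hπ, hπe⟩ := hτopt P
      have hπt := opt_tight hfeas π hπ hπe
      obtain ⟨σ, hσ⟩ := tight_transport f hodd hnef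
        (fun x y => (c P x y : ℝ) - τ P x - τ P y)
        (fun x y => by simp only [hcs P x y]; ring)
        (fun x y hxy => by
          have := hfeas x y hxy
          linarith)
        0 le_rfl π hπ (fun x => by have := hπt x; linarith)
        (by
          intro x y z t hxy hxz hxt hyz hyt hzt
          have h4 := hfour P (hsprime P hP) x y z t hxy hxz hxt hyz hyt hzt
          have h4' : min ((c P x y : ℝ) + c P z t) ((c P x t : ℝ) + c P y z) ≤
              (c P x z : ℝ) + c P y t := by exact_mod_cast h4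
          have e : min ((c P x y : ℝ) - τ P x - τ P y + (c P z t - τ P z - τ P t))
              ((c P x t : ℝ) - τ P x - τ P t + (c P y z - τ P y - τ P z)) =
              min ((c P x y : ℝ) + c P z t) ((c P x t : ℝ) + c P y z) -
                (τ P x + τ P y + τ P z + τ P t) := by
            rw [← min_sub_sub_right]
            congr 1
            · ring
            · ring
          rw [e]
          linarith)
      refine ⟨σ, fun y => (hσ y).1, ?_⟩
      have h5 : ∀ y, (c P (f y) (f (σ y)) : ℝ) = τ P (f y) + τ P (f (σ y)) := by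
        intro y
        have h6 := (hσ y).2
        have h7 := hfeas (f y) (f (σ y)) (hσ y).1.symm
        simp only [mul_zero] at h6
        linarith
      simp_rw [h5]
      rw [Finset.sum_add_distrib, Equiv.sum_comp σ (fun y => τ P (f y))]
      ring
    have hIne : ∀ σ : Equiv.Perm Y, (∀ y, f (σ y) ≠ f y) → Iv σ ≠ 0 := by
      intro σ hσ
      exact Finset.prod_ne_zero_iff.mpr fun y _ => hp.ne0 _ _ (hσ y).symm
    have hcntI : ∀ (P : Ideal (𝓞 M)) (σ : Equiv.Perm Y), (∀ y, f (σ y) ≠ f y) →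
        cnt P (Ideal.span {Iv σ}) = ∑ y, cnt P (Ideal.span {p (f y) (f (σ y))}) := by
      intro P σ hσ
      rw [hIv, ← Ideal.prod_span_singleton]
      exact cnt_prod P _ _ fun y _ => hspan0 _ _ (hσ y).symm
    have hdvd : ∀ σ, cI Iv ∣ Ideal.span {Iv σ} := by
      intro σ
      rw [Ideal.dvd_span_singleton]
      exact mem_cI Iv σ
    -- the factors of cI lie in s
    have hfac : ∀ P ∈ normalizedFactors (cI Iv), P ∈ s := by
      intro P hP
      have hIv0 : ∃ σ, Iv σ ≠ 0 := by
        by_contra h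
        push Not at h
        apply hcI
        unfold cI
        rw [Ideal.span_eq_bot]
        rintro _ ⟨σ, rfl⟩
        exact h σ
      obtain ⟨σ, hσ0⟩ := hIv0
      have hσ : ∀ y, f (σ y) ≠ f y := by
        intro y h
        apply hσ0
        refine Finset.prod_eq_zero (Finset.mem_univ y) ?_
        rw [h]; exact hp.self _
      have h1 : 0 < cnt P (cI Iv) := by
        unfold cnt
        exact Multiset.count_pos.mpr hP
      have h2 := cnt_le_of_dvd P hcI (fun h => hσ0 (Ideal.span_singleton_eq_bot.mp h)) (hdvd σ)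
      rw [hcntI P σ hσ] at h2
      have h3 : 0 < ∑ y, cnt P (Ideal.span {p (f y) (f (σ y))}) := lt_of_lt_of_le h1 h2
      obtain ⟨y, _, hy⟩ := Finset.exists_ne_zero_of_sum_ne_zero h3.ne'
      apply hsmem (f y) (f (σ y))
      unfold cnt at hy
      exact Multiset.count_pos.mp (Nat.pos_of_ne_zero hy)
    rw [absNorm_eq_prod hcI s hfac]
    have e1 : ∀ y : Y, Ideal.absNorm (∏ P ∈ s, P ^ k P (f y)) ^ 2 =
        ∏ P ∈ s, Ideal.absNorm P ^ (2 * k P (f y)) := by
      intro y
      rw [map_prod, ← Finset.prod_pow]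
      refine Finset.prod_congr rfl fun P _ => ?_
      rw [map_pow, ← pow_mul, mul_comm]
    simp_rw [e1]
    rw [Finset.prod_comm, ← Finset.prod_mul_distrib, map_prod, ← Finset.prod_pow]
    refine Finset.prod_le_prod' fun P hP => ?_
    rw [Finset.prod_pow_eq_pow_sum, ← pow_add, map_pow, ← pow_mul]
    refine Nat.pow_le_pow_right ?_ ?_
    · have := (Ideal.absNorm_eq_zero_iff (I := P)).not.mpr
        (by have := hPne P hP; rwa [Ideal.zero_eq_bot] at this)
      omega
    · obtain ⟨σ, hσ, hσe⟩ := htight P hP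
      have h1 := cnt_le_of_dvd P hcI
        (fun h => hIne σ hσ (Ideal.span_singleton_eq_bot.mp h)) (hdvd σ)
      rw [hcntI P σ hσ] at h1
      have h2 : (cnt P (cI Iv) : ℝ) ≤ 2 * ∑ y, τ P (f y) := by
        rw [← hσe]
        have h3 : (cnt P (cI Iv) : ℝ) ≤
            ((∑ y, cnt P (Ideal.span {p (f y) (f (σ y))}) : ℕ) : ℝ) := by exact_mod_cast h1
        refine h3.trans (le_of_eq ?_)
        push_cast
        refine Finset.sum_congr rfl fun y _ => ?_
        simp [c]
      have h4 : (((cnt P (cI Iv) + ∑ y, 2 * k P (f y)) : ℕ) : ℝ) ≤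
          ((j P * Fintype.card Y : ℕ) : ℝ) := by
        push_cast
        have h5 : ∑ y, 2 * (k P (f y) : ℝ) = ∑ y, (2 * ((N0 : ℝ) - τ P (f y)) + ε P) :=
          Finset.sum_congr rfl fun y _ => hk P hP (f y)
        rw [h5, hj P hP, Finset.sum_add_distrib, ← Finset.mul_sum, Finset.sum_sub_distrib,
          Finset.sum_const, Finset.sum_const, Finset.card_univ, nsmul_eq_mul, nsmul_eq_mul]
        linarith
      exact_mod_cast h4

end Pool.Lib18ea5f
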