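import Mathlib
import Pool.Agent.Lib18ea5f.LocalF

set_option autoImplicit false
set_option linter.unusedSectionVars false

/-!
The infinite part of the balancing theorem.
-/

namespace Pool.Lib18ea5f

open Finset NumberField

variable {K M X : Type*} [Field K] [Field M] [NumberField M] [Algebra K M]
  [Finite (M ≃ₐ[K] M)] [Fintype X] [DecidableEq X] [MulAction (M ≃ₐ[K] M) X]

theorem inf_part {p : X → X → 𝓞 M} (hp : Pfam K p) (hodd : Odd (Fintype.card X))
    (h3 : 3 ≤ Fintype.card X) {Y : Type*} [Fintype Y] [DecidableEq Y] (f : Y → X)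
    (hnef : ∀ A : Finset X, 2 * A.card < Fintype.card X →
      2 * (Finset.univ.filter fun y => f y ∈ A).card ≤ Fintype.card Y) :
    ∃ φ : InfinitePlace M → X → ℝ, (∀ (g : M ≃ₐ[K] M) w x, φ (g • w) (g • x) = φ w x) ∧
      (∀ (w : InfinitePlace M) x y, x ≠ y → w (p x y : M) ≤ Real.exp (-(φ w x + φ w y))) ∧
        ∀ w : InfinitePlace M,
          Real.exp (-(2 * ∑ y, φ w (f y)) - Fintype.card Y * (3 * Fintype.card X + 1)) ≤
          nv w (fun σ : Equiv.Perm Y => ∏ y, p (f y) (f (σ y))) := by
  classical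
  have : Fintype (M ≃ₐ[K] M) := Fintype.ofFinite _
  have hneg : ∀ (w : InfinitePlace M) (a : M), w (-a) = w a := fun w a => by
    rw [← w.norm_embedding_eq, ← w.norm_embedding_eq, map_neg, norm_neg]
  let c : InfinitePlace M → X → X → ℤ := fun w x y => ⌊-Real.log (w (p x y : M))⌋
  have hcs : ∀ w x y, c w x y = c w y x := by
    intro w x y
    simp only [c]
    rw [hp.anti x y]
    push_cast
    rw [hneg]
  have hcinv : ∀ (g : M ≃ₐ[K] M) w x y, c (g • w) (g • x) (g • y) = c w x y := by
    intro g w x y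
    simp only [c]
    rw [hp.eqv]
    have e : (g • w) ((g • p x y : 𝓞 M) : M) = w (p x y : M) := by
      rw [InfinitePlace.smul_apply]
      have : ((g • p x y : 𝓞 M) : M) = g (p x y : M) := rfl
      rw [this]
      simp
    rw [e]
  have hpos : ∀ (w : InfinitePlace M) x y, x ≠ y → 0 < w (p x y : M) := by
    intro w x y hxy
    refine InfinitePlace.pos_iff.mpr ?_
    have := hp.ne0 x y hxy
    simpa using this
  have hcle : ∀ w x y, x ≠ y → w (p x y : M) ≤ Real.exp (-(c w x y : ℝ)) := by
    intro w x y hxy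
    have h1 : (c w x y : ℝ) ≤ -Real.log (w (p x y : M)) := Int.floor_le _
    rw [← Real.log_le_iff_le_exp (hpos w x y hxy)]
    linarith
  have hclt : ∀ w x y, x ≠ y → Real.exp (-(c w x y + 1 : ℝ)) ≤ w (p x y : M) := by
    intro w x y hxy
    have h1 : -Real.log (w (p x y : M)) < (c w x y : ℝ) + 1 := Int.lt_floor_add_one _
    rw [← Real.le_log_iff_exp_le (hpos w x y hxy)]
    linarith
  obtain ⟨φ, hφinv, hφopt⟩ := exists_inv_opt (G := M ≃ₐ[K] M) c hcs hcinv (by omega)
  have hfour : ∀ w : InfinitePlace M, ∀ x y z t, x ≠ y → x ≠ z → x ≠ t → y ≠ z → y ≠ t → z ≠ t →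
      min ((c w x y : ℝ) + c w z t) ((c w x t : ℝ) + c w y z) - 3 ≤ (c w x z : ℝ) + c w y t := by
    intro w x y z t hxy hxz hxt hyz hyt hzt
    have hplu : (p x z : M) * (p y t : M) =
        (p x y : M) * (p z t : M) + (p x t : M) * (p y z : M) := by
      have h1 := congrArg (fun a : 𝓞 M => (a : M)) (hp.plu x y z t)
      simp only [map_add, map_sub, map_mul, map_zero] at h1
      linear_combination -h1
    set mn := min ((c w x y : ℝ) + c w z t) ((c w x t : ℝ) + c w y z) with hmn
    have b1 : w (p x y : M) * w (p z t : M) ≤ Real.exp (-mn) := by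
      calc w (p x y : M) * w (p z t : M) ≤
            Real.exp (-(c w x y : ℝ)) * Real.exp (-(c w z t : ℝ)) :=
            mul_le_mul (hcle w x y hxy) (hcle w z t hzt) (apply_nonneg _ _) (Real.exp_pos _).le
        _ = Real.exp (-((c w x y : ℝ) + c w z t)) := by rw [← Real.exp_add]; ring_nf
        _ ≤ Real.exp (-mn) := Real.exp_le_exp.mpr (neg_le_neg (min_le_left _ _))
    have b2 : w (p x t : M) * w (p y z : M) ≤ Real.exp (-mn) := by
      calc w (p x t : M) * w (p y z : M) ≤
            Real.exp (-(c w x t : ℝ)) * Real.exp (-(c w y z : ℝ)) :=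
            mul_le_mul (hcle w x t hxt) (hcle w y z hyz) (apply_nonneg _ _) (Real.exp_pos _).le
        _ = Real.exp (-((c w x t : ℝ) + c w y z)) := by rw [← Real.exp_add]; ring_nf
        _ ≤ Real.exp (-mn) := Real.exp_le_exp.mpr (neg_le_neg (min_le_right _ _))
    have b3 : w (p x z : M) * w (p y t : M) ≤ 2 * Real.exp (-mn) := by
      rw [← map_mul, hplu]
      refine (abs_add_le' w _ _).trans ?_
      rw [map_mul, map_mul]
      linarith
    have b4 : Real.exp (-((c w x z : ℝ) + c w y t + 2)) ≤ w (p x z : M) * w (p y t : M) := by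
      calc Real.exp (-((c w x z : ℝ) + c w y t + 2))
          = Real.exp (-(c w x z + 1 : ℝ)) * Real.exp (-(c w y t + 1 : ℝ)) := by
            rw [← Real.exp_add]; ring_nf
        _ ≤ _ := mul_le_mul (hclt w x z hxz) (hclt w y t hyt) (Real.exp_pos _).le
            (apply_nonneg _ _)
    have b5 : (2 : ℝ) ≤ Real.exp 1 := by
      have := Real.add_one_le_exp (1 : ℝ); linarith
    have b6 : Real.exp (-((c w x z : ℝ) + c w y t + 2)) ≤ Real.exp (1 - mn) := by
      refine (b4.trans b3).trans ?_
      rw [show (1 : ℝ) - mn = 1 + -mn by ring, Real.exp_add]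
      exact mul_le_mul_of_nonneg_right b5 (Real.exp_pos _).le
    have b7 := Real.exp_le_exp.mp b6
    linarith
  refine ⟨φ, hφinv, fun w x y hxy => ?_, fun w => ?_⟩
  · refine (hcle w x y hxy).trans (Real.exp_le_exp.mpr ?_)
    have := (hφopt w).1 x y hxy
    linarith
  · obtain ⟨hfeas, π, hπ, hπe⟩ := hφopt w
    have hπt := opt_tight hfeas π hπ hπe
    obtain ⟨σ, hσ⟩ := tight_transport f hodd hnef
      (fun x y => (c w x y : ℝ) - φ w x - φ w y)
      (fun x y => by simp only [hcs w x y]; ring)
      (fun x y hxy => by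
        have := hfeas x y hxy
        linarith)
      3 (by norm_num) π hπ (fun x => by have := hπt x; linarith)
      (by
        intro x y z t hxy hxz hxt hyz hyt hzt
        have h4 := hfour w x y z t hxy hxz hxt hyz hyt hzt
        have e : min ((c w x y : ℝ) - φ w x - φ w y + (c w z t - φ w z - φ w t))
            ((c w x t : ℝ) - φ w x - φ w t + (c w y z - φ w y - φ w z)) =
            min ((c w x y : ℝ) + c w z t) ((c w x t : ℝ) + c w y z) -
              (φ w x + φ w y + φ w z + φ w t) := by
          rw [← min_sub_sub_right]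
          congr 1 <;> ring
        rw [e]
        linarith)
    refine le_trans ?_ (le_nv w _ σ)
    push_cast
    rw [map_prod]
    have h5 : ∀ y ∈ (Finset.univ : Finset Y),
        Real.exp (-(φ w (f y) + φ w (f (σ y)) + (3 * Fintype.card X + 1))) ≤
        w (p (f y) (f (σ y)) : M) := by
      intro y _
      refine le_trans (Real.exp_le_exp.mpr ?_) (hclt w _ _ (hσ y).1.symm)
      have := (hσ y).2
      linarith
    refine le_trans (le_of_eq ?_) (Finset.prod_le_prod (fun y _ => (Real.exp_pos _).le) h5)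
    rw [← Real.exp_sum]
    congr 1
    rw [Finset.sum_neg_distrib, Finset.sum_add_distrib, Finset.sum_add_distrib,
      Equiv.sum_comp σ (fun y => φ w (f y)), Finset.sum_const, Finset.card_univ, nsmul_eq_mul]
    ring

end Pool.Lib18ea5f
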