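import Mathlib
import Pool.Agent.Lib18ea5f.ClassCount

set_option autoImplicit false
set_option linter.unusedSectionVars false

/-!
Minkowski's theorem with prescribed archimedean shape, and its invariant version.
-/

namespace Pool.Lib18ea5f

open Finset NumberField MeasureTheory
open scoped nonZeroDivisors NNReal ENNReal

lemma minkowskiBound_eq (M : Type*) [Field M] [NumberField M]
    (I : (FractionalIdeal (𝓞 M)⁰ M)ˣ) :
    mixedEmbedding.minkowskiBound M I =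
      ENNReal.ofReal (FractionalIdeal.absNorm I.1 : ℚ) * mixedEmbedding.minkowskiBound M 1 := by
  classical
  unfold mixedEmbedding.minkowskiBound
  rw [mixedEmbedding.volume_fundamentalDomain_fractionalIdealLatticeBasis,
    mixedEmbedding.volume_fundamentalDomain_fractionalIdealLatticeBasis]
  rw [Units.val_one, FractionalIdeal.absNorm_one]
  simp only [Rat.cast_one, ENNReal.ofReal_one, one_mul]
  ring

theorem mink (M : Type*) [Field M] [NumberField M] : ∃ C : ℝ, 0 < C ∧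
    ∀ b : Ideal (𝓞 M), b ≠ ⊥ → ∀ φ : InfinitePlace M → ℝ, ∃ z ∈ b, z ≠ 0 ∧ ∃ S : ℝ, 0 < S ∧
      (∀ w : InfinitePlace M, w (z : M) ≤ S * Real.exp (φ w)) ∧
      S ^ Module.finrank ℚ M * ∏ w : InfinitePlace M, Real.exp (φ w) ^ w.mult ≤
        C * (Ideal.absNorm b : ℝ) := by
  classical
  set κ : ℝ := (mixedEmbedding.minkowskiBound M 1).toReal with hκ
  have hκ0 : 0 < κ := ENNReal.toReal_pos (mixedEmbedding.minkowskiBound_pos M 1).ne'
    (mixedEmbedding.minkowskiBound_lt_top M 1).ne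
  refine ⟨2 * κ, by positivity, fun b hb φ => ?_⟩
  set d := Module.finrank ℚ M with hd
  have hd0 : d ≠ 0 := Module.finrank_pos.ne'
  set E := ∏ w : InfinitePlace M, Real.exp (φ w) ^ w.mult with hE
  have hE0 : 0 < E := Finset.prod_pos fun w _ => pow_pos (Real.exp_pos _) _
  have hN0 : 0 < (Ideal.absNorm b : ℝ) := absNorm_pos hb
  set P := 2 * κ * (Ideal.absNorm b : ℝ) with hP
  have hP0 : 0 < P := by positivity
  set S := (P / E) ^ ((d : ℝ)⁻¹) with hS
  have hS0 : 0 < S := Real.rpow_pos_of_pos (by positivity) _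
  have hSd : S ^ d = P / E := Real.rpow_inv_natCast_pow (by positivity) hd0
  let I : (FractionalIdeal (𝓞 M)⁰ M)ˣ := Units.mk0 (b : FractionalIdeal (𝓞 M)⁰ M)
    (FractionalIdeal.coeIdeal_ne_zero.mpr hb)
  let f : InfinitePlace M → ℝ≥0 := fun w => ⟨S * Real.exp (φ w), by positivity⟩
  have hprod : ((∏ w, (f w) ^ (InfinitePlace.mult w) : ℝ≥0) : ℝ) = P := by
    push_cast
    have : ∀ w : InfinitePlace M, ((f w : ℝ≥0) : ℝ) = S * Real.exp (φ w) := fun w => rfl
    simp_rw [this, mul_pow]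
    rw [Finset.prod_mul_distrib, prod_const_mult, ← hd, hSd, ← hE]
    field_simp
  have hvol : mixedEmbedding.minkowskiBound M I <
      volume (mixedEmbedding.convexBodyLT M f) := by
    rw [mixedEmbedding.convexBodyLT_volume, minkowskiBound_eq]
    have e1 : FractionalIdeal.absNorm I.1 = (Ideal.absNorm b : ℚ) :=
      FractionalIdeal.coeIdeal_absNorm b
    rw [e1]
    have e2 : mixedEmbedding.minkowskiBound M 1 = ENNReal.ofReal κ :=
      (ENNReal.ofReal_toReal (mixedEmbedding.minkowskiBound_lt_top M 1).ne).symm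
    rw [e2, ← ENNReal.ofReal_mul (by positivity)]
    have e3 : ENNReal.ofReal ((((Ideal.absNorm b : ℕ) : ℚ) : ℝ) * κ) <
        ((∏ w, (f w) ^ (InfinitePlace.mult w) : ℝ≥0) : ℝ≥0∞) := by
      rw [← ENNReal.ofReal_coe_nnreal, hprod]
      apply (ENNReal.ofReal_lt_ofReal_iff hP0).mpr
      rw [hP]
      push_cast
      have := mul_pos hN0 hκ0
      nlinarith
    refine lt_of_lt_of_le e3 ?_
    have e4 : (1 : ℝ≥0∞) ≤ (mixedEmbedding.convexBodyLTFactor M : ℝ≥0∞) := by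
      exact_mod_cast mixedEmbedding.one_le_convexBodyLTFactor M
    calc ((∏ w, (f w) ^ (InfinitePlace.mult w) : ℝ≥0) : ℝ≥0∞)
        = 1 * ((∏ w, (f w) ^ (InfinitePlace.mult w) : ℝ≥0) : ℝ≥0∞) := by rw [one_mul]
      _ ≤ _ := by gcongr
  obtain ⟨a, ha, ha0, haw⟩ := mixedEmbedding.exists_ne_zero_mem_ideal_lt M I hvol
  have ha' : a ∈ (b : FractionalIdeal (𝓞 M)⁰ M) := ha
  rw [FractionalIdeal.mem_coeIdeal] at ha'
  obtain ⟨z, hz, rfl⟩ := ha'
  refine ⟨z, hz, fun h => ha0 (by rw [h, map_zero]), S, hS0, fun w => (haw w).le, ?_⟩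
  rw [hSd, div_mul_cancel₀ _ hE0.ne']

open scoped Pointwise in
/-- Invariant version. -/
theorem mink_inv (K M : Type*) [Field K] [Field M] [NumberField M] [Algebra K M]
    [Finite (M ≃ₐ[K] M)] : ∃ C : ℝ, 0 < C ∧
    ∀ (H : Subgroup (M ≃ₐ[K] M)) (b : Ideal (𝓞 M)), b ≠ ⊥ → (∀ h ∈ H, h • b = b) →
      ∀ φ : InfinitePlace M → ℝ, (∀ h ∈ H, ∀ w : InfinitePlace M, φ (h • w) = φ w) →
      ∃ z ∈ b, z ≠ 0 ∧ (∀ h ∈ H, h • z = z) ∧ ∃ S : ℝ, 0 < S ∧
      (∀ w : InfinitePlace M, w (z : M) ≤ S * Real.exp (φ w)) ∧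
      S ^ Module.finrank ℚ M * ∏ w : InfinitePlace M, Real.exp (φ w) ^ w.mult ≤
        C * (Ideal.absNorm b : ℝ) := by
  classical
  have : Fintype (M ≃ₐ[K] M) := Fintype.ofFinite _
  obtain ⟨C0, hC0, hmink⟩ := mink M
  let c := RingOfIntegers.basis M
  obtain ⟨B, hB⟩ : ∃ B : ℝ, ∀ i, ∀ w : InfinitePlace M, w ((c i : 𝓞 M) : M) ≤ B := by
    obtain ⟨B, hB⟩ := (Set.finite_range
      (fun q : Module.Free.ChooseBasisIndex ℤ (𝓞 M) × InfinitePlace M =>
        q.2 ((c q.1 : 𝓞 M) : M))).bddAbove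
    exact ⟨B, fun i w => hB ⟨(i, w), rfl⟩⟩
  set B1 := max B 1 with hB1
  have hB1pos : 0 < B1 := lt_of_lt_of_le one_pos (le_max_right _ _)
  set g := (Fintype.card (M ≃ₐ[K] M) : ℝ) with hg
  have hg0 : 0 < g := by rw [hg]; exact_mod_cast Fintype.card_pos
  refine ⟨C0 * (g * B1) ^ Module.finrank ℚ M, by positivity, fun H b hb hbH φ hφ => ?_⟩
  obtain ⟨z0, hz0b, hz0, S0, hS0, hwS, hprod⟩ := hmink b hb φ
  -- the trace
  let T : 𝓞 M →+ 𝓞 M := ∑ h : H, DistribSMul.toAddMonoidHom (𝓞 M) (h : M ≃ₐ[K] M)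
  have hT : ∀ y, T y = ∑ h : H, (h : M ≃ₐ[K] M) • y := by
    intro y
    simp only [T, AddMonoidHom.finsetSum_apply, DistribSMul.toAddMonoidHom_apply]
  have hex : ∃ i, T (c i * z0) ≠ 0 := by
    by_contra hcon
    push Not at hcon
    have hall : ∀ r : 𝓞 M, T (r * z0) = 0 := by
      intro r
      rw [← c.sum_repr r, Finset.sum_mul, map_sum]
      refine Finset.sum_eq_zero fun i _ => ?_
      rw [smul_mul_assoc, map_zsmul, hcon i, smul_zero]
    have h1 : ((Ideal.absNorm (Ideal.span {z0}) : ℕ) : 𝓞 M) ∈ Ideal.span {z0} :=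
      Ideal.absNorm_mem _
    obtain ⟨r, hr⟩ := Ideal.mem_span_singleton'.mp h1
    have h2 := hall r
    rw [hr, hT] at h2
    have h3 : ∀ h : H, (h : M ≃ₐ[K] M) • ((Ideal.absNorm (Ideal.span {z0}) : ℕ) : 𝓞 M) =
        ((Ideal.absNorm (Ideal.span {z0}) : ℕ) : 𝓞 M) := by
      intro h
      exact map_natCast (MulSemiringAction.toRingHom (M ≃ₐ[K] M) (𝓞 M) (h : M ≃ₐ[K] M)) _
    simp_rw [h3] at h2
    rw [Finset.sum_const, Finset.card_univ, nsmul_eq_mul] at h2
    have h4 : ((Fintype.card H : ℕ) : 𝓞 M) ≠ 0 := by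
      have : Fintype.card H ≠ 0 := Fintype.card_ne_zero
      exact_mod_cast this
    have h5 : ((Ideal.absNorm (Ideal.span {z0}) : ℕ) : 𝓞 M) ≠ 0 := by
      have h6 : Ideal.absNorm (Ideal.span {z0}) ≠ 0 := by
        rw [Ne, Ideal.absNorm_eq_zero_iff, Ideal.span_singleton_eq_bot]
        exact hz0
      exact_mod_cast h6
    exact (mul_ne_zero h4 h5) h2
  obtain ⟨i, hi⟩ := hex
  have hcz : c i * z0 ∈ b := Ideal.mul_mem_left _ _ hz0b
  refine ⟨T (c i * z0), ?_, hi, ?_, g * B1 * S0, by positivity, fun w => ?_, ?_⟩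
  · rw [hT]
    refine Ideal.sum_mem _ fun h _ => ?_
    have h1 := Ideal.smul_mem_pointwise_smul (h : M ≃ₐ[K] M) (c i * z0) b hcz
    rwa [hbH h.1 h.2] at h1
  · intro h hh
    rw [hT, Finset.smul_sum]
    have := Equiv.sum_comp (Equiv.mulLeft (⟨h, hh⟩ : H))
      (fun k : H => (k : M ≃ₐ[K] M) • (c i * z0))
    rw [← this]
    refine Finset.sum_congr rfl fun k _ => ?_
    rw [smul_smul]
    rfl
  · have h1 : ((T (c i * z0) : 𝓞 M) : M) = ∑ h : H, (h : M ≃ₐ[K] M) ((c i * z0 : 𝓞 M) : M) := by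
      rw [hT]
      change algebraMap (𝓞 M) M (∑ h : H, (h : M ≃ₐ[K] M) • (c i * z0)) = _
      rw [map_sum]
      rfl
    have h2 : ∀ h : H, w ((h : M ≃ₐ[K] M) ((c i * z0 : 𝓞 M) : M)) ≤
        B1 * (S0 * Real.exp (φ w)) := by
      intro h
      have e : w ((h : M ≃ₐ[K] M) ((c i * z0 : 𝓞 M) : M)) =
          ((h⁻¹ : M ≃ₐ[K] M) • w) ((c i * z0 : 𝓞 M) : M) := by
        rw [InfinitePlace.smul_apply]
        rfl
      rw [e]
      push_cast
      rw [map_mul]
      have h3 := hB i ((h⁻¹ : M ≃ₐ[K] M) • w)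
      have h4 := hwS ((h⁻¹ : M ≃ₐ[K] M) • w)
      rw [hφ _ (H.inv_mem h.2)] at h4
      exact mul_le_mul (h3.trans (le_max_left _ _)) h4 (apply_nonneg _ _) hB1pos.le
    rw [h1]
    have h5 : w (∑ h : H, (h : M ≃ₐ[K] M) ((c i * z0 : 𝓞 M) : M)) ≤
        ∑ h : H, w ((h : M ≃ₐ[K] M) ((c i * z0 : 𝓞 M) : M)) := by
      rw [← w.norm_embedding_eq, map_sum]
      refine (norm_sum_le _ _).trans (le_of_eq ?_)
      refine Finset.sum_congr rfl fun h _ => ?_
      rw [w.norm_embedding_eq]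
    refine h5.trans ((Finset.sum_le_sum fun h _ => h2 h).trans ?_)
    rw [Finset.sum_const, Finset.card_univ, nsmul_eq_mul]
    have h6 : (Fintype.card H : ℝ) ≤ g := by
      rw [hg]
      exact_mod_cast Fintype.card_le_of_injective _ (Subtype.val_injective (p := (· ∈ H)))
    have h7 : 0 < B1 * (S0 * Real.exp (φ w)) := by positivity
    calc (Fintype.card H : ℝ) * (B1 * (S0 * Real.exp (φ w))) ≤ g * (B1 * (S0 * Real.exp (φ w))) := by
          gcongr
      _ = g * B1 * S0 * Real.exp (φ w) := by ring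
  · rw [mul_pow]
    calc (g * B1) ^ Module.finrank ℚ M * S0 ^ Module.finrank ℚ M *
          ∏ w : InfinitePlace M, Real.exp (φ w) ^ w.mult
        = (g * B1) ^ Module.finrank ℚ M * (S0 ^ Module.finrank ℚ M *
          ∏ w : InfinitePlace M, Real.exp (φ w) ^ w.mult) := by ring
      _ ≤ (g * B1) ^ Module.finrank ℚ M * (C0 * (Ideal.absNorm b : ℝ)) := by gcongr
      _ = C0 * (g * B1) ^ Module.finrank ℚ M * (Ideal.absNorm b : ℝ) := by ring

end Pool.Lib18ea5f
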