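import Mathlib
import Pool.Agent.Lib18ea5f.ClassCount

set_option autoImplicit false

/-!
Uniform bound for the number of points on a smooth `(1,1)` curve.
-/

namespace Pool.Lib18ea5f

open Finset NumberField

variable {K : Type*} [Field K] [NumberField K]

lemma floor_logb_spec {y : ℝ} (hy : 1 ≤ y) :
    (2 : ℝ) ^ ⌊Real.logb 2 y⌋₊ ≤ y ∧ y ≤ 2 * 2 ^ ⌊Real.logb 2 y⌋₊ := by
  have h0 : 0 ≤ Real.logb 2 y := Real.logb_nonneg (by norm_num) hy
  have hy0 : 0 < y := by linarith
  constructor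
  · have h1 := Nat.floor_le h0
    calc (2 : ℝ) ^ ⌊Real.logb 2 y⌋₊ = (2 : ℝ) ^ ((⌊Real.logb 2 y⌋₊ : ℕ) : ℝ) := by
          rw [Real.rpow_natCast]
      _ ≤ (2 : ℝ) ^ (Real.logb 2 y) := Real.rpow_le_rpow_of_exponent_le (by norm_num) h1
      _ = y := Real.rpow_logb (by norm_num) (by norm_num) hy0
  · have h1 := (Nat.lt_floor_add_one (Real.logb 2 y)).le
    calc y = (2 : ℝ) ^ (Real.logb 2 y) := (Real.rpow_logb (by norm_num) (by norm_num) hy0).symm
      _ ≤ (2 : ℝ) ^ ((⌊Real.logb 2 y⌋₊ : ℝ) + 1) :=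
          Real.rpow_le_rpow_of_exponent_le (by norm_num) h1
      _ = 2 * 2 ^ ⌊Real.logb 2 y⌋₊ := by
          rw [Real.rpow_add (by norm_num), Real.rpow_natCast, Real.rpow_one]; ring

lemma log_pow_le (δ : ℝ) (hδ : 0 < δ) (n : ℕ) (c : ℝ) (hc : 1 ≤ c) :
    ∃ C : ℝ, 1 ≤ C ∧ ∀ x : ℝ, 1 ≤ x → (Real.logb 2 (c * x) + 2) ^ n ≤ C * x ^ δ := by
  have hlog2 : 0 < Real.log 2 := Real.log_pos (by norm_num)
  set δ' := δ / (n + 1) with hδ'
  have hn1 : (0 : ℝ) < n + 1 := by positivity
  have hδ'0 : 0 < δ' := by positivity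
  have hlc : 0 ≤ Real.logb 2 c := Real.logb_nonneg (by norm_num) hc
  set A := Real.logb 2 c + 2 + 1 / (δ' * Real.log 2) with hA
  have hA1 : 1 ≤ A := by
    have : 0 ≤ 1 / (δ' * Real.log 2) := by positivity
    linarith
  refine ⟨A ^ n, one_le_pow₀ hA1, fun x hx => ?_⟩
  have hx0 : 0 < x := by linarith
  have h1 : Real.logb 2 (c * x) = Real.logb 2 c + Real.logb 2 x :=
    Real.logb_mul (by positivity) hx0.ne'
  have h2 : Real.logb 2 x ≤ x ^ δ' * (1 / (δ' * Real.log 2)) := by
    have := Real.log_le_rpow_div hx0.le hδ'0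
    unfold Real.logb
    rw [div_le_iff₀ hlog2]
    calc Real.log x ≤ x ^ δ' / δ' := this
      _ = x ^ δ' * (1 / (δ' * Real.log 2)) * Real.log 2 := by field_simp
  have h3 : 1 ≤ x ^ δ' := Real.one_le_rpow hx hδ'0.le
  have h4 : Real.logb 2 (c * x) + 2 ≤ A * x ^ δ' := by
    rw [h1, hA]
    nlinarith
  have h5 : 0 ≤ Real.logb 2 (c * x) + 2 := by
    rw [h1]
    have := Real.logb_nonneg (b := 2) (by norm_num) hx
    linarith
  calc (Real.logb 2 (c * x) + 2) ^ n ≤ (A * x ^ δ') ^ n := pow_le_pow_left₀ h5 h4 n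
    _ = A ^ n * (x ^ δ') ^ n := mul_pow _ _ _
    _ ≤ A ^ n * x ^ δ := by
        gcongr
        rw [← Real.rpow_natCast, ← Real.rpow_mul hx0.le]
        apply Real.rpow_le_rpow_of_exponent_le hx
        rw [hδ', div_mul_eq_mul_div, div_le_iff₀ hn1]
        nlinarith

/-- Lower bound for each `ρ_v`. -/
lemma rho_lower {M : Fin 2 × Fin 2 → 𝓞 K} (hM : detM M ≠ 0) {x : Fin 2 → 𝓞 K} (hx : x ≠ 0)
    {X1 : ℝ} (hX1 : ht x ≤ X1) (v : InfinitePlace K) :
    1 ≤ 2 / rho M x v ∧ 2 / rho M x v ≤ 2 ^ (Module.finrank ℚ K + 1) * (ht M * X1) := by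
  classical
  have hρ := rho_pos hM hx v
  have hρ2 := rho_le_two (detM_ne_zero_M hM) hx v
  have hHM := one_le_ht M
  have hHx := one_le_ht x
  have hX1' : 1 ≤ X1 := hHx.trans hX1
  constructor
  · rw [le_div_iff₀ hρ]; linarith
  · set d := Module.finrank ℚ K with hd
    have h2d : (1 : ℝ) ≤ 2 ^ d := one_le_pow₀ (by norm_num)
    rcases le_or_gt 1 (rho M x v) with h1 | h1
    · calc 2 / rho M x v ≤ 2 / 1 := by gcongr
        _ ≤ 2 ^ (d + 1) * (ht M * X1) := by
            rw [pow_succ]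
            have : 1 ≤ ht M * X1 := by nlinarith
            nlinarith
    · -- product
      have hprod := prod_rho hM hx
      have hlow : 1 / (ht M * X1) ≤ ∏ w : InfinitePlace K, rho M x w ^ w.mult := by
        rw [hprod]
        have hg := one_le_absNorm (gI_ne_bot hM hx)
        have hy := one_le_ht (mulT M x)
        have hHM0 := ht_pos M
        have hHx0 := ht_pos x
        have : 1 ≤ (Ideal.absNorm (gI M x) : ℝ) * ht (mulT M x) := by nlinarith
        gcongr
      have hup : ∏ w : InfinitePlace K, rho M x w ^ w.mult ≤ rho M x v * 2 ^ d := by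
        rw [← Finset.mul_prod_erase _ _ (Finset.mem_univ v)]
        have e1 : rho M x v ^ v.mult ≤ rho M x v := by
          rcases mult_cases v with h | h
          · rw [h, pow_one]
          · rw [h, sq]; nlinarith
        have e2 : ∏ w ∈ Finset.univ.erase v, rho M x w ^ w.mult ≤ 2 ^ d := by
          calc ∏ w ∈ Finset.univ.erase v, rho M x w ^ w.mult
              ≤ ∏ w ∈ Finset.univ.erase v, (2 : ℝ) ^ w.mult :=
                Finset.prod_le_prod (fun w _ => pow_nonneg (rho_pos hM hx w).le _)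
                  (fun w _ => pow_le_pow_left₀ (rho_pos hM hx w).le
                    (rho_le_two (detM_ne_zero_M hM) hx w) _)
            _ ≤ ∏ w : InfinitePlace K, (2 : ℝ) ^ w.mult := by
                rw [← Finset.mul_prod_erase Finset.univ _ (Finset.mem_univ v)]
                have h1 : (1 : ℝ) ≤ 2 ^ v.mult := one_le_pow₀ (by norm_num)
                have h2 : 0 ≤ ∏ w ∈ Finset.univ.erase v, (2 : ℝ) ^ w.mult := by positivity
                nlinarith
            _ = 2 ^ d := by rw [prod_const_mult]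
        exact mul_le_mul e1 e2 (Finset.prod_nonneg fun w _ => pow_nonneg (rho_pos hM hx w).le _)
          hρ.le
      have h3 := hlow.trans hup
      have hHX : 0 < ht M * X1 := by positivity
      rw [div_le_iff₀ hHX] at h3
      rw [div_le_iff₀ hρ, pow_succ]
      nlinarith

lemma absNorm_quotient_le {M : Fin 2 × Fin 2 → 𝓞 K} (hM : detM M ≠ 0) {D : Ideal (𝓞 K)}
    (hD : Ideal.span {detM M} = cI M * cI M * D) :
    (Ideal.absNorm D : ℝ) ≤ 2 ^ (Module.finrank ℚ K) * (ht M) ^ 2 := by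
  have hM0 := detM_ne_zero_M hM
  have hc := absNorm_pos (cI_ne_bot hM0)
  have h1 : (Ideal.absNorm (Ideal.span {detM M}) : ℝ) =
      Ideal.absNorm (cI M) * Ideal.absNorm (cI M) * Ideal.absNorm D := by
    rw [hD]; simp [map_mul]
  rw [← prod_inf_eq_absNorm] at h1
  have h2 : ∏ v : InfinitePlace K, (v (detM M : K)) ^ v.mult ≤
      2 ^ (Module.finrank ℚ K) * (infN M) ^ 2 := by
    have e : 2 ^ (Module.finrank ℚ K) * (infN M) ^ 2 =
        ∏ v : InfinitePlace K, (2 * (nv v M) ^ 2) ^ v.mult := by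
      simp_rw [mul_pow]
      rw [Finset.prod_mul_distrib, prod_const_mult]
      unfold infN
      rw [← Finset.prod_pow]
      congr 1
      refine Finset.prod_congr rfl fun v _ => ?_
      rw [← pow_mul, ← pow_mul, mul_comm]
    rw [e]
    refine Finset.prod_le_prod (fun v _ => by positivity) fun v _ => ?_
    refine pow_le_pow_left₀ (apply_nonneg _ _) ?_ _
    have hdet : ((detM M : 𝓞 K) : K) =
        (M (0, 0) : K) * (M (1, 1) : K) - (M (0, 1) : K) * (M (1, 0) : K) := by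
      simp [detM]
    rw [hdet]
    refine (abs_sub_le' v _ _).trans ?_
    rw [map_mul, map_mul]
    have a1 := mul_le_mul (le_nv v M (0, 0)) (le_nv v M (1, 1)) (apply_nonneg _ _) (nv_nonneg v M)
    have a2 := mul_le_mul (le_nv v M (0, 1)) (le_nv v M (1, 0)) (apply_nonneg _ _) (nv_nonneg v M)
    nlinarith
  rw [h1, ← ht_mul_absNorm hM0] at h2
  have h3 : (Ideal.absNorm (cI M) : ℝ) * Ideal.absNorm (cI M) * Ideal.absNorm D ≤
      (Ideal.absNorm (cI M) : ℝ) * Ideal.absNorm (cI M) *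
        (2 ^ (Module.finrank ℚ K) * (ht M) ^ 2) := by
    refine h2.trans (le_of_eq ?_); ring
  exact le_of_mul_le_mul_left h3 (by positivity)

/-- Uniform count on `(1,1)`-curves. -/
theorem curve_count (K : Type*) [Field K] [NumberField K] (α : Type*) (ε : ℝ) (hε : 0 < ε) :
    ∃ C : ℝ, 1 ≤ C ∧ ∀ (M : Fin 2 × Fin 2 → 𝓞 K), detM M ≠ 0 →
      ∀ (S : Finset α) (x : α → Fin 2 → 𝓞 K), (∀ a, x a ≠ 0) →
      (∀ a ∈ S, ∀ b ∈ S, a ≠ b → det2 (x a) (x b) ≠ 0) →
      ∀ X1 X2 : ℝ, 1 ≤ X1 → 1 ≤ X2 →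
      (∀ a ∈ S, ht (x a) ≤ X1 ∧ ht (mulT M (x a)) ≤ X2) →
      (S.card : ℝ) ≤ C * (ht M * X1) ^ ε * (1 + X1 * X2 / ht M) := by
  classical
  set d := Module.finrank ℚ K with hd
  set r := Fintype.card (InfinitePlace K) with hr
  obtain ⟨C1, hC1, hdiv⟩ := ideal_divisor_bound K (ε / 4) (by positivity)
  obtain ⟨C2, hC2, hlogs⟩ := log_pow_le (ε / 2) (by positivity) (r + 1) (2 ^ (d + 1))
    (one_le_pow₀ (by norm_num))
  set C0 : ℝ := (C1 * (2 ^ d) ^ (ε / 4)) * 2 ^ r * C2 * (12 ^ d * 4 ^ (d + 1)) with hC0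
  have hC0pos : 0 < C0 := by positivity
  refine ⟨max 1 C0, le_max_left _ _, fun M hM S x hx hdet X1 X2 hX1 hX2 hS => ?_⟩
  have hM0 := detM_ne_zero_M hM
  have hHM := one_le_ht M
  have hHM0 := ht_pos M
  set B : ℝ := 12 ^ d * 4 ^ (d + 1) * (1 + X1 * X2 / ht M) with hB
  have hBpos : 0 < B := by positivity
  rcases S.eq_empty_or_nonempty with hSe | ⟨a0, ha0⟩
  · subst hSe
    simp only [Finset.card_empty, Nat.cast_zero]
    positivity
  -- the divisor
  have hdvd0 : cI M * cI M ∣ Ideal.span {detM M} := dvd_of_mul_right_dvd (gI_dvd (hx a0))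
  obtain ⟨D, hD⟩ := hdvd0
  have hcM : cI M ≠ 0 := by simpa using cI_ne_bot hM0
  have hcM2 : cI M * cI M ≠ 0 := mul_ne_zero hcM hcM
  have hD0 : D ≠ ⊥ := by
    intro h
    rw [h, Ideal.mul_bot, Ideal.span_singleton_eq_bot] at hD
    exact hM hD
  have hgD : ∀ a, gI M (x a) ∣ D := by
    intro a
    have := gI_dvd (M := M) (hx a)
    rw [hD] at this
    exact (mul_dvd_mul_iff_left hcM2).mp this
  obtain ⟨hfin, hcardD⟩ := hdiv D hD0
  set DF := hfin.toFinset with hDF
  have hDFcard : (DF.card : ℝ) ≤ C1 * (2 ^ d) ^ (ε / 4) * (ht M) ^ (ε / 2) := by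
    rw [hDF, ← Set.ncard_eq_toFinset_card _ hfin]
    refine hcardD.trans ?_
    rw [mul_assoc]
    gcongr
    calc (Ideal.absNorm D : ℝ) ^ (ε / 4) ≤ (2 ^ d * (ht M) ^ 2) ^ (ε / 4) :=
          Real.rpow_le_rpow (by positivity) (absNorm_quotient_le hM hD) (by positivity)
      _ = (2 ^ d) ^ (ε / 4) * (ht M) ^ (ε / 2) := by
          rw [Real.mul_rpow (by positivity) (by positivity)]
          congr 1
          rw [← Real.rpow_natCast, ← Real.rpow_mul hHM0.le]
          congr 1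
          push_cast; ring
  -- chart
  choose s hs using fun (a : α) (v : InfinitePlace K) => exists_nv_eq v (x a)
  set hh : α → ℕ := fun a => ⌊Real.logb 2 (ht (x a))⌋₊ with hhh
  set kk : α → InfinitePlace K → ℕ := fun a v => ⌊Real.logb 2 (2 / rho M (x a) v)⌋₊ with hkk
  set Lh : ℕ := ⌊Real.logb 2 X1⌋₊ with hLh
  set Y : ℝ := 2 ^ (d + 1) * (ht M * X1) with hY
  set Lk : ℕ := ⌊Real.logb 2 Y⌋₊ with hLk
  have hHX1 : 1 ≤ ht M * X1 := by nlinarith
  have h2d1 : (1 : ℝ) ≤ 2 ^ (d + 1) := one_le_pow₀ (by norm_num)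
  have hY1 : 1 ≤ Y := by rw [hY]; nlinarith
  let key : α → Ideal (𝓞 K) × (InfinitePlace K → Fin 2) × ℕ × (InfinitePlace K → ℕ) :=
    fun a => (gI M (x a), s a, hh a, kk a)
  let T : Finset (Ideal (𝓞 K) × (InfinitePlace K → Fin 2) × ℕ × (InfinitePlace K → ℕ)) :=
    DF ×ˢ (Finset.univ ×ˢ (Finset.range (Lh + 1) ×ˢ
      Fintype.piFinset (fun _ => Finset.range (Lk + 1))))
  have hmaps : ∀ a ∈ S, key a ∈ T := by
    intro a ha
    simp only [key, T, Finset.mem_product, Finset.mem_univ, true_and, Finset.mem_range,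
      Fintype.mem_piFinset]
    refine ⟨?_, ?_, ?_⟩
    · rw [hDF, Set.Finite.mem_toFinset]; exact hgD a
    · rw [hhh, hLh]
      exact Nat.lt_succ_of_le (Nat.floor_mono
        (Real.logb_le_logb_of_le (by norm_num) (ht_pos _) (hS a ha).1))
    · intro v
      rw [hkk, hLk]
      refine Nat.lt_succ_of_le (Nat.floor_mono
        (Real.logb_le_logb_of_le (by norm_num) ?_ (rho_lower hM (hx a) (hS a ha).1 v).2))
      have := rho_pos hM (hx a) v
      positivity
  have hcardS := Finset.card_eq_sum_card_fiberwise (f := key) (s := S) (t := T) hmaps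
  have hfib : ∀ b ∈ T, (((S.filter fun a => key a = b).card : ℕ) : ℝ) ≤ B := by
    rintro ⟨g, s', h', k'⟩ hb
    simp only [T, Finset.mem_product, Finset.mem_univ, true_and, Finset.mem_range,
      Fintype.mem_piFinset] at hb
    have hcl := class_count M hM (S.filter fun a => key a = (g, s', h', k')) x hx
      (fun a ha b hb hab => hdet a (Finset.mem_filter.mp ha).1 b (Finset.mem_filter.mp hb).1 hab)
      X2 (by linarith) (fun a ha => (hS a (Finset.mem_filter.mp ha).1).2)
      g (fun a ha => congrArg Prod.fst (Finset.mem_filter.mp ha).2)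
      s' (fun a ha v => by
        have h1 := (Finset.mem_filter.mp ha).2
        simp only [key, Prod.mk.injEq] at h1
        rw [← h1.2.1]; exact hs a v)
      (2 ^ h') (by positivity)
      (fun a ha => by
        have h1 := (Finset.mem_filter.mp ha).2
        simp only [key, Prod.mk.injEq] at h1
        rw [← h1.2.2.1]
        exact floor_logb_spec (one_le_ht (x a)))
      (fun v => 1 / 2 ^ (k' v)) (fun v => by positivity)
      (fun a ha v => by
        have h1 := (Finset.mem_filter.mp ha).2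
        simp only [key, Prod.mk.injEq] at h1
        have h2 := congrFun h1.2.2.2 v
        rw [← h2]
        have hsp := floor_logb_spec (rho_lower hM (hx a) (hS a (Finset.mem_filter.mp ha).1).1 v).1
        have hρ := rho_pos hM (hx a) v
        simp only [hkk]
        set q : ℝ := 2 ^ ⌊Real.logb 2 (2 / rho M (x a) v)⌋₊ with hq
        have hqpos : 0 < q := by positivity
        have e1 := hsp.1
        have e2 := hsp.2
        rw [le_div_iff₀ hρ] at e1
        rw [div_le_iff₀ hρ] at e2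
        constructor
        · rw [div_le_iff₀ hqpos]; linarith
        · rw [mul_one_div, le_div_iff₀ hqpos]; linarith)
    refine hcl.trans ?_
    rw [hB, mul_assoc]
    gcongr
    have hh' : (2 : ℝ) ^ h' ≤ X1 := by
      calc (2 : ℝ) ^ h' ≤ 2 ^ Lh := pow_le_pow_right₀ (by norm_num) (Nat.lt_succ_iff.mp hb.2.1)
        _ ≤ X1 := (floor_logb_spec hX1).1
    have h4 : (1 : ℝ) ≤ 4 ^ (d + 1) := one_le_pow₀ (by norm_num)
    have h5 : X2 * 2 ^ h' / ht M ≤ X1 * X2 / ht M := by
      have : X2 * 2 ^ h' ≤ X1 * X2 := by nlinarith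
      gcongr
    have h6 : 0 ≤ X1 * X2 / ht M := by positivity
    nlinarith
  have hTcard : (T.card : ℝ) ≤ (C1 * (2 ^ d) ^ (ε / 4) * (ht M) ^ (ε / 2)) *
      (2 ^ r * (C2 * (ht M * X1) ^ (ε / 2))) := by
    simp only [T, Finset.card_product, Fintype.card_piFinset, Finset.card_range,
      Finset.prod_const, Finset.card_univ, Fintype.card_fun, Fintype.card_fin]
    push_cast
    rw [← hr]
    refine mul_le_mul hDFcard ?_ (by positivity) (by positivity)
    refine mul_le_mul_of_nonneg_left ?_ (by positivity)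
    have hLh' : (Lh : ℝ) + 1 ≤ Real.logb 2 Y + 2 := by
      have h1 : (Lh : ℝ) ≤ Real.logb 2 X1 := Nat.floor_le (Real.logb_nonneg (by norm_num) hX1)
      have h2 : Real.logb 2 X1 ≤ Real.logb 2 Y := by
        apply Real.logb_le_logb_of_le (by norm_num) (by linarith)
        rw [hY]
        nlinarith
      linarith
    have hLk' : (Lk : ℝ) + 1 ≤ Real.logb 2 Y + 2 := by
      have h1 : (Lk : ℝ) ≤ Real.logb 2 Y := Nat.floor_le (Real.logb_nonneg (by norm_num) hY1)
      linarith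
    have hlog := hlogs (ht M * X1) hHX1
    rw [← hY] at hlog
    refine le_trans ?_ hlog
    rw [pow_succ, mul_comm]
    have hpos : 0 ≤ Real.logb 2 Y + 2 := by
      have := Real.logb_nonneg (b := 2) (by norm_num) hY1
      linarith
    exact mul_le_mul (pow_le_pow_left₀ (by positivity) hLk' r) hLh' (by positivity)
      (pow_nonneg hpos r)
  calc (S.card : ℝ) = ∑ b ∈ T, (((S.filter fun a => key a = b).card : ℕ) : ℝ) := by
        rw [hcardS]; push_cast; rfl
    _ ≤ ∑ b ∈ T, B := Finset.sum_le_sum hfib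
    _ = T.card * B := by rw [Finset.sum_const, nsmul_eq_mul]
    _ ≤ ((C1 * (2 ^ d) ^ (ε / 4) * (ht M) ^ (ε / 2)) *
      (2 ^ r * (C2 * (ht M * X1) ^ (ε / 2)))) * B := by gcongr
    _ ≤ C0 * (ht M * X1) ^ ε * (1 + X1 * X2 / ht M) := by
        have hsplit : (ht M * X1) ^ ε = (ht M * X1) ^ (ε / 2) * (ht M * X1) ^ (ε / 2) := by
          rw [← Real.rpow_add (by positivity)]; congr 1; ring
        have h1 : (ht M) ^ (ε / 2) ≤ (ht M * X1) ^ (ε / 2) :=
          Real.rpow_le_rpow hHM0.le (by nlinarith) (by positivity)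
        rw [hsplit, hB, hC0]
        calc ((C1 * (2 ^ d) ^ (ε / 4) * (ht M) ^ (ε / 2)) *
              (2 ^ r * (C2 * (ht M * X1) ^ (ε / 2)))) *
              (12 ^ d * 4 ^ (d + 1) * (1 + X1 * X2 / ht M))
            ≤ ((C1 * (2 ^ d) ^ (ε / 4) * (ht M * X1) ^ (ε / 2)) *
              (2 ^ r * (C2 * (ht M * X1) ^ (ε / 2)))) *
              (12 ^ d * 4 ^ (d + 1) * (1 + X1 * X2 / ht M)) := by gcongr
          _ = _ := by ring
    _ ≤ max 1 C0 * (ht M * X1) ^ ε * (1 + X1 * X2 / ht M) := by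
        gcongr
        exact le_max_right _ _

end Pool.Lib18ea5f
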