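import Mathlib
import Pool.Agent.Lib18ea5f.CurveCount

set_option autoImplicit false

/-!
Counting points on the projective line.
-/

namespace Pool.Lib18ea5f

open Finset NumberField

variable {K : Type*} [Field K] [NumberField K]

lemma det2_dvd (x y : Fin 2 → 𝓞 K) : cI x * cI y ∣ Ideal.span {det2 x y} := by
  rw [Ideal.dvd_iff_le, Ideal.span_singleton_le_iff_mem]
  exact Ideal.sub_mem _ (Ideal.mul_mem_mul (mem_cI _ _) (mem_cI _ _))
    (Ideal.mul_mem_mul (mem_cI _ _) (mem_cI _ _))

lemma local_dist_triv {x y : Fin 2 → 𝓞 K} (hx : x ≠ 0) (hy : y ≠ 0) (v : InfinitePlace K) :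
    v (det2 x y : K) / (nv v x * nv v y) ≤ 2 := by
  have hxv := nv_pos v hx
  have hyv := nv_pos v hy
  rw [div_le_iff₀ (by positivity)]
  have hdet : ((det2 x y : 𝓞 K) : K) = (x 0 : K) * (y 1 : K) - (x 1 : K) * (y 0 : K) := by
    simp [det2]
  rw [hdet]
  refine (abs_sub_le' v _ _).trans ?_
  rw [map_mul, map_mul]
  have a1 := mul_le_mul (le_nv v x 0) (le_nv v y 1) (apply_nonneg _ _) (nv_nonneg v x)
  have a2 := mul_le_mul (le_nv v x 1) (le_nv v y 0) (apply_nonneg _ _) (nv_nonneg v x)
  linarith

/-- Number of points of height at most `Z` on the projective line. -/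
theorem pline_count (K : Type*) [Field K] [NumberField K] (α : Type*) :
    ∃ C : ℝ, 1 ≤ C ∧ ∀ (S : Finset α) (x : α → Fin 2 → 𝓞 K), (∀ a, x a ≠ 0) →
      (∀ a ∈ S, ∀ b ∈ S, a ≠ b → det2 (x a) (x b) ≠ 0) →
      ∀ Z : ℝ, 1 ≤ Z → (∀ a ∈ S, ht (x a) ≤ Z) → (S.card : ℝ) ≤ C * Z ^ 2 := by
  classical
  set d := Module.finrank ℚ K with hd
  set r := Fintype.card (InfinitePlace K) with hr
  refine ⟨2 ^ r * (12 ^ d * (1 + 2 ^ d)), ?_, fun S x hx hdet Z hZ hS => ?_⟩
  · have h1 : (1 : ℝ) ≤ 2 ^ r := one_le_pow₀ (by norm_num)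
    have h2 : (1 : ℝ) ≤ 12 ^ d := one_le_pow₀ (by norm_num)
    have h3 : (1 : ℝ) ≤ 1 + 2 ^ d := by
      have : (0 : ℝ) < 2 ^ d := by positivity
      linarith
    have h4 : (1 : ℝ) ≤ 12 ^ d * (1 + 2 ^ d) := by nlinarith
    nlinarith
  choose s hs using fun (a : α) (v : InfinitePlace K) => exists_nv_eq v (x a)
  have hZ0 : 0 < Z := by linarith
  have hcardS := Finset.card_eq_sum_card_fiberwise (f := s) (s := S)
    (t := (Finset.univ : Finset (InfinitePlace K → Fin 2))) (fun _ _ => Finset.mem_univ _)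
  have hfib : ∀ b ∈ (Finset.univ : Finset (InfinitePlace K → Fin 2)),
      (((S.filter fun a => s a = b).card : ℕ) : ℝ) ≤ 12 ^ d * (1 + 2 ^ d) * Z ^ 2 := by
    intro b _
    have hcov := cover (α := α) (ι := InfinitePlace K) (fun v => v.mult) mult_cases inferInstance
      (S.filter fun a => s a = b) (fun a v => tc (x a) (b v) v) (fun v hv a => tc_im _ _ _ hv)
      (fun v => 2) (fun v => by norm_num)
      (fun a ha c hc v => by
        have h1 := (Finset.mem_filter.mp ha).2
        have h2 := (Finset.mem_filter.mp hc).2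
        rw [tc_sub_norm _ _ _ _ (hx a) (hx c) (by rw [← h1]; exact hs a v)
          (by rw [← h2]; exact hs c v)]
        exact local_dist_triv (hx a) (hx c) v)
      (1 / Z ^ 2) (by positivity)
      (fun a ha c hc hac => by
        have h1 := (Finset.mem_filter.mp ha).2
        have h2 := (Finset.mem_filter.mp hc).2
        have e1 : ∏ v : InfinitePlace K, ‖tc (x a) (b v) v - tc (x c) (b v) v‖ ^ v.mult =
            (∏ v : InfinitePlace K, (v (det2 (x a) (x c) : K)) ^ v.mult) /
              (infN (x a) * infN (x c)) := by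
          unfold infN
          rw [← Finset.prod_mul_distrib, ← Finset.prod_div_distrib]
          refine Finset.prod_congr rfl fun v _ => ?_
          rw [tc_sub_norm _ _ _ _ (hx a) (hx c) (by rw [← h1]; exact hs a v)
            (by rw [← h2]; exact hs c v), div_pow, mul_pow]
        rw [e1, prod_inf_eq_absNorm]
        have hd0 := hdet a (Finset.mem_filter.mp ha).1 c (Finset.mem_filter.mp hc).1 hac
        have h3 := absNorm_le_of_dvd (by simpa [Ideal.span_singleton_eq_bot] using hd0)
          (det2_dvd (x a) (x c))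
        have h3' : (Ideal.absNorm (cI (x a)) : ℝ) * Ideal.absNorm (cI (x c)) ≤
            Ideal.absNorm (Ideal.span {det2 (x a) (x c)}) := by simpa [map_mul] using h3
        have ca := absNorm_pos (cI_ne_bot (hx a))
        have cc := absNorm_pos (cI_ne_bot (hx c))
        have ia : infN (x a) = ht (x a) * (Ideal.absNorm (cI (x a)) : ℝ) :=
          (ht_mul_absNorm (hx a)).symm
        have ic : infN (x c) = ht (x c) * (Ideal.absNorm (cI (x c)) : ℝ) :=
          (ht_mul_absNorm (hx c)).symm
        have pa := ht_pos (x a)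
        have pc := ht_pos (x c)
        have hprod : ht (x a) * ht (x c) ≤ Z ^ 2 := by
          rw [sq]
          exact mul_le_mul (hS a (Finset.mem_filter.mp ha).1) (hS c (Finset.mem_filter.mp hc).1)
            pc.le (by positivity)
        calc 1 / Z ^ 2 ≤ 1 / (ht (x a) * ht (x c)) := by gcongr
          _ = ((Ideal.absNorm (cI (x a)) : ℝ) * Ideal.absNorm (cI (x c))) /
                (infN (x a) * infN (x c)) := by
              rw [ia, ic]; field_simp
          _ ≤ _ := by
              have : 0 < infN (x a) * infN (x c) := by rw [ia, ic]; positivity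
              gcongr)
    rw [InfinitePlace.sum_mult_eq, prod_const_mult] at hcov
    refine hcov.trans ?_
    rw [← hd, mul_assoc]
    gcongr
    rw [div_div_eq_mul_div, div_one]
    have : 1 ≤ Z ^ 2 := one_le_pow₀ hZ
    nlinarith
  calc (S.card : ℝ) = ∑ b ∈ (Finset.univ : Finset (InfinitePlace K → Fin 2)),
        (((S.filter fun a => s a = b).card : ℕ) : ℝ) := by
        rw [hcardS]; push_cast; rfl
    _ ≤ ∑ b ∈ (Finset.univ : Finset (InfinitePlace K → Fin 2)),
        12 ^ d * (1 + 2 ^ d) * Z ^ 2 := Finset.sum_le_sum hfib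
    _ = 2 ^ r * (12 ^ d * (1 + 2 ^ d)) * Z ^ 2 := by
        rw [Finset.sum_const, nsmul_eq_mul, Finset.card_univ, Fintype.card_fun, Fintype.card_fin]
        push_cast
        rw [← hr]; ring

end Pool.Lib18ea5f
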