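import Mathlib
import Pool.Agent.Lib18ea5f.PLine

set_option autoImplicit false

/-!
Points of the projective line and integral representatives.
-/

namespace Pool.Lib18ea5f

open Finset NumberField
open scoped LinearAlgebra.Projectivization

variable {K : Type*} [Field K] [NumberField K]

lemma exists_rep (P : ℙ K (Fin 2 → K)) :
    ∃ x : Fin 2 → 𝓞 K, x ≠ 0 ∧ ∃ c : K, c ≠ 0 ∧ (fun i => (x i : K)) = c • P.rep :=
  exists_int_rep P.rep_nonzero

/-- An integral representative. -/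
noncomputable def xr (P : ℙ K (Fin 2 → K)) : Fin 2 → 𝓞 K := (exists_rep P).choose

lemma xr_ne_zero (P : ℙ K (Fin 2 → K)) : xr P ≠ 0 := (exists_rep P).choose_spec.1

lemma xr_spec (P : ℙ K (Fin 2 → K)) :
    ∃ c : K, c ≠ 0 ∧ (fun i => (xr P i : K)) = c • P.rep := (exists_rep P).choose_spec.2

lemma mulHeight_eq_rep (P : ℙ K (Fin 2 → K)) : P.mulHeight = Height.mulHeight P.rep := by
  have h := Projectivization.mulHeight_mk (K := K) P.rep_nonzero
  rw [Projectivization.mk_rep] at h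
  exact h

lemma ht_xr (P : ℙ K (Fin 2 → K)) : ht (xr P) = P.mulHeight := by
  obtain ⟨c, hc, h⟩ := xr_spec P
  unfold ht
  rw [h, Height.mulHeight_smul_eq_mulHeight _ hc, mulHeight_eq_rep]

lemma eq_of_det2 {P Q : ℙ K (Fin 2 → K)} (h : det2 (xr P) (xr Q) = 0) : P = Q := by
  obtain ⟨c, hc, hP⟩ := xr_spec P
  obtain ⟨d, hd, hQ⟩ := xr_spec Q
  have hK : P.rep 0 * Q.rep 1 = P.rep 1 * Q.rep 0 := by
    have h1 : ((det2 (xr P) (xr Q) : 𝓞 K) : K) = 0 := by rw [h]; simp
    have h2 : ((det2 (xr P) (xr Q) : 𝓞 K) : K) =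
        (xr P 0 : K) * (xr Q 1 : K) - (xr P 1 : K) * (xr Q 0 : K) := by simp [det2]
    rw [h2] at h1
    have a0 := congrFun hP 0
    have a1 := congrFun hP 1
    have b0 := congrFun hQ 0
    have b1 := congrFun hQ 1
    simp only [Pi.smul_apply, smul_eq_mul] at a0 a1 b0 b1
    rw [a0, a1, b0, b1] at h1
    have h3 : (c * d) * (P.rep 0 * Q.rep 1 - P.rep 1 * Q.rep 0) = 0 := by linear_combination h1
    have h4 := (mul_eq_zero.mp h3).resolve_left (mul_ne_zero hc hd)
    linear_combination h4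
  rw [← P.mk_rep, ← Q.mk_rep]
  rw [Projectivization.mk_eq_mk_iff']
  obtain ⟨j, hj⟩ := Function.ne_iff.mp Q.rep_nonzero
  simp only [Pi.zero_apply] at hj
  refine ⟨P.rep j / Q.rep j, ?_⟩
  funext i
  simp only [Pi.smul_apply, smul_eq_mul]
  rw [div_mul_eq_mul_div, div_eq_iff hj]
  fin_cases i <;> fin_cases j <;> simp only [Fin.zero_eta, Fin.mk_one] at *
  · rw [hK]
  · rw [hK]

lemma det2_xr_ne {P Q : ℙ K (Fin 2 → K)} (h : P ≠ Q) : det2 (xr P) (xr Q) ≠ 0 :=
  fun h' => h (eq_of_det2 h')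

/-- rotation by a right angle. -/
def rot (m : Fin 2 → 𝓞 K) : Fin 2 → 𝓞 K := ![m 1, - m 0]

lemma rot_ne_zero {m : Fin 2 → 𝓞 K} (hm : m ≠ 0) : rot m ≠ 0 := by
  intro h
  apply hm
  have h0 := congrFun h 0
  have h1 := congrFun h 1
  simp [rot] at h0 h1
  funext i; fin_cases i <;> simp [h0, h1]

lemma cI_rot (m : Fin 2 → 𝓞 K) : cI (rot m) = cI m := by
  apply le_antisymm
  · unfold cI
    rw [Ideal.span_le]
    rintro _ ⟨i, rfl⟩
    fin_cases i
    · exact mem_cI m 1
    · exact Ideal.neg_mem_iff _ |>.mpr (mem_cI m 0)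
  · unfold cI
    rw [Ideal.span_le]
    rintro _ ⟨i, rfl⟩
    fin_cases i
    · have := mem_cI (rot m) 1
      have h2 : rot m 1 = - m 0 := rfl
      rw [h2] at this
      exact (Ideal.neg_mem_iff _).mp this
    · have := mem_cI (rot m) 0
      exact this

lemma nv_rot (v : InfinitePlace K) (m : Fin 2 → 𝓞 K) : nv v (rot m) = nv v m := by
  have hneg : v ((rot m 1 : 𝓞 K) : K) = v (m 0 : K) := by
    have : ((rot m 1 : 𝓞 K) : K) = - (m 0 : K) := by simp [rot]
    rw [this, ← v.norm_embedding_eq, ← v.norm_embedding_eq, map_neg, norm_neg]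
  have h0 : v ((rot m 0 : 𝓞 K) : K) = v (m 1 : K) := by simp [rot]
  apply le_antisymm
  · apply nv_le
    intro i
    fin_cases i
    · simp only [Fin.zero_eta]; rw [h0]; exact le_nv v m 1
    · simp only [Fin.mk_one]; rw [hneg]; exact le_nv v m 0
  · apply nv_le
    intro i
    fin_cases i
    · simp only [Fin.zero_eta]; rw [← hneg]; exact le_nv v (rot m) 1
    · simp only [Fin.mk_one]; rw [← h0]; exact le_nv v (rot m) 0

lemma ht_rot {m : Fin 2 → 𝓞 K} (hm : m ≠ 0) : ht (rot m) = ht m := by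
  rw [ht_eq (rot_ne_zero hm), ht_eq hm, cI_rot]
  congr 1
  unfold infN
  exact Finset.prod_congr rfl fun v _ => by rw [nv_rot]

/-- The height of the point orthogonal to `m`. -/
lemma ht_eq_of_orth {m y : Fin 2 → 𝓞 K} (hm : m ≠ 0) (hy : y ≠ 0)
    (h : m 0 * y 0 + m 1 * y 1 = 0) : ht y = ht m := by
  rw [← ht_rot hm]
  have hK : (m 0 : K) * (y 0 : K) + (m 1 : K) * (y 1 : K) = 0 := by
    have := congrArg (fun t : 𝓞 K => (t : K)) h
    simpa using this
  have hr := rot_ne_zero hm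
  -- find the proportionality constant
  obtain ⟨c, hc⟩ : ∃ c : K, (fun i => (y i : K)) = c • (fun i => (rot m i : K)) := by
    by_cases h1 : m 1 = 0
    · have h0 : (m 0 : K) ≠ 0 := by
        intro h0
        apply hm
        have h0' : m 0 = 0 := by exact_mod_cast h0
        funext i; fin_cases i <;> simp [h0', h1]
      refine ⟨- (y 1 : K) / (m 0 : K), ?_⟩
      have hy0 : (y 0 : K) = 0 := by
        rw [h1] at hK
        simp at hK
        rcases hK with hK | hK
        · exact absurd (by simpa using hK) h0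
        · simpa using hK
      funext i
      fin_cases i
      · simp [rot, h1]
        simpa using hy0
      · simp [rot]
        field_simp
    · have h1' : (m 1 : K) ≠ 0 := by
        intro h0; exact h1 (by exact_mod_cast h0)
      refine ⟨(y 0 : K) / (m 1 : K), ?_⟩
      funext i
      fin_cases i
      · simp [rot]
        field_simp
      · simp [rot]
        field_simp
        linear_combination hK
  have hc0 : c ≠ 0 := by
    rintro rfl
    apply coe_ne_zero hy
    rw [hc]; simp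
  unfold ht
  rw [hc, Height.mulHeight_smul_eq_mulHeight _ hc0]

lemma det2_eq_zero_of_orth {m y y' : Fin 2 → 𝓞 K} (hm : m ≠ 0)
    (h : m 0 * y 0 + m 1 * y 1 = 0) (h' : m 0 * y' 0 + m 1 * y' 1 = 0) : det2 y y' = 0 := by
  unfold det2
  by_contra hd
  apply hm
  have e0 : m 0 * (y 0 * y' 1 - y 1 * y' 0) = 0 := by linear_combination y' 1 * h - y 1 * h'
  have e1 : m 1 * (y 0 * y' 1 - y 1 * y' 0) = 0 := by linear_combination -y' 0 * h + y 0 * h'
  funext i
  fin_cases i
  · exact (mul_eq_zero.mp e0).resolve_right hd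
  · exact (mul_eq_zero.mp e1).resolve_right hd

/-- Sum of the reciprocals of the heights. -/
theorem recip_sum (K : Type*) [Field K] [NumberField K] (ε : ℝ) (hε : 0 < ε) :
    ∃ C : ℝ, 1 ≤ C ∧ ∀ (S : Finset (ℙ K (Fin 2 → K))) (Z : ℝ), 1 ≤ Z →
      (∀ P ∈ S, ht (xr P) ≤ Z) → ∑ P ∈ S, 1 / ht (xr P) ≤ C * (Z * Z ^ ε) := by
  classical
  obtain ⟨C1, hC1, hcount⟩ := pline_count K (ℙ K (Fin 2 → K))
  obtain ⟨C2, hC2, hlog⟩ := log_pow_le ε hε 1 1 le_rfl
  refine ⟨C1 * 4 * C2, by nlinarith, fun S Z hZ hS => ?_⟩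
  set L := ⌊Real.logb 2 Z⌋₊ with hL
  let f : ℙ K (Fin 2 → K) → ℕ := fun P => ⌊Real.logb 2 (ht (xr P))⌋₊
  have hmaps : ∀ P ∈ S, f P ∈ Finset.range (L + 1) := by
    intro P hP
    rw [Finset.mem_range]
    exact Nat.lt_succ_of_le (Nat.floor_mono
      (Real.logb_le_logb_of_le (by norm_num) (ht_pos _) (hS P hP)))
  rw [← Finset.sum_fiberwise_of_maps_to hmaps]
  have hfib : ∀ h ∈ Finset.range (L + 1),
      ∑ P ∈ S.filter (fun P => f P = h), 1 / ht (xr P) ≤ C1 * 4 * Z := by
    intro h hh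
    have hspec : ∀ P ∈ S.filter (fun P => f P = h),
        (2 : ℝ) ^ h ≤ ht (xr P) ∧ ht (xr P) ≤ 2 * 2 ^ h := by
      intro P hP
      have := (Finset.mem_filter.mp hP).2
      rw [← this]
      exact floor_logb_spec (one_le_ht _)
    have hc := hcount (S.filter (fun P => f P = h)) xr xr_ne_zero
      (fun a _ b _ hab => det2_xr_ne hab) (2 * 2 ^ h)
      (by have : (1 : ℝ) ≤ 2 ^ h := one_le_pow₀ (by norm_num)
          linarith) (fun P hP => (hspec P hP).2)
    have hhZ : (2 : ℝ) ^ h ≤ Z := by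
      calc (2 : ℝ) ^ h ≤ 2 ^ L :=
            pow_le_pow_right₀ (by norm_num) (Nat.lt_succ_iff.mp (Finset.mem_range.mp hh))
        _ ≤ Z := (floor_logb_spec hZ).1
    calc ∑ P ∈ S.filter (fun P => f P = h), 1 / ht (xr P)
        ≤ ∑ P ∈ S.filter (fun P => f P = h), 1 / 2 ^ h := by
          refine Finset.sum_le_sum fun P hP => ?_
          have := (hspec P hP).1
          gcongr
      _ = ((S.filter (fun P => f P = h)).card : ℝ) * (1 / 2 ^ h) := by
          rw [Finset.sum_const, nsmul_eq_mul]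
      _ ≤ (C1 * (2 * 2 ^ h) ^ 2) * (1 / 2 ^ h) := by gcongr
      _ = C1 * 4 * 2 ^ h := by field_simp; ring
      _ ≤ C1 * 4 * Z := by gcongr
  calc ∑ h ∈ Finset.range (L + 1), ∑ P ∈ S.filter (fun P => f P = h), 1 / ht (xr P)
      ≤ ∑ h ∈ Finset.range (L + 1), C1 * 4 * Z := Finset.sum_le_sum hfib
    _ = (L + 1) * (C1 * 4 * Z) := by
        rw [Finset.sum_const, nsmul_eq_mul, Finset.card_range]; push_cast; ring
    _ ≤ (C2 * Z ^ ε) * (C1 * 4 * Z) := by
        gcongr
        have h1 : (L : ℝ) ≤ Real.logb 2 Z := Nat.floor_le (Real.logb_nonneg (by norm_num) hZ)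
        have h2 := hlog Z hZ
        rw [pow_one, one_mul] at h2
        linarith
    _ = C1 * 4 * C2 * (Z * Z ^ ε) := by ring

end Pool.Lib18ea5f
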