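import Mathlib

set_option autoImplicit false

/-!
Lower bound for the height of the `(1,1)`-form `M(z,w)` obtained by contracting a
`2 × 2 × 2 × 2` tensor in two slots.
-/

namespace Pool.Lib18ea5f

open Finset

/-- `2 × 2` matrices as functions on pairs. -/
abbrev Sq (F : Type*) := Fin 2 × Fin 2 → F

def dt {F : Type*} [CommRing F] (u : Sq F) : F := u (0, 0) * u (1, 1) - u (0, 1) * u (1, 0)

/-- contraction of the tensor with a `2 × 2` matrix in the last two slots. -/
def con {F : Type*} [CommRing F] (B : Fin 2 → Fin 2 → Fin 2 → Fin 2 → F) :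
    Sq F →ₗ[F] Sq F where
  toFun v := fun p => ∑ k, ∑ l, B p.1 p.2 k l * v (k, l)
  map_add' u v := by
    funext p
    simp only [Fin.sum_univ_two, Pi.add_apply]
    ring
  map_smul' c v := by
    funext p
    simp only [Fin.sum_univ_two, Pi.smul_apply, smul_eq_mul, RingHom.id_apply]
    ring

def tens {F : Type*} [CommRing F] (z w : Fin 2 → F) : Sq F := fun p => z p.1 * w p.2

lemma rank_one {F : Type*} [Field F] {u : Sq F} (hu : u ≠ 0) (hd : dt u = 0) :
    ∃ z w : Fin 2 → F, z ≠ 0 ∧ w ≠ 0 ∧ u = tens z w := by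
  obtain ⟨⟨k0, l0⟩, h0⟩ := Function.ne_iff.mp hu
  simp only [Pi.zero_apply] at h0
  refine ⟨fun k => u (k, l0) / u (k0, l0), fun l => u (k0, l), ?_, ?_, ?_⟩
  · intro h
    have := congrFun h k0
    simp only [Pi.zero_apply] at this
    rw [div_self h0] at this
    exact one_ne_zero this
  · intro h
    exact h0 (congrFun h l0)
  · unfold dt at hd
    funext ⟨k, l⟩
    unfold tens
    simp only
    rw [div_mul_eq_mul_div, eq_div_iff h0]
    fin_cases k0 <;> fin_cases l0 <;> fin_cases k <;> fin_cases l <;>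
      simp only [Fin.zero_eta, Fin.mk_one] at * <;>
      first
        | ring1
        | linear_combination hd
        | linear_combination -hd

lemma tens_ne_zero {F : Type*} [Field F] {z w : Fin 2 → F} (hz : z ≠ 0) (hw : w ≠ 0) :
    tens z w ≠ 0 := by
  obtain ⟨k, hk⟩ := Function.ne_iff.mp hz
  obtain ⟨l, hl⟩ := Function.ne_iff.mp hw
  exact Function.ne_iff.mpr ⟨(k, l), mul_ne_zero hk hl⟩

lemma dt_tens {F : Type*} [CommRing F] (z w : Fin 2 → F) : dt (tens z w) = 0 := by
  unfold dt tens; ring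

/-- polarisation of the determinant -/
def bt {F : Type*} [CommRing F] (u v : Sq F) : F :=
  u (0, 0) * v (1, 1) + v (0, 0) * u (1, 1) - u (0, 1) * v (1, 0) - v (0, 1) * u (1, 0)

lemma dt_add_smul {F : Type*} [CommRing F] (u v : Sq F) (t : F) :
    dt (u + t • v) = dt u + t * bt u v + t ^ 2 * dt v := by
  unfold dt bt
  simp only [Pi.add_apply, Pi.smul_apply, smul_eq_mul]
  ring

section

variable {K : Type*} [Field K]


/-- Base change of the tensor to the algebraic closure. -/
noncomputable def bcT (B : Fin 2 → Fin 2 → Fin 2 → Fin 2 → K) :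
    Fin 2 → Fin 2 → Fin 2 → Fin 2 → AlgebraicClosure K :=
  fun i j k l => algebraMap K (AlgebraicClosure K) (B i j k l)

lemma con_bc (B : Fin 2 → Fin 2 → Fin 2 → Fin 2 → K) (v : Sq K) (p : Fin 2 × Fin 2) :
    con (bcT B) (fun q => algebraMap K (AlgebraicClosure K) (v q)) p =
      algebraMap K (AlgebraicClosure K) (con B v p) := by
  simp [con, bcT]

/-- No rank one matrix over the algebraic closure lies in the kernel. -/
def NoKer (B : Fin 2 → Fin 2 → Fin 2 → Fin 2 → K) : Prop :=
  ∀ z w : Fin 2 → AlgebraicClosure K, z ≠ 0 → w ≠ 0 → con (bcT B) (tens z w) ≠ 0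

lemma ker_no_rank_one {B : Fin 2 → Fin 2 → Fin 2 → Fin 2 → K} (hB : NoKer B)
    {u : Sq (AlgebraicClosure K)} (hu : con (bcT B) u = 0) (hd : dt u = 0) : u = 0 := by
  by_contra hne
  obtain ⟨z, w, hz, hw, rfl⟩ := rank_one hne hd
  exact hB z w hz hw hu

lemma ker_det_ne_zero {B : Fin 2 → Fin 2 → Fin 2 → Fin 2 → K} (hB : NoKer B)
    {κ : Sq K} (hκ : con B κ = 0) (hκ0 : κ ≠ 0) : dt κ ≠ 0 := by
  intro hd
  have h1 : (fun q => algebraMap K (AlgebraicClosure K) (κ q)) = 0 := by
    apply ker_no_rank_one hB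
    · funext p
      rw [con_bc, hκ]; simp
    · have := congrArg (algebraMap K (AlgebraicClosure K)) hd
      simpa [dt] using this
  apply hκ0
  funext q
  have := congrFun h1 q
  simpa using this

lemma ker_span {B : Fin 2 → Fin 2 → Fin 2 → Fin 2 → K} (hB : NoKer B)
    {κ : Sq K} (hκ : con B κ = 0) (hκ0 : κ ≠ 0) {p : Fin 2 × Fin 2} (hp : κ p ≠ 0)
    {v : Sq K} (hv : con B v = 0) : v = (v p / κ p) • κ := by
  have hdκ := ker_det_ne_zero hB hκ hκ0
  set φ := algebraMap K (AlgebraicClosure K) with hφ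
  set v' : Sq (AlgebraicClosure K) := fun q => φ (v q) with hv'
  set κ' : Sq (AlgebraicClosure K) := fun q => φ (κ q) with hκ'
  have hdκ' : dt κ' ≠ 0 := by
    have : dt κ' = φ (dt κ) := by simp [dt, hκ']
    rw [this]
    intro h
    exact hdκ ((map_eq_zero φ).mp h)
  -- root of the quadratic
  obtain ⟨t, ht⟩ : ∃ t : AlgebraicClosure K, dt (v' + t • κ') = 0 := by
    have hdeg : (Polynomial.C (dt κ') * Polynomial.X ^ 2 + Polynomial.C (bt v' κ') * Polynomial.X +
        Polynomial.C (dt v')).degree ≠ 0 := by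
      rw [Polynomial.degree_quadratic hdκ']
      norm_num
    obtain ⟨t, ht⟩ := IsAlgClosed.exists_root _ hdeg
    refine ⟨t, ?_⟩
    rw [dt_add_smul]
    simp only [Polynomial.IsRoot.def, Polynomial.eval_add, Polynomial.eval_mul,
      Polynomial.eval_C, Polynomial.eval_pow, Polynomial.eval_X] at ht
    linear_combination ht
  have hker : con (bcT B) (v' + t • κ') = 0 := by
    rw [map_add, map_smul]
    have h1 : con (bcT B) v' = 0 := by
      funext q; rw [hv', con_bc, hv]; simp
    have h2 : con (bcT B) κ' = 0 := by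
      funext q; rw [hκ', con_bc, hκ]; simp
    rw [h1, h2]; simp
  have hz := ker_no_rank_one hB hker ht
  have hzq : ∀ q, φ (v q) + t * φ (κ q) = 0 := by
    intro q
    have := congrFun hz q
    simpa [hv', hκ'] using this
  funext q
  have e1 := hzq p
  have e2 := hzq q
  have hφp : φ (κ p) ≠ 0 := by
    intro h; exact hp ((map_eq_zero φ).mp h)
  have : φ (v q * κ p) = φ (v p * κ q) := by
    rw [map_mul, map_mul]
    linear_combination φ (κ p) * e2 - φ (κ q) * e1
  have h3 : v q * κ p = v p * κ q := φ.injective this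
  simp only [Pi.smul_apply, smul_eq_mul]
  field_simp
  linear_combination h3

/-- Structure: a partial inverse of the contraction. -/
lemma exists_partial_inverse {B : Fin 2 → Fin 2 → Fin 2 → Fin 2 → K} (hB : NoKer B) :
    ∃ (L : Sq K →ₗ[K] Sq K) (l : Sq K →ₗ[K] K) (κ : Sq K),
      (∀ v, v = L (con B v) + l v • κ) ∧ (dt κ ≠ 0) := by
  by_cases hinj : ∀ v, con B v = 0 → v = 0
  · have hker : LinearMap.ker (con B) = ⊥ := by
      rw [LinearMap.ker_eq_bot']; exact hinj
    obtain ⟨L, hL⟩ := LinearMap.exists_leftInverse_of_injective (con B) hker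
    refine ⟨L, 0, fun p => if p.1 = p.2 then 1 else 0, fun v => ?_, ?_⟩
    · have := LinearMap.congr_fun hL v
      simp only [LinearMap.coe_comp, Function.comp_apply, LinearMap.id_coe, id_eq] at this
      simp [this]
    · simp [dt]
  · push Not at hinj
    obtain ⟨κ, hκ, hκ0⟩ := hinj
    obtain ⟨p, hp⟩ := Function.ne_iff.mp hκ0
    simp only [Pi.zero_apply] at hp
    let l : Sq K →ₗ[K] K := (κ p)⁻¹ • LinearMap.proj p
    have hl : ∀ v, l v = v p / κ p := by
      intro v; simp [l]; field_simp
    let J : Sq K →ₗ[K] (Sq K × K) := (con B).prod l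
    have hker : LinearMap.ker J = ⊥ := by
      rw [LinearMap.ker_eq_bot']
      intro v hv
      have h1 : con B v = 0 := congrArg Prod.fst hv
      have h2 : l v = 0 := congrArg Prod.snd hv
      have h3 := ker_span hB hκ hκ0 hp h1
      rw [hl] at h2
      rw [h3, h2, zero_smul]
    obtain ⟨L', hL'⟩ := LinearMap.exists_leftInverse_of_injective J hker
    have hLv : ∀ v, L' (con B v, l v) = v := fun v => by
      have := LinearMap.congr_fun hL' v
      simpa [J] using this
    have hκ1 : l κ = 1 := by rw [hl, div_self hp]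
    have hLκ : L' (0, 1) = κ := by
      have := hLv κ
      rwa [hκ, hκ1] at this
    refine ⟨L' ∘ₗ LinearMap.inl K _ _, l, κ, fun v => ?_, ker_det_ne_zero hB hκ hκ0⟩
    have h1 : (con B v, l v) = (con B v, (0 : K)) + l v • ((0 : Sq K), (1 : K)) := by
      simp
    have h2 := hLv v
    rw [h1, map_add, map_smul, hLκ] at h2
    simpa using h2.symm

end

end Pool.Lib18ea5f
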