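import Mathlib
import Pool.Agent.Lib18ea5f.Lower

set_option autoImplicit false

/-!
Consequences of smoothness for `2 × 2 × 2 × 2` tensors.
-/

namespace Pool.Lib18ea5f

open Finset

/-- The `(1,1,1,1)`-form. -/
def form {F : Type*} [CommRing F] (B : Fin 2 → Fin 2 → Fin 2 → Fin 2 → F)
    (x y z w : Fin 2 → F) : F :=
  ∑ i, ∑ j, ∑ k, ∑ l, B i j k l * (x i * y j * z k * w l)

/-- No common zero of all the partial derivatives. -/
def SmoothForm {F : Type*} [CommRing F] (B : Fin 2 → Fin 2 → Fin 2 → Fin 2 → F) : Prop :=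
  ∀ x y z w : Fin 2 → F, x ≠ 0 → y ≠ 0 → z ≠ 0 → w ≠ 0 →
    ∃ u : Fin 2 → F, form B u y z w ≠ 0 ∨ form B x u z w ≠ 0 ∨ form B x y u w ≠ 0 ∨
      form B x y z u ≠ 0

section perm

variable {F : Type*} [CommRing F]

/-- swap the two pairs of slots -/
def sw (B : Fin 2 → Fin 2 → Fin 2 → Fin 2 → F) : Fin 2 → Fin 2 → Fin 2 → Fin 2 → F :=
  fun i j k l => B k l i j

/-- swap slots 1 and 2 -/
def s12 (B : Fin 2 → Fin 2 → Fin 2 → Fin 2 → F) : Fin 2 → Fin 2 → Fin 2 → Fin 2 → F :=
  fun i j k l => B i k j l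

/-- cyclic rotation of slots 0, 1, 2 -/
def cy (B : Fin 2 → Fin 2 → Fin 2 → Fin 2 → F) : Fin 2 → Fin 2 → Fin 2 → Fin 2 → F :=
  fun i j k l => B k i j l

lemma form_sw (B : Fin 2 → Fin 2 → Fin 2 → Fin 2 → F) (x y z w : Fin 2 → F) :
    form (sw B) x y z w = form B z w x y := by
  simp only [form, sw, Fin.sum_univ_two]; ring

lemma form_s12 (B : Fin 2 → Fin 2 → Fin 2 → Fin 2 → F) (x y z w : Fin 2 → F) :
    form (s12 B) x y z w = form B x z y w := by
  simp only [form, s12, Fin.sum_univ_two]; ring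

lemma form_cy (B : Fin 2 → Fin 2 → Fin 2 → Fin 2 → F) (x y z w : Fin 2 → F) :
    form (cy B) x y z w = form B z x y w := by
  simp only [form, cy, Fin.sum_univ_two]; ring

lemma smooth_sw {B : Fin 2 → Fin 2 → Fin 2 → Fin 2 → F} (hB : SmoothForm B) :
    SmoothForm (sw B) := by
  intro x y z w hx hy hz hw
  obtain ⟨u, hu⟩ := hB z w x y hz hw hx hy
  refine ⟨u, ?_⟩
  simp only [form_sw]
  tauto

lemma smooth_s12 {B : Fin 2 → Fin 2 → Fin 2 → Fin 2 → F} (hB : SmoothForm B) :
    SmoothForm (s12 B) := by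
  intro x y z w hx hy hz hw
  obtain ⟨u, hu⟩ := hB x z y w hx hz hy hw
  refine ⟨u, ?_⟩
  simp only [form_s12]
  tauto

lemma smooth_cy {B : Fin 2 → Fin 2 → Fin 2 → Fin 2 → F} (hB : SmoothForm B) :
    SmoothForm (cy B) := by
  intro x y z w hx hy hz hw
  obtain ⟨u, hu⟩ := hB z x y w hz hx hy hw
  refine ⟨u, ?_⟩
  simp only [form_cy]
  tauto

lemma form_eq_con (B : Fin 2 → Fin 2 → Fin 2 → Fin 2 → F) (x y z w : Fin 2 → F) :
    form B x y z w = ∑ i, ∑ j, con B (tens z w) (i, j) * (x i * y j) := by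
  simp only [form, con, tens, Fin.sum_univ_two, LinearMap.coe_mk, AddHom.coe_mk]; ring

end perm

section closed

variable {F : Type*} [Field F] [IsAlgClosed F]

lemma exists_quad_zero (a b c : F) : ∃ x : Fin 2 → F, x ≠ 0 ∧
    a * x 0 ^ 2 + b * x 0 * x 1 + c * x 1 ^ 2 = 0 := by
  by_cases ha : a = 0
  · refine ⟨![1, 0], ?_, ?_⟩
    · intro h
      have := congrFun h 0
      simp at this
    · simp [ha]
  · have hdeg : (Polynomial.C a * Polynomial.X ^ 2 + Polynomial.C b * Polynomial.X +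
        Polynomial.C c).degree ≠ 0 := by
      rw [Polynomial.degree_quadratic ha]
      norm_num
    obtain ⟨t, ht⟩ := IsAlgClosed.exists_root _ hdeg
    refine ⟨![t, 1], ?_, ?_⟩
    · intro h
      have := congrFun h 1
      simp at this
    · simp only [Polynomial.IsRoot.def, Polynomial.eval_add, Polynomial.eval_mul,
        Polynomial.eval_C, Polynomial.eval_pow, Polynomial.eval_X] at ht
      simp only [Matrix.cons_val_zero, Matrix.cons_val_one]
      linear_combination ht

omit [IsAlgClosed F] in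
lemma exists_orth (a b : Fin 2 → F) (h : a 0 * b 1 - a 1 * b 0 = 0) :
    ∃ y : Fin 2 → F, y ≠ 0 ∧ a 0 * y 0 + a 1 * y 1 = 0 ∧ b 0 * y 0 + b 1 * y 1 = 0 := by
  by_cases ha : a = 0
  · by_cases hb : b = 0
    · refine ⟨![1, 0], ?_, ?_, ?_⟩
      · intro h
        have := congrFun h 0
        simp at this
      · simp [ha]
      · simp [hb]
    · refine ⟨![b 1, - b 0], ?_, ?_, ?_⟩
      · intro h'
        apply hb
        have h0 := congrFun h' 0
        have h1 := congrFun h' 1
        simp at h0 h1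
        funext i; fin_cases i <;> simp [h0, h1]
      · simp [ha]
      · simp; ring
  · refine ⟨![a 1, - a 0], ?_, ?_, ?_⟩
    · intro h'
      apply ha
      have h0 := congrFun h' 0
      have h1 := congrFun h' 1
      simp at h0 h1
      funext i; fin_cases i <;> simp [h0, h1]
    · simp; ring
    · simp; linear_combination -h

/-- Two bilinear forms on `P^1 × P^1` have a common zero. -/
lemma two_bilinear (P Q : Sq F) : ∃ x y : Fin 2 → F, x ≠ 0 ∧ y ≠ 0 ∧
    ∑ i, ∑ j, P (i, j) * (x i * y j) = 0 ∧ ∑ i, ∑ j, Q (i, j) * (x i * y j) = 0 := by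
  obtain ⟨x, hx, hq⟩ := exists_quad_zero
    (P (0,0) * Q (0,1) - P (0,1) * Q (0,0))
    (P (0,0) * Q (1,1) + P (1,0) * Q (0,1) - P (0,1) * Q (1,0) - P (1,1) * Q (0,0))
    (P (1,0) * Q (1,1) - P (1,1) * Q (1,0))
  obtain ⟨y, hy, h1, h2⟩ := exists_orth
    (fun j => P (0, j) * x 0 + P (1, j) * x 1) (fun j => Q (0, j) * x 0 + Q (1, j) * x 1)
    (by linear_combination hq)
  refine ⟨x, y, hx, hy, ?_, ?_⟩
  · simp only [Fin.sum_univ_two]; linear_combination h1
  · simp only [Fin.sum_univ_two]; linear_combination h2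

omit [IsAlgClosed F] in
/-- A linear form on `F^2` vanishing at `z ≠ 0` and at an independent vector vanishes. -/
lemma exists_indep (z : Fin 2 → F) (hz : z ≠ 0) : ∃ z' : Fin 2 → F,
    ∀ g : (Fin 2 → F) →ₗ[F] F, g z = 0 → g z' = 0 → ∀ u, g u = 0 := by
  have key : ∀ z' : Fin 2 → F, z 0 * z' 1 - z 1 * z' 0 ≠ 0 →
      ∀ g : (Fin 2 → F) →ₗ[F] F, g z = 0 → g z' = 0 → ∀ u, g u = 0 := by
    intro z' hd g h1 h2 u
    have hu : (z 0 * z' 1 - z 1 * z' 0) • u =
        (u 0 * z' 1 - u 1 * z' 0) • z + (z 0 * u 1 - z 1 * u 0) • z' := by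
      funext i
      fin_cases i <;> simp <;> ring
    have := congrArg g hu
    rw [map_smul, map_add, map_smul, map_smul, h1, h2] at this
    simp only [smul_eq_mul, mul_zero, add_zero, mul_eq_zero, hd, false_or] at this
    exact this
  by_cases h0 : z 0 = 0
  · refine ⟨![1, 0], key _ ?_⟩
    have h1 : z 1 ≠ 0 := by
      intro h1; apply hz; funext i; fin_cases i <;> simp [h0, h1]
    simp [h1]
  · refine ⟨![0, 1], key _ ?_⟩
    simp [h0]

omit [IsAlgClosed F] in
/-- the form as a linear form in slot 2 -/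
def lin2 (B : Fin 2 → Fin 2 → Fin 2 → Fin 2 → F) (x y w : Fin 2 → F) : (Fin 2 → F) →ₗ[F] F where
  toFun z := form B x y z w
  map_add' a b := by simp only [form, Fin.sum_univ_two, Pi.add_apply]; ring
  map_smul' c a := by
    simp only [form, Fin.sum_univ_two, Pi.smul_apply, smul_eq_mul, RingHom.id_apply]; ring

omit [IsAlgClosed F] in
/-- the form as a linear form in slot 3 -/
def lin3 (B : Fin 2 → Fin 2 → Fin 2 → Fin 2 → F) (x y z : Fin 2 → F) : (Fin 2 → F) →ₗ[F] F where
  toFun w := form B x y z w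
  map_add' a b := by simp only [form, Fin.sum_univ_two, Pi.add_apply]; ring
  map_smul' c a := by
    simp only [form, Fin.sum_univ_two, Pi.smul_apply, smul_eq_mul, RingHom.id_apply]; ring

/-- Smoothness implies that the contraction never vanishes. -/
lemma smooth_con_ne_zero {B : Fin 2 → Fin 2 → Fin 2 → Fin 2 → F} (hB : SmoothForm B)
    {z w : Fin 2 → F} (hz : z ≠ 0) (hw : w ≠ 0) : con B (tens z w) ≠ 0 := by
  intro h
  obtain ⟨z', hz'⟩ := exists_indep z hz
  obtain ⟨w', hw'⟩ := exists_indep w hw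
  obtain ⟨x, y, hx, hy, h1, h2⟩ := two_bilinear (con B (tens z' w)) (con B (tens z w'))
  rw [← form_eq_con] at h1 h2
  have h0 : ∀ a b, form B a b z w = 0 := by
    intro a b; rw [form_eq_con, h]; simp
  obtain ⟨u, hu⟩ := hB x y z w hx hy hz hw
  rcases hu with hu | hu | hu | hu
  · exact hu (h0 _ _)
  · exact hu (h0 _ _)
  · exact hu (hz' (lin2 B x y w) (h0 _ _) h1 u)
  · exact hu (hw' (lin3 B x y z) (h0 _ _) h2 u)

lemma smooth_det {B : Fin 2 → Fin 2 → Fin 2 → Fin 2 → F} (hB : SmoothForm B)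
    {w : Fin 2 → F} (hw : w ≠ 0) : ∃ z : Fin 2 → F, dt (con B (tens z w)) ≠ 0 := by
  by_contra hcon
  push Not at hcon
  have e0 : (![1, 0] : Fin 2 → F) ≠ 0 := by
    intro h; have := congrFun h 0; simp at this
  have e1 : (![0, 1] : Fin 2 → F) ≠ 0 := by
    intro h; have := congrFun h 1; simp at this
  obtain ⟨a, b, ha, hb, hab⟩ := rank_one (smooth_con_ne_zero hB e0 hw) (hcon _)
  obtain ⟨c, d, hc, hd, hcd⟩ := rank_one (smooth_con_ne_zero hB e1 hw) (hcon _)
  have hlin : ∀ z : Fin 2 → F, con B (tens z w) = z 0 • tens a b + z 1 • tens c d := by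
    intro z
    rw [← hab, ← hcd]
    funext p
    simp only [con, tens, Fin.sum_univ_two, LinearMap.coe_mk, AddHom.coe_mk, Pi.add_apply,
      Pi.smul_apply, smul_eq_mul, Matrix.cons_val_zero, Matrix.cons_val_one]
    ring
  have h11 := hcon ![1, 1]
  rw [hlin] at h11
  have hprod : (a 0 * c 1 - a 1 * c 0) * (b 0 * d 1 - b 1 * d 0) = 0 := by
    simp only [dt, tens, Pi.add_apply, Pi.smul_apply, smul_eq_mul, Matrix.cons_val_zero,
      Matrix.cons_val_one] at h11
    linear_combination h11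
  have hform : ∀ x y z : Fin 2 → F, form B x y z w =
      z 0 * ((a 0 * x 0 + a 1 * x 1) * (b 0 * y 0 + b 1 * y 1)) +
      z 1 * ((c 0 * x 0 + c 1 * x 1) * (d 0 * y 0 + d 1 * y 1)) := by
    intro x y z
    rw [form_eq_con, hlin]
    simp only [tens, Fin.sum_univ_two, Pi.add_apply, Pi.smul_apply, smul_eq_mul]
    ring
  rcases mul_eq_zero.mp hprod with h | h
  · -- common left kernel
    obtain ⟨x, hx, h1, h2⟩ := exists_orth a c h
    have := smooth_con_ne_zero (smooth_cy hB) hx hw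
    apply this
    have hz : ∀ y z : Fin 2 → F, form (cy B) y z x w = 0 := by
      intro y z
      rw [form_cy, hform]
      rw [h1, h2]; ring
    funext ⟨i, j⟩
    have h3 := hz (Pi.single i 1) (Pi.single j 1)
    rw [form_eq_con] at h3
    fin_cases i <;> fin_cases j <;> simpa [Fin.sum_univ_two] using h3
  · -- common right kernel
    obtain ⟨y, hy, h1, h2⟩ := exists_orth b d h
    have := smooth_con_ne_zero (smooth_s12 hB) hy hw
    apply this
    have hz : ∀ x z : Fin 2 → F, form (s12 B) x z y w = 0 := by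
      intro x z
      rw [form_s12, hform]
      rw [h1, h2]; ring
    funext ⟨i, j⟩
    have h3 := hz (Pi.single i 1) (Pi.single j 1)
    rw [form_eq_con] at h3
    fin_cases i <;> fin_cases j <;> simpa [Fin.sum_univ_two] using h3

omit [IsAlgClosed F] in
lemma common_nonzero [Infinite F] (T1 T2 : (Fin 2 → F) →ₗ[F] Sq F) (x1 x2 : Fin 2 → F)
    (h1 : dt (T1 x1) ≠ 0) (h2 : dt (T2 x2) ≠ 0) : ∃ x, dt (T1 x) ≠ 0 ∧ dt (T2 x) ≠ 0 := by
  set p1 : Polynomial F := Polynomial.C (dt (T1 x1)) + Polynomial.C (bt (T1 x1) (T1 x2)) *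
    Polynomial.X + Polynomial.C (dt (T1 x2)) * Polynomial.X ^ 2 with hp1
  set p2 : Polynomial F := Polynomial.C (dt (T2 x1)) + Polynomial.C (bt (T2 x1) (T2 x2)) *
    Polynomial.X + Polynomial.C (dt (T2 x2)) * Polynomial.X ^ 2 with hp2
  have e1 : ∀ t, p1.eval t = dt (T1 (x1 + t • x2)) := by
    intro t
    rw [map_add, map_smul, dt_add_smul, hp1]
    simp only [Polynomial.eval_add, Polynomial.eval_mul, Polynomial.eval_C, Polynomial.eval_pow,
      Polynomial.eval_X]
    ring
  have e2 : ∀ t, p2.eval t = dt (T2 (x1 + t • x2)) := by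
    intro t
    rw [map_add, map_smul, dt_add_smul, hp2]
    simp only [Polynomial.eval_add, Polynomial.eval_mul, Polynomial.eval_C, Polynomial.eval_pow,
      Polynomial.eval_X]
    ring
  have n1 : p1 ≠ 0 := by
    intro h
    have := e1 0
    rw [h] at this
    simp at this
    exact h1 this.symm
  have n2 : p2 ≠ 0 := by
    intro h
    have : p2.coeff 2 = dt (T2 x2) := by
      rw [hp2]
      simp [Polynomial.coeff_X, Polynomial.coeff_C]
    rw [h] at this
    simp at this
    exact h2 this.symm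
  by_contra hcon
  push Not at hcon
  have : p1 * p2 = 0 := by
    apply Polynomial.funext
    intro t
    rw [Polynomial.eval_mul, Polynomial.eval_zero, e1, e2]
    by_cases h : dt (T1 (x1 + t • x2)) = 0
    · rw [h, zero_mul]
    · rw [hcon _ h, mul_zero]
  rcases mul_eq_zero.mp this with h | h
  · exact n1 h
  · exact n2 h

/-- The open set `U` is nonempty. -/
lemma exists_point {B : Fin 2 → Fin 2 → Fin 2 → Fin 2 → F} (hB : SmoothForm B) :
    ∃ x y z w : Fin 2 → F, x ≠ 0 ∧ y ≠ 0 ∧ z ≠ 0 ∧ w ≠ 0 ∧ form B x y z w = 0 ∧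
      dt (con B (tens z w)) ≠ 0 ∧ dt (con (sw B) (tens x y)) ≠ 0 := by
  have : Infinite F := IsAlgClosed.instInfinite
  set w : Fin 2 → F := ![1, 0] with hwdef
  have hw : w ≠ 0 := by
    intro h; have := congrFun h 0; simp [hwdef] at this
  obtain ⟨y, hyd⟩ := smooth_det (smooth_s12 hB) hw
  have hy : y ≠ 0 := by
    rintro rfl
    apply hyd
    have : tens (0 : Fin 2 → F) w = 0 := by funext p; simp [tens]
    rw [this, map_zero]; simp [dt]
  obtain ⟨z1, hz1⟩ := smooth_det hB hw
  obtain ⟨x2, hx2⟩ := smooth_det (smooth_sw hB) hy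
  set N : Sq F := con (s12 B) (tens y w) with hN
  let zf : (Fin 2 → F) →ₗ[F] (Fin 2 → F) :=
    { toFun := fun x => ![N (0, 1) * x 0 + N (1, 1) * x 1, -(N (0, 0) * x 0 + N (1, 0) * x 1)]
      map_add' := by
        intro a b; funext i
        fin_cases i <;> simp <;> ring
      map_smul' := by
        intro c a; funext i
        fin_cases i <;> simp <;> ring }
  have hzf0 : ∀ x, zf x 0 = N (0, 1) * x 0 + N (1, 1) * x 1 := fun x => rfl
  have hzf1 : ∀ x, zf x 1 = -(N (0, 0) * x 0 + N (1, 0) * x 1) := fun x => rfl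
  have hform : ∀ x, form B x y (zf x) w = 0 := by
    intro x
    have h1 : form B x y (zf x) w = form (s12 B) x (zf x) y w := by rw [form_s12]
    rw [h1, form_eq_con, ← hN]
    simp only [Fin.sum_univ_two, hzf0, hzf1]
    ring
  let tw : (Fin 2 → F) →ₗ[F] Sq F :=
    { toFun := fun z => tens z w
      map_add' := by intro a b; funext p; simp [tens]; ring
      map_smul' := by intro c a; funext p; simp [tens]; ring }
  let ty : (Fin 2 → F) →ₗ[F] Sq F :=
    { toFun := fun x => tens x y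
      map_add' := by intro a b; funext p; simp [tens]; ring
      map_smul' := by intro c a; funext p; simp [tens]; ring }
  set x1 : Fin 2 → F := ![N (1, 1) * (- z1 1) - N (1, 0) * z1 0,
    - N (0, 1) * (- z1 1) + N (0, 0) * z1 0] with hx1
  have hzx1 : zf x1 = dt N • z1 := by
    funext i
    fin_cases i
    · simp only [Fin.zero_eta, hzf0, hx1, Matrix.cons_val_zero, Matrix.cons_val_one,
        Pi.smul_apply, smul_eq_mul, dt]
      ring
    · simp only [Fin.mk_one, hzf1, hx1, Matrix.cons_val_zero, Matrix.cons_val_one,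
        Pi.smul_apply, smul_eq_mul, dt]
      ring
  have hT1 : dt (((con B).comp (tw.comp zf)) x1) ≠ 0 := by
    simp only [LinearMap.coe_comp, Function.comp_apply]
    rw [hzx1, map_smul, map_smul]
    have : ∀ (c : F) (u : Sq F), dt (c • u) = c ^ 2 * dt u := by
      intro c u; simp [dt]; ring
    rw [this]
    exact mul_ne_zero (pow_ne_zero 2 hyd) hz1
  have hT2 : dt (((con (sw B)).comp ty) x2) ≠ 0 := hx2
  obtain ⟨x, h1, h2⟩ := common_nonzero _ _ x1 x2 hT1 hT2
  have h1' : dt (con B (tens (zf x) w)) ≠ 0 := h1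
  have h2' : dt (con (sw B) (tens x y)) ≠ 0 := h2
  refine ⟨x, y, zf x, w, ?_, hy, ?_, hw, hform x, h1', h2'⟩
  · rintro rfl
    apply h2'
    have : tens (0 : Fin 2 → F) y = 0 := by funext p; simp [tens]
    rw [this, map_zero]; simp [dt]
  · intro h
    apply h1'
    rw [h]
    have : tens (0 : Fin 2 → F) w = 0 := by funext p; simp [tens]
    rw [this, map_zero]; simp [dt]

end closed

end Pool.Lib18ea5f
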