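import Mathlib
import Pool.Agent.Lib18ea5f.Pts
import Pool.Agent.Lib18ea5f.Smooth

set_option autoImplicit false

/-!
Counting in a box, with two of the four points fixed.
-/

namespace Pool.Lib18ea5f

open Finset NumberField
open scoped LinearAlgebra.Projectivization

variable {K : Type*} [Field K] [NumberField K]

/-- `M(z,w)` for integral data. -/
def Mzw (B : Fin 2 → Fin 2 → Fin 2 → Fin 2 → 𝓞 K) (z w : Fin 2 → 𝓞 K) : Fin 2 × Fin 2 → 𝓞 K :=
  con B (tens z w)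

lemma form_eq_mulT (B : Fin 2 → Fin 2 → Fin 2 → Fin 2 → 𝓞 K) (x y z w : Fin 2 → 𝓞 K) :
    form B x y z w = mulT (Mzw B z w) x 0 * y 0 + mulT (Mzw B z w) x 1 * y 1 := by
  rw [form_eq_con]
  simp only [mulT, Mzw, Fin.sum_univ_two]
  ring

/-- Box bound when the pair `(z,w)` is fixed. -/
theorem box_half (K : Type*) [Field K] [NumberField K]
    (B : Fin 2 → Fin 2 → Fin 2 → Fin 2 → 𝓞 K) (CL CU : ℝ) (hCL : 1 ≤ CL) (hCU : 1 ≤ CU)
    (hL : ∀ z w : Fin 2 → 𝓞 K, z ≠ 0 → w ≠ 0 → ht z * ht w ≤ CL * ht (Mzw B z w))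
    (hU : ∀ z w : Fin 2 → 𝓞 K, z ≠ 0 → w ≠ 0 → ht (Mzw B z w) ≤ CU * (ht z * ht w))
    (ε : ℝ) (hε : 0 < ε) :
    ∃ C : ℝ, 1 ≤ C ∧ ∀ (X0 X1 X2 X3 : ℝ), 1 ≤ X0 → 1 ≤ X1 → 1 ≤ X2 → 1 ≤ X3 →
      X2 * X3 ≤ X0 * X1 →
      ∀ S : Finset (Fin 4 → ℙ K (Fin 2 → K)),
      (∀ P ∈ S, ht (xr (P 0)) ≤ X0 ∧ ht (xr (P 1)) ≤ X1 ∧ ht (xr (P 2)) ≤ X2 ∧
        ht (xr (P 3)) ≤ X3 ∧
        form B (xr (P 0)) (xr (P 1)) (xr (P 2)) (xr (P 3)) = 0 ∧
        detM (Mzw B (xr (P 2)) (xr (P 3))) ≠ 0) →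
      (S.card : ℝ) ≤ C * ((X0 * X1 * (X2 * X3)) * (X0 * X1 * (X2 * X3)) ^ ε) := by
  classical
  obtain ⟨Cc, hCc, hcurve⟩ := curve_count K (ℙ K (Fin 2 → K)) (ε / 2) (by positivity)
  obtain ⟨Cp, hCp, hpl⟩ := pline_count K (ℙ K (Fin 2 → K))
  obtain ⟨Cr, hCr, hrec⟩ := recip_sum K (ε / 2) (by positivity)
  set C0 : ℝ := Cc * CU ^ (ε / 2) * (Cp ^ 2 + CL * Cr ^ 2) with hC0
  have hC0pos : 0 < C0 := by positivity
  refine ⟨max 1 C0, le_max_left _ _, fun X0 X1 X2 X3 hX0 hX1 hX2 hX3 hle S hS => ?_⟩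
  have hX01 : 1 ≤ X0 * X1 := by nlinarith
  have hX23 : 1 ≤ X2 * X3 := by nlinarith
  set Q : ℝ := X0 * X1 * (X2 * X3) with hQ
  have hQ1 : 1 ≤ Q := by rw [hQ]; nlinarith
  have hQ0 : 0 < Q := by linarith
  -- projection to the last two coordinates
  let π : (Fin 4 → ℙ K (Fin 2 → K)) → ℙ K (Fin 2 → K) × ℙ K (Fin 2 → K) := fun P => (P 2, P 3)
  set T := S.image π with hT
  set T2 := S.image (fun P => P 2) with hT2
  set T3 := S.image (fun P => P 3) with hT3
  have hTsub : T ⊆ T2 ×ˢ T3 := by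
    intro t ht'
    obtain ⟨P, hP, rfl⟩ := Finset.mem_image.mp ht'
    exact Finset.mem_product.mpr ⟨Finset.mem_image_of_mem _ hP, Finset.mem_image_of_mem _ hP⟩
  have hT2le : ∀ t ∈ T2, ht (xr t) ≤ X2 := by
    intro t ht'
    obtain ⟨P, hP, rfl⟩ := Finset.mem_image.mp ht'
    exact (hS P hP).2.2.1
  have hT3le : ∀ t ∈ T3, ht (xr t) ≤ X3 := by
    intro t ht'
    obtain ⟨P, hP, rfl⟩ := Finset.mem_image.mp ht'
    exact (hS P hP).2.2.2.1
  have hcardS := Finset.card_eq_sum_card_fiberwise (f := π) (s := S) (t := T)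
    (fun P hP => Finset.mem_image_of_mem π hP)
  -- the fibre bound
  have hfib : ∀ t ∈ T, (((S.filter fun P => π P = t).card : ℕ) : ℝ) ≤
      Cc * (CU ^ (ε / 2) * Q ^ (ε / 2)) *
        (1 + CL * (X0 * X1) * ((1 / ht (xr t.1)) * (1 / ht (xr t.2)))) := by
    intro t htT
    set M := Mzw B (xr t.1) (xr t.2) with hM
    have htsub := Finset.mem_product.mp (hTsub htT)
    have hz := xr_ne_zero t.1
    have hw := xr_ne_zero t.2
    obtain ⟨P0, hP0, hP0t⟩ := Finset.mem_image.mp htT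
    have hMdet : detM M ≠ 0 := by
      have := (hS P0 hP0).2.2.2.2.2
      rw [hM, ← hP0t]; exact this
    have hform : ∀ P ∈ S.filter (fun P => π P = t),
        mulT M (xr (P 0)) 0 * xr (P 1) 0 + mulT M (xr (P 0)) 1 * xr (P 1) 1 = 0 := by
      intro P hP
      have h1 := (hS P (Finset.mem_filter.mp hP).1).2.2.2.2.1
      have h2 := (Finset.mem_filter.mp hP).2
      rw [form_eq_mulT] at h1
      rw [hM, ← h2]; exact h1
    have hinj : Set.InjOn (fun P : Fin 4 → ℙ K (Fin 2 → K) => P 0)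
        (S.filter (fun P => π P = t) : Finset _) := by
      intro P hP P' hP' h0
      have hP1 := Finset.mem_coe.mp hP
      have hP1' := Finset.mem_coe.mp hP'
      have f1 := hform P hP1
      have f2 := hform P' hP1'
      simp only at h0
      rw [← h0] at f2
      have hm := mulT_ne_zero hMdet (xr_ne_zero (P 0))
      have h1 := eq_of_det2 (det2_eq_zero_of_orth hm f1 f2)
      have q1 := (Finset.mem_filter.mp hP1).2
      have q2 := (Finset.mem_filter.mp hP1').2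
      have q3 := q1.trans q2.symm
      simp only [π, Prod.mk.injEq] at q3
      funext i
      fin_cases i
      · exact h0
      · exact h1
      · exact q3.1
      · exact q3.2
    set S0 := (S.filter (fun P => π P = t)).image (fun P => P 0) with hS0
    have hcard0 : (S.filter (fun P => π P = t)).card = S0.card :=
      (Finset.card_image_of_injOn hinj).symm
    rw [hcard0]
    have hcc := hcurve M hMdet S0 xr xr_ne_zero (fun a _ b _ hab => det2_xr_ne hab) X0 X1 hX0 hX1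
      (by
        intro a ha
        obtain ⟨P, hP, rfl⟩ := Finset.mem_image.mp ha
        have h1 := hS P (Finset.mem_filter.mp hP).1
        refine ⟨h1.1, ?_⟩
        have hm := mulT_ne_zero hMdet (xr_ne_zero (P 0))
        rw [← ht_eq_of_orth hm (xr_ne_zero (P 1)) (hform P hP)]
        exact h1.2.1)
    refine hcc.trans ?_
    have hHM := ht_pos M
    have hLM := hL _ _ hz hw
    have hUM := hU _ _ hz hw
    rw [← hM] at hLM hUM
    have hpz := ht_pos (xr t.1)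
    have hpw := ht_pos (xr t.2)
    have hzX := hT2le _ htsub.1
    have hwX := hT3le _ htsub.2
    have hzw : ht (xr t.1) * ht (xr t.2) ≤ X2 * X3 :=
      mul_le_mul hzX hwX hpw.le (by linarith)
    have hpow : (ht M * X0) ^ (ε / 2) ≤ CU ^ (ε / 2) * Q ^ (ε / 2) := by
      rw [← Real.mul_rpow (by positivity) hQ0.le]
      apply Real.rpow_le_rpow (by positivity) _ (by positivity)
      calc ht M * X0 ≤ (CU * (ht (xr t.1) * ht (xr t.2))) * X0 := by gcongr
        _ ≤ (CU * (X2 * X3)) * X0 := by gcongr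
        _ = CU * (X0 * 1 * (X2 * X3)) := by ring
        _ ≤ CU * (X0 * X1 * (X2 * X3)) := by gcongr
    have hdivM : X0 * X1 / ht M ≤ CL * (X0 * X1) * ((1 / ht (xr t.1)) * (1 / ht (xr t.2))) := by
      rw [div_le_iff₀ hHM]
      have e : CL * (X0 * X1) * ((1 / ht (xr t.1)) * (1 / ht (xr t.2))) * ht M =
          (X0 * X1) * ((CL * ht M) / (ht (xr t.1) * ht (xr t.2))) := by
        field_simp
      rw [e]
      have : 1 ≤ (CL * ht M) / (ht (xr t.1) * ht (xr t.2)) := by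
        rw [le_div_iff₀ (by positivity), one_mul]; exact hLM
      nlinarith
    gcongr
  have hsum1 : ∑ t ∈ T, (1 : ℝ) ≤ Cp ^ 2 * (X2 * X3) ^ 2 := by
    rw [Finset.sum_const, nsmul_eq_mul, mul_one]
    have h2 := hpl T2 xr xr_ne_zero (fun a _ b _ hab => det2_xr_ne hab) X2 hX2 hT2le
    have h3 := hpl T3 xr xr_ne_zero (fun a _ b _ hab => det2_xr_ne hab) X3 hX3 hT3le
    have h4 : (T.card : ℝ) ≤ T2.card * T3.card := by
      have := Finset.card_le_card hTsub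
      rw [Finset.card_product] at this
      exact_mod_cast this
    calc (T.card : ℝ) ≤ T2.card * T3.card := h4
      _ ≤ (Cp * X2 ^ 2) * (Cp * X3 ^ 2) := mul_le_mul h2 h3 (by positivity) (by positivity)
      _ = Cp ^ 2 * (X2 * X3) ^ 2 := by ring
  have hsum2 : ∑ t ∈ T, (1 / ht (xr t.1)) * (1 / ht (xr t.2)) ≤
      Cr ^ 2 * ((X2 * X3) * Q ^ (ε / 2)) := by
    have h2 := hrec T2 X2 hX2 hT2le
    have h3 := hrec T3 X3 hX3 hT3le
    calc ∑ t ∈ T, (1 / ht (xr t.1)) * (1 / ht (xr t.2))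
        ≤ ∑ t ∈ T2 ×ˢ T3, (1 / ht (xr t.1)) * (1 / ht (xr t.2)) := by
          apply Finset.sum_le_sum_of_subset_of_nonneg hTsub
          intro t _ _
          have := ht_pos (xr t.1)
          have := ht_pos (xr t.2)
          positivity
      _ = (∑ a ∈ T2, 1 / ht (xr a)) * (∑ b ∈ T3, 1 / ht (xr b)) := by
          rw [Finset.sum_product, Finset.sum_mul_sum]
      _ ≤ (Cr * (X2 * X2 ^ (ε / 2))) * (Cr * (X3 * X3 ^ (ε / 2))) := by
          apply mul_le_mul h2 h3 _ (by positivity)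
          apply Finset.sum_nonneg
          intro t _
          have := ht_pos (xr t)
          positivity
      _ = Cr ^ 2 * ((X2 * X3) * (X2 * X3) ^ (ε / 2)) := by
          rw [Real.mul_rpow (by linarith) (by linarith)]; ring
      _ ≤ Cr ^ 2 * ((X2 * X3) * Q ^ (ε / 2)) := by
          have : (X2 * X3) ^ (ε / 2) ≤ Q ^ (ε / 2) := by
            apply Real.rpow_le_rpow (by linarith) _ (by positivity)
            rw [hQ]; nlinarith
          gcongr
  have hQsq : (X2 * X3) ^ 2 ≤ Q := by rw [hQ, sq]; nlinarith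
  have hQε : 1 ≤ Q ^ (ε / 2) := Real.one_le_rpow hQ1 (by positivity)
  calc (S.card : ℝ) = ∑ t ∈ T, (((S.filter fun P => π P = t).card : ℕ) : ℝ) := by
        rw [hcardS]; push_cast; rfl
    _ ≤ ∑ t ∈ T, Cc * (CU ^ (ε / 2) * Q ^ (ε / 2)) *
        (1 + CL * (X0 * X1) * ((1 / ht (xr t.1)) * (1 / ht (xr t.2)))) := Finset.sum_le_sum hfib
    _ = Cc * (CU ^ (ε / 2) * Q ^ (ε / 2)) * (∑ t ∈ T, (1 : ℝ) +
        CL * (X0 * X1) * ∑ t ∈ T, (1 / ht (xr t.1)) * (1 / ht (xr t.2))) := by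
        rw [← Finset.mul_sum, Finset.sum_add_distrib, Finset.mul_sum]
    _ ≤ Cc * (CU ^ (ε / 2) * Q ^ (ε / 2)) * (Cp ^ 2 * (X2 * X3) ^ 2 +
        CL * (X0 * X1) * (Cr ^ 2 * ((X2 * X3) * Q ^ (ε / 2)))) := by gcongr
    _ ≤ Cc * (CU ^ (ε / 2) * Q ^ (ε / 2)) * (Cp ^ 2 * (Q * Q ^ (ε / 2)) +
        CL * (X0 * X1) * (Cr ^ 2 * ((X2 * X3) * Q ^ (ε / 2)))) := by
        gcongr
        nlinarith
    _ = C0 * (Q * (Q ^ (ε / 2) * Q ^ (ε / 2))) := by
        have e : CL * (X0 * X1) * (Cr ^ 2 * ((X2 * X3) * Q ^ (ε / 2))) =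
            CL * Cr ^ 2 * (Q * Q ^ (ε / 2)) := by rw [hQ]; ring
        rw [e, hC0]; ring
    _ = C0 * (Q * Q ^ ε) := by
        rw [← Real.rpow_add hQ0]; congr 3; ring
    _ ≤ max 1 C0 * (Q * Q ^ ε) := by
        gcongr
        exact le_max_right _ _

end Pool.Lib18ea5f
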