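import Mathlib

set_option autoImplicit false
set_option linter.unusedSectionVars false

/-!
Coordinates over the ground field for equivariant functions.
-/

namespace Pool.Lib18ea5f

open Finset

section coord

variable {K M : Type*} [Field K] [Field M] [Algebra K M] [FiniteDimensional K M] [IsGalois K M]

theorem exists_coord (H : Subgroup (M ≃ₐ[K] M)) :
    ∃ (B c : Fin (Module.finrank K (IntermediateField.fixedField H)) → M),
      ∀ m : M, (∀ h ∈ H, h m = m) →
        m = ∑ i, algebraMap K M (Algebra.trace K M (c i * m)) * B i := by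
  classical
  set L := IntermediateField.fixedField H with hL
  let bas := Module.finBasis K L
  obtain ⟨r, hr⟩ := LinearMap.exists_leftInverse_of_injective (L.val.toLinearMap)
    (LinearMap.ker_eq_bot_of_injective (fun a b h => by
      apply Subtype.ext
      exact h))
  let f : Fin (Module.finrank K L) → (M →ₗ[K] K) := fun i => (bas.coord i).comp r
  let c : Fin (Module.finrank K L) → M := fun i =>
    ((Algebra.traceForm K M).toDual (traceForm_nondegenerate K M)).symm (f i)
  have hc : ∀ i m, Algebra.trace K M (c i * m) = f i m := by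
    intro i m
    have h1 := LinearMap.BilinForm.apply_toDual_symm_apply
      (B := Algebra.traceForm K M) (hB := traceForm_nondegenerate K M) (f i) m
    rwa [Algebra.traceForm_apply] at h1
  refine ⟨fun i => (bas i : M), c, fun m hm => ?_⟩
  have hmL : m ∈ L := by
    rw [hL, IntermediateField.mem_fixedField_iff]
    exact hm
  have h1 : r m = ⟨m, hmL⟩ := by
    have h2 := LinearMap.congr_fun hr (⟨m, hmL⟩ : L)
    simpa using h2
  have h3 : ∀ i, f i m = bas.repr ⟨m, hmL⟩ i := by
    intro i
    simp only [f, LinearMap.comp_apply, h1, Module.Basis.coord_apply]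
  have h4 : (∑ i, bas.repr ⟨m, hmL⟩ i • bas i : L) = ⟨m, hmL⟩ := bas.sum_repr ⟨m, hmL⟩
  have h5 : m = ∑ i, (bas.repr ⟨m, hmL⟩ i) • (bas i : M) := by
    have h6 := congrArg (fun a : L => (a : M)) h4
    simp only at h6
    push_cast at h6
    exact h6.symm
  calc m = ∑ i, (bas.repr ⟨m, hmL⟩ i) • (bas i : M) := h5
    _ = ∑ i, algebraMap K M (Algebra.trace K M (c i * m)) * (bas i : M) :=
      Finset.sum_congr rfl fun i _ => by rw [Algebra.smul_def, hc, h3]

lemma trace_eq_sum [Fintype (M ≃ₐ[K] M)] (m : M) :
    algebraMap K M (Algebra.trace K M m) = ∑ g : M ≃ₐ[K] M, g m := by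
  rw [trace_eq_sum_automorphisms]
  exact Finset.sum_congr (by ext; simp) fun _ _ => rfl

end coord

section orbits

variable {K M X : Type*} [Field K] [Field M] [Algebra K M] [FiniteDimensional K M] [IsGalois K M]
  [Fintype X] [DecidableEq X] [MulAction (M ≃ₐ[K] M) X]

variable (K M X) in
/-- set of orbits -/
abbrev Om := MulAction.orbitRel.Quotient (M ≃ₐ[K] M) X

/-- class of a point -/
def cl (x : X) : Om K M X := Quotient.mk _ x

noncomputable instance : Fintype (Om K M X) := Fintype.ofFinite _

noncomputable instance : DecidableEq (Om K M X) := Classical.decEq _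

/-- representative -/
noncomputable def rp (o : Om K M X) : X := Quotient.out o

lemma cl_rp (o : Om K M X) : cl (K := K) (M := M) (rp o) = o := Quotient.out_eq o

lemma cl_smul (g : M ≃ₐ[K] M) (x : X) : cl (K := K) (M := M) (g • x) = cl x := by
  apply Quotient.sound
  change (MulAction.orbitRel (M ≃ₐ[K] M) X) (g • x) x
  rw [MulAction.orbitRel_apply]
  exact MulAction.mem_orbit x g

lemma cl_eq_iff (x y : X) : cl (K := K) (M := M) x = cl y ↔ ∃ g : M ≃ₐ[K] M, g • y = x := by
  constructor
  · intro h
    have h1 : (MulAction.orbitRel (M ≃ₐ[K] M) X) x y := Quotient.exact h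
    rw [MulAction.orbitRel_apply] at h1
    exact h1
  · rintro ⟨g, rfl⟩
    exact cl_smul g y

lemma exists_smul_rp (x : X) : ∃ g : M ≃ₐ[K] M, g • rp (cl (K := K) (M := M) x) = x := by
  rw [← cl_eq_iff, cl_rp]

/-- dimension of the field attached to an orbit -/
noncomputable def dimo (o : Om K M X) : ℕ :=
  Module.finrank K (IntermediateField.fixedField (MulAction.stabilizer (M ≃ₐ[K] M) (rp o)))

variable (K M X) in
/-- index set of the coordinates -/
abbrev Idx := Σ o : Om K M X, Fin (dimo o)

lemma dimo_eq (o : Om K M X) :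
    dimo o = (Finset.univ.filter fun x : X => cl (K := K) (M := M) x = o).card := by
  classical
  have : Fintype (M ≃ₐ[K] M) := Fintype.ofFinite _
  set H := MulAction.stabilizer (M ≃ₐ[K] M) (rp o) with hH
  have h1 : Module.finrank (IntermediateField.fixedField H) M = Nat.card H :=
    IntermediateField.finrank_fixedField_eq_card H
  have h2 : Module.finrank K (IntermediateField.fixedField H) *
      Module.finrank (IntermediateField.fixedField H) M = Module.finrank K M :=
    Module.finrank_mul_finrank _ _ _
  have h3 : Nat.card (M ≃ₐ[K] M) = Module.finrank K M := IsGalois.card_aut_eq_finrank K M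
  have h4 : Fintype.card (MulAction.orbit (M ≃ₐ[K] M) (rp o)) * Fintype.card H =
      Fintype.card (M ≃ₐ[K] M) :=
    MulAction.card_orbit_mul_card_stabilizer_eq_card_group (M ≃ₐ[K] M) (rp o)
  have h5 : (Finset.univ.filter fun x : X => cl (K := K) (M := M) x = o).card =
      Fintype.card (MulAction.orbit (M ≃ₐ[K] M) (rp o)) := by
    rw [Fintype.card_of_subtype]
    intro x
    simp only [Finset.mem_filter, Finset.mem_univ, true_and]
    rw [MulAction.mem_orbit_iff, ← cl_eq_iff, cl_rp]
  rw [h5]
  unfold dimo
  rw [← hH]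
  have h6 : 0 < Fintype.card H := Fintype.card_pos
  rw [h1, ← h3, Nat.card_eq_fintype_card, Nat.card_eq_fintype_card, ← h4] at h2
  exact Nat.eq_of_mul_eq_mul_right h6 h2

lemma prod_idx (F : Om K M X → ℝ) : ∏ e : Idx K M X, F e.1 = ∏ x : X, F (cl x) := by
  classical
  rw [Fintype.prod_sigma]
  simp only [Finset.prod_const, Finset.card_univ, Fintype.card_fin]
  have h1 := Finset.prod_fiberwise (s := (Finset.univ : Finset X))
    (fun x => cl (K := K) (M := M) x) (fun x => F (cl (K := K) (M := M) x))
  rw [← h1]
  refine Finset.prod_congr rfl fun o _ => ?_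
  have h2 : ∀ x ∈ Finset.univ.filter (fun x : X => cl (K := K) (M := M) x = o),
      F (cl (K := K) (M := M) x) = F o := by
    intro x hx
    rw [(Finset.mem_filter.mp hx).2]
  rw [Finset.prod_congr rfl h2, Finset.prod_const, dimo_eq]

lemma card_idx : Fintype.card (Idx K M X) = Fintype.card X := by
  classical
  rw [Fintype.card_sigma]
  simp only [Fintype.card_fin]
  have h1 := Finset.card_eq_sum_card_fiberwise (s := (Finset.univ : Finset X))
    (t := (Finset.univ : Finset (Om K M X)))
    (f := fun x => cl (K := K) (M := M) x) (fun _ _ => Finset.mem_univ _)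
  rw [Finset.card_univ] at h1
  rw [h1]
  exact Finset.sum_congr rfl fun o _ => dimo_eq o

/-- choice of the pivot -/
lemma pivot (W : Om K M X → ℝ) (x0 y0 : X) (hne : x0 ≠ y0)
    (h1 : W (cl x0) ≤ W (cl y0)) (h2 : ∀ z, z ≠ x0 → z ≠ y0 → W (cl y0) ≤ W (cl z))
    (e f : Idx K M X) (he : e.1 = cl x0) (hf : f.1 = cl y0) (hef : e ≠ f)
    (j : Idx K M X) (hje : j ≠ e) (hjf : j ≠ f) : W f.1 ≤ W j.1 := by
  classical
  rw [hf]
  by_cases c1 : j.1 = cl y0
  · rw [c1]
  by_cases c2 : j.1 = cl x0
  · -- the block of x0 has two elements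
    have hxy : cl (K := K) (M := M) x0 ≠ cl y0 := by
      intro h
      exact c1 (c2.trans h)
    have hdim : 1 < dimo (cl (K := K) (M := M) x0) := by
      obtain ⟨o, i⟩ := e
      obtain ⟨o', i'⟩ := j
      simp only at he c2
      subst he
      subst c2
      have hii : i ≠ i' := by
        rintro rfl
        exact hje rfl
      by_contra hcon
      push Not at hcon
      apply hii
      apply Fin.ext
      have := i.2
      have := i'.2
      omega
    rw [dimo_eq, Finset.one_lt_card] at hdim
    obtain ⟨a, ha, b, hb, hab⟩ := hdim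
    have ha' := (Finset.mem_filter.mp ha).2
    have hb' := (Finset.mem_filter.mp hb).2
    obtain ⟨z, hz, hzx⟩ : ∃ z, cl (K := K) (M := M) z = cl x0 ∧ z ≠ x0 := by
      by_cases hax : a = x0
      · exact ⟨b, hb', fun h => hab (hax.trans h.symm)⟩
      · exact ⟨a, ha', hax⟩
    have hzy : z ≠ y0 := by
      rintro rfl
      exact hxy hz.symm
    have := h2 z hzx hzy
    rw [c2, ← hz]
    exact this
  · have hz1 : rp j.1 ≠ x0 := by
      intro h
      apply c2
      rw [← h, cl_rp]
    have hz2 : rp j.1 ≠ y0 := by
      intro h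
      apply c1
      rw [← h, cl_rp]
    have := h2 _ hz1 hz2
    rwa [cl_rp] at this

end orbits

end Pool.Lib18ea5f
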