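import Mathlib
import Pool.Agent.Lib18ea5f.ClassCount

set_option autoImplicit false
set_option linter.unusedSectionVars false

/-!
Twisted heights of vectors over a number field, with real weights at the infinite places.
-/

namespace Pool.Lib18ea5f

open Finset NumberField

variable {K : Type*} [Field K] [NumberField K]

/-- finite part of the height -/
noncomputable def fN {ι : Type*} (x : ι → K) : ℝ := ∏ᶠ v : FinitePlace K, ⨆ i, v (x i)

/-- weighted sup norm at an infinite place -/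
noncomputable def wv {ι : Type*} (ω : ι → ℝ) (v : InfinitePlace K) (x : ι → K) : ℝ :=
  ⨆ i, v (x i) / ω i

/-- infinite part of the twisted height -/
noncomputable def aN {ι : Type*} (ω : ι → ℝ) (x : ι → K) : ℝ :=
  ∏ v : InfinitePlace K, wv ω v x ^ v.mult

/-- twisted height -/
noncomputable def tH {ι : Type*} (ω : ι → ℝ) (x : ι → K) : ℝ := aN ω x * fN x

lemma fms_elt {x : K} (hx : x ≠ 0) :
    (fun v : FinitePlace K => v x).HasFiniteMulSupport :=
  Height.AdmissibleAbsValues.hasFiniteMulSupport hx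

lemma fsup_le {ι : Type*} [Finite ι] (v : FinitePlace K) (x : ι → K) (i : ι) :
    v (x i) ≤ ⨆ i, v (x i) :=
  le_ciSup (f := fun i => v (x i)) (Set.finite_range _).bddAbove i

lemma fsup_nonneg {ι : Type*} (v : FinitePlace K) (x : ι → K) : 0 ≤ ⨆ i, v (x i) :=
  Real.iSup_nonneg fun _ => apply_nonneg _ _

lemma fsup_pos {ι : Type*} [Finite ι] (v : FinitePlace K) {x : ι → K} (hx : x ≠ 0) :
    0 < ⨆ i, v (x i) := by
  obtain ⟨i, hi⟩ := Function.ne_iff.mp hx
  have h1 : 0 < v (x i) := by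
    have h0 : v (x i) ≠ 0 := (map_ne_zero v).mpr hi
    exact lt_of_le_of_ne (apply_nonneg _ _) h0.symm
  exact lt_of_lt_of_le h1 (fsup_le v x i)

lemma fms {ι : Type*} [Finite ι] {x : ι → K} (hx : x ≠ 0) :
    (fun v : FinitePlace K => ⨆ i, v (x i)).HasFiniteMulSupport := by
  obtain ⟨i, hi⟩ : ∃ j, x j ≠ 0 := Function.ne_iff.mp hx
  have : Nonempty {j // x j ≠ 0} := ⟨⟨i, hi⟩⟩
  have h1 : (fun v : FinitePlace K => ⨆ i : {j // x j ≠ 0}, v (x i)).HasFiniteMulSupport :=
    Function.HasFiniteMulSupport.iSup fun j => fms_elt j.2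
  have h2 : (fun v : FinitePlace K => ⨆ i, v (x i)) =
      fun v : FinitePlace K => ⨆ i : {j // x j ≠ 0}, v (x i) := by
    funext v
    have : Nonempty ι := ⟨i⟩
    refine le_antisymm (ciSup_le fun j => ?_)
      (ciSup_le fun ⟨j, hj⟩ => fsup_le v x j)
    by_cases h : x j = 0
    · rw [h, map_zero]
      exact Real.iSup_nonneg fun _ => apply_nonneg _ _
    · exact le_ciSup (f := fun i : {j // x j ≠ 0} => v (x i)) (Set.finite_range _).bddAbove ⟨j, h⟩
  rw [h2]
  exact h1

lemma finprod_pos_aux {α : Type*} {f : α → ℝ} (h : ∀ a, 0 < f a) : 0 < ∏ᶠ a, f a :=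
  finprod_induction (fun x => 0 < x) one_pos (fun _ _ => mul_pos) h

lemma fN_pos {ι : Type*} [Finite ι] {x : ι → K} (hx : x ≠ 0) : 0 < fN x :=
  finprod_pos_aux fun v => fsup_pos v hx

lemma fN_mono {ι κ : Type*} [Finite ι] [Finite κ] {x : ι → K} {y : κ → K} (hx : x ≠ 0)
    (hy : y ≠ 0) (h : ∀ v : FinitePlace K, (⨆ i, v (x i)) ≤ ⨆ i, v (y i)) : fN x ≤ fN y :=
  finprod_le_finprod (fms hx) (fun v => fsup_nonneg v x) (fms hy) h

lemma fN_smul {ι : Type*} [Finite ι] {x : ι → K} (hx : x ≠ 0) {c : K} (hc : c ≠ 0) :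
    (∏ v : InfinitePlace K, v c ^ v.mult) * fN (c • x) = fN x := by
  have h1 : fN (c • x) = (∏ᶠ v : FinitePlace K, v c) * fN x := by
    unfold fN
    rw [← finprod_mul_distrib (fms_elt hc) (fms hx)]
    refine finprod_congr fun v => ?_
    simp only [Pi.smul_apply, smul_eq_mul, map_mul]
    rw [Real.mul_iSup_of_nonneg (apply_nonneg _ _)]
  rw [h1, ← mul_assoc, prod_abs_eq_one hc, one_mul]

lemma fN_int {ι : Type*} [Finite ι] {x : ι → 𝓞 K} (hx : x ≠ 0) :
    (Ideal.absNorm (cI x) : ℝ) * fN (fun i => (x i : K)) = 1 :=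
  NumberField.absNorm_mul_finprod_finitePlace_eq_one hx

open Classical in
/-- the part of `u` off the support of `v` -/
noncomputable def offv {ι : Type*} (v u : ι → K) : ι → K := fun i => if v i = 0 then u i else 0

/-- separation of two points on a line, finite part. -/
lemma fN_sep {ι : Type*} [Finite ι] {u v : ι → K} {s t : K} (hst : s ≠ t)
    (hu : offv v u ≠ 0) (hv : v ≠ 0)
    (hs : u + s • v ≠ 0) (ht : u + t • v ≠ 0) :
    fN (offv v u) * fN v ≤
      (∏ w : InfinitePlace K, w (s - t) ^ w.mult) * (fN (u + s • v) * fN (u + t • v)) := by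
  classical
  have hst' : s - t ≠ 0 := sub_ne_zero.mpr hst
  have hP : 0 < ∏ w : InfinitePlace K, w (s - t) ^ w.mult :=
    Finset.prod_pos fun w _ => pow_pos (InfinitePlace.pos_iff.mpr hst') _
  have hQ : 0 < ∏ᶠ w : FinitePlace K, w (s - t) := by
    refine finprod_pos_aux fun w => ?_
    have h0 : w (s - t) ≠ 0 := (map_ne_zero w).mpr hst'
    exact lt_of_le_of_ne (apply_nonneg _ _) h0.symm
  have hprod := prod_abs_eq_one (K := K) hst'
  have hmain : (∏ᶠ w : FinitePlace K, w (s - t)) *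
      (fN (offv v u) * fN v) ≤
      fN (u + s • v) * fN (u + t • v) := by
    have hm1 : (fun w : FinitePlace K =>
        (⨆ i, w (offv v u i)) * ⨆ i, w (v i)).HasFiniteMulSupport := (fms hu).mul (fms hv)
    have hm2 : (fun w : FinitePlace K =>
        w (s - t) * ((⨆ i, w (offv v u i)) * ⨆ i, w (v i))).HasFiniteMulSupport :=
      (fms_elt hst').mul hm1
    have hm3 : (fun w : FinitePlace K =>
        (⨆ i, w ((u + s • v) i)) * ⨆ i, w ((u + t • v) i)).HasFiniteMulSupport :=
      (fms hs).mul (fms ht)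
    unfold fN
    rw [← finprod_mul_distrib (fms hu) (fms hv),
      ← finprod_mul_distrib (fms_elt hst') hm1,
      ← finprod_mul_distrib (fms hs) (fms ht)]
    refine finprod_le_finprod hm2
      (fun w => mul_nonneg (apply_nonneg _ _) (mul_nonneg (fsup_nonneg w _) (fsup_nonneg w _)))
      hm3 fun w => ?_
    simp only
    have hnv : Nonempty ι := ⟨(Function.ne_iff.mp hv).choose⟩
    obtain ⟨i, hi⟩ : ∃ i, w (offv v u i) = ⨆ i, w (offv v u i) := exists_eq_ciSup_of_finite
    obtain ⟨j, hj⟩ : ∃ j, w (v j) = ⨆ j, w (v j) := exists_eq_ciSup_of_finite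
    rw [← hi, ← hj]
    by_cases hvi : v i = 0
    · have e0 : offv v u i = u i := by unfold offv; rw [if_pos hvi]
      rw [e0, ← map_mul, ← map_mul]
      have e1 : (s - t) * (u i * v j) =
          (u + s • v) j * (u + t • v) i - (u + s • v) i * (u + t • v) j := by
        simp only [Pi.add_apply, Pi.smul_apply, smul_eq_mul, hvi]
        ring
      rw [e1]
      have e2 : w ((u + s • v) j * (u + t • v) i - (u + s • v) i * (u + t • v) j) ≤
          max (w ((u + s • v) j * (u + t • v) i)) (w ((u + s • v) i * (u + t • v) j)) := by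
        rw [sub_eq_add_neg]
        refine (FinitePlace.add_le w _ _).trans ?_
        rw [map_neg_eq_map]
      refine e2.trans (max_le ?_ ?_)
      · rw [map_mul]
        exact mul_le_mul (fsup_le w _ j) (fsup_le w _ i) (apply_nonneg _ _) (fsup_nonneg w _)
      · rw [map_mul]
        exact mul_le_mul (fsup_le w _ i) (fsup_le w _ j) (apply_nonneg _ _) (fsup_nonneg w _)
    · have e0 : offv v u i = 0 := by unfold offv; rw [if_neg hvi]
      rw [e0, map_zero, zero_mul, mul_zero]
      exact mul_nonneg (fsup_nonneg w _) (fsup_nonneg w _)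
  have h2 : (∏ w : InfinitePlace K, w (s - t) ^ w.mult) * ((∏ᶠ w : FinitePlace K, w (s - t)) *
      (fN (fun i => if v i = 0 then u i else 0) * fN v)) ≤
      (∏ w : InfinitePlace K, w (s - t) ^ w.mult) * (fN (u + s • v) * fN (u + t • v)) :=
    mul_le_mul_of_nonneg_left hmain hP.le
  rw [← mul_assoc, hprod, one_mul] at h2
  exact h2

/-! weighted norms -/

section wvlemmas

variable {ι : Type*} [Finite ι] {ω : ι → ℝ}

lemma le_wv (v : InfinitePlace K) (x : ι → K) (i : ι) : v (x i) / ω i ≤ wv ω v x :=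
  le_ciSup (f := fun i => v (x i) / ω i) (Set.finite_range _).bddAbove i

lemma wv_nonneg (hω : ∀ i, 0 < ω i) (v : InfinitePlace K) (x : ι → K) : 0 ≤ wv ω v x :=
  Real.iSup_nonneg fun i => div_nonneg (apply_nonneg _ _) (hω i).le

lemma wv_le [Nonempty ι] (v : InfinitePlace K) (x : ι → K) {B : ℝ}
    (h : ∀ i, v (x i) / ω i ≤ B) : wv ω v x ≤ B := ciSup_le h

lemma wv_pos (hω : ∀ i, 0 < ω i) (v : InfinitePlace K) {x : ι → K} (hx : x ≠ 0) :
    0 < wv ω v x := by
  obtain ⟨i, hi⟩ := Function.ne_iff.mp hx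
  exact lt_of_lt_of_le (div_pos (InfinitePlace.pos_iff.mpr hi) (hω i)) (le_wv v x i)

lemma exists_wv_eq [Nonempty ι] (v : InfinitePlace K) (x : ι → K) :
    ∃ i, v (x i) / ω i = wv ω v x := exists_eq_ciSup_of_finite

lemma aN_pos (hω : ∀ i, 0 < ω i) {x : ι → K} (hx : x ≠ 0) : 0 < aN ω x :=
  Finset.prod_pos fun v _ => pow_pos (wv_pos hω v hx) _

lemma tH_pos (hω : ∀ i, 0 < ω i) {x : ι → K} (hx : x ≠ 0) : 0 < tH ω x :=
  mul_pos (aN_pos hω hx) (fN_pos hx)

/-- comparison of twisted heights -/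
lemma tH_mono {κ : Type*} [Finite κ] {ω' : κ → ℝ} (hω : ∀ i, 0 < ω i) (hω' : ∀ i, 0 < ω' i)
    {x : ι → K} {y : κ → K} (hx : x ≠ 0) (hy : y ≠ 0)
    (h1 : ∀ i, x i ≠ 0 → ∃ j, (y j = x i ∨ y j = -x i) ∧ ω' j ≤ ω i) :
    tH ω x ≤ tH ω' y := by
  have hne : Nonempty ι := ⟨(Function.ne_iff.mp hx).choose⟩
  unfold tH
  refine mul_le_mul ?_ ?_ (fN_pos hx).le (aN_pos hω' hy).le
  · refine Finset.prod_le_prod (fun v _ => pow_nonneg (wv_nonneg hω v x) _) fun v _ => ?_
    refine pow_le_pow_left₀ (wv_nonneg hω v x) (wv_le v x fun i => ?_) _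
    by_cases hi : x i = 0
    · rw [hi, map_zero, zero_div]
      exact wv_nonneg hω' v y
    · obtain ⟨j, hj, hjω⟩ := h1 i hi
      refine le_trans ?_ (le_wv v y j)
      have e : v (y j) = v (x i) := by
        rcases hj with h | h
        · rw [h]
        · rw [h, ← v.norm_embedding_eq, ← v.norm_embedding_eq, map_neg, norm_neg]
      rw [e]
      exact div_le_div_of_nonneg_left (apply_nonneg _ _) (hω' j) hjω
  · refine fN_mono hx hy fun w => ciSup_le fun i => ?_
    by_cases hi : x i = 0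
    · rw [hi, map_zero]
      exact fsup_nonneg w y
    · obtain ⟨j, hj, hjω⟩ := h1 i hi
      refine le_trans ?_ (fsup_le w y j)
      rcases hj with h | h
      · rw [h]
      · rw [h, map_neg_eq_map]

lemma tH_scale (hω : ∀ i, 0 < ω i) {c : ℝ} (hc : 0 < c) (x : ι → K) :
    tH (fun i => c * ω i) x * c ^ Module.finrank ℚ K = tH ω x := by
  unfold tH aN
  rw [← prod_const_mult (K := K) c, mul_right_comm, ← Finset.prod_mul_distrib]
  congr 1
  refine Finset.prod_congr rfl fun v _ => ?_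
  rw [← mul_pow]
  congr 1
  unfold wv
  rw [mul_comm, Real.mul_iSup_of_nonneg hc.le]
  congr 1
  funext i
  have := (hω i).ne'
  field_simp

end wvlemmas

end Pool.Lib18ea5f
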