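import Mathlib
import Pool.Agent.Lib18ea5f.TH

set_option autoImplicit false
set_option linter.unusedSectionVars false

/-!
Counting points of bounded twisted height on a line.
-/

namespace Pool.Lib18ea5f

open Finset NumberField

variable {K : Type*} [Field K] [NumberField K]

/-- the constant of the line count -/
noncomputable def lineC (K : Type*) [Field K] [NumberField K] : ℝ :=
  2 ^ Fintype.card (InfinitePlace K) * (12 ^ Module.finrank ℚ K * 2 ^ Module.finrank ℚ K)

lemma one_le_lineC (K : Type*) [Field K] [NumberField K] : 1 ≤ lineC K := by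
  unfold lineC
  have h1 : (1 : ℝ) ≤ 2 ^ Fintype.card (InfinitePlace K) := one_le_pow₀ (by norm_num)
  have h2 : (1 : ℝ) ≤ 12 ^ Module.finrank ℚ K := one_le_pow₀ (by norm_num)
  have h3 : (1 : ℝ) ≤ 2 ^ Module.finrank ℚ K := one_le_pow₀ (by norm_num)
  have h4 : (1 : ℝ) ≤ 12 ^ Module.finrank ℚ K * 2 ^ Module.finrank ℚ K := by nlinarith
  nlinarith

lemma off_add {ι : Type*} {u v : ι → K} (s : K) (i : ι) (h : offv v u i ≠ 0) :
    (u + s • v) i = offv v u i := by
  classical
  unfold offv at h ⊢
  by_cases hv : v i = 0
  · rw [if_pos hv]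
    simp [hv]
  · rw [if_neg hv] at h
    exact absurd rfl h

lemma add_ne_zero_of_off {ι : Type*} {u v : ι → K} (s : K) (h : offv v u ≠ 0) :
    u + s • v ≠ 0 := by
  obtain ⟨i, hi⟩ := Function.ne_iff.mp h
  intro h0
  have h1 := off_add (u := u) (v := v) s i hi
  rw [h0] at h1
  exact hi h1.symm

theorem tline_count {α ι : Type*} [Finite ι] {ω : ι → ℝ} (hω : ∀ i, 0 < ω i) {u v : ι → K}
    (hv : v ≠ 0) (hu : offv v u ≠ 0) (S : Finset α) (t : α → K)
    (hinj : ∀ a ∈ S, ∀ b ∈ S, a ≠ b → t a ≠ t b) {Y : ℝ} (hY0 : 0 < Y)
    (hY : ∀ a ∈ S, tH ω (u + t a • v) ≤ Y) :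
    (S.card : ℝ) ≤ lineC K * (1 + Y ^ 2 / (tH ω (offv v u) * tH ω v)) := by
  classical
  have hne : Nonempty ι := ⟨(Function.ne_iff.mp hv).choose⟩
  set d := Module.finrank ℚ K with hd
  set r := Fintype.card (InfinitePlace K) with hr
  set uF := offv v u with huF
  have hUpos := tH_pos hω hu
  have hVpos := tH_pos hω hv
  have hx0 : ∀ a, u + t a • v ≠ 0 := fun a => add_ne_zero_of_off _ hu
  choose l hl using fun w : InfinitePlace K => exists_wv_eq (ω := ω) w v
  have hVw : ∀ w : InfinitePlace K, 0 < wv ω w v := fun w => wv_pos hω w hv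
  have hUw : ∀ w : InfinitePlace K, 0 < wv ω w uF := fun w => wv_pos hω w hu
  have hXw : ∀ (w : InfinitePlace K) a, 0 < wv ω w (u + t a • v) := fun w a => wv_pos hω w (hx0 a)
  have hvl : ∀ w : InfinitePlace K, v (l w) ≠ 0 := by
    intro w h
    have h1 := hl w
    rw [h, map_zero, zero_div] at h1
    have := hVw w
    linarith
  have hUX : ∀ (w : InfinitePlace K) a, wv ω w uF ≤ wv ω w (u + t a • v) := by
    intro w a
    refine wv_le w uF fun i => ?_
    by_cases hi : uF i = 0
    · rw [hi, map_zero, zero_div]
      exact (hXw w a).le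
    · have h1 := off_add (u := u) (v := v) (t a) i hi
      rw [huF, ← h1]
      exact le_wv w _ i
  -- the local coordinate
  let z : α → InfinitePlace K → ℂ := fun a w =>
    w.embedding (t a + u (l w) / v (l w)) * ((wv ω w v / wv ω w uF : ℝ) : ℂ)
  have hznorm : ∀ a w, ‖z a w‖ = w (t a + u (l w) / v (l w)) * (wv ω w v / wv ω w uF) := by
    intro a w
    simp only [z]
    rw [norm_mul, InfinitePlace.norm_embedding_eq, Complex.norm_real, Real.norm_eq_abs,
      abs_of_pos (div_pos (hVw w) (hUw w))]
  have hzle : ∀ a w, ‖z a w‖ ≤ wv ω w (u + t a • v) / wv ω w uF := by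
    intro a w
    rw [hznorm, ← mul_div_assoc, div_le_div_iff_of_pos_right (hUw w)]
    have h1 := le_wv (ω := ω) w (u + t a • v) (l w)
    have h2 : w ((u + t a • v) (l w)) = w (t a + u (l w) / v (l w)) * w (v (l w)) := by
      rw [← map_mul]
      congr 1
      simp only [Pi.add_apply, Pi.smul_apply, smul_eq_mul]
      have := hvl w
      field_simp
      ring
    rw [h2, mul_div_assoc, hl w] at h1
    exact h1
  have hzsub : ∀ a b w, ‖z a w - z b w‖ = w (t a - t b) * (wv ω w v / wv ω w uF) := by
    intro a b w
    simp only [z]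
    rw [← sub_mul, ← map_sub, norm_mul, InfinitePlace.norm_embedding_eq, Complex.norm_real,
      Real.norm_eq_abs, abs_of_pos (div_pos (hVw w) (hUw w))]
    congr 2
    ring
  have hzreal : ∀ w : InfinitePlace K, w.mult = 1 → ∀ a, (z a w).im = 0 := by
    intro w h a
    have hrr : w.IsReal := by
      by_contra hc
      have : w.mult = 2 := by simp [InfinitePlace.mult, hc]
      omega
    have h2 := InfinitePlace.isReal_iff.mp hrr
    have h3 := RingHom.congr_fun h2 (t a + u (l w) / v (l w))
    rw [ComplexEmbedding.conjugate_coe_eq] at h3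
    have h4 := Complex.conj_eq_iff_im.mp h3
    simp only [z]
    rw [Complex.mul_im, h4, Complex.ofReal_im]
    ring
  let s : α → InfinitePlace K → Bool := fun a w => decide (‖z a w‖ ≤ 1)
  have hcardS := Finset.card_eq_sum_card_fiberwise (f := s) (s := S)
    (t := (Finset.univ : Finset (InfinitePlace K → Bool))) (fun _ _ => Finset.mem_univ _)
  have hfib : ∀ b ∈ (Finset.univ : Finset (InfinitePlace K → Bool)),
      (((S.filter fun a => s a = b).card : ℕ) : ℝ) ≤
        12 ^ d * 2 ^ d * (1 + Y ^ 2 / (tH ω uF * tH ω v)) := by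
    intro b _
    have hmem : ∀ a ∈ S.filter (fun a => s a = b), a ∈ S ∧ ∀ w,
        (b w = true → ‖z a w‖ ≤ 1) ∧ (b w = false → 1 < ‖z a w‖) := by
      intro a ha
      obtain ⟨h1, h2⟩ := Finset.mem_filter.mp ha
      refine ⟨h1, fun w => ?_⟩
      rw [← h2]
      simp [s]
    let T : α → InfinitePlace K → ℂ := fun a w => if b w then z a w else (z a w)⁻¹
    have hTle : ∀ a ∈ S.filter (fun a => s a = b), ∀ w, ‖T a w‖ ≤ 1 := by
      intro a ha w
      obtain ⟨_, hb⟩ := hmem a ha
      by_cases hbw : b w = true
      · simp only [T, hbw, if_true]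
        exact (hb w).1 hbw
      · have hbw' : b w = false := by simpa using hbw
        simp only [T, hbw', Bool.false_eq_true, if_false]
        rw [norm_inv]
        exact inv_le_one_of_one_le₀ ((hb w).2 hbw').le
    have him : ∀ w : InfinitePlace K, w.mult = 1 → ∀ a, (T a w).im = 0 := by
      intro w h a
      have h1 := hzreal w h a
      by_cases hbw : b w = true
      · simp only [T, hbw, if_true]; exact h1
      · have hbw' : b w = false := by simpa using hbw
        simp only [T, hbw', Bool.false_eq_true, if_false]
        rw [Complex.inv_im, h1]; simp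
    have hsepw : ∀ a ∈ S.filter (fun a => s a = b), ∀ c ∈ S.filter (fun a => s a = b), ∀ w,
        w (t a - t c) * (wv ω w v * wv ω w uF) /
          (wv ω w (u + t a • v) * wv ω w (u + t c • v)) ≤ ‖T a w - T c w‖ := by
      intro a ha c hc w
      obtain ⟨_, hba⟩ := hmem a ha
      obtain ⟨_, hbc⟩ := hmem c hc
      have pa := hXw w a
      have pc := hXw w c
      have pu := hUw w
      have pv := hVw w
      have hUa := hUX w a
      have hUc := hUX w c
      have h0 : 0 ≤ w (t a - t c) := apply_nonneg _ _
      by_cases hbw : b w = true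
      · simp only [T, hbw, if_true]
        rw [hzsub, div_le_iff₀ (by positivity)]
        have e : w (t a - t c) * (wv ω w v / wv ω w uF) *
            (wv ω w (u + t a • v) * wv ω w (u + t c • v)) =
            w (t a - t c) * (wv ω w v * (wv ω w (u + t a • v) * wv ω w (u + t c • v) /
              wv ω w uF)) := by
          field_simp
        rw [e]
        refine mul_le_mul_of_nonneg_left (mul_le_mul_of_nonneg_left ?_ pv.le) h0
        rw [le_div_iff₀ pu]
        exact mul_le_mul hUa hUc pu.le pa.le
      · have hbw' : b w = false := by simpa using hbw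
        have qa := (hba w).2 hbw'
        have qc := (hbc w).2 hbw'
        have na : z a w ≠ 0 := by
          intro h; rw [h, norm_zero] at qa; linarith
        have nc : z c w ≠ 0 := by
          intro h; rw [h, norm_zero] at qc; linarith
        simp only [T, hbw', Bool.false_eq_true, if_false]
        have e1 : (z a w)⁻¹ - (z c w)⁻¹ = -(z a w - z c w) / (z a w * z c w) := by
          field_simp
          ring
        rw [e1, norm_div, norm_neg, hzsub, norm_mul, div_le_div_iff₀ (by positivity)
          (by positivity)]
        have l1 := hzle a w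
        have l2 := hzle c w
        have l3 : ‖z a w‖ * ‖z c w‖ ≤
            (wv ω w (u + t a • v) / wv ω w uF) * (wv ω w (u + t c • v) / wv ω w uF) :=
          mul_le_mul l1 l2 (norm_nonneg _) (by positivity)
        calc w (t a - t c) * (wv ω w v * wv ω w uF) * (‖z a w‖ * ‖z c w‖)
            ≤ w (t a - t c) * (wv ω w v * wv ω w uF) *
              ((wv ω w (u + t a • v) / wv ω w uF) * (wv ω w (u + t c • v) / wv ω w uF)) := by
              gcongr
          _ = w (t a - t c) * (wv ω w v / wv ω w uF) *
              (wv ω w (u + t a • v) * wv ω w (u + t c • v)) := by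
              field_simp
    have hcov := cover (α := α) (ι := InfinitePlace K) (fun w => w.mult) mult_cases inferInstance
      (S.filter fun a => s a = b) T him (fun _ => 2) (fun _ => by norm_num)
      (fun a ha c hc w => by
        refine (norm_sub_le _ _).trans ?_
        have h1 := hTle a ha w
        have h2 := hTle c hc w
        linarith)
      (tH ω uF * tH ω v / Y ^ 2) (by positivity)
      (fun a ha c hc hac => by
        obtain ⟨haS, _⟩ := hmem a ha
        obtain ⟨hcS, _⟩ := hmem c hc
        have hprod : ∏ w : InfinitePlace K, (w (t a - t c) * (wv ω w v * wv ω w uF) /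
            (wv ω w (u + t a • v) * wv ω w (u + t c • v))) ^ w.mult ≤
            ∏ w : InfinitePlace K, ‖T a w - T c w‖ ^ w.mult := by
          refine Finset.prod_le_prod (fun w _ => ?_) fun w _ => ?_
          · have p1 := hXw w a
            have p2 := hXw w c
            have p3 := hUw w
            have p4 := hVw w
            have p5 : 0 ≤ w (t a - t c) := apply_nonneg _ _
            positivity
          · have p1 := hXw w a
            have p2 := hXw w c
            have p3 := hUw w
            have p4 := hVw w
            have p5 : 0 ≤ w (t a - t c) := apply_nonneg _ _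
            exact pow_le_pow_left₀ (by positivity) (hsepw a ha c hc w) _
        refine le_trans ?_ hprod
        have e1 : ∏ w : InfinitePlace K, (w (t a - t c) * (wv ω w v * wv ω w uF) /
            (wv ω w (u + t a • v) * wv ω w (u + t c • v))) ^ w.mult =
            (∏ w : InfinitePlace K, w (t a - t c) ^ w.mult) * (aN ω v * aN ω uF) /
              (aN ω (u + t a • v) * aN ω (u + t c • v)) := by
          unfold aN
          rw [← Finset.prod_mul_distrib, ← Finset.prod_mul_distrib, ← Finset.prod_mul_distrib,
            ← Finset.prod_div_distrib]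
          refine Finset.prod_congr rfl fun w _ => ?_
          rw [div_pow, mul_pow, mul_pow, mul_pow]
        rw [e1]
        have hsep := fN_sep (hinj a haS c hcS hac) hu hv (hx0 a) (hx0 c)
        have qa := aN_pos hω (hx0 a)
        have qc := aN_pos hω (hx0 c)
        have fa := fN_pos (hx0 a)
        have fc := fN_pos (hx0 c)
        have qu := aN_pos hω hu
        have qv := aN_pos hω hv
        have fu := fN_pos hu
        have fv := fN_pos hv
        have hac2 : tH ω (u + t a • v) * tH ω (u + t c • v) ≤ Y ^ 2 := by
          rw [sq]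
          exact mul_le_mul (hY a haS) (hY c hcS) (tH_pos hω (hx0 c)).le hY0.le
        rw [div_le_div_iff₀ (by positivity) (by positivity)]
        set P := ∏ w : InfinitePlace K, w (t a - t c) ^ w.mult with hP
        have hP0 : 0 ≤ P := Finset.prod_nonneg fun w _ => pow_nonneg (apply_nonneg _ _) _
        unfold tH at hac2 ⊢
        calc aN ω uF * fN uF * (aN ω v * fN v) * (aN ω (u + t a • v) * aN ω (u + t c • v))
            = (fN uF * fN v) * (aN ω uF * aN ω v * (aN ω (u + t a • v) * aN ω (u + t c • v))) := by
              ring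
          _ ≤ (P * (fN (u + t a • v) * fN (u + t c • v))) *
              (aN ω uF * aN ω v * (aN ω (u + t a • v) * aN ω (u + t c • v))) := by
              gcongr
          _ = P * (aN ω v * aN ω uF) * (aN ω (u + t a • v) * fN (u + t a • v) *
              (aN ω (u + t c • v) * fN (u + t c • v))) := by ring
          _ ≤ P * (aN ω v * aN ω uF) * Y ^ 2 := by gcongr)
    rw [InfinitePlace.sum_mult_eq] at hcov
    have e1 : ∏ w : InfinitePlace K, (2 : ℝ) ^ w.mult = 2 ^ d := prod_const_mult 2
    rw [e1] at hcov
    refine hcov.trans ?_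
    rw [← hd, mul_assoc]
    refine mul_le_mul_of_nonneg_left ?_ (by positivity)
    have e2 : (2 : ℝ) ^ d / (tH ω uF * tH ω v / Y ^ 2) =
        2 ^ d * (Y ^ 2 / (tH ω uF * tH ω v)) := by
      field_simp
    rw [e2, mul_add, mul_one]
    have h3 : (1 : ℝ) ≤ 2 ^ d := one_le_pow₀ (by norm_num)
    linarith
  calc (S.card : ℝ) = ∑ b ∈ (Finset.univ : Finset (InfinitePlace K → Bool)),
        (((S.filter fun a => s a = b).card : ℕ) : ℝ) := by
        rw [hcardS]; push_cast; rfl
    _ ≤ ∑ b ∈ (Finset.univ : Finset (InfinitePlace K → Bool)),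
        12 ^ d * 2 ^ d * (1 + Y ^ 2 / (tH ω uF * tH ω v)) := Finset.sum_le_sum hfib
    _ = lineC K * (1 + Y ^ 2 / (tH ω uF * tH ω v)) := by
        rw [Finset.sum_const, nsmul_eq_mul, Finset.card_univ, Fintype.card_fun, Fintype.card_bool]
        push_cast
        unfold lineC
        rw [← hr, ← hd]
        ring

end Pool.Lib18ea5f
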