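import Mathlib
import Pool.Agent.Lib18ea5f.TLine

set_option autoImplicit false
set_option linter.unusedSectionVars false

/-!
Dyadic sums of inverse twisted heights on a line.
-/

namespace Pool.Lib18ea5f

open Finset NumberField

lemma dyadic_sum {α : Type*} (S : Finset α) (h g : α → ℝ) {U : ℝ} (hU : 0 < U) (J : ℕ)
    (hh : ∀ a ∈ S, U ≤ h a ∧ h a ≤ 2 ^ J * U) {B : ℝ}
    (hB : ∀ j ≤ J, ∑ a ∈ S.filter (fun a => 2 ^ j * U ≤ h a ∧ h a < 2 ^ (j + 1) * U), g a ≤ B) :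
    ∑ a ∈ S, g a ≤ (J + 1) * B := by
  classical
  -- the dyadic index
  have hex : ∀ a ∈ S, ∃ j : ℕ, j ≤ J ∧ 2 ^ j * U ≤ h a ∧ h a < 2 ^ (j + 1) * U := by
    intro a ha
    obtain ⟨h1, h2⟩ := hh a ha
    let Q : ℕ → Prop := fun j => h a < 2 ^ (j + 1) * U
    have hQ : ∃ j, Q j := by
      refine ⟨J, lt_of_le_of_lt h2 ?_⟩
      rw [pow_succ]
      have : 0 < 2 ^ J * U := by positivity
      linarith
    refine ⟨Nat.find hQ, Nat.find_min' hQ ?_, ?_, Nat.find_spec hQ⟩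
    · refine lt_of_le_of_lt h2 ?_
      rw [pow_succ]
      have : 0 < 2 ^ J * U := by positivity
      linarith
    · rcases Nat.eq_zero_or_pos (Nat.find hQ) with h0 | h0
      · rw [h0]; simpa using h1
      · have h3 : ¬ Q (Nat.find hQ - 1) := Nat.find_min hQ (by omega)
        simp only [Q, not_lt] at h3
        rwa [Nat.sub_add_cancel h0] at h3
  let jj : α → ℕ := fun a => if ha : a ∈ S then (hex a ha).choose else 0
  have hjj : ∀ a ∈ S, jj a ≤ J ∧ 2 ^ (jj a) * U ≤ h a ∧ h a < 2 ^ (jj a + 1) * U := by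
    intro a ha
    simp only [jj, dif_pos ha]
    exact (hex a ha).choose_spec
  have h1 := Finset.sum_fiberwise_of_maps_to (s := S) (t := Finset.range (J + 1)) (g := jj)
    (fun a ha => Finset.mem_range.mpr (by have := (hjj a ha).1; omega)) g
  rw [← h1]
  calc ∑ j ∈ Finset.range (J + 1), ∑ a ∈ S with jj a = j, g a
      ≤ ∑ _j ∈ Finset.range (J + 1), B := by
        refine Finset.sum_le_sum fun j hj => ?_
        have hjJ : j ≤ J := by have := Finset.mem_range.mp hj; omega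
        refine le_trans (le_of_eq ?_) (hB j hjJ)
        refine Finset.sum_congr ?_ fun _ _ => rfl
        ext a
        simp only [Finset.mem_filter]
        constructor
        · rintro ⟨ha, rfl⟩
          exact ⟨ha, (hjj a ha).2⟩
        · rintro ⟨ha, h3, h4⟩
          refine ⟨ha, ?_⟩
          obtain ⟨_, h5, h6⟩ := hjj a ha
          -- uniqueness
          by_contra hne
          rcases lt_or_gt_of_ne hne with hlt | hgt
          · have : (2 : ℝ) ^ (jj a + 1) ≤ 2 ^ j := pow_le_pow_right₀ (by norm_num) (by omega)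
            have : (2 : ℝ) ^ (jj a + 1) * U ≤ 2 ^ j * U := by gcongr
            linarith
          · have : (2 : ℝ) ^ (j + 1) ≤ 2 ^ (jj a) := pow_le_pow_right₀ (by norm_num) (by omega)
            have : (2 : ℝ) ^ (j + 1) * U ≤ 2 ^ (jj a) * U := by gcongr
            linarith
    _ = (J + 1) * B := by
        rw [Finset.sum_const, Finset.card_range, nsmul_eq_mul]; push_cast; ring

variable {K : Type*} [Field K] [NumberField K]

lemma off_le {ι : Type*} [Finite ι] {ω : ι → ℝ} (hω : ∀ i, 0 < ω i) {u v : ι → K}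
    (hu : offv v u ≠ 0) (s : K) : tH ω (offv v u) ≤ tH ω (u + s • v) := by
  refine tH_mono hω hω hu (add_ne_zero_of_off s hu) fun i hi => ⟨i, Or.inl ?_, le_refl _⟩
  exact off_add s i hi

lemma count_class {α ι : Type*} [Finite ι] {ω : ι → ℝ} (hω : ∀ i, 0 < ω i) {u v : ι → K}
    (hv : v ≠ 0) (hu : offv v u ≠ 0) (S : Finset α) (t : α → K)
    (hinj : ∀ a ∈ S, ∀ b ∈ S, a ≠ b → t a ≠ t b) (j : ℕ) :
    ((S.filter (fun a => 2 ^ j * tH ω (offv v u) ≤ tH ω (u + t a • v) ∧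
      tH ω (u + t a • v) < 2 ^ (j + 1) * tH ω (offv v u))).card : ℝ) ≤
      lineC K * (1 + 4 * 4 ^ j * tH ω (offv v u) / tH ω v) := by
  classical
  have hU := tH_pos hω hu
  have hV := tH_pos hω hv
  have h1 := tline_count hω hv hu
    (S.filter (fun a => 2 ^ j * tH ω (offv v u) ≤ tH ω (u + t a • v) ∧
      tH ω (u + t a • v) < 2 ^ (j + 1) * tH ω (offv v u))) t
    (fun a ha b hb => hinj a (Finset.mem_filter.mp ha).1 b (Finset.mem_filter.mp hb).1)
    (Y := 2 ^ (j + 1) * tH ω (offv v u)) (by positivity)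
    (fun a ha => (Finset.mem_filter.mp ha).2.2.le)
  refine h1.trans (le_of_eq ?_)
  have e : (2 ^ (j + 1) * tH ω (offv v u)) ^ 2 / (tH ω (offv v u) * tH ω v) =
      4 * 4 ^ j * tH ω (offv v u) / tH ω v := by
    have e4 : (4 : ℝ) ^ j = 2 ^ j * 2 ^ j := by
      rw [← mul_pow]; norm_num
    rw [e4, pow_succ]
    field_simp
    ring
  rw [e]

theorem step2 {α ι : Type*} [Finite ι] {ω : ι → ℝ} (hω : ∀ i, 0 < ω i) {u v : ι → K}
    (hv : v ≠ 0) (hu : offv v u ≠ 0) (S : Finset α) (t : α → K)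
    (hinj : ∀ a ∈ S, ∀ b ∈ S, a ≠ b → t a ≠ t b) (J : ℕ)
    (hVU : tH ω v ≤ tH ω (offv v u))
    (hJ : ∀ a ∈ S, tH ω (u + t a • v) ≤ 2 ^ J * tH ω (offv v u)) :
    ∑ a ∈ S, ((tH ω (u + t a • v)) ^ 2)⁻¹ ≤
      (J + 1) * (5 * lineC K / (tH ω (offv v u) * tH ω v)) := by
  classical
  have hU := tH_pos hω hu
  have hV := tH_pos hω hv
  have hC := one_le_lineC K
  set U := tH ω (offv v u) with hUdef
  set V := tH ω v with hVdef
  refine dyadic_sum S (fun a => tH ω (u + t a • v)) _ hU J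
    (fun a ha => ⟨off_le hω hu _, hJ a ha⟩) fun j _ => ?_
  have hc := count_class hω hv hu S t hinj j
  rw [← hUdef, ← hVdef] at hc
  have hpt : ∀ a ∈ S.filter (fun a => 2 ^ j * U ≤ tH ω (u + t a • v) ∧
      tH ω (u + t a • v) < 2 ^ (j + 1) * U),
      ((tH ω (u + t a • v)) ^ 2)⁻¹ ≤ ((2 ^ j * U) ^ 2)⁻¹ := by
    intro a ha
    have h1 := (Finset.mem_filter.mp ha).2.1
    have h2 : 0 < 2 ^ j * U := by positivity
    gcongr
  refine (Finset.sum_le_card_nsmul _ _ _ hpt).trans ?_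
  rw [nsmul_eq_mul]
  refine (mul_le_mul_of_nonneg_right hc (by positivity)).trans ?_
  have e4 : (4 : ℝ) ^ j = 2 ^ j * 2 ^ j := by rw [← mul_pow]; norm_num
  have hj1 : (1 : ℝ) ≤ 4 ^ j := one_le_pow₀ (by norm_num)
  have e1 : lineC K * (1 + 4 * 4 ^ j * U / V) * ((2 ^ j * U) ^ 2)⁻¹ =
      lineC K * (1 / (4 ^ j * U ^ 2) + 4 / (U * V)) := by
    rw [e4]; field_simp
  rw [e1]
  have e2 : 1 / (4 ^ j * U ^ 2) ≤ 1 / (U * V) := by
    apply one_div_le_one_div_of_le (by positivity)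
    calc U * V ≤ U * U := by gcongr
      _ = 1 * U ^ 2 := by ring
      _ ≤ 4 ^ j * U ^ 2 := by gcongr
  have e3 : 5 * lineC K / (U * V) = lineC K * (1 / (U * V) + 4 / (U * V)) := by
    field_simp; ring
  rw [e3]
  gcongr

theorem step1 {α ι : Type*} [Finite ι] {ω : ι → ℝ} (hω : ∀ i, 0 < ω i) {u v : ι → K}
    (hv : v ≠ 0) (hu : offv v u ≠ 0) (S : Finset α) (t : α → K)
    (hinj : ∀ a ∈ S, ∀ b ∈ S, a ≠ b → t a ≠ t b) (J : ℕ)
    (hV1 : tH ω v ≤ 1) (h1 : ∀ a ∈ S, tH ω (u + t a • v) ≤ 1)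
    (hJ : 1 ≤ 2 ^ J * tH ω (offv v u)) :
    ∑ a ∈ S, (tH ω (u + t a • v))⁻¹ ≤
      (J + 1) * (5 * lineC K / (tH ω (offv v u) * tH ω v)) := by
  classical
  have hU := tH_pos hω hu
  have hV := tH_pos hω hv
  have hC := one_le_lineC K
  set U := tH ω (offv v u) with hUdef
  set V := tH ω v with hVdef
  refine dyadic_sum S (fun a => tH ω (u + t a • v)) _ hU J
    (fun a ha => ⟨off_le hω hu _, (h1 a ha).trans hJ⟩) fun j _ => ?_
  rcases (S.filter (fun a => 2 ^ j * U ≤ tH ω (u + t a • v) ∧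
      tH ω (u + t a • v) < 2 ^ (j + 1) * U)).eq_empty_or_nonempty with he | ⟨a0, ha0⟩
  · rw [he, Finset.sum_empty]
    positivity
  have hjU : 2 ^ j * U ≤ 1 := by
    obtain ⟨hS, h2, _⟩ := Finset.mem_filter.mp ha0
    exact h2.trans (h1 a0 hS)
  have hc := count_class hω hv hu S t hinj j
  rw [← hUdef, ← hVdef] at hc
  have hpt : ∀ a ∈ S.filter (fun a => 2 ^ j * U ≤ tH ω (u + t a • v) ∧
      tH ω (u + t a • v) < 2 ^ (j + 1) * U),
      (tH ω (u + t a • v))⁻¹ ≤ (2 ^ j * U)⁻¹ := by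
    intro a ha
    have h1 := (Finset.mem_filter.mp ha).2.1
    have h2 : 0 < 2 ^ j * U := by positivity
    gcongr
  refine (Finset.sum_le_card_nsmul _ _ _ hpt).trans ?_
  rw [nsmul_eq_mul]
  refine (mul_le_mul_of_nonneg_right hc (by positivity)).trans ?_
  have e4 : (4 : ℝ) ^ j = 2 ^ j * 2 ^ j := by rw [← mul_pow]; norm_num
  have hj1 : (1 : ℝ) ≤ 2 ^ j := one_le_pow₀ (by norm_num)
  have e1 : lineC K * (1 + 4 * 4 ^ j * U / V) * (2 ^ j * U)⁻¹ =
      lineC K * (1 / (2 ^ j * U) + 4 * 2 ^ j / V) := by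
    rw [e4]; field_simp
  rw [e1]
  have e2 : 1 / (2 ^ j * U) ≤ 1 / (U * V) := by
    apply one_div_le_one_div_of_le (by positivity)
    calc U * V ≤ U * 1 := by gcongr
      _ = 1 * U := by ring
      _ ≤ 2 ^ j * U := by gcongr
  have e5 : 4 * 2 ^ j / V ≤ 4 / (U * V) := by
    rw [div_le_div_iff₀ hV (by positivity)]
    calc 4 * 2 ^ j * (U * V) = 4 * (2 ^ j * U) * V := by ring
      _ ≤ 4 * 1 * V := by gcongr
      _ = 4 * V := by ring
  have e3 : 5 * lineC K / (U * V) = lineC K * (1 / (U * V) + 4 / (U * V)) := by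
    field_simp; ring
  rw [e3]
  gcongr

end Pool.Lib18ea5f
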