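import Mathlib
import Pool.Agent.Lib18ea5f.TStep

set_option autoImplicit false
set_option linter.unusedSectionVars false

/-!
Counting planes of bounded twisted height.
-/

namespace Pool.Lib18ea5f

open Finset NumberField

variable {K : Type*} [Field K] [NumberField K] {m : ℕ}

/-- mask -/
def msk (k : ℕ) (x : Fin (m + 2) → K) : Fin (m + 2) → K := fun i => if (i : ℕ) < k then x i else 0

/-- allowed pairs -/
def alw (k : ℕ) (q : Fin (m + 2) × Fin (m + 2)) : Prop :=
  ((q.1 : ℕ) < k ∧ (q.2 : ℕ) < k) ∨ q.1 = 1 ∨ q.2 = 1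

instance (k : ℕ) (q : Fin (m + 2) × Fin (m + 2)) : Decidable (alw k q) := by
  unfold alw; infer_instance

/-- masked wedge -/
def zvec (k : ℕ) (u v : Fin (m + 2) → K) : Fin (m + 2) × Fin (m + 2) → K :=
  fun q => if alw k q then u q.1 * v q.2 - u q.2 * v q.1 else 0

/-- weights of pairs -/
def pw {ι : Type*} (ω : ι → ℝ) : ι × ι → ℝ := fun q => ω q.1 * ω q.2

lemma pw_pos {ι : Type*} {ω : ι → ℝ} (hω : ∀ i, 0 < ω i) : ∀ q, 0 < pw ω q :=
  fun q => mul_pos (hω q.1) (hω q.2)

lemma msk_msk {j k : ℕ} (hjk : j ≤ k) (x : Fin (m + 2) → K) : msk j (msk k x) = msk j x := by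
  funext i
  unfold msk
  by_cases h : (i : ℕ) < j
  · rw [if_pos h, if_pos (by omega), if_pos h]
  · rw [if_neg h, if_neg h]

lemma msk_full (x : Fin (m + 2) → K) : msk (m + 2) x = x := by
  funext i
  unfold msk
  rw [if_pos i.2]

lemma msk_zero {k : ℕ} (hk : 2 ≤ k) (x : Fin (m + 2) → K) : msk k x 0 = x 0 := by
  unfold msk
  rw [if_pos]
  simp only [Fin.val_zero]; omega

lemma msk_one {k : ℕ} (hk : 2 ≤ k) (x : Fin (m + 2) → K) : msk k x 1 = x 1 := by
  unfold msk
  rw [if_pos]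
  have : ((1 : Fin (m + 2)) : ℕ) = 1 := rfl
  rw [this]; omega

lemma msk_succ {k : ℕ} (hk : k < m + 2) (x : Fin (m + 2) → K) :
    msk (k + 1) x = msk k x + x ⟨k, hk⟩ • (Pi.single (⟨k, hk⟩ : Fin (m + 2)) (1 : K)) := by
  funext i
  simp only [Pi.add_apply, Pi.smul_apply, smul_eq_mul]
  unfold msk
  by_cases h : (i : ℕ) < k
  · rw [if_pos (by omega), if_pos h, Pi.single_eq_of_ne, mul_zero, add_zero]
    intro h2
    rw [h2] at h
    exact lt_irrefl _ h
  · by_cases h3 : i = ⟨k, hk⟩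
    · rw [h3, if_pos (by simp), if_neg (by simp), Pi.single_eq_same]; ring
    · rw [if_neg, if_neg h, Pi.single_eq_of_ne h3]
      · ring
      · intro h4
        apply h3
        apply Fin.ext
        simp only
        omega

/-- height of a standard vector -/
lemma tH_single {ι : Type*} [Finite ι] [DecidableEq ι] {ω : ι → ℝ} (hω : ∀ i, 0 < ω i) (i : ι) :
    tH ω (Pi.single i (1 : K)) = ((ω i) ^ Module.finrank ℚ K)⁻¹ := by
  have hne : Nonempty ι := ⟨i⟩
  have h0 : (Pi.single i (1 : K) : ι → K) ≠ 0 := by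
    intro h
    have := congrFun h i
    simp at this
  have hw : ∀ w : InfinitePlace K, wv ω w (Pi.single i (1 : K)) = (ω i)⁻¹ := by
    intro w
    apply le_antisymm
    · refine wv_le w _ fun j => ?_
      by_cases hj : j = i
      · rw [hj, Pi.single_eq_same, map_one, one_div]
      · rw [Pi.single_eq_of_ne hj, map_zero, zero_div]
        exact (inv_pos.mpr (hω i)).le
    · have := le_wv (ω := ω) w (Pi.single i (1 : K)) i
      rwa [Pi.single_eq_same, map_one, one_div] at this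
  have hf : fN (Pi.single i (1 : K) : ι → K) = 1 := by
    unfold fN
    refine finprod_eq_one_of_forall_eq_one fun v => ?_
    apply le_antisymm
    · refine ciSup_le fun j => ?_
      by_cases hj : j = i
      · rw [hj, Pi.single_eq_same, map_one]
      · rw [Pi.single_eq_of_ne hj, map_zero]; norm_num
    · have := fsup_le v (Pi.single i (1 : K)) i
      rwa [Pi.single_eq_same, map_one] at this
  unfold tH aN
  simp_rw [hw]
  rw [prod_const_mult, hf, mul_one, inv_pow]

lemma single_le_tH {ι : Type*} [Finite ι] [DecidableEq ι] {ω : ι → ℝ} (hω : ∀ i, 0 < ω i)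
    {x : ι → K} (i : ι) (hi : x i = 1) :
    ((ω i) ^ Module.finrank ℚ K)⁻¹ ≤ tH ω x := by
  rw [← tH_single (K := K) hω i]
  have h0 : (Pi.single i (1 : K) : ι → K) ≠ 0 := by
    intro h
    have := congrFun h i
    simp at this
  have hx : x ≠ 0 := by
    intro h
    rw [h] at hi
    simp at hi
  refine tH_mono hω hω h0 hx fun j hj => ?_
  have hji : j = i := by
    by_contra h
    exact hj (Pi.single_eq_of_ne h _)
  subst hji
  exact ⟨j, Or.inl (by rw [Pi.single_eq_same, hi]), le_refl _⟩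

lemma chain_bound (f c : ℕ → ℝ) (hc : ∀ k, 0 ≤ c k) (M : ℕ) (h : ∀ k, 2 ≤ k → k < M + 2 → f (k + 1) ≤ c k * f k) :
    f (M + 2) ≤ (∏ k ∈ Finset.Ico 2 (M + 2), c k) * f 2 := by
  induction M with
  | zero => simp
  | succ M ih =>
    have h1 := ih fun k hk hk' => h k hk (by omega)
    have h2 := h (M + 2) (by omega) (by omega)
    rw [Finset.prod_Ico_succ_top (by omega), show M + 1 + 2 = M + 2 + 1 by ring]
    calc f (M + 2 + 1) ≤ c (M + 2) * f (M + 2) := h2
      _ ≤ c (M + 2) * ((∏ k ∈ Finset.Ico 2 (M + 2), c k) * f 2) :=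
          mul_le_mul_of_nonneg_left h1 (hc _)
      _ = _ := by ring

/-- summing over the fibres of a mask -/
lemma sum_msk_le [DecidableEq K] (S : Finset (Fin (m + 2) → K)) (k : ℕ) (F G : (Fin (m + 2) → K) → ℝ)
    (h : ∀ u' ∈ S.image (msk k), ∑ u ∈ (S.image (msk (k + 1))).filter (fun u => msk k u = u'), F u
      ≤ G u') :
    ∑ u ∈ S.image (msk (k + 1)), F u ≤ ∑ u ∈ S.image (msk k), G u := by
  classical
  have h1 : ∀ u ∈ S.image (msk (k + 1)), msk k u ∈ S.image (msk k) := by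
    intro u hu
    obtain ⟨w, hw, rfl⟩ := Finset.mem_image.mp hu
    rw [msk_msk (by omega)]
    exact Finset.mem_image_of_mem _ hw
  rw [← Finset.sum_fiberwise_of_maps_to h1]
  exact Finset.sum_le_sum h

/-- data for the chains -/
structure Wts (K : Type*) [Field K] [NumberField K] (m : ℕ) (ω : ℕ → ℝ) (J : ℕ) : Prop where
  pos : ∀ k, 0 < ω k
  h01 : ω 0 ≤ ω 1
  h1 : ∀ k, 2 ≤ k → k < m + 2 → ω 1 ≤ ω k
  hJ : (ω 0 * ω 1) ^ Module.finrank ℚ K ≤ 2 ^ J

/-- The sum over the first rows. -/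
theorem alpha_chain [DecidableEq K] {ω : ℕ → ℝ} {J : ℕ} (hw : Wts K m ω J)
    (S : Finset (Fin (m + 2) → K))
    (h0 : ∀ u ∈ S, u 0 = 1) (h1 : ∀ u ∈ S, u 1 = 0)
    (hS : ∀ u ∈ S, tH (fun i : Fin (m + 2) => ω i) u ≤ ω 1 ^ Module.finrank ℚ K) :
    ∑ u ∈ S, ((tH (fun i : Fin (m + 2) => ω i) u) ^ 2)⁻¹ *
      ∏ k ∈ Finset.Ico 2 (m + 2), (tH (fun i : Fin (m + 2) => ω i) (msk k u))⁻¹ ≤
      (∏ k ∈ Finset.Ico 2 (m + 2), ((J + 1) * (5 * lineC K) * ω k ^ Module.finrank ℚ K)) *
        (ω 0 ^ Module.finrank ℚ K) ^ 2 := by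
  classical
  set d := Module.finrank ℚ K with hd
  set wt : Fin (m + 2) → ℝ := fun i => ω i with hwt
  have hpos : ∀ i, 0 < wt i := fun i => hw.pos _
  have hC := one_le_lineC K
  let f : ℕ → ℝ := fun k => ∑ u ∈ S.image (msk k), ((tH wt (msk k u)) ^ 2)⁻¹ *
      ∏ j ∈ Finset.Ico 2 k, (tH wt (msk j u))⁻¹
  have hfull : f (m + 2) = ∑ u ∈ S, ((tH wt u) ^ 2)⁻¹ *
      ∏ k ∈ Finset.Ico 2 (m + 2), (tH wt (msk k u))⁻¹ := by
    simp only [f]
    have e : S.image (msk (m + 2)) = S := by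
      have : (msk (m + 2) : (Fin (m + 2) → K) → _) = id := by funext x; exact msk_full x
      rw [this, Finset.image_id]
    rw [e]
    refine Finset.sum_congr rfl fun u _ => ?_
    rw [msk_full]
  have hmem : ∀ k, 2 ≤ k → ∀ u ∈ S.image (msk k), u 0 = 1 ∧ u 1 = 0 ∧ msk k u = u ∧
      tH wt u ≤ ω 1 ^ d := by
    intro k hk u hu
    obtain ⟨w, hwS, rfl⟩ := Finset.mem_image.mp hu
    refine ⟨by rw [msk_zero hk]; exact h0 w hwS, by rw [msk_one hk]; exact h1 w hwS,
      msk_msk le_rfl w, ?_⟩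
    refine le_trans ?_ (hS w hwS)
    have hne1 : msk k w ≠ 0 := by
      intro h
      have := congrFun h 0
      rw [msk_zero hk, h0 w hwS] at this
      simp at this
    have hne2 : w ≠ 0 := by
      intro h
      have := h0 w hwS
      rw [h] at this
      simp at this
    refine tH_mono hpos hpos hne1 hne2 fun i hi => ⟨i, Or.inl ?_, le_refl _⟩
    unfold msk at hi ⊢
    by_cases hik : (i : ℕ) < k
    · rw [if_pos hik]
    · rw [if_neg hik] at hi
      exact absurd rfl hi
  have hstep : ∀ k, 2 ≤ k → k < m + 2 → f (k + 1) ≤ ((J + 1) * (5 * lineC K) * ω k ^ d) * f k := by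
    intro k hk2 hk
    simp only [f]
    rw [Finset.mul_sum]
    apply sum_msk_le S k
    intro u' hu'
    obtain ⟨hu0, hu1, hum, huB⟩ := hmem k hk2 u' hu'
    set e : Fin (m + 2) → K := Pi.single (⟨k, hk⟩ : Fin (m + 2)) (1 : K) with he
    have he0 : e ≠ 0 := by
      intro h
      have := congrFun h ⟨k, hk⟩
      rw [he, Pi.single_eq_same] at this
      simp at this
    have hoff : offv e u' = u' := by
      funext i
      unfold offv
      by_cases hi : e i = 0
      · rw [if_pos hi]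
      · rw [if_neg hi]
        have hik : i = ⟨k, hk⟩ := by
          by_contra h
          exact hi (by rw [he]; exact Pi.single_eq_of_ne h _)
        rw [← hum, hik]
        unfold msk
        rw [if_neg (by simp)]
    have hu'0 : u' ≠ 0 := by
      intro h; rw [h] at hu0; simp at hu0
    have hoff0 : offv e u' ≠ 0 := by rw [hoff]; exact hu'0
    have hVe : tH wt e = (ω k ^ d)⁻¹ := by
      rw [he, tH_single hpos]
    have hUlow : (ω 0 ^ d)⁻¹ ≤ tH wt u' := by
      have := single_le_tH (K := K) (ω := wt) hpos (x := u') 0 hu0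
      simpa [hwt] using this
    have hmemf : ∀ u ∈ (S.image (msk (k + 1))).filter (fun u => msk k u = u'),
        u = u' + u ⟨k, hk⟩ • e ∧ tH wt u ≤ ω 1 ^ d ∧ msk (k + 1) u = u := by
      intro u hu
      obtain ⟨huS, hum'⟩ := Finset.mem_filter.mp hu
      obtain ⟨_, _, hum1, huB1⟩ := hmem (k + 1) (by omega) u huS
      refine ⟨?_, huB1, hum1⟩
      have := msk_succ hk u
      rw [hum1, hum'] at this
      exact this
    have hω0 := hw.pos 0
    have hω1 := hw.pos 1
    have hωk := hw.pos k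
    have hω0k : ω 0 ≤ ω k := hw.h01.trans (hw.h1 k hk2 hk)
    have hst := step2 (K := K) hpos he0 hoff0
      ((S.image (msk (k + 1))).filter (fun u => msk k u = u')) (fun u => u ⟨k, hk⟩)
      (fun a ha b hb hab heq => hab (by
        rw [(hmemf a ha).1, (hmemf b hb).1, heq])) J
      (by
        rw [hoff, hVe]
        refine le_trans ?_ hUlow
        gcongr)
      (fun a ha => by
        have e1 := (hmemf a ha).1
        rw [← e1, hoff]
        refine (hmemf a ha).2.1.trans ?_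
        calc ω 1 ^ d = (ω 0 * ω 1) ^ d * (ω 0 ^ d)⁻¹ := by
              rw [mul_pow]; field_simp
          _ ≤ 2 ^ J * tH wt u' := by
              have h3 : 0 < (ω 0 ^ d)⁻¹ := by positivity
              exact mul_le_mul hw.hJ hUlow h3.le (by positivity))
    rw [hoff, hVe] at hst
    have hrew : ∀ u ∈ (S.image (msk (k + 1))).filter (fun u => msk k u = u'),
        ((tH wt (msk (k + 1) u)) ^ 2)⁻¹ * ∏ j ∈ Finset.Ico 2 (k + 1), (tH wt (msk j u))⁻¹ =
        ((tH wt (u' + u ⟨k, hk⟩ • e)) ^ 2)⁻¹ *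
          ∏ j ∈ Finset.Ico 2 (k + 1), (tH wt (msk j u'))⁻¹ := by
      intro u hu
      obtain ⟨e1, _, e2⟩ := hmemf u hu
      rw [e2, ← e1]
      congr 1
      refine Finset.prod_congr rfl fun j hj => ?_
      have hjk : j ≤ k := by have := (Finset.mem_Ico.mp hj).2; omega
      rw [← (Finset.mem_filter.mp hu).2, msk_msk hjk]
    rw [Finset.sum_congr rfl hrew, ← Finset.sum_mul]
    have hUpos := tH_pos hpos hu'0
    have hPnn : 0 ≤ ∏ j ∈ Finset.Ico 2 (k + 1), (tH wt (msk j u'))⁻¹ := by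
      refine Finset.prod_nonneg fun j hj => inv_nonneg.mpr ?_
      have hj2 : 2 ≤ j := (Finset.mem_Ico.mp hj).1
      have hne1 : msk j u' ≠ 0 := by
        intro h
        have := congrFun h 0
        rw [msk_zero hj2, hu0] at this
        simp at this
      exact (tH_pos hpos hne1).le
    refine (mul_le_mul_of_nonneg_right hst hPnn).trans (le_of_eq ?_)
    rw [Finset.prod_Ico_succ_top hk2, hum]
    field_simp
  have hchain := chain_bound f (fun k => (J + 1) * (5 * lineC K) * ω k ^ d)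
    (fun k => by have := hw.pos k; positivity) m hstep
  rw [hfull] at hchain
  refine hchain.trans ?_
  have h2 : f 2 ≤ (ω 0 ^ d) ^ 2 := by
    simp only [f]
    have hω0 := hw.pos 0
    have hsub : S.image (msk 2) ⊆ {Pi.single 0 1} := by
      intro u hu
      obtain ⟨hu0, hu1, hum, _⟩ := hmem 2 le_rfl u hu
      rw [Finset.mem_singleton]
      funext i
      by_cases hi : i = 0
      · rw [hi, Pi.single_eq_same, hu0]
      · rw [Pi.single_eq_of_ne hi]
        by_cases hi1 : i = 1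
        · rw [hi1, hu1]
        · rw [← hum]
          unfold msk
          rw [if_neg]
          intro h
          have h3 : (i : ℕ) ≠ 0 := fun h => hi (Fin.ext (by simpa using h))
          have h4 : (i : ℕ) ≠ 1 := fun h => hi1 (Fin.ext (by simpa using h))
          omega
    calc ∑ u ∈ S.image (msk 2), ((tH wt (msk 2 u)) ^ 2)⁻¹ * ∏ j ∈ Finset.Ico 2 2, (tH wt (msk j u))⁻¹
        = ∑ u ∈ S.image (msk 2), ((tH wt u) ^ 2)⁻¹ := by
          refine Finset.sum_congr rfl fun u hu => ?_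
          rw [(hmem 2 le_rfl u hu).2.2.1]
          simp
      _ ≤ ∑ u ∈ ({Pi.single 0 1} : Finset (Fin (m + 2) → K)), ((tH wt u) ^ 2)⁻¹ :=
          Finset.sum_le_sum_of_subset_of_nonneg hsub fun _ _ _ => by positivity
      _ = (ω 0 ^ d) ^ 2 := by
          rw [Finset.sum_singleton, tH_single hpos]
          simp [hwt, hd]
  have hPnn : 0 ≤ ∏ k ∈ Finset.Ico 2 (m + 2), ((J + 1) * (5 * lineC K) * ω k ^ d) :=
    Finset.prod_nonneg fun k _ => by have := hw.pos k; positivity
  exact mul_le_mul_of_nonneg_left h2 hPnn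

lemma zvec_eq {k : ℕ} (u v : Fin (m + 2) → K) {q : Fin (m + 2) × Fin (m + 2)} (h : alw k q) :
    zvec k u v q = u q.1 * v q.2 - u q.2 * v q.1 := by
  unfold zvec
  rw [if_pos h]

lemma alw_one_right (k : ℕ) (i : Fin (m + 2)) : alw k (i, 1) := Or.inr (Or.inr rfl)

lemma zvec_msk {k l : ℕ} (hkl : k ≤ l) (hk : 2 ≤ k) {u v : Fin (m + 2) → K} (hu1 : u 1 = 0)
    (q : Fin (m + 2) × Fin (m + 2)) (hq : alw k q) :
    zvec k u (msk l v) q = zvec k u v q := by
  unfold zvec
  rw [if_pos hq, if_pos hq]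
  have h11 : ((1 : Fin (m + 2)) : ℕ) = 1 := rfl
  rcases hq with ⟨h1, h2⟩ | h | h
  · have e1 : msk l v q.1 = v q.1 := by unfold msk; rw [if_pos (by omega)]
    have e2 : msk l v q.2 = v q.2 := by unfold msk; rw [if_pos (by omega)]
    rw [e1, e2]
  · rw [h, hu1]
    have e1 : msk l v 1 = v 1 := by unfold msk; rw [if_pos (by rw [h11]; omega)]
    rw [e1]; ring
  · rw [h, hu1]
    have e1 : msk l v 1 = v 1 := by unfold msk; rw [if_pos (by rw [h11]; omega)]
    rw [e1]; ring

lemma zvec_mono {k l : ℕ} (hkl : k ≤ l) (hk : 2 ≤ k) {u v : Fin (m + 2) → K} (hu1 : u 1 = 0)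
    (q : Fin (m + 2) × Fin (m + 2)) (hq : zvec k u (msk k v) q ≠ 0) :
    zvec l u v q = zvec k u (msk k v) q := by
  have hal : alw k q := by
    by_contra h
    apply hq
    unfold zvec
    rw [if_neg h]
  rw [zvec_msk le_rfl hk hu1 q hal]
  unfold zvec
  rw [if_pos hal, if_pos]
  rcases hal with ⟨h1, h2⟩ | h | h
  · exact Or.inl ⟨by omega, by omega⟩
  · exact Or.inr (Or.inl h)
  · exact Or.inr (Or.inr h)

lemma zvec_01 {k : ℕ} {u v : Fin (m + 2) → K} (hu0 : u 0 = 1) (hu1 : u 1 = 0)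
    (hv1 : v 1 = 1) : zvec k u v (0, 1) = 1 := by
  rw [zvec_eq u v (alw_one_right k 0)]
  simp only [hu0, hu1, hv1]
  ring

lemma zvec_ne_zero {k : ℕ} {u v : Fin (m + 2) → K} (hu0 : u 0 = 1) (hu1 : u 1 = 0)
    (hv1 : v 1 = 1) : zvec k u v ≠ 0 := by
  intro h
  have := zvec_01 (k := k) hu0 hu1 hv1
  rw [h] at this
  simp at this

/-- The sum over the second rows. -/
theorem beta_chain [DecidableEq K] {ω : ℕ → ℝ} {J : ℕ} (hw : Wts K m ω J)
    (u : Fin (m + 2) → K) (hu0 : u 0 = 1) (hu1 : u 1 = 0)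
    (T : Finset (Fin (m + 2) → K))
    (hv0 : ∀ v ∈ T, v 0 = 0) (hv1 : ∀ v ∈ T, v 1 = 1)
    (hT : ∀ v ∈ T, tH (pw (fun i : Fin (m + 2) => ω i)) (zvec (m + 2) u v) ≤ 1) :
    (T.card : ℝ) ≤
      (∏ k ∈ Finset.Ico 2 (m + 2), ((J + 1) * (5 * lineC K) * ω k ^ Module.finrank ℚ K)) *
      (ω 1 ^ Module.finrank ℚ K) * (tH (fun i : Fin (m + 2) => ω i) u)⁻¹ *
        ∏ k ∈ Finset.Ico 2 (m + 2), (tH (fun i : Fin (m + 2) => ω i) (msk k u))⁻¹ := by
  classical
  set d := Module.finrank ℚ K with hd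
  set wt : Fin (m + 2) → ℝ := fun i => ω i with hwt
  have hpos : ∀ i, 0 < wt i := fun i => hw.pos _
  have hppos : ∀ q, 0 < pw wt q := pw_pos hpos
  have hC := one_le_lineC K
  have hune : u ≠ 0 := by
    intro h; rw [h] at hu0; simp at hu0
  have hmskne : ∀ k, 2 ≤ k → msk k u ≠ 0 := by
    intro k hk h
    have := congrFun h 0
    rw [msk_zero hk, hu0] at this
    simp at this
  have hAk : ∀ k, 2 ≤ k → 0 < tH wt (msk k u) := fun k hk => tH_pos hpos (hmskne k hk)
  rcases T.eq_empty_or_nonempty with hTe | ⟨v0, hv0T⟩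
  · rw [hTe, Finset.card_empty, Nat.cast_zero]
    refine mul_nonneg (mul_nonneg (mul_nonneg (Finset.prod_nonneg fun k _ => ?_) ?_) ?_)
      (Finset.prod_nonneg fun k hk => inv_nonneg.mpr (hAk k (Finset.mem_Ico.mp hk).1).le)
    · have := hw.pos k; positivity
    · have := hw.pos 1; positivity
    · exact inv_nonneg.mpr (tH_pos hpos hune).le
  -- height of u from the coordinates (i, 1)
  have hscale : tH wt u * (ω 1 ^ d)⁻¹ = tH (fun i => ω 1 * wt i) u := by
    have h1 := tH_scale hpos (hw.pos 1) u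
    rw [← h1, ← hd]
    have h2 : ω 1 ^ d ≠ 0 := (pow_pos (hw.pos 1) d).ne'
    rw [mul_assoc, mul_inv_cancel₀ h2, mul_one]
  have hω1pos := hw.pos 1
  have hω0pos := hw.pos 0
  have hlowZ : ∀ k, ∀ v : Fin (m + 2) → K, v 1 = 1 →
      tH wt u * (ω 1 ^ d)⁻¹ ≤ tH (pw wt) (zvec k u v) := by
    intro k v hv
    rw [hscale]
    refine tH_mono (fun i => mul_pos (hw.pos 1) (hpos i)) hppos hune
      (zvec_ne_zero hu0 hu1 hv) fun i _ => ⟨(i, 1), Or.inl ?_, ?_⟩
    · rw [zvec_eq u v (alw_one_right k i)]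
      simp only [hv, hu1]; ring
    · simp only [pw, hwt]
      rw [mul_comm]
      rfl
  have huB : tH wt u ≤ ω 1 ^ d := by
    have h1 := hlowZ (m + 2) v0 (hv1 v0 hv0T)
    have h2 := h1.trans (hT v0 hv0T)
    rwa [← div_eq_mul_inv, div_le_one (by positivity)] at h2
  let f : ℕ → ℝ := fun k => ∑ v ∈ T.image (msk k), (tH (pw wt) (zvec k u v))⁻¹
  have hfull : (T.card : ℝ) ≤ f (m + 2) := by
    simp only [f]
    have e : T.image (msk (m + 2)) = T := by
      have : (msk (m + 2) : (Fin (m + 2) → K) → _) = id := by funext x; exact msk_full x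
      rw [this, Finset.image_id]
    rw [e, Finset.card_eq_sum_ones]
    push_cast
    refine Finset.sum_le_sum fun v hv => ?_
    have h1 : 0 < tH (pw wt) (zvec (m + 2) u v) :=
      tH_pos hppos (zvec_ne_zero hu0 hu1 (hv1 v hv))
    exact (one_le_inv₀ h1).mpr (hT v hv)
  have hmem : ∀ k, 2 ≤ k → k ≤ m + 2 → ∀ v ∈ T.image (msk k), v 0 = 0 ∧ v 1 = 1 ∧ msk k v = v ∧
      tH (pw wt) (zvec k u v) ≤ 1 := by
    intro k hk hkm v hv
    obtain ⟨w, hwT, rfl⟩ := Finset.mem_image.mp hv
    have g1 : msk k w 1 = 1 := by rw [msk_one hk]; exact hv1 w hwT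
    refine ⟨by rw [msk_zero hk]; exact hv0 w hwT, g1, msk_msk le_rfl w, ?_⟩
    refine le_trans ?_ (hT w hwT)
    refine tH_mono hppos hppos (zvec_ne_zero hu0 hu1 g1) (zvec_ne_zero hu0 hu1 (hv1 w hwT))
      fun q hq => ⟨q, Or.inl ?_, le_refl _⟩
    exact zvec_mono hkm hk hu1 q hq
  have hstep : ∀ k, 2 ≤ k → k < m + 2 → f (k + 1) ≤
      ((J + 1) * (5 * lineC K) * ω k ^ d * (if 2 ≤ k then (tH wt (msk k u))⁻¹ else 0)) * f k := by
    intro k hk2 hk
    rw [if_pos hk2]
    simp only [f]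
    rw [Finset.mul_sum]
    apply sum_msk_le T k
    intro v' hv'
    obtain ⟨hv'0, hv'1, hvm, hvZ⟩ := hmem k hk2 hk.le v' hv'
    set e : Fin (m + 2) → K := Pi.single (⟨k, hk⟩ : Fin (m + 2)) (1 : K) with he
    have hek : e ⟨k, hk⟩ = 1 := by rw [he, Pi.single_eq_same]
    have hene : ∀ i, i ≠ ⟨k, hk⟩ → e i = 0 := fun i hi => by rw [he]; exact Pi.single_eq_of_ne hi _
    set P := zvec (k + 1) u v' with hP
    set Q := zvec (k + 1) u e with hQ
    have hωk := hw.pos k
    have hω1k := hw.h1 k hk2 hk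
    -- linearity
    have hlin : ∀ v : Fin (m + 2) → K, v = v' + v ⟨k, hk⟩ • e →
        zvec (k + 1) u v = P + v ⟨k, hk⟩ • Q := by
      intro v hv
      funext q
      simp only [Pi.add_apply, Pi.smul_apply, smul_eq_mul, hP, hQ]
      have e1 : v q.1 = v' q.1 + v ⟨k, hk⟩ * e q.1 := congrFun hv q.1
      have e2 : v q.2 = v' q.2 + v ⟨k, hk⟩ * e q.2 := congrFun hv q.2
      unfold zvec
      by_cases hq : alw (k + 1) q
      · rw [if_pos hq, if_pos hq, if_pos hq, e1, e2]; ring
      · rw [if_neg hq, if_neg hq, if_neg hq]; ring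
    have hne1k : (1 : Fin (m + 2)) ≠ ⟨k, hk⟩ := by
      intro h
      have h1 := congrArg Fin.val h
      have h11 : ((1 : Fin (m + 2)) : ℕ) = 1 := rfl
      rw [h11] at h1
      simp only at h1
      omega
    -- Q on allowed k pairs is zero
    have hQ0 : ∀ q, alw k q → Q q = 0 := by
      intro q hq
      rw [hQ]
      unfold zvec
      split_ifs with h
      · rcases hq with ⟨h1, h2⟩ | h1 | h1
        · rw [hene q.1 (fun h => by rw [h] at h1; exact lt_irrefl _ h1),
            hene q.2 (fun h => by rw [h] at h2; exact lt_irrefl _ h2)]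
          ring
        · rw [h1, hu1, hene 1 hne1k]; ring
        · rw [h1, hu1, hene 1 hne1k]; ring
      · rfl
    have hQne : Q ≠ 0 := by
      intro h
      have h1 := congrFun h (0, ⟨k, hk⟩)
      have hal0 : alw (k + 1) ((0, ⟨k, hk⟩) : Fin (m + 2) × Fin (m + 2)) :=
        Or.inl ⟨by simp, by simp⟩
      rw [hQ, zvec_eq u e hal0] at h1
      have h0k : (0 : Fin (m + 2)) ≠ ⟨k, hk⟩ := by
        intro h
        have h1 := congrArg Fin.val h
        simp only [Fin.val_zero] at h1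
        omega
      simp only [hu0, hek, hene 0 h0k] at h1
      simp at h1
    have hZle : ∀ q, zvec k u v' q ≠ 0 → offv Q P q = zvec k u v' q := by
      intro q hq
      have hal : alw k q := by
        by_contra h
        apply hq
        unfold zvec
        rw [if_neg h]
      unfold offv
      rw [if_pos (hQ0 q hal), hP]
      have h1 := zvec_mono (k := k) (l := k + 1) (by omega) hk2 (v := v') hu1 q
        (by rw [hvm]; exact hq)
      rw [h1, hvm]
    have hznek : zvec k u v' ≠ 0 := zvec_ne_zero hu0 hu1 hv'1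
    have hoff0 : offv Q P ≠ 0 := by
      obtain ⟨q, hq⟩ := Function.ne_iff.mp hznek
      intro h
      have := hZle q hq
      rw [h] at this
      exact hq this.symm
    have hZU : tH (pw wt) (zvec k u v') ≤ tH (pw wt) (offv Q P) :=
      tH_mono hppos hppos hznek hoff0 fun q hq => ⟨q, Or.inl (hZle q hq), le_refl _⟩
    -- height of Q
    have hQH : tH (pw wt) Q = tH wt (msk k u) * (ω k ^ d)⁻¹ := by
      have hsc : tH wt (msk k u) * (ω k ^ d)⁻¹ = tH (fun i => ω k * wt i) (msk k u) := by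
        have h1 := tH_scale hpos (hw.pos k) (msk k u)
        rw [← h1, ← hd]
        have h2 : ω k ^ d ≠ 0 := (pow_pos (hw.pos k) d).ne'
        rw [mul_assoc, mul_inv_cancel₀ h2, mul_one]
      rw [hsc]
      have hkp : ∀ i, 0 < ω k * wt i := fun i => mul_pos (hw.pos k) (hpos i)
      apply le_antisymm
      · refine tH_mono hppos hkp hQne (hmskne k hk2) fun q hq => ?_
        have hal : alw (k + 1) q := by
          by_contra h
          apply hq
          rw [hQ]; unfold zvec; rw [if_neg h]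
        have hval : Q q = u q.1 * e q.2 - u q.2 * e q.1 := by
          rw [hQ]; unfold zvec; rw [if_pos hal]
        have hnk : ¬ alw k q := fun h => hq (hQ0 q h)
        have hn1 : q.1 ≠ 1 := fun h => hnk (Or.inr (Or.inl h))
        have hn2 : q.2 ≠ 1 := fun h => hnk (Or.inr (Or.inr h))
        have hlt : (q.1 : ℕ) < k + 1 ∧ (q.2 : ℕ) < k + 1 := by
          rcases hal with h | h | h
          · exact h
          · exact absurd h hn1
          · exact absurd h hn2
        by_cases h2 : q.2 = ⟨k, hk⟩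
        · by_cases h1 : q.1 = ⟨k, hk⟩
          · exfalso
            apply hq
            rw [hval, h1, h2]; ring
          · have hlt1 : (q.1 : ℕ) < k := by
              have : (q.1 : ℕ) ≠ k := fun h => h1 (Fin.ext h)
              omega
            refine ⟨q.1, Or.inl ?_, ?_⟩
            · rw [hval, h2, hek, hene _ h1]
              unfold msk
              rw [if_pos hlt1]; ring
            · simp only [pw, hwt, h2]
              rw [mul_comm]
        · by_cases h1 : q.1 = ⟨k, hk⟩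
          · have hlt2 : (q.2 : ℕ) < k := by
              have : (q.2 : ℕ) ≠ k := fun h => h2 (Fin.ext h)
              omega
            refine ⟨q.2, Or.inr ?_, ?_⟩
            · rw [hval, h1, hek, hene _ h2]
              unfold msk
              rw [if_pos hlt2]; ring
            · simp only [pw, hwt, h1]
              exact le_refl _
          · exfalso
            apply hq
            rw [hval, hene _ h1, hene _ h2]; ring
      · refine tH_mono hkp hppos (hmskne k hk2) hQne fun i hi => ?_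
        have hik : (i : ℕ) < k := by
          by_contra h
          apply hi
          unfold msk
          rw [if_neg h]
        refine ⟨(i, ⟨k, hk⟩), Or.inl ?_, ?_⟩
        · have hal0 : alw (k + 1) ((i, ⟨k, hk⟩) : Fin (m + 2) × Fin (m + 2)) :=
            Or.inl ⟨by simp only; omega, by simp⟩
          rw [hQ, zvec_eq u e hal0]
          unfold msk
          rw [if_pos hik]
          have hne : i ≠ ⟨k, hk⟩ := by
            intro h
            rw [h] at hik
            exact lt_irrefl _ hik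
          simp only [hek, hene i hne]; ring
        · simp only [pw, hwt]
          rw [mul_comm]
    have hAu : tH wt (msk k u) ≤ tH wt u := by
      refine tH_mono hpos hpos (hmskne k hk2) hune fun i hi => ⟨i, Or.inl ?_, le_refl _⟩
      unfold msk at hi ⊢
      by_cases hik : (i : ℕ) < k
      · rw [if_pos hik]
      · rw [if_neg hik] at hi
        exact absurd rfl hi
    have hV1 : tH (pw wt) Q ≤ 1 := by
      rw [hQH, ← div_eq_mul_inv, div_le_one (by positivity)]
      calc tH wt (msk k u) ≤ tH wt u := hAu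
        _ ≤ ω 1 ^ d := huB
        _ ≤ ω k ^ d := by gcongr
    have hlow01 : ((ω 0 * ω 1) ^ d)⁻¹ ≤ tH (pw wt) (zvec k u v') := by
      have := single_le_tH (K := K) (ω := pw wt) hppos (x := zvec k u v') (0, 1)
        (zvec_01 hu0 hu1 hv'1)
      simpa [pw, hwt] using this
    have hmemf : ∀ v ∈ (T.image (msk (k + 1))).filter (fun v => msk k v = v'),
        v = v' + v ⟨k, hk⟩ • e ∧ tH (pw wt) (zvec (k + 1) u v) ≤ 1 := by
      intro v hv
      obtain ⟨hvT, hvm'⟩ := Finset.mem_filter.mp hv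
      obtain ⟨_, _, hvm1, hvB1⟩ := hmem (k + 1) (by omega) (by omega) v hvT
      refine ⟨?_, hvB1⟩
      have := msk_succ hk v
      rw [hvm1, hvm'] at this
      exact this
    have hst := step1 (K := K) hppos hQne hoff0
      ((T.image (msk (k + 1))).filter (fun v => msk k v = v')) (fun v => v ⟨k, hk⟩)
      (fun a ha b hb hab heq => hab (by
        rw [(hmemf a ha).1, (hmemf b hb).1, heq])) J hV1
      (fun a ha => by
        rw [← hlin a (hmemf a ha).1]
        exact (hmemf a ha).2)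
      (by
        calc (1 : ℝ) = (ω 0 * ω 1) ^ d * ((ω 0 * ω 1) ^ d)⁻¹ := by
              field_simp
          _ ≤ 2 ^ J * tH (pw wt) (offv Q P) :=
              mul_le_mul hw.hJ (hlow01.trans hZU) (by positivity) (by positivity))
    have hrew : ∑ v ∈ (T.image (msk (k + 1))).filter (fun v => msk k v = v'),
        (tH (pw wt) (zvec (k + 1) u v))⁻¹ =
        ∑ v ∈ (T.image (msk (k + 1))).filter (fun v => msk k v = v'),
        (tH (pw wt) (P + v ⟨k, hk⟩ • Q))⁻¹ := by
      refine Finset.sum_congr rfl fun v hv => ?_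
      rw [hlin v (hmemf v hv).1]
    rw [hrew]
    refine hst.trans ?_
    rw [hQH]
    have hZp := tH_pos hppos hznek
    have hUp := tH_pos hppos hoff0
    have hA := hAk k hk2
    have e3 : (J + 1) * (5 * lineC K) * ω k ^ d * (tH wt (msk k u))⁻¹ *
        (tH (pw wt) (zvec k u v'))⁻¹ =
        (J + 1) * (5 * lineC K / (tH (pw wt) (zvec k u v') *
          (tH wt (msk k u) * (ω k ^ d)⁻¹))) := by
      field_simp
    rw [e3]
    gcongr
  have hchain := chain_bound f
    (fun k => (J + 1) * (5 * lineC K) * ω k ^ d * (if 2 ≤ k then (tH wt (msk k u))⁻¹ else 0))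
    (fun k => by
      have := hw.pos k
      have h2 : 0 ≤ (if 2 ≤ k then (tH wt (msk k u))⁻¹ else 0) := by
        split_ifs with h
        · exact inv_nonneg.mpr (hAk k h).le
        · exact le_rfl
      positivity) m hstep
  refine (hfull.trans hchain).trans ?_
  rw [Finset.prod_mul_distrib]
  have e4 : ∏ k ∈ Finset.Ico 2 (m + 2), (if 2 ≤ k then (tH wt (msk k u))⁻¹ else 0) =
      ∏ k ∈ Finset.Ico 2 (m + 2), (tH wt (msk k u))⁻¹ := by
    refine Finset.prod_congr rfl fun k hk => ?_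
    rw [if_pos (Finset.mem_Ico.mp hk).1]
  rw [e4]
  have h2 : f 2 ≤ ω 1 ^ d * (tH wt u)⁻¹ := by
    simp only [f]
    have hsub : T.image (msk 2) ⊆ {Pi.single 1 1} := by
      intro v hv
      obtain ⟨hv0, hv1, hvm, _⟩ := hmem 2 le_rfl (by omega) v hv
      rw [Finset.mem_singleton]
      funext i
      by_cases hi : i = 1
      · rw [hi, Pi.single_eq_same, hv1]
      · rw [Pi.single_eq_of_ne hi]
        by_cases hi1 : i = 0
        · rw [hi1, hv0]
        · rw [← hvm]
          unfold msk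
          rw [if_neg]
          intro h
          have h3 : (i : ℕ) ≠ 0 := fun h => hi1 (Fin.ext (by simpa using h))
          have h4 : (i : ℕ) ≠ 1 := fun h => hi (Fin.ext (by simpa using h))
          omega
    have hnn : ∀ v ∈ ({Pi.single 1 1} : Finset (Fin (m + 2) → K)), v ∉ T.image (msk 2) →
        0 ≤ (tH (pw wt) (zvec 2 u v))⁻¹ := by
      intro v hv _
      rw [Finset.mem_singleton] at hv
      subst hv
      exact inv_nonneg.mpr (tH_pos hppos (zvec_ne_zero hu0 hu1 (by simp))).le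
    refine (Finset.sum_le_sum_of_subset_of_nonneg hsub hnn).trans ?_
    rw [Finset.sum_singleton]
    have h3 := hlowZ 2 (Pi.single 1 1) (by simp)
    have h4 := tH_pos hpos hune
    calc (tH (pw wt) (zvec 2 u (Pi.single 1 1)))⁻¹ ≤ (tH wt u * (ω 1 ^ d)⁻¹)⁻¹ := by gcongr
      _ = ω 1 ^ d * (tH wt u)⁻¹ := by
        field_simp
  have hPnn : 0 ≤ (∏ k ∈ Finset.Ico 2 (m + 2), ((J + 1) * (5 * lineC K) * ω k ^ d)) *
      ∏ k ∈ Finset.Ico 2 (m + 2), (tH wt (msk k u))⁻¹ :=
    mul_nonneg (Finset.prod_nonneg fun k _ => by have := hw.pos k; positivity)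
      (Finset.prod_nonneg fun k hk => inv_nonneg.mpr (hAk k (Finset.mem_Ico.mp hk).1).le)
  refine (mul_le_mul_of_nonneg_left h2 hPnn).trans (le_of_eq ?_)
  ring

/-- Counting planes. -/
theorem plane_count {ω : ℕ → ℝ} {J : ℕ} (hw : Wts K m ω J)
    (S : Finset ((Fin (m + 2) → K) × (Fin (m + 2) → K)))
    (hS : ∀ q ∈ S, q.1 0 = 1 ∧ q.1 1 = 0 ∧ q.2 0 = 0 ∧ q.2 1 = 1 ∧
      tH (pw (fun i : Fin (m + 2) => ω i)) (fun r => q.1 r.1 * q.2 r.2 - q.1 r.2 * q.2 r.1) ≤ 1) :
    (S.card : ℝ) ≤ ((J + 1) * (5 * lineC K)) ^ (2 * m) *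
      ((ω 0 * ω 1 * ∏ k ∈ Finset.Ico 2 (m + 2), ω k) ^ Module.finrank ℚ K) ^ 2 := by
  classical
  set d := Module.finrank ℚ K with hd
  set wt : Fin (m + 2) → ℝ := fun i => ω i with hwt
  have hpos : ∀ i, 0 < wt i := fun i => hw.pos _
  have hppos : ∀ q, 0 < pw wt q := pw_pos hpos
  have hC := one_le_lineC K
  have hω0 := hw.pos 0
  have hω1 := hw.pos 1
  have hzfull : ∀ u v : Fin (m + 2) → K, zvec (m + 2) u v =
      fun r => u r.1 * v r.2 - u r.2 * v r.1 := by
    intro u v
    funext r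
    exact zvec_eq u v (Or.inl ⟨r.1.2, r.2.2⟩)
  let A := S.image Prod.fst
  let T : (Fin (m + 2) → K) → Finset (Fin (m + 2) → K) := fun u =>
    (S.filter (fun q => q.1 = u)).image Prod.snd
  have hcard : (S.card : ℝ) = ∑ u ∈ A, ((T u).card : ℝ) := by
    rw [Finset.card_eq_sum_card_image (f := Prod.fst) (s := S)]
    push_cast
    refine Finset.sum_congr rfl fun u _ => ?_
    simp only [T]
    rw [Finset.card_image_of_injOn]
    intro q hq q' hq' h
    have h1 : q.1 = u := (Finset.mem_filter.mp hq).2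
    have h2 : q'.1 = u := (Finset.mem_filter.mp hq').2
    exact Prod.ext (h1.trans h2.symm) h
  have hA : ∀ u ∈ A, u 0 = 1 ∧ u 1 = 0 ∧ tH wt u ≤ ω 1 ^ d := by
    intro u hu
    obtain ⟨q, hq, rfl⟩ := Finset.mem_image.mp hu
    obtain ⟨h0, h1, g0, g1, hH⟩ := hS q hq
    refine ⟨h0, h1, ?_⟩
    have hune : q.1 ≠ 0 := by
      intro h; rw [h] at h0; simp at h0
    have hscale : tH wt q.1 * (ω 1 ^ d)⁻¹ = tH (fun i => ω 1 * wt i) q.1 := by
      have h1 := tH_scale hpos (hw.pos 1) q.1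
      rw [← h1, ← hd]
      have h2 : ω 1 ^ d ≠ 0 := (pow_pos (hw.pos 1) d).ne'
      rw [mul_assoc, mul_inv_cancel₀ h2, mul_one]
    have h2 : tH wt q.1 * (ω 1 ^ d)⁻¹ ≤ 1 := by
      rw [hscale]
      refine le_trans ?_ hH
      rw [← hzfull]
      refine tH_mono (fun i => mul_pos (hw.pos 1) (hpos i)) hppos hune
        (zvec_ne_zero h0 h1 g1) fun i _ => ⟨(i, 1), Or.inl ?_, ?_⟩
      · rw [zvec_eq q.1 q.2 (alw_one_right (m + 2) i)]
        simp only [g1, h1]; ring
      · simp only [pw, hwt]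
        rw [mul_comm]
        rfl
    rwa [← div_eq_mul_inv, div_le_one (by positivity)] at h2
  have hT : ∀ u ∈ A, ((T u).card : ℝ) ≤
      (∏ k ∈ Finset.Ico 2 (m + 2), ((J + 1) * (5 * lineC K) * ω k ^ d)) *
      (ω 1 ^ d) * (tH wt u)⁻¹ * ∏ k ∈ Finset.Ico 2 (m + 2), (tH wt (msk k u))⁻¹ := by
    intro u hu
    obtain ⟨h0, h1, _⟩ := hA u hu
    have hmem : ∀ v ∈ T u, ∃ q ∈ S, q.1 = u ∧ q.2 = v := by
      intro v hv
      obtain ⟨q, hq, rfl⟩ := Finset.mem_image.mp hv
      obtain ⟨hqS, hqu⟩ := Finset.mem_filter.mp hq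
      exact ⟨q, hqS, hqu, rfl⟩
    apply beta_chain hw u h0 h1 (T u)
    · intro v hv
      obtain ⟨q, hq, _, rfl⟩ := hmem v hv
      exact (hS q hq).2.2.1
    · intro v hv
      obtain ⟨q, hq, _, rfl⟩ := hmem v hv
      exact (hS q hq).2.2.2.1
    · intro v hv
      obtain ⟨q, hq, rfl, rfl⟩ := hmem v hv
      rw [hzfull]
      exact (hS q hq).2.2.2.2
  set Pd := ∏ k ∈ Finset.Ico 2 (m + 2), ((J + 1) * (5 * lineC K) * ω k ^ d) with hPd
  have hPd0 : 0 ≤ Pd := Finset.prod_nonneg fun k _ => by have := hw.pos k; positivity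
  have hal := alpha_chain hw A (fun u hu => (hA u hu).1) (fun u hu => (hA u hu).2.1)
    (fun u hu => (hA u hu).2.2)
  rw [hcard]
  calc ∑ u ∈ A, ((T u).card : ℝ)
      ≤ ∑ u ∈ A, Pd * (ω 1 ^ d) ^ 2 * (((tH wt u) ^ 2)⁻¹ *
          ∏ k ∈ Finset.Ico 2 (m + 2), (tH wt (msk k u))⁻¹) := by
        refine Finset.sum_le_sum fun u hu => (hT u hu).trans ?_
        obtain ⟨h0, h1, hB⟩ := hA u hu
        have hune : u ≠ 0 := by
          intro h; rw [h] at h0; simp at h0
        have hup := tH_pos hpos hune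
        have hPr : 0 ≤ ∏ k ∈ Finset.Ico 2 (m + 2), (tH wt (msk k u))⁻¹ := by
          refine Finset.prod_nonneg fun k hk => inv_nonneg.mpr ?_
          have hk2 : 2 ≤ k := (Finset.mem_Ico.mp hk).1
          refine (tH_pos hpos ?_).le
          intro h
          have := congrFun h 0
          rw [msk_zero hk2, h0] at this
          simp at this
        have e1 : (tH wt u)⁻¹ ≤ ω 1 ^ d * ((tH wt u) ^ 2)⁻¹ := by
          have : (tH wt u)⁻¹ = tH wt u * ((tH wt u) ^ 2)⁻¹ := by field_simp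
          rw [this]
          gcongr
        generalize (∏ k ∈ Finset.Ico 2 (m + 2), (tH wt (msk k u))⁻¹) = R at hPr ⊢
        have hd1 : 0 ≤ Pd * (ω 1 ^ d) := mul_nonneg hPd0 (pow_nonneg hω1.le _)
        calc Pd * (ω 1 ^ d) * (tH wt u)⁻¹ * R
            ≤ Pd * (ω 1 ^ d) * (ω 1 ^ d * ((tH wt u) ^ 2)⁻¹) * R :=
              mul_le_mul_of_nonneg_right (mul_le_mul_of_nonneg_left e1 hd1) hPr
          _ = _ := by ring
    _ = Pd * (ω 1 ^ d) ^ 2 * ∑ u ∈ A, (((tH wt u) ^ 2)⁻¹ *
          ∏ k ∈ Finset.Ico 2 (m + 2), (tH wt (msk k u))⁻¹) := by rw [Finset.mul_sum]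
    _ ≤ Pd * (ω 1 ^ d) ^ 2 * (Pd * (ω 0 ^ d) ^ 2) :=
        mul_le_mul_of_nonneg_left hal (mul_nonneg hPd0 (by positivity))
    _ = _ := by
        rw [hPd, Finset.prod_mul_distrib, Finset.prod_const, Nat.card_Ico, Finset.prod_pow]
        simp only [Nat.add_sub_cancel]
        ring

end Pool.Lib18ea5f
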