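import Mathlib
import Pool.Agent.Lib18ea5f.KCoord
import Pool.Agent.Lib18ea5f.Sub

set_option autoImplicit false
set_option linter.unusedSectionVars false

/-!
From a balanced configuration to a plane of bounded twisted height over the ground field.
-/

namespace Pool.Lib18ea5f

open Finset NumberField

section alg

variable {K M X : Type*} [Field K] [Field M] [Algebra K M] [FiniteDimensional K M] [IsGalois K M]
  [Fintype X] [DecidableEq X] [MulAction (M ≃ₐ[K] M) X]

/-- basis elements -/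
noncomputable def Bv (e : Idx K M X) : M :=
  (exists_coord (MulAction.stabilizer (M ≃ₐ[K] M) (rp e.1))).choose e.2

/-- elements giving the coordinates -/
noncomputable def cv (e : Idx K M X) : M :=
  (exists_coord (MulAction.stabilizer (M ≃ₐ[K] M) (rp e.1))).choose_spec.choose e.2

/-- coordinates of a function -/
noncomputable def crd (a : X → M) (e : Idx K M X) : K := Algebra.trace K M (cv e * a (rp e.1))

/-- equivariance -/
def Eqv (K : Type*) {M X : Type*} [Field K] [Field M] [Algebra K M] [MulAction (M ≃ₐ[K] M) X]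
    (a : X → M) : Prop := ∀ (g : M ≃ₐ[K] M) x, a (g • x) = g (a x)

lemma crd_spec {a : X → M} (ha : Eqv K a) (o : Om K M X) :
    a (rp o) = ∑ i : Fin (dimo o), algebraMap K M (crd a ⟨o, i⟩) * Bv ⟨o, i⟩ := by
  have h := (exists_coord (MulAction.stabilizer (M ≃ₐ[K] M) (rp o))).choose_spec.choose_spec
    (a (rp o)) (fun g hg => by
      rw [← ha g, MulAction.mem_stabilizer_iff.mp hg])
  exact h

lemma crd_spec' {a : X → M} (ha : Eqv K a) (g : M ≃ₐ[K] M) (o : Om K M X) :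
    a (g • rp o) = ∑ i : Fin (dimo o), algebraMap K M (crd a ⟨o, i⟩) * g (Bv ⟨o, i⟩) := by
  rw [ha g, crd_spec ha o, map_sum]
  refine Finset.sum_congr rfl fun i _ => ?_
  rw [map_mul, AlgEquiv.commutes]

lemma crd_inj {a b : X → M} (ha : Eqv K a) (hb : Eqv K b) (h : ∀ e : Idx K M X, crd a e = crd b e) :
    a = b := by
  funext x
  obtain ⟨g, hg⟩ := exists_smul_rp (K := K) (M := M) x
  rw [← hg, crd_spec' ha, crd_spec' hb]
  exact Finset.sum_congr rfl fun i _ => by rw [h]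

lemma crd_lin (a b : X → M) (α β : K) (e : Idx K M X) :
    crd (fun x => algebraMap K M α * a x + algebraMap K M β * b x) e =
      α * crd a e + β * crd b e := by
  unfold crd
  have e1 : cv e * (algebraMap K M α * a (rp e.1) + algebraMap K M β * b (rp e.1)) =
      α • (cv e * a (rp e.1)) + β • (cv e * b (rp e.1)) := by
    rw [Algebra.smul_def, Algebra.smul_def]; ring
  rw [e1, map_add, map_smul, map_smul, smul_eq_mul, smul_eq_mul]

lemma crd_sum [Fintype (M ≃ₐ[K] M)] {a : X → M} (ha : Eqv K a) (e : Idx K M X) :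
    algebraMap K M (crd a e) = ∑ g : M ≃ₐ[K] M, g (cv e) * a (g • rp e.1) := by
  unfold crd
  rw [trace_eq_sum]
  refine Finset.sum_congr rfl fun g _ => ?_
  rw [map_mul, ha g]

/-- wedge coordinates -/
noncomputable def wdg (a b : X → M) (e f : Idx K M X) : K :=
  crd a e * crd b f - crd a f * crd b e

lemma wdg_sum [Fintype (M ≃ₐ[K] M)] {a b : X → M} (ha : Eqv K a) (hb : Eqv K b)
    (e f : Idx K M X) :
    algebraMap K M (wdg a b e f) = ∑ g : M ≃ₐ[K] M, ∑ h : M ≃ₐ[K] M,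
      g (cv e) * h (cv f) * (a (g • rp e.1) * b (h • rp f.1) - a (h • rp f.1) * b (g • rp e.1)) := by
  unfold wdg
  rw [map_sub, map_mul, map_mul, crd_sum ha, crd_sum hb, crd_sum ha, crd_sum hb,
    Finset.sum_mul_sum, Finset.sum_mul_sum]
  have e2 : ∑ i : M ≃ₐ[K] M, ∑ j : M ≃ₐ[K] M, (i (cv f) * a (i • rp f.1)) *
      (j (cv e) * b (j • rp e.1)) = ∑ j : M ≃ₐ[K] M, ∑ i : M ≃ₐ[K] M,
      (i (cv f) * a (i • rp f.1)) * (j (cv e) * b (j • rp e.1)) := Finset.sum_comm
  rw [e2, ← Finset.sum_sub_distrib]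
  refine Finset.sum_congr rfl fun g _ => ?_
  rw [← Finset.sum_sub_distrib]
  refine Finset.sum_congr rfl fun h _ => ?_
  ring

lemma pl_eq {a b : X → M} (ha : Eqv K a) (hb : Eqv K b) (g h : M ≃ₐ[K] M) (o o' : Om K M X) :
    a (g • rp o) * b (h • rp o') - a (h • rp o') * b (g • rp o) =
      ∑ i : Fin (dimo o), ∑ j : Fin (dimo o'),
        g (Bv ⟨o, i⟩) * h (Bv ⟨o', j⟩) * algebraMap K M (wdg a b ⟨o, i⟩ ⟨o', j⟩) := by
  rw [crd_spec' ha g o, crd_spec' hb h o', crd_spec' ha h o', crd_spec' hb g o,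
    Finset.sum_mul_sum, Finset.sum_mul_sum]
  rw [Finset.sum_comm (s := (Finset.univ : Finset (Fin (dimo o'))))]
  rw [← Finset.sum_sub_distrib]
  refine Finset.sum_congr rfl fun i _ => ?_
  rw [← Finset.sum_sub_distrib]
  refine Finset.sum_congr rfl fun j _ => ?_
  unfold wdg
  rw [map_sub, map_mul, map_mul]
  ring

lemma exists_wdg_ne {a b : X → M} (ha : Eqv K a) (hb : Eqv K b) {x y : X}
    (h : a x * b y - a y * b x ≠ 0) :
    ∃ e f : Idx K M X, e.1 = cl x ∧ f.1 = cl y ∧ wdg a b e f ≠ 0 := by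
  obtain ⟨g, hg⟩ := exists_smul_rp (K := K) (M := M) x
  obtain ⟨k, hk⟩ := exists_smul_rp (K := K) (M := M) y
  have h1 := pl_eq ha hb g k (cl x) (cl y)
  rw [hg, hk] at h1
  rw [h1] at h
  obtain ⟨i, _, hi⟩ := Finset.exists_ne_zero_of_sum_ne_zero h
  obtain ⟨j, _, hj⟩ := Finset.exists_ne_zero_of_sum_ne_zero hi
  refine ⟨⟨cl x, i⟩, ⟨cl y, j⟩, rfl, rfl, fun h0 => hj ?_⟩
  rw [h0, map_zero, mul_zero]

end alg

section height

variable {K : Type*} [Field K] [NumberField K]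

/-- A bound for the twisted height from an integral ideal in an extension. -/
theorem tH_le_of_ideal {M : Type*} [Field M] [NumberField M] [Algebra K M]
    [FiniteDimensional K M] {ι : Type*} [Finite ι]
    {ω : ι → ℝ} (hω : ∀ i, 0 < ω i) {x : ι → K} (hx : x ≠ 0) (D : ℕ) (hD : D ≠ 0)
    (J : Ideal (𝓞 M)) (hJ : J ≠ ⊥) (z : ι → 𝓞 M) (hz : ∀ i, z i ∈ J)
    (hzx : ∀ i, (z i : M) = (D : M) * algebraMap K M (x i))
    {ρ : ℝ} (hρ : 0 < ρ) (hρJ : ρ ^ (2 * Module.finrank ℚ M) = (Ideal.absNorm J : ℝ))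
    {C : ℝ} (hC : 0 < C) (hw : ∀ (w : InfinitePlace M) i, w (algebraMap K M (x i)) ≤ C * (ρ ^ 2 * ω i)) :
    tH ω x ≤ (C * D) ^ Module.finrank ℚ K := by
  classical
  have hne : Nonempty ι := ⟨(Function.ne_iff.mp hx).choose⟩
  set dK := Module.finrank ℚ K with hdK
  set dM := Module.finrank ℚ M with hdM
  set r := Module.finrank K M with hr
  have hr0 : 0 < r := Module.finrank_pos
  have hdr : dK * r = dM := Module.finrank_mul_finrank ℚ K M
  -- integral representatives over K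
  have hy : ∀ i, IsIntegral ℤ ((D : K) * x i) := by
    intro i
    have h1 : IsIntegral ℤ (algebraMap K M ((D : K) * x i)) := by
      rw [map_mul, map_natCast, ← hzx]
      exact (z i).2
    exact (isIntegral_algebraMap_iff (algebraMap K M).injective).mp h1
  let y : ι → 𝓞 K := fun i => ⟨(D : K) * x i, hy i⟩
  have hyx : (fun i => ((y i : 𝓞 K) : K)) = (D : K) • x := by
    funext i
    simp only [Pi.smul_apply, smul_eq_mul]
    rfl
  have hDK : (D : K) ≠ 0 := by exact_mod_cast hD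
  have hy0 : y ≠ 0 := by
    intro h
    have h1 : (fun i => ((y i : 𝓞 K) : K)) = 0 := by
      rw [h]; rfl
    rw [hyx] at h1
    exact (smul_ne_zero hDK hx) h1
  have hyz : ∀ i, algebraMap (𝓞 K) (𝓞 M) (y i) = z i := by
    intro i
    apply RingOfIntegers.ext
    rw [hzx]
    have h1 : ((algebraMap (𝓞 K) (𝓞 M) (y i) : 𝓞 M) : M) = algebraMap K M ((y i : 𝓞 K) : K) := by
      exact (IsScalarTower.algebraMap_apply (𝓞 K) (𝓞 M) M (y i)).symm.trans
        (IsScalarTower.algebraMap_apply (𝓞 K) K M (y i))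
    rw [h1]
    have h2 : ((y i : 𝓞 K) : K) = (D : K) * x i := rfl
    rw [h2, map_mul, map_natCast]
  -- norm of the content
  have hcy := cI_ne_bot hy0
  have hNy := absNorm_pos hcy
  have hmap : J ∣ (cI y).map (algebraMap (𝓞 K) (𝓞 M)) := by
    rw [Ideal.dvd_iff_le]
    unfold cI
    rw [Ideal.map_span, Ideal.span_le]
    rintro _ ⟨_, ⟨i, rfl⟩, rfl⟩
    rw [hyz]
    exact hz i
  have hmapne : (cI y).map (algebraMap (𝓞 K) (𝓞 M)) ≠ ⊥ := by
    intro h
    rw [Ideal.map_eq_bot_iff_of_injective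
      (FaithfulSMul.algebraMap_injective (𝓞 K) (𝓞 M))] at h
    exact hcy h
  have hNle : (Ideal.absNorm J : ℝ) ≤ (Ideal.absNorm (cI y) : ℝ) ^ r := by
    have h1 : Ideal.absNorm J ∣ Ideal.absNorm ((cI y).map (algebraMap (𝓞 K) (𝓞 M))) :=
      map_dvd Ideal.absNorm hmap
    have h2 : Ideal.absNorm ((cI y).map (algebraMap (𝓞 K) (𝓞 M))) ≠ 0 := by
      rw [Ne, Ideal.absNorm_eq_zero_iff]; exact hmapne
    have h3 := Nat.le_of_dvd (Nat.pos_of_ne_zero h2) h1
    rw [Ideal.absNorm_algebraMap, ← IsFractionRing.finrank_eq (𝓞 K) K (𝓞 M) M] at h3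
    exact_mod_cast h3
  have hρN : ρ ^ (2 * dK) ≤ (Ideal.absNorm (cI y) : ℝ) := by
    rw [← hρJ] at hNle
    have e : ρ ^ (2 * dM) = (ρ ^ (2 * dK)) ^ r := by
      rw [← pow_mul, mul_assoc, hdr]
    rw [e] at hNle
    exact le_of_pow_le_pow_left₀ hr0.ne' hNy.le hNle
  -- finite part
  have hfin : fN x = (D : ℝ) ^ dK / (Ideal.absNorm (cI y) : ℝ) := by
    have h1 := fN_smul hx hDK
    rw [← hyx] at h1
    have h2 := fN_int hy0
    have h3 : ∏ v : InfinitePlace K, v (D : K) ^ v.mult = (D : ℝ) ^ dK := by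
      rw [hdK, ← prod_const_mult (K := K)]
      refine Finset.prod_congr rfl fun v _ => ?_
      rw [← v.norm_embedding_eq, map_natCast, Complex.norm_natCast]
    rw [h3] at h1
    rw [← h1, eq_div_iff hNy.ne']
    calc (D : ℝ) ^ dK * fN (fun i => ((y i : 𝓞 K) : K)) * (Ideal.absNorm (cI y) : ℝ)
        = (D : ℝ) ^ dK * ((Ideal.absNorm (cI y) : ℝ) * fN (fun i => ((y i : 𝓞 K) : K))) := by ring
      _ = (D : ℝ) ^ dK := by rw [h2, mul_one]
  have hinf : aN ω x ≤ (C * ρ ^ 2) ^ dK := by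
    rw [hdK, ← prod_const_mult (K := K)]
    unfold aN
    refine Finset.prod_le_prod (fun v _ => pow_nonneg (wv_nonneg hω v x) _) fun v _ => ?_
    refine pow_le_pow_left₀ (wv_nonneg hω v x) (wv_le v x fun i => ?_) _
    obtain ⟨w, hwv⟩ := InfinitePlace.comap_surjective (K := M) v
    have h1 : v (x i) = w (algebraMap K M (x i)) := by
      rw [← hwv]; rfl
    rw [div_le_iff₀ (hω i), h1]
    calc w (algebraMap K M (x i)) ≤ C * (ρ ^ 2 * ω i) := hw w i
      _ = C * ρ ^ 2 * ω i := by ring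
  unfold tH
  rw [hfin]
  have hD0 : (0 : ℝ) ≤ (D : ℝ) ^ dK / (Ideal.absNorm (cI y) : ℝ) := by positivity
  calc aN ω x * ((D : ℝ) ^ dK / (Ideal.absNorm (cI y) : ℝ))
      ≤ (C * ρ ^ 2) ^ dK * ((D : ℝ) ^ dK / (Ideal.absNorm (cI y) : ℝ)) := by gcongr
    _ ≤ (C * ρ ^ 2) ^ dK * ((D : ℝ) ^ dK / ρ ^ (2 * dK)) := by gcongr
    _ = (C * D) ^ dK := by
        rw [mul_pow, mul_pow, ← pow_mul]
        field_simp

end height

end Pool.Lib18ea5f
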