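import Mathlib

set_option autoImplicit false
set_option linter.unusedSectionVars false

/-!
Galois twisted configurations of points on the projective line, their equivalence and heights.
-/

namespace Pool.Lib18ea5f

open Finset

section defs

variable (K M X : Type*) [Field K] [Field M] [Algebra K M] [MulAction (M ≃ₐ[K] M) X]

/-- A configuration: pairwise different points `(a x : b x)` of the projective line over `M`,
indexed by the Galois set `X` and permuted accordingly by the Galois group. -/
structure Config where
  /-- first coordinates -/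
  a : X → M
  /-- second coordinates -/
  b : X → M
  ha : ∀ (g : M ≃ₐ[K] M) x, a (g • x) = g (a x)
  hb : ∀ (g : M ≃ₐ[K] M) x, b (g • x) = g (b x)
  hne : ∀ x y, x ≠ y → a x * b y - a y * b x ≠ 0

variable {K M X}

/-- Two configurations are equivalent if they differ by an element of `GL_2(K)` and by
(Galois equivariant) scalars. -/
def Config.Rel (P Q : Config K M X) : Prop :=
  ∃ l : X → M, (∀ (g : M ≃ₐ[K] M) x, l (g • x) = g (l x)) ∧ (∀ x, l x ≠ 0) ∧
    ∃ α β γ δ : K, α * δ - β * γ ≠ 0 ∧
      ∀ x, Q.a x = l x * (algebraMap K M α * P.a x + algebraMap K M β * P.b x) ∧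
        Q.b x = l x * (algebraMap K M γ * P.a x + algebraMap K M δ * P.b x)

lemma Config.Rel.refl (P : Config K M X) : P.Rel P :=
  ⟨fun _ => 1, fun g x => (map_one g).symm, fun _ => one_ne_zero, 1, 0, 0, 1, by simp,
    fun x => by simp⟩

lemma Config.Rel.symm {P Q : Config K M X} (h : P.Rel Q) : Q.Rel P := by
  obtain ⟨l, hl, hl0, α, β, γ, δ, hD, h⟩ := h
  set D := α * δ - β * γ with hDdef
  refine ⟨fun x => (l x)⁻¹, fun g x => by simp only [hl, map_inv₀], fun x => inv_ne_zero (hl0 x),
    δ / D, -β / D, -γ / D, α / D, ?_, fun x => ?_⟩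
  · have : δ / D * (α / D) - -β / D * (-γ / D) = 1 / D := by
      rw [hDdef] at hD ⊢
      field_simp
    rw [this]
    exact one_div_ne_zero hD
  · obtain ⟨h1, h2⟩ := h x
    have hDM : algebraMap K M D ≠ 0 := by
      rw [Ne, FaithfulSMul.algebraMap_eq_zero_iff]; exact hD
    have hlx := hl0 x
    have hDe : algebraMap K M D = algebraMap K M α * algebraMap K M δ -
        algebraMap K M β * algebraMap K M γ := by
      rw [hDdef, map_sub, map_mul, map_mul]
    constructor
    · simp only [map_div₀, map_neg]
      rw [h1, h2]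
      field_simp
      rw [hDe]; ring
    · simp only [map_div₀, map_neg]
      rw [h1, h2]
      field_simp
      rw [hDe]; ring

lemma Config.Rel.trans {P Q R : Config K M X} (h : P.Rel Q) (h' : Q.Rel R) : P.Rel R := by
  obtain ⟨l, hl, hl0, α, β, γ, δ, hD, h⟩ := h
  obtain ⟨l', hl', hl0', α', β', γ', δ', hD', h'⟩ := h'
  refine ⟨fun x => l' x * l x, fun g x => by simp only [hl, hl', map_mul],
    fun x => mul_ne_zero (hl0' x) (hl0 x), α' * α + β' * γ, α' * β + β' * δ,
    γ' * α + δ' * γ, γ' * β + δ' * δ, ?_, fun x => ?_⟩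
  · have : (α' * α + β' * γ) * (γ' * β + δ' * δ) - (α' * β + β' * δ) * (γ' * α + δ' * γ) =
      (α' * δ' - β' * γ') * (α * δ - β * γ) := by ring
    rw [this]
    exact mul_ne_zero hD' hD
  · obtain ⟨h1, h2⟩ := h x
    obtain ⟨h1', h2'⟩ := h' x
    constructor
    · rw [h1', h1, h2]
      simp only [map_add, map_mul]
      ring
    · rw [h2', h1, h2]
      simp only [map_add, map_mul]
      ring

variable (K M X) in
/-- The equivalence relation on configurations. -/
def configSetoid : Setoid (Config K M X) where
  r := Config.Rel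
  iseqv := ⟨Config.Rel.refl, Config.Rel.symm, Config.Rel.trans⟩

/-- Plücker coordinate -/
def Config.pl (P : Config K M X) (x y : X) : M := P.a x * P.b y - P.a y * P.b x

end defs

section height

variable {K M X : Type*} [Field K] [Field M] [NumberField M] [Algebra K M]
  [MulAction (M ≃ₐ[K] M) X] [Fintype X] [DecidableEq X]

/-- the sections of `O(2d)` -/
noncomputable def Config.sec (P : Config K M X) (d : X → ℕ) :
    Equiv.Perm (Σ x : X, Fin (d x)) → M :=
  fun σ => ∏ y, P.pl y.1 (σ y).1

/-- The height attached to `O(d)`, relative to the ground field. -/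
noncomputable def Config.height (P : Config K M X) (d : X → ℕ) : ℝ :=
  Height.mulHeight (P.sec d) ^ (1 / (2 * Module.finrank K M : ℝ))

end height

end Pool.Lib18ea5f
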