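import Mathlib
import Pool.Agent.Lib18ea5f.Conf
import Pool.Agent.Lib18ea5f.Balance
import Pool.Agent.Lib18ea5f.ConfDefs

set_option autoImplicit false
set_option linter.unusedSectionVars false

/-!
Balanced representatives of configurations.
-/

namespace Pool.Lib18ea5f

open Finset NumberField

section rep

variable (K M X : Type*) [Field K] [NumberField K] [Field M] [NumberField M] [Algebra K M]
  [FiniteDimensional K M] [IsGalois K M]
  [Fintype X] [DecidableEq X] [MulAction (M ≃ₐ[K] M) X]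

omit [DecidableEq X] in
/-- clearing denominators by a rational integer -/
lemma clear_den {ι : Type*} [Finite ι] (F : ι → M) :
    ∃ D : ℕ, D ≠ 0 ∧ ∃ c : ι → 𝓞 M, ∀ e, (c e : M) = (D : M) * F e := by
  classical
  obtain ⟨b, hb⟩ := IsLocalization.exist_integer_multiples_of_finite (nonZeroDivisors (𝓞 M)) F
  choose z hz using hb
  have hb0 : (b : 𝓞 M) ≠ 0 := nonZeroDivisors.coe_ne_zero b
  have h1 : ((Ideal.absNorm (Ideal.span {(b : 𝓞 M)}) : ℕ) : 𝓞 M) ∈ Ideal.span {(b : 𝓞 M)} :=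
    Ideal.absNorm_mem _
  obtain ⟨r, hr⟩ := Ideal.mem_span_singleton'.mp h1
  refine ⟨Ideal.absNorm (Ideal.span {(b : 𝓞 M)}), ?_, fun e => r * z e, fun e => ?_⟩
  · rw [Ne, Ideal.absNorm_eq_zero_iff, Ideal.span_singleton_eq_bot]
    exact hb0
  · have h2 := congrArg (fun a : 𝓞 M => (a : M)) hr
    simp only [map_mul, map_natCast] at h2
    have h3 : algebraMap (𝓞 M) M (z e) = algebraMap (𝓞 M) M (b : 𝓞 M) * F e := hz e
    rw [← h2]
    change algebraMap (𝓞 M) M (r * z e) = _
    rw [map_mul, h3]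
    ring

theorem tH_wdg_le : ∃ κ : ℝ, 1 ≤ κ ∧ ∀ (a b : X → 𝓞 M), Eqv K (fun x => (a x : M)) →
    Eqv K (fun x => (b x : M)) → ∀ (J : Ideal (𝓞 M)), J ≠ ⊥ → ∀ S : X → ℝ, (∀ x, 0 < S x) →
    (∀ (g : M ≃ₐ[K] M) x, S (g • x) = S x) →
    (∀ x y, x ≠ y → a x * b y - a y * b x ∈ J) →
    (∀ (w : InfinitePlace M) x y, x ≠ y → w ((a x * b y - a y * b x : 𝓞 M) : M) ≤ S x * S y) →
    ∀ ρ : ℝ, 0 < ρ → ρ ^ (2 * Module.finrank ℚ M) = (Ideal.absNorm J : ℝ) →
    (fun q : Idx K M X × Idx K M X =>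
      wdg (K := K) (fun x => (a x : M)) (fun x => (b x : M)) q.1 q.2) ≠ 0 →
    tH (pw (fun e : Idx K M X => S (rp e.1) / ρ))
      (fun q : Idx K M X × Idx K M X =>
        wdg (K := K) (fun x => (a x : M)) (fun x => (b x : M)) q.1 q.2) ≤
      (κ ^ 2) ^ Module.finrank ℚ K := by
  classical
  have : Fintype (M ≃ₐ[K] M) := Fintype.ofFinite _
  obtain ⟨D, hD, c, hc⟩ := clear_den M (fun e : Idx K M X => cv e)
  obtain ⟨B, hB⟩ : ∃ B : ℝ, ∀ (w : InfinitePlace M) (g : M ≃ₐ[K] M) (e : Idx K M X),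
      w (g (cv e)) ≤ B := by
    obtain ⟨B, hB⟩ := (Set.finite_range
      (fun q : InfinitePlace M × (M ≃ₐ[K] M) × Idx K M X => q.1 (q.2.1 (cv q.2.2)))).bddAbove
    exact ⟨B, fun w g e => hB ⟨(w, g, e), rfl⟩⟩
  set B1 := max B 1 with hB1
  have hB1pos : 1 ≤ B1 := le_max_right _ _
  have hBw : ∀ (w : InfinitePlace M) (g : M ≃ₐ[K] M) (e : Idx K M X), w (g (cv e)) ≤ B1 :=
    fun w g e => (hB w g e).trans (le_max_left _ _)
  set G := (Fintype.card (M ≃ₐ[K] M) : ℝ) with hG
  have hG1 : 1 ≤ G := by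
    rw [hG]; exact_mod_cast Fintype.card_pos (α := M ≃ₐ[K] M)
  have hD1 : (1 : ℝ) ≤ D := by exact_mod_cast Nat.one_le_iff_ne_zero.mpr hD
  refine ⟨G * B1 * D, ?_, fun a b ha hb J hJ S hS hSG hJm hw ρ hρ hρJ hne => ?_⟩
  · have : 1 ≤ G * B1 := by nlinarith
    nlinarith
  have hωpos : ∀ e : Idx K M X, 0 < S (rp e.1) / ρ := fun e => div_pos (hS _) hρ
  let Pm : X → X → 𝓞 M := fun x y => a x * b y - a y * b x
  have hPm0 : ∀ x, Pm x x = 0 := fun x => by simp [Pm]
  have hPJ : ∀ x y, Pm x y ∈ J := by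
    intro x y
    by_cases hxy : x = y
    · subst hxy; rw [hPm0]; exact J.zero_mem
    · exact hJm x y hxy
  have hPw : ∀ (w : InfinitePlace M) x y, w (Pm x y : M) ≤ S x * S y := by
    intro w x y
    by_cases hxy : x = y
    · subst hxy
      rw [hPm0]
      simp only [map_zero]
      exact (mul_pos (hS x) (hS x)).le
    · exact hw w x y hxy
  have hmain := tH_le_of_ideal (K := K) (M := M)
    (ω := pw (fun e : Idx K M X => S (rp e.1) / ρ)) (pw_pos hωpos) hne (D ^ 2)
    (pow_ne_zero _ hD) J hJ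
    (fun q => ∑ g : M ≃ₐ[K] M, ∑ h : M ≃ₐ[K] M,
      (g • c q.1) * (h • c q.2) * Pm (g • rp q.1.1) (h • rp q.2.1))
    (fun q => Ideal.sum_mem _ fun g _ => Ideal.sum_mem _ fun h _ =>
      Ideal.mul_mem_left _ _ (hPJ _ _))
    (fun q => by
      rw [wdg_sum ha hb]
      change algebraMap (𝓞 M) M (∑ g : M ≃ₐ[K] M, ∑ h : M ≃ₐ[K] M,
        (g • c q.1) * (h • c q.2) * Pm (g • rp q.1.1) (h • rp q.2.1)) = _
      rw [map_sum, Finset.mul_sum]
      refine Finset.sum_congr rfl fun g _ => ?_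
      rw [map_sum, Finset.mul_sum]
      refine Finset.sum_congr rfl fun h _ => ?_
      have e1 : algebraMap (𝓞 M) M (g • c q.1) = (D : M) * g (cv q.1) := by
        have : algebraMap (𝓞 M) M (g • c q.1) = g (c q.1 : M) := rfl
        rw [this, hc, map_mul, map_natCast]
      have e2 : algebraMap (𝓞 M) M (h • c q.2) = (D : M) * h (cv q.2) := by
        have : algebraMap (𝓞 M) M (h • c q.2) = h (c q.2 : M) := rfl
        rw [this, hc, map_mul, map_natCast]
      rw [map_mul, map_mul, e1, e2]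
      simp only [Pm, map_sub, map_mul]
      push_cast
      ring)
    hρ hρJ (C := (G * B1) ^ 2) (by positivity)
    (fun w q => by
      rw [wdg_sum ha hb]
      have hsum : ∀ (s : Finset (M ≃ₐ[K] M)) (F : (M ≃ₐ[K] M) → M),
          w (∑ g ∈ s, F g) ≤ ∑ g ∈ s, w (F g) := by
        intro s F
        rw [← w.norm_embedding_eq, map_sum]
        refine (norm_sum_le _ _).trans (le_of_eq ?_)
        exact Finset.sum_congr rfl fun g _ => by rw [w.norm_embedding_eq]
      have hterm : ∀ g h : M ≃ₐ[K] M, w (g (cv q.1) * h (cv q.2) *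
          ((fun x => (a x : M)) (g • rp q.1.1) * (fun x => (b x : M)) (h • rp q.2.1) -
            (fun x => (a x : M)) (h • rp q.2.1) * (fun x => (b x : M)) (g • rp q.1.1))) ≤
          B1 * B1 * (S (rp q.1.1) * S (rp q.2.1)) := by
        intro g h
        rw [map_mul, map_mul]
        have h1 := hPw w (g • rp q.1.1) (h • rp q.2.1)
        rw [hSG, hSG] at h1
        have e3 : (Pm (g • rp q.1.1) (h • rp q.2.1) : M) =
            (fun x => (a x : M)) (g • rp q.1.1) * (fun x => (b x : M)) (h • rp q.2.1) -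
            (fun x => (a x : M)) (h • rp q.2.1) * (fun x => (b x : M)) (g • rp q.1.1) := by
          simp only [Pm, map_sub, map_mul]
        rw [e3] at h1
        have h2 := hBw w g q.1
        have h3 := hBw w h q.2
        exact mul_le_mul (mul_le_mul h2 h3 (apply_nonneg _ _) (by linarith)) h1
          (apply_nonneg _ _) (by positivity)
      refine (hsum _ _).trans ?_
      refine (Finset.sum_le_sum fun g _ => (hsum _ _).trans
        (Finset.sum_le_sum fun h _ => hterm g h)).trans (le_of_eq ?_)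
      rw [Finset.sum_const, Finset.sum_const, Finset.card_univ, nsmul_eq_mul, nsmul_eq_mul]
      simp only [pw]
      have hρ' := hρ.ne'
      field_simp
      rw [hG]
      ring)
  refine hmain.trans (le_of_eq ?_)
  push_cast
  ring

theorem exists_rep (hodd : Odd (Fintype.card X)) (h3 : 3 ≤ Fintype.card X) (d : X → ℕ)
    (hnef : ∀ A : Finset X, 2 * A.card < Fintype.card X → 2 * ∑ x ∈ A, d x ≤ ∑ x, d x) :
    ∃ C κ : ℝ, 1 ≤ C ∧ 1 ≤ κ ∧ ∀ P : Config K M X, ∃ (Q : Config K M X) (s : X → ℝ),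
      P.Rel Q ∧ (∀ x, 0 < s x) ∧ (∀ (g : M ≃ₐ[K] M) x, s (g • x) = s x) ∧
      (∀ x y, x ≠ y → 1 ≤ s x * s y) ∧
      (∏ x, s x ^ d x) ^ (2 * Module.finrank ℚ M) ≤ C * Height.mulHeight (P.sec d) ∧
      (fun q : Idx K M X × Idx K M X => wdg (K := K) Q.a Q.b q.1 q.2) ≠ 0 ∧
      tH (pw (fun e : Idx K M X => s (rp e.1)))
        (fun q : Idx K M X × Idx K M X => wdg (K := K) Q.a Q.b q.1 q.2) ≤
        (κ ^ 2) ^ Module.finrank ℚ K := by
  classical
  set dM := Module.finrank ℚ M with hdM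
  have hdM0 : 0 < dM := Module.finrank_pos
  let Y := Σ x : X, Fin (d x)
  have hcardY : Fintype.card Y = ∑ x, d x := by
    simp only [Y, Fintype.card_sigma, Fintype.card_fin]
  have hnefY : ∀ A : Finset X, 2 * A.card < Fintype.card X →
      2 * (Finset.univ.filter fun y : Y => y.1 ∈ A).card ≤ Fintype.card Y := by
    intro A hA
    have h1 : (Finset.univ.filter fun y : Y => y.1 ∈ A) =
        A.sigma (fun x => (Finset.univ : Finset (Fin (d x)))) := by
      ext y
      simp [Y]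
    rw [h1, Finset.card_sigma, hcardY]
    simp only [Finset.card_univ, Fintype.card_fin]
    exact hnef A hA
  obtain ⟨C, hC, hbal⟩ := balanced K M X hodd h3 Y (fun y => y.1) hnefY
  obtain ⟨κ, hκ, hwdg⟩ := tH_wdg_le K M X
  refine ⟨max C 1, κ, le_max_right _ _, hκ, fun P => ?_⟩
  -- integral representatives
  obtain ⟨D, hD, z, hz⟩ := clear_den M (fun q : X × Bool => if q.2 then P.a q.1 else P.b q.1)
  let a0 : X → 𝓞 M := fun x => z (x, true)
  let b0 : X → 𝓞 M := fun x => z (x, false)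
  have ha0 : ∀ x, (a0 x : M) = (D : M) * P.a x := fun x => by
    have := hz (x, true); simpa using this
  have hb0 : ∀ x, (b0 x : M) = (D : M) * P.b x := fun x => by
    have := hz (x, false); simpa using this
  have hDM : (D : M) ≠ 0 := by exact_mod_cast hD
  have hDK : (D : K) ≠ 0 := by exact_mod_cast hD
  have ha0e : ∀ (g : M ≃ₐ[K] M) x, a0 (g • x) = g • a0 x := by
    intro g x
    apply RingOfIntegers.ext
    have : ((g • a0 x : 𝓞 M) : M) = g (a0 x : M) := rfl
    rw [this, ha0, ha0, P.ha, map_mul, map_natCast]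
  have hb0e : ∀ (g : M ≃ₐ[K] M) x, b0 (g • x) = g • b0 x := by
    intro g x
    apply RingOfIntegers.ext
    have : ((g • b0 x : 𝓞 M) : M) = g (b0 x : M) := rfl
    rw [this, hb0, hb0, P.hb, map_mul, map_natCast]
  let p : X → X → 𝓞 M := fun x y => a0 x * b0 y - a0 y * b0 x
  have hpc : ∀ x y, (p x y : M) = (D : M) ^ 2 * P.pl x y := by
    intro x y
    change (a0 x : M) * (b0 y : M) - (a0 y : M) * (b0 x : M) = _
    rw [ha0, hb0, ha0, hb0]
    unfold Config.pl
    ring
  have hp : Pfam K p := by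
    refine ⟨fun x y hxy h => ?_, fun x y => ?_, fun x y z t => ?_, fun g x y => ?_⟩
    · have h1 := hpc x y
      rw [h] at h1
      exact (mul_ne_zero (pow_ne_zero _ hDM) (P.hne x y hxy)) h1.symm
    · simp only [p]; ring
    · simp only [p]; ring
    · simp only [p]
      rw [ha0e, ha0e, hb0e, hb0e, smul_sub, smul_mul', smul_mul']
  obtain ⟨l, J, S, hJ, hlG, hl0, hSG, hS, hlJ, hlw, hprod⟩ := hbal p hp
  have hNJ := absNorm_pos hJ
  let a1 : X → 𝓞 M := fun x => l x * a0 x
  let b1 : X → 𝓞 M := fun x => l x * b0 x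
  have ha1 : Eqv K (fun x => (a1 x : M)) := by
    intro g x
    simp only [a1]
    rw [hlG, ha0e, ← smul_mul']
    rfl
  have hb1 : Eqv K (fun x => (b1 x : M)) := by
    intro g x
    simp only [b1]
    rw [hlG, hb0e, ← smul_mul']
    rfl
  have hab : ∀ x y, a1 x * b1 y - a1 y * b1 x = l x * l y * p x y := by
    intro x y
    simp only [a1, b1, p]; ring
  let Q : Config K M X :=
    { a := fun x => (a1 x : M)
      b := fun x => (b1 x : M)
      ha := ha1
      hb := hb1
      hne := fun x y hxy h => by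
        have h1 : ((a1 x * b1 y - a1 y * b1 x : 𝓞 M) : M) = 0 := h
        rw [hab] at h1
        have h2 : l x * l y * p x y = 0 := RingOfIntegers.ext h1
        exact (mul_ne_zero (mul_ne_zero (hl0 x) (hl0 y)) (hp.ne0 x y hxy)) h2 }
  set ρ := (Ideal.absNorm J : ℝ) ^ ((2 * dM : ℕ) : ℝ)⁻¹ with hρdef
  have hρ : 0 < ρ := Real.rpow_pos_of_pos hNJ _
  have hρJ : ρ ^ (2 * dM) = (Ideal.absNorm J : ℝ) :=
    Real.rpow_inv_natCast_pow hNJ.le (by omega)
  have hrel : P.Rel Q := by
    refine ⟨fun x => (l x : M), fun g x => by simp only [hlG]; rfl, fun x h => hl0 x ?_,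
      (D : K), 0, 0, (D : K), ?_, fun x => ?_⟩
    · have h' : (l x : M) = 0 := h
      exact RingOfIntegers.ext h'
    · simp only [mul_zero, sub_zero]
      exact mul_ne_zero hDK hDK
    · simp only [map_natCast, map_zero, zero_mul, add_zero, zero_add]
      constructor
      · change (l x : M) * (a0 x : M) = _
        rw [ha0]
      · change (l x : M) * (b0 x : M) = _
        rw [hb0]
  obtain ⟨x0, y0, hxy0⟩ : ∃ x0 y0 : X, x0 ≠ y0 := by
    have : 1 < Fintype.card X := by omega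
    exact Fintype.exists_pair_of_one_lt_card this
  have hwne : (fun q : Idx K M X × Idx K M X => wdg (K := K) Q.a Q.b q.1 q.2) ≠ 0 := by
    obtain ⟨e, f, _, _, hef⟩ := exists_wdg_ne (K := K) ha1 hb1 (Q.hne x0 y0 hxy0)
    intro h
    exact hef (congrFun h (e, f))
  refine ⟨Q, fun x => S x / ρ, hrel, fun x => div_pos (hS x) hρ, fun g x => by simp only [hSG],
    fun x y hxy => ?_, ?_, hwne, ?_⟩
  · -- norms
    have h1 : Ideal.absNorm J ∣ Ideal.absNorm (Ideal.span {l x * l y * p x y}) := by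
      apply map_dvd
      rw [Ideal.dvd_span_singleton]
      exact hlJ x y hxy
    have hne : l x * l y * p x y ≠ 0 :=
      mul_ne_zero (mul_ne_zero (hl0 x) (hl0 y)) (hp.ne0 x y hxy)
    have h2 : (Ideal.absNorm J : ℝ) ≤
        ∏ w : InfinitePlace M, w ((l x * l y * p x y : 𝓞 M) : M) ^ w.mult := by
      rw [prod_inf_eq_absNorm]
      have h4 : Ideal.absNorm (Ideal.span {l x * l y * p x y}) ≠ 0 := by
        rw [Ne, Ideal.absNorm_eq_zero_iff, Ideal.span_singleton_eq_bot]; exact hne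
      exact_mod_cast Nat.le_of_dvd (Nat.pos_of_ne_zero h4) h1
    have h5 : ∏ w : InfinitePlace M, w ((l x * l y * p x y : 𝓞 M) : M) ^ w.mult ≤
        (S x * S y) ^ dM := by
      rw [hdM, ← prod_const_mult (K := M)]
      refine Finset.prod_le_prod (fun w _ => pow_nonneg (apply_nonneg _ _) _) fun w _ => ?_
      exact pow_le_pow_left₀ (apply_nonneg _ _) (hlw w x y hxy) _
    have h6 : (ρ ^ 2) ^ dM ≤ (S x * S y) ^ dM := by
      rw [← pow_mul, hρJ]
      exact h2.trans h5
    have h7 : ρ ^ 2 ≤ S x * S y :=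
      le_of_pow_le_pow_left₀ hdM0.ne' (mul_pos (hS x) (hS y)).le h6
    have e : S x / ρ * (S y / ρ) = S x * S y / ρ ^ 2 := by
      field_simp
    rw [e, le_div_iff₀ (by positivity), one_mul]
    exact h7
  · -- product
    have e1 : ∏ y : Y, (S y.1 ^ dM) ^ 2 = (∏ x, S x ^ d x) ^ (2 * dM) := by
      rw [← Finset.prod_pow]
      simp only [Y]
      rw [Fintype.prod_sigma]
      refine Finset.prod_congr rfl fun x _ => ?_
      simp only [Finset.prod_const, Finset.card_univ, Fintype.card_fin]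
      rw [← pow_mul, ← pow_mul, ← pow_mul]
      congr 1
      ring
    have e2 : (∏ x, (S x / ρ) ^ d x) ^ (2 * dM) =
        (∏ x, S x ^ d x) ^ (2 * dM) / (Ideal.absNorm J : ℝ) ^ Fintype.card Y := by
      have e0 : (ρ ^ Fintype.card Y) ^ (2 * dM) = (Ideal.absNorm J : ℝ) ^ Fintype.card Y := by
        rw [← pow_mul, mul_comm, pow_mul, hρJ]
      simp_rw [div_pow]
      rw [Finset.prod_div_distrib, div_pow, Finset.prod_pow_eq_pow_sum, ← hcardY, e0]
    have e3 : ht (fun σ : Equiv.Perm Y => ∏ y, p y.1 (σ y).1) = Height.mulHeight (P.sec d) := by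
      unfold ht
      have e4 : (fun σ : Equiv.Perm Y => ((∏ y, p y.1 (σ y).1 : 𝓞 M) : M)) =
          ((D : M) ^ 2) ^ Fintype.card Y • P.sec d := by
        funext σ
        change algebraMap (𝓞 M) M (∏ y, p y.1 (σ y).1) = _
        rw [map_prod, Pi.smul_apply, smul_eq_mul]
        unfold Config.sec
        rw [← Finset.card_univ, ← Finset.prod_const, ← Finset.prod_mul_distrib]
        exact Finset.prod_congr rfl fun y _ => hpc _ _
      rw [e4, Height.mulHeight_smul_eq_mulHeight _ (pow_ne_zero _ (pow_ne_zero _ hDM))]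
    rw [e2, div_le_iff₀ (by positivity), ← e1]
    rw [e3] at hprod
    refine hprod.trans ?_
    have := Height.mulHeight_pos (P.sec d)
    gcongr
    exact le_max_left _ _
  · exact hwdg a1 b1 ha1 hb1 J hJ S hS hSG (fun x y hxy => by rw [hab]; exact hlJ x y hxy)
      (fun w x y hxy => by rw [hab]; exact hlw w x y hxy) ρ hρ hρJ hwne

end rep

end Pool.Lib18ea5f
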