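import Mathlib
import Pool.Agent.Lib18ea5f.ConfRep

set_option autoImplicit false
set_option linter.unusedSectionVars false

/-!
Pivots and linear programming bounds.
-/

namespace Pool.Lib18ea5f

open Finset NumberField

lemma lp1 {X : Type*} [Fintype X] [DecidableEq X] (l : X → ℝ) (h : ∀ x y, x ≠ y → 0 ≤ l x + l y)
    (e : X → ℝ) (he : ∀ x, 0 ≤ e x) (he2 : ∀ x, 2 * e x ≤ ∑ y, e y) : 0 ≤ ∑ x, e x * l x := by
  by_cases hall : ∀ x, 0 ≤ l x
  · exact Finset.sum_nonneg fun x _ => mul_nonneg (he x) (hall x)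
  push Not at hall
  obtain ⟨x0, hx0⟩ := hall
  have h1 := Finset.add_sum_erase Finset.univ (fun x => e x * l x) (Finset.mem_univ x0)
  have h2 := Finset.add_sum_erase Finset.univ e (Finset.mem_univ x0)
  rw [← h1]
  have h3 : ∑ y ∈ Finset.univ.erase x0, e y * (-l x0) ≤ ∑ y ∈ Finset.univ.erase x0, e y * l y := by
    refine Finset.sum_le_sum fun y hy => mul_le_mul_of_nonneg_left ?_ (he y)
    have := h x0 y (Finset.ne_of_mem_erase hy).symm
    linarith
  rw [← Finset.sum_mul] at h3
  have h4 := he2 x0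
  nlinarith

lemma lp2 {X : Type*} [Fintype X] [DecidableEq X] (l : X → ℝ) (h : ∀ x y, x ≠ y → 0 ≤ l x + l y)
    (h3 : 3 ≤ Fintype.card X) (x : X) : l x ≤ ∑ y, l y := by
  have h1 := lp1 l h (fun y => if y = x then 0 else 1) (fun y => by split_ifs <;> norm_num)
    (fun y => by
      have e : ∑ y, (if y = x then (0 : ℝ) else 1) = Fintype.card X - 1 := by
        have : ∀ y, (if y = x then (0 : ℝ) else 1) = 1 - (if y = x then 1 else 0) := by
          intro y; split_ifs <;> norm_num
        simp_rw [this]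
        rw [Finset.sum_sub_distrib, Finset.sum_ite_eq']
        simp
      rw [e]
      have h5 : (3 : ℝ) ≤ Fintype.card X := by exact_mod_cast h3
      split_ifs <;> linarith)
  have e2 : ∑ y, (if y = x then (0 : ℝ) else 1) * l y = ∑ y, l y - l x := by
    have : ∀ y, (if y = x then (0 : ℝ) else 1) * l y = l y - (if y = x then l y else 0) := by
      intro y; split_ifs <;> ring
    simp_rw [this]
    rw [Finset.sum_sub_distrib, Finset.sum_ite_eq']
    simp
  rw [e2] at h1
  linarith

lemma tH_smul {K : Type*} [Field K] [NumberField K] {ι : Type*} [Finite ι] {ω : ι → ℝ}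
    {x : ι → K} (hx : x ≠ 0) {c : K} (hc : c ≠ 0) : tH ω (c • x) = tH ω x := by
  have h1 := fN_smul hx hc
  unfold tH
  rw [← h1]
  have h2 : aN ω (c • x) = (∏ v : InfinitePlace K, v c ^ v.mult) * aN ω x := by
    unfold aN
    rw [← Finset.prod_mul_distrib]
    refine Finset.prod_congr rfl fun v _ => ?_
    rw [← mul_pow]
    congr 1
    unfold wv
    rw [Real.mul_iSup_of_nonneg (apply_nonneg _ _)]
    congr 1
    funext i
    rw [Pi.smul_apply, smul_eq_mul, map_mul]
    ring
  rw [h2]
  ring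

section

variable (K M X : Type*) [Field K] [NumberField K] [Field M] [NumberField M] [Algebra K M]
  [FiniteDimensional K M] [IsGalois K M]
  [Fintype X] [DecidableEq X] [MulAction (M ≃ₐ[K] M) X]

theorem exists_rep2 (hodd : Odd (Fintype.card X)) (h3 : 3 ≤ Fintype.card X) (d : X → ℕ)
    (hnef : ∀ A : Finset X, 2 * A.card < Fintype.card X → 2 * ∑ x ∈ A, d x ≤ ∑ x, d x) :
    ∃ C κ : ℝ, 1 ≤ C ∧ 1 ≤ κ ∧ ∀ P : Config K M X, ∃ (Q : Config K M X) (s : X → ℝ)
      (e f : Idx K M X),
      P.Rel Q ∧ (∀ x, 0 < s x) ∧ (∀ (g : M ≃ₐ[K] M) x, s (g • x) = s x) ∧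
      (∀ x y, x ≠ y → 1 ≤ s x * s y) ∧
      (∏ x, s x ^ d x) ^ (2 * Module.finrank ℚ M) ≤ C * Height.mulHeight (P.sec d) ∧
      e ≠ f ∧ (crd (K := K) Q.a e = 1 ∧ crd (K := K) Q.a f = 0 ∧
        crd (K := K) Q.b e = 0 ∧ crd (K := K) Q.b f = 1) ∧
      s (rp e.1) ≤ s (rp f.1) ∧ (∀ j : Idx K M X, j ≠ e → j ≠ f → s (rp f.1) ≤ s (rp j.1)) ∧
      tH (pw (fun e : Idx K M X => s (rp e.1)))
        (fun q : Idx K M X × Idx K M X => wdg (K := K) Q.a Q.b q.1 q.2) ≤
        (κ ^ 2) ^ Module.finrank ℚ K := by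
  classical
  obtain ⟨C, κ, hC, hκ, hrep⟩ := exists_rep K M X hodd h3 d hnef
  refine ⟨C, κ, hC, hκ, fun P => ?_⟩
  obtain ⟨Q, s, hPQ, hs, hsG, hss, hprod, hwne, htH⟩ := hrep P
  have hscl : ∀ x : X, s (rp (cl (K := K) (M := M) x)) = s x := by
    intro x
    obtain ⟨g, hg⟩ := exists_smul_rp (K := K) (M := M) x
    conv_rhs => rw [← hg, hsG]
  have : Nonempty X := ⟨(Fintype.card_pos_iff.mp (by omega)).some⟩
  obtain ⟨x0, _, hx0⟩ := Finset.exists_min_image (Finset.univ : Finset X) s Finset.univ_nonempty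
  obtain ⟨y0, hy0m, hy0⟩ := Finset.exists_min_image (Finset.univ.erase x0) s (by
    rw [← Finset.card_pos, Finset.card_erase_of_mem (Finset.mem_univ _), Finset.card_univ]
    omega)
  have hxy : x0 ≠ y0 := (Finset.ne_of_mem_erase hy0m).symm
  obtain ⟨e, f, he, hf, hef⟩ := exists_wdg_ne (K := K) Q.ha Q.hb (Q.hne x0 y0 hxy)
  have hefne : e ≠ f := by
    rintro rfl
    apply hef
    unfold wdg
    ring
  set w := wdg (K := K) Q.a Q.b e f with hw
  -- the normalised configuration
  set ae := crd (K := K) Q.a e with hae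
  set af := crd (K := K) Q.a f with haf
  set be := crd (K := K) Q.b e with hbe
  set bf := crd (K := K) Q.b f with hbf
  have hwv : w = ae * bf - af * be := rfl
  have hdet : bf / w * (ae / w) - -af / w * (-be / w) ≠ 0 := by
    have : bf / w * (ae / w) - -af / w * (-be / w) = 1 / w := by
      have e1 : bf / w * (ae / w) - -af / w * (-be / w) = (ae * bf - af * be) / w / w := by
        field_simp
      rw [e1, ← hwv, div_self hef]
    rw [this]
    exact one_div_ne_zero hef
  let Q' : Config K M X :=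
    { a := fun x => algebraMap K M (bf / w) * Q.a x + algebraMap K M (-af / w) * Q.b x
      b := fun x => algebraMap K M (-be / w) * Q.a x + algebraMap K M (ae / w) * Q.b x
      ha := fun g x => by
        simp only [map_add, map_mul, AlgEquiv.commutes, Q.ha, Q.hb]
      hb := fun g x => by
        simp only [map_add, map_mul, AlgEquiv.commutes, Q.ha, Q.hb]
      hne := fun x y hxy h => by
        have h1 : (algebraMap K M (bf / w) * Q.a x + algebraMap K M (-af / w) * Q.b x) *
            (algebraMap K M (-be / w) * Q.a y + algebraMap K M (ae / w) * Q.b y) -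
            (algebraMap K M (bf / w) * Q.a y + algebraMap K M (-af / w) * Q.b y) *
            (algebraMap K M (-be / w) * Q.a x + algebraMap K M (ae / w) * Q.b x) =
            algebraMap K M (bf / w * (ae / w) - -af / w * (-be / w)) *
              (Q.a x * Q.b y - Q.a y * Q.b x) := by
          rw [map_sub, map_mul, map_mul]; ring
        rw [h1] at h
        refine (mul_ne_zero ?_ (Q.hne x y hxy)) h
        rw [Ne, FaithfulSMul.algebraMap_eq_zero_iff]
        exact hdet }
  have hQQ' : Q.Rel Q' := by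
    refine ⟨fun _ => 1, fun g x => (map_one g).symm, fun _ => one_ne_zero, bf / w, -af / w,
      -be / w, ae / w, hdet, fun x => ?_⟩
    simp only [one_mul, Q']
    exact ⟨trivial, trivial⟩
  have hca : ∀ j : Idx K M X, crd (K := K) Q'.a j =
      bf / w * crd (K := K) Q.a j + -af / w * crd (K := K) Q.b j := fun j => crd_lin _ _ _ _ _
  have hcb : ∀ j : Idx K M X, crd (K := K) Q'.b j =
      -be / w * crd (K := K) Q.a j + ae / w * crd (K := K) Q.b j := fun j => crd_lin _ _ _ _ _
  have hwdg : ∀ i j : Idx K M X, wdg (K := K) Q'.a Q'.b i j =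
      (1 / w) * wdg (K := K) Q.a Q.b i j := by
    intro i j
    have e0 : (1 : K) / w = bf / w * (ae / w) - -af / w * (-be / w) := by
      have e1 : bf / w * (ae / w) - -af / w * (-be / w) = (ae * bf - af * be) / w / w := by
        field_simp
      rw [e1, ← hwv, div_self hef]
    rw [e0]
    unfold wdg
    rw [hca, hcb, hca, hcb]
    ring
  refine ⟨Q', s, e, f, hPQ.trans hQQ', hs, hsG, hss, hprod, hefne, ⟨?_, ?_, ?_, ?_⟩, ?_, ?_, ?_⟩
  · rw [hca, ← hae, ← hbe]
    have e1 : bf / w * ae + -af / w * be = (ae * bf - af * be) / w := by ring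
    rw [e1, ← hwv, div_self hef]
  · rw [hca, ← haf, ← hbf]; ring
  · rw [hcb, ← hae, ← hbe]; ring
  · rw [hcb, ← haf, ← hbf]
    have e1 : -be / w * af + ae / w * bf = (ae * bf - af * be) / w := by ring
    rw [e1, ← hwv, div_self hef]
  · rw [he, hf, hscl, hscl]
    exact hx0 y0 (Finset.mem_univ _)
  · intro j hje hjf
    refine pivot (fun o => s (rp o)) x0 y0 hxy ?_ ?_ e f he hf hefne j hje hjf
    · simp only [hscl]
      exact hx0 y0 (Finset.mem_univ _)
    · intro z hz1 hz2
      simp only [hscl]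
      exact hy0 z (Finset.mem_erase.mpr ⟨hz1, Finset.mem_univ _⟩)
  · have e1 : (fun q : Idx K M X × Idx K M X => wdg (K := K) Q'.a Q'.b q.1 q.2) =
        (1 / w) • (fun q : Idx K M X × Idx K M X => wdg (K := K) Q.a Q.b q.1 q.2) := by
      funext q
      rw [Pi.smul_apply, smul_eq_mul, hwdg]
    rw [e1, tH_smul hwne (one_div_ne_zero hef)]
    exact htH

end

end Pool.Lib18ea5f
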