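import Mathlib
import Pool.Agent.Lib18ea5f.ConfPivot

set_option autoImplicit false
set_option linter.unusedSectionVars false

/-!
Counting configurations of bounded height.
-/

namespace Pool.Lib18ea5f

open Finset NumberField

lemma exists_equiv_pivot {ι : Type*} [Fintype ι] [DecidableEq ι] {m : ℕ}
    (hcard : Fintype.card ι = m + 2) (e f : ι) (hef : e ≠ f) :
    ∃ σ : Fin (m + 2) ≃ ι, σ 0 = e ∧ σ 1 = f := by
  classical
  let e0 : Fin (m + 2) ≃ ι := (Fintype.equivFinOfCardEq hcard).symm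
  let t1 : Fin (m + 2) ≃ ι := e0.trans (Equiv.swap (e0 0) e)
  have h1 : t1 0 = e := by simp [t1]
  let t2 : Fin (m + 2) ≃ ι := t1.trans (Equiv.swap (t1 1) f)
  refine ⟨t2, ?_, by simp [t2]⟩
  have h2 : t1 0 ≠ t1 1 := by
    intro h
    have := t1.injective h
    have h3 := congrArg Fin.val this
    have h11 : ((1 : Fin (m + 2)) : ℕ) = 1 := rfl
    rw [h11] at h3
    simp at h3
  have h3 : t1 0 ≠ f := by rw [h1]; exact hef
  simp only [t2, Equiv.trans_apply]
  rw [Equiv.swap_apply_of_ne_of_ne h2 h3, h1]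

section

variable {K M X : Type*} [Field K] [NumberField K] [Field M] [NumberField M] [Algebra K M]
  [FiniteDimensional K M] [IsGalois K M]
  [Fintype X] [DecidableEq X] [MulAction (M ≃ₐ[K] M) X]

theorem fibre_bound {m : ℕ} (hcard : Fintype.card X = m + 2) {κ : ℝ} (hκ : 1 ≤ κ) (k : X → ℤ)
    (hkG : ∀ x, k (rp (cl (K := K) (M := M) x)) = k x)
    (e f : Idx K M X) (hef : e ≠ f) (J : ℕ)
    (S : Finset (Config K M X)) (Q : Config K M X → Config K M X) (s : Config K M X → X → ℝ)
    (hinj : ∀ P ∈ S, ∀ P' ∈ S, Q P = Q P' → P = P')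
    (hpos : ∀ P ∈ S, ∀ x, 0 < s P x)
    (hk : ∀ P ∈ S, ∀ x, s P x ≤ (2 : ℝ) ^ k x)
    (hcrd : ∀ P ∈ S, crd (K := K) (Q P).a e = 1 ∧ crd (K := K) (Q P).a f = 0 ∧
        crd (K := K) (Q P).b e = 0 ∧ crd (K := K) (Q P).b f = 1)
    (hmin1 : k (rp e.1) ≤ k (rp f.1))
    (hmin2 : ∀ j : Idx K M X, j ≠ e → j ≠ f → k (rp f.1) ≤ k (rp j.1))
    (hJ : ((κ * (2 : ℝ) ^ k (rp e.1)) * (κ * (2 : ℝ) ^ k (rp f.1))) ^ Module.finrank ℚ K ≤ 2 ^ J)
    (htH : ∀ P ∈ S, tH (pw (fun e : Idx K M X => s P (rp e.1)))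
        (fun q : Idx K M X × Idx K M X => wdg (K := K) (Q P).a (Q P).b q.1 q.2) ≤
        (κ ^ 2) ^ Module.finrank ℚ K) :
    (S.card : ℝ) ≤ ((J + 1) * (5 * lineC K)) ^ (2 * m) *
      ((∏ x, κ * (2 : ℝ) ^ k x) ^ Module.finrank ℚ K) ^ 2 := by
  classical
  have hκ0 : 0 < κ := lt_of_lt_of_le one_pos hκ
  have hcardI : Fintype.card (Idx K M X) = m + 2 := by rw [card_idx, hcard]
  obtain ⟨σ, hσ0, hσ1⟩ := exists_equiv_pivot hcardI e f hef
  let wt : Idx K M X → ℝ := fun j => κ * (2 : ℝ) ^ k (rp j.1)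
  have hwt : ∀ j, 0 < wt j := fun j => by
    have : (0 : ℝ) < (2 : ℝ) ^ k (rp j.1) := by positivity
    positivity
  let ω : ℕ → ℝ := fun i => if h : i < m + 2 then wt (σ ⟨i, h⟩) else 1
  have hω : ∀ i : Fin (m + 2), ω i = wt (σ i) := by
    intro i
    simp only [ω, dif_pos i.2]
  have hωpos : ∀ i, 0 < ω i := by
    intro i
    simp only [ω]
    split_ifs with h
    · exact hwt _
    · exact one_pos
  have hmono : ∀ a b : ℤ, a ≤ b → κ * (2 : ℝ) ^ a ≤ κ * (2 : ℝ) ^ b := by
    intro a b hab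
    have : (2 : ℝ) ^ a ≤ (2 : ℝ) ^ b := zpow_le_zpow_right₀ (by norm_num) hab
    gcongr
  have h11 : ((1 : Fin (m + 2)) : ℕ) = 1 := rfl
  have h00 : ((0 : Fin (m + 2)) : ℕ) = 0 := rfl
  have hω0 : ω 0 = wt e := by
    have := hω 0
    rwa [h00, hσ0] at this
  have hω1 : ω 1 = wt f := by
    have := hω 1
    rwa [h11, hσ1] at this
  have hW : Wts K m ω J := by
    refine ⟨hωpos, ?_, fun i hi2 him => ?_, ?_⟩
    · rw [hω0, hω1]
      exact hmono _ _ hmin1
    · have h1 := hω ⟨i, him⟩
      simp only at h1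
      rw [h1, hω1]
      refine hmono _ _ (hmin2 _ ?_ ?_)
      · intro h
        rw [← hσ0] at h
        have h2 := congrArg Fin.val (σ.injective h)
        rw [h00] at h2
        simp only at h2
        omega
      · intro h
        rw [← hσ1] at h
        have h2 := congrArg Fin.val (σ.injective h)
        rw [h11] at h2
        simp only at h2
        omega
    · rw [hω0, hω1]
      exact hJ
  let F : Config K M X → (Fin (m + 2) → K) × (Fin (m + 2) → K) := fun P =>
    (fun i => crd (K := K) (Q P).a (σ i), fun i => crd (K := K) (Q P).b (σ i))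
  have hFinj : ∀ P ∈ S, ∀ P' ∈ S, F P = F P' → P = P' := by
    intro P hP P' hP' h
    apply hinj P hP P' hP'
    have h1 : ∀ j, crd (K := K) (Q P).a j = crd (K := K) (Q P').a j := by
      intro j
      have := congrFun (congrArg Prod.fst h) (σ.symm j)
      simpa [F] using this
    have h2 : ∀ j, crd (K := K) (Q P).b j = crd (K := K) (Q P').b j := by
      intro j
      have := congrFun (congrArg Prod.snd h) (σ.symm j)
      simpa [F] using this
    have h3 := crd_inj (K := K) (Q P).ha (Q P').ha h1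
    have h4 := crd_inj (K := K) (Q P).hb (Q P').hb h2
    cases hQ : Q P
    cases hQ' : Q P'
    rw [hQ, hQ'] at h3 h4
    simp only at h3 h4
    subst h3
    subst h4
    rfl
  have hcardF : (S.image F).card = S.card := Finset.card_image_of_injOn fun P hP P' hP' h =>
    hFinj P hP P' hP' h
  have hmain := plane_count hW (S.image F) (by
    intro q hq
    obtain ⟨P, hP, rfl⟩ := Finset.mem_image.mp hq
    obtain ⟨c1, c2, c3, c4⟩ := hcrd P hP
    refine ⟨?_, ?_, ?_, ?_, ?_⟩
    · simp only [F]; rw [hσ0]; exact c1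
    · simp only [F]; rw [hσ1]; exact c2
    · simp only [F]; rw [hσ0]; exact c3
    · simp only [F]; rw [hσ1]; exact c4
    · -- the height
      have hsp : ∀ j : Idx K M X, 0 < s P (rp j.1) := fun j => hpos P hP _
      have hsc : tH (pw (fun j : Idx K M X => κ * s P (rp j.1)))
          (fun q : Idx K M X × Idx K M X => wdg (K := K) (Q P).a (Q P).b q.1 q.2) ≤ 1 := by
        have h1 := tH_scale (K := K) (pw_pos hsp) (c := κ ^ 2) (by positivity)
          (fun q : Idx K M X × Idx K M X => wdg (K := K) (Q P).a (Q P).b q.1 q.2)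
        have e1 : (pw (fun j : Idx K M X => κ * s P (rp j.1))) =
            (fun q => κ ^ 2 * pw (fun j : Idx K M X => s P (rp j.1)) q) := by
          funext q
          simp only [pw]; ring
        rw [e1]
        have h2 := htH P hP
        rw [← h1] at h2
        have h3 : (0 : ℝ) < (κ ^ 2) ^ Module.finrank ℚ K := by positivity
        exact le_of_mul_le_mul_right (by rw [one_mul]; exact h2) h3
      have hne1 : (fun q : Idx K M X × Idx K M X =>
          wdg (K := K) (Q P).a (Q P).b q.1 q.2) ≠ 0 := by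
        intro h
        have h1 := congrFun h (e, f)
        simp only [Pi.zero_apply] at h1
        unfold wdg at h1
        rw [c1, c2, c3, c4] at h1
        simp at h1
      refine le_trans ?_ hsc
      refine tH_mono (pw_pos fun i => hωpos _) (pw_pos fun j => mul_pos hκ0 (hsp j)) ?_ hne1
        fun r _ => ⟨(σ r.1, σ r.2), Or.inl rfl, ?_⟩
      · intro h
        have h1 := congrFun h (0, 1)
        simp only [Pi.zero_apply, F] at h1
        rw [hσ0, hσ1, c1, c2, c3, c4] at h1
        simp at h1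
      · simp only [pw]
        rw [hω, hω]
        have h1 : κ * s P (rp (σ r.1).1) ≤ wt (σ r.1) :=
          mul_le_mul_of_nonneg_left (hk P hP _) hκ0.le
        have h2 : κ * s P (rp (σ r.2).1) ≤ wt (σ r.2) :=
          mul_le_mul_of_nonneg_left (hk P hP _) hκ0.le
        exact mul_le_mul h1 h2 (mul_pos hκ0 (hsp _)).le (hwt _).le)
  rw [hcardF] at hmain
  refine hmain.trans (le_of_eq ?_)
  congr 3
  have h1 : ω 0 * ω 1 * ∏ k ∈ Finset.Ico 2 (m + 2), ω k = ∏ i : Fin (m + 2), ω i := by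
    rw [Fin.prod_univ_eq_prod_range (fun i => ω i) (m + 2), Finset.range_eq_Ico,
      ← Finset.prod_Ico_consecutive _ (show 0 ≤ 2 by omega) (show 2 ≤ m + 2 by omega)]
    congr 1
    rw [← Finset.range_eq_Ico, Finset.prod_range_succ, Finset.prod_range_one]
  rw [h1]
  simp_rw [hω]
  rw [Equiv.prod_comp σ wt]
  have h2 := prod_idx (K := K) (M := M) (X := X) (fun o => κ * (2 : ℝ) ^ k (rp o))
  simp only [wt]
  rw [h2]
  refine Finset.prod_congr rfl fun x _ => ?_
  rw [hkG]

/-- The count for finite families of inequivalent configurations. -/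
theorem conf_count (hodd : Odd (Fintype.card X)) (h3 : 3 ≤ Fintype.card X) (d : X → ℕ)
    (hnef : ∀ A : Finset X, 2 * A.card < Fintype.card X → 2 * ∑ x ∈ A, d x ≤ ∑ x, d x)
    (t : ℝ) (ht : ∀ x, 2 ≤ t * d x ∧ 2 * (t * d x - 2) ≤ ∑ y, (t * d y - 2)) :
    ∃ C' : ℝ, 0 < C' ∧ ∀ T : ℝ, 1 ≤ T → ∀ S : Finset (Config K M X),
      (∀ P ∈ S, P.height d ≤ T) → (∀ P ∈ S, ∀ P' ∈ S, P.Rel P' → P = P') →
      (S.card : ℝ) ≤ C' * T ^ t * (1 + Real.log T) ^ (3 * Fintype.card X) := by
  classical
  obtain ⟨C, κ, hC, hκ, hrep⟩ := exists_rep2 K M X hodd h3 d hnef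
  set dK := Module.finrank ℚ K with hdK
  set dM := Module.finrank ℚ M with hdM
  set r := Module.finrank K M with hr
  have hr0 : 0 < r := Module.finrank_pos
  have hdK0 : 0 < dK := Module.finrank_pos
  have hdr : dK * r = dM := Module.finrank_mul_finrank ℚ K M
  obtain ⟨m, hm⟩ : ∃ m, Fintype.card X = m + 2 := ⟨Fintype.card X - 2, by omega⟩
  have hκ0 : 0 < κ := lt_of_lt_of_le one_pos hκ
  have hXne : Nonempty X := ⟨(Fintype.card_pos_iff.mp (by omega)).some⟩
  have ht0 : 0 < t := by
    by_contra h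
    push Not at h
    have h1 := (ht hXne.some).1
    have h2 : t * (d hXne.some : ℝ) ≤ 0 := mul_nonpos_of_nonpos_of_nonneg h (Nat.cast_nonneg _)
    linarith
  have hlogC : 0 ≤ Real.log C := Real.log_nonneg hC
  choose Q s e f hPQ hs hsG hss hprod hef hcrd hmin1 hmin2 htH using hrep
  have hscl : ∀ P, ∀ x : X, s P (rp (cl (K := K) (M := M) x)) = s P x := by
    intro P x
    obtain ⟨g, hg⟩ := exists_smul_rp (K := K) (M := M) x
    conv_rhs => rw [← hg, hsG]
  let k : Config K M X → X → ℤ := fun P x => ⌈Real.logb 2 (s P x)⌉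
  have hk1 : ∀ P x, s P x ≤ (2 : ℝ) ^ k P x := by
    intro P x
    have h1 : Real.logb 2 (s P x) ≤ (k P x : ℝ) := Int.le_ceil _
    rw [Real.logb_le_iff_le_rpow (by norm_num) (hs P x), Real.rpow_intCast] at h1
    exact h1
  have hk2 : ∀ P x, (2 : ℝ) ^ k P x ≤ 2 * s P x := by
    intro P x
    have h1 : (k P x : ℝ) < Real.logb 2 (s P x) + 1 := Int.ceil_lt_add_one _
    have h2 : Real.logb 2 (s P x) + 1 = Real.logb 2 (2 * s P x) := by
      rw [Real.logb_mul (by norm_num) (hs P x).ne', Real.logb_self_eq_one (by norm_num)]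
      ring
    rw [h2] at h1
    have h4 := h1.le
    rw [Real.le_logb_iff_rpow_le (by norm_num) (by have := hs P x; positivity),
      Real.rpow_intCast] at h4
    exact h4
  -- constants
  set c0 := 1 + Real.log C with hc0
  have hc0pos : 1 ≤ c0 := by rw [hc0]; linarith
  set cB := 4 * t * c0 + 7 with hcB
  set cJ := 2 * (dK * Real.log (4 * κ ^ 2) + t * c0) + 2 with hcJ
  have hlogκ : 0 ≤ Real.log (4 * κ ^ 2) := Real.log_nonneg (by nlinarith)
  have hcBpos : 0 < cB := by positivity
  have hcJpos : 0 < cJ := by positivity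
  have hlC := one_le_lineC K
  refine ⟨(cB ^ Fintype.card X * (Fintype.card X) ^ 2) *
    ((cJ * (5 * lineC K)) ^ (2 * m) * ((2 * κ) ^ (Fintype.card X * dK) ) ^ 2 * C ^ t), ?_,
    fun T hT S hST hinj => ?_⟩
  · have : (0 : ℝ) < Fintype.card X := by exact_mod_cast (by omega : 0 < Fintype.card X)
    have h2 : 0 < C ^ t := Real.rpow_pos_of_pos (by linarith) _
    positivity
  have hT0 : 0 < T := by linarith
  have hlogT : 0 ≤ Real.log T := Real.log_nonneg hT
  set Λ := 1 + Real.log T with hΛ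
  have hΛ1 : 1 ≤ Λ := by rw [hΛ]; linarith
  set L := Real.log C + Real.log T with hL
  have hL0 : 0 ≤ L := by positivity
  have hLΛ : L ≤ c0 * Λ := by
    rw [hL, hc0, hΛ]
    nlinarith
  set R := t * L / 2 with hR
  have hR0 : 0 ≤ R := by positivity
  -- bounds for a single configuration
  have hlsum : ∀ P ∈ S, dK * (2 * ∑ x, Real.log (s P x)) ≤ t * L ∧
      ∀ x, Real.log (s P x) ≤ R ∧ -R ≤ Real.log (s P x) := by
    intro P hP
    have hl : ∀ x y, x ≠ y → 0 ≤ Real.log (s P x) + Real.log (s P y) := by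
      intro x y hxy
      rw [← Real.log_mul (hs P x).ne' (hs P y).ne']
      exact Real.log_nonneg (hss P x y hxy)
    have hH := hST P hP
    have hmh : Height.mulHeight (P.sec d) ≤ T ^ (2 * r) := by
      unfold Config.height at hH
      have h1 := Height.mulHeight_pos (P.sec d)
      have h2 : Height.mulHeight (P.sec d) =
          (Height.mulHeight (P.sec d) ^ (1 / (2 * (r : ℝ)))) ^ (2 * r) := by
        rw [← Real.rpow_natCast, ← Real.rpow_mul h1.le]
        have : (1 / (2 * (r : ℝ)) * ((2 * r : ℕ) : ℝ)) = 1 := by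
          push_cast
          have : (r : ℝ) ≠ 0 := by exact_mod_cast hr0.ne'
          field_simp
        rw [this, Real.rpow_one]
      rw [h2]
      exact pow_le_pow_left₀ (Real.rpow_nonneg h1.le _) hH _
    have hpr := (hprod P).trans (mul_le_mul_of_nonneg_left hmh (by linarith : (0 : ℝ) ≤ C))
    have hlp : (2 * dM : ℝ) * ∑ x, d x * Real.log (s P x) ≤
        Real.log C + 2 * r * Real.log T := by
      have h1 : 0 < ∏ x, s P x ^ d x := Finset.prod_pos fun x _ => pow_pos (hs P x) _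
      have h2 := Real.log_le_log (pow_pos h1 _) hpr
      rw [Real.log_pow, Real.log_prod (fun x _ => (pow_pos (hs P x) _).ne'),
        Real.log_mul (by linarith) (pow_pos hT0 _).ne', Real.log_pow] at h2
      simp_rw [Real.log_pow] at h2
      push_cast at h2
      exact h2
    have hrR : (1 : ℝ) ≤ r := by exact_mod_cast hr0
    have hlp2 : (dK : ℝ) * ∑ x, d x * Real.log (s P x) ≤ L := by
      have e1 : (dM : ℝ) = dK * r := by rw [← hdr]; push_cast; ring
      rw [e1] at hlp
      have h1 : (2 * r : ℝ) * ((dK : ℝ) * ∑ x, d x * Real.log (s P x)) ≤ (2 * r) * L := by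
        calc (2 * r : ℝ) * ((dK : ℝ) * ∑ x, d x * Real.log (s P x))
            = (2 * (dK * r) : ℝ) * ∑ x, d x * Real.log (s P x) := by ring
          _ ≤ Real.log C + 2 * r * Real.log T := hlp
          _ ≤ 2 * r * Real.log C + 2 * r * Real.log T := by nlinarith
          _ = (2 * r) * L := by rw [hL]; ring
      exact le_of_mul_le_mul_left h1 (by positivity)
    have hlp3 := lp1 (fun x => Real.log (s P x)) hl (fun x => t * d x - 2)
      (fun x => by linarith [(ht x).1]) (fun x => (ht x).2)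
    have e2 : ∑ x, (t * (d x : ℝ) - 2) * Real.log (s P x) =
        t * ∑ x, d x * Real.log (s P x) - 2 * ∑ x, Real.log (s P x) := by
      rw [Finset.mul_sum, Finset.mul_sum, ← Finset.sum_sub_distrib]
      exact Finset.sum_congr rfl fun x _ => by ring
    rw [e2] at hlp3
    have hdK1 : (1 : ℝ) ≤ dK := by exact_mod_cast hdK0
    have hfirst : dK * (2 * ∑ x, Real.log (s P x)) ≤ t * L := by
      calc dK * (2 * ∑ x, Real.log (s P x)) ≤ dK * (t * ∑ x, d x * Real.log (s P x)) := by
            apply mul_le_mul_of_nonneg_left _ (by positivity)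
            linarith
        _ = t * (dK * ∑ x, d x * Real.log (s P x)) := by ring
        _ ≤ t * L := mul_le_mul_of_nonneg_left hlp2 ht0.le
    have hsum0 : 0 ≤ ∑ x, Real.log (s P x) := by
      have := lp1 (fun x => Real.log (s P x)) hl (fun _ => 1) (fun _ => by norm_num)
        (fun x => by
          rw [Finset.sum_const, Finset.card_univ, nsmul_eq_mul]
          have : (3 : ℝ) ≤ Fintype.card X := by exact_mod_cast h3
          linarith)
      simpa using this
    have hle : ∀ x, Real.log (s P x) ≤ R := by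
      intro x
      refine (lp2 (fun x => Real.log (s P x)) hl h3 x).trans ?_
      rw [hR]
      have : 2 * ∑ x, Real.log (s P x) ≤ dK * (2 * ∑ x, Real.log (s P x)) := by nlinarith
      linarith
    refine ⟨hfirst, fun x => ⟨hle x, ?_⟩⟩
    obtain ⟨y, hy⟩ : ∃ y : X, y ≠ x := by
      have : 1 < Fintype.card X := by omega
      exact Fintype.exists_ne_of_one_lt_card this x
    have h1 := hl x y hy.symm
    have h2 := hle y
    linarith
  -- range of the dyadic exponents
  set B : ℕ := ⌈2 * R⌉₊ + 1 with hB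
  have hlog2 : 1 / 2 ≤ Real.log 2 := by
    have := Real.log_two_gt_d9; linarith
  have hlogb : ∀ y : ℝ, 0 < y → Real.log y ≤ R → -R ≤ Real.log y →
      Real.logb 2 y ≤ 2 * R ∧ -(2 * R) ≤ Real.logb 2 y := by
    intro y hy h1 h2
    have hl2 : 0 < Real.log 2 := by linarith
    unfold Real.logb
    rw [div_le_iff₀ hl2, le_div_iff₀ hl2]
    constructor <;> nlinarith
  have hkB : ∀ P ∈ S, ∀ x, -(B : ℤ) ≤ k P x ∧ k P x ≤ B := by
    intro P hP x
    obtain ⟨_, hx⟩ := hlsum P hP
    obtain ⟨h1, h2⟩ := hlogb (s P x) (hs P x) (hx x).1 (hx x).2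
    have h3 : 2 * R ≤ (⌈2 * R⌉₊ : ℝ) := Nat.le_ceil _
    have h4 : (k P x : ℝ) < Real.logb 2 (s P x) + 1 := Int.ceil_lt_add_one _
    have h5 : Real.logb 2 (s P x) ≤ (k P x : ℝ) := Int.le_ceil _
    have hBr : (B : ℝ) = (⌈2 * R⌉₊ : ℝ) + 1 := by rw [hB]; push_cast; ring
    constructor
    · have : (-(B : ℤ) : ℝ) ≤ (k P x : ℝ) := by push_cast; linarith
      exact_mod_cast this
    · have : (k P x : ℝ) ≤ ((B : ℤ) : ℝ) := by push_cast; linarith
      exact_mod_cast this
  -- J
  set J : ℕ := ⌈2 * (dK * Real.log (4 * κ ^ 2) + t * L)⌉₊ with hJdef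
  have hJP : ∀ P ∈ S, ∀ x y : X, ((κ * (2 : ℝ) ^ k P x) * (κ * (2 : ℝ) ^ k P y)) ^ dK ≤ 2 ^ J := by
    intro P hP x y
    obtain ⟨_, hx⟩ := hlsum P hP
    have p1 : 0 < (2 : ℝ) ^ k P x := by positivity
    have p2 : 0 < (2 : ℝ) ^ k P y := by positivity
    have hpos : 0 < (κ * (2 : ℝ) ^ k P x) * (κ * (2 : ℝ) ^ k P y) := by positivity
    rw [← Real.rpow_natCast 2 J]
    have h1 : (κ * (2 : ℝ) ^ k P x) * (κ * (2 : ℝ) ^ k P y) ≤
        (4 * κ ^ 2) * (s P x * s P y) := by
      calc (κ * (2 : ℝ) ^ k P x) * (κ * (2 : ℝ) ^ k P y)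
          ≤ (κ * (2 * s P x)) * (κ * (2 * s P y)) := by
            have := hk2 P x
            have := hk2 P y
            have := hs P x
            have := hs P y
            gcongr
        _ = _ := by ring
    have h2 : Real.log (((κ * (2 : ℝ) ^ k P x) * (κ * (2 : ℝ) ^ k P y)) ^ dK) ≤
        dK * Real.log (4 * κ ^ 2) + dK * (Real.log (s P x) + Real.log (s P y)) := by
      rw [Real.log_pow]
      have h3 := Real.log_le_log hpos h1
      rw [Real.log_mul (by positivity) (mul_pos (hs P x) (hs P y)).ne',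
        Real.log_mul (hs P x).ne' (hs P y).ne'] at h3
      have h4 : (0 : ℝ) ≤ dK := by positivity
      nlinarith
    have h3 : dK * (Real.log (s P x) + Real.log (s P y)) ≤ t * L := by
      obtain ⟨hf, _⟩ := hlsum P hP
      have hl : ∀ x y, x ≠ y → 0 ≤ Real.log (s P x) + Real.log (s P y) := by
        intro x y hxy
        rw [← Real.log_mul (hs P x).ne' (hs P y).ne']
        exact Real.log_nonneg (hss P x y hxy)
      have g1 := lp2 (fun x => Real.log (s P x)) hl h3 x
      have g2 := lp2 (fun x => Real.log (s P x)) hl h3 y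
      have h4 : (0 : ℝ) ≤ dK := by positivity
      nlinarith
    have h4 : dK * Real.log (4 * κ ^ 2) + t * L ≤ (J : ℝ) * Real.log 2 := by
      have h5 : 2 * (dK * Real.log (4 * κ ^ 2) + t * L) ≤ (J : ℝ) := Nat.le_ceil _
      have h6 : 0 ≤ dK * Real.log (4 * κ ^ 2) + t * L := by positivity
      nlinarith
    rw [← Real.log_le_log_iff (by positivity) (by positivity), Real.log_rpow (by norm_num)]
    linarith
  -- the fibres
  have hfib : ∀ key : (X → ℤ) × Idx K M X × Idx K M X,
      (((S.filter fun P => (k P, e P, f P) = key).card : ℕ) : ℝ) ≤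
        ((J + 1) * (5 * lineC K)) ^ (2 * m) * (((2 * κ) ^ (Fintype.card X * dK)) ^ 2 *
          (C ^ t * T ^ t)) := by
    rintro ⟨k0, e0, f0⟩
    rcases (S.filter fun P => (k P, e P, f P) = (k0, e0, f0)).eq_empty_or_nonempty with he | ⟨P0, hP0⟩
    · rw [he, Finset.card_empty, Nat.cast_zero]
      have h1 : 0 < C ^ t := Real.rpow_pos_of_pos (by linarith) _
      have h2 : 0 < T ^ t := Real.rpow_pos_of_pos hT0 _
      positivity
    have hmem : ∀ P ∈ S.filter (fun P => (k P, e P, f P) = (k0, e0, f0)), P ∈ S ∧ k P = k0 ∧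
        e P = e0 ∧ f P = f0 := by
      intro P hP
      obtain ⟨h1, h2⟩ := Finset.mem_filter.mp hP
      simp only [Prod.mk.injEq] at h2
      exact ⟨h1, h2.1, h2.2.1, h2.2.2⟩
    obtain ⟨hP0S, hk0, he0, hf0⟩ := hmem P0 hP0
    have hkmono : ∀ x y : X, s P0 x ≤ s P0 y → k P0 x ≤ k P0 y := by
      intro x y hxy
      exact Int.ceil_le_ceil (Real.logb_le_logb_of_le (by norm_num) (hs P0 x) hxy)
    have hb := fibre_bound (K := K) (M := M) hm hκ k0
      (fun x => by
        rw [← hk0]
        simp only [k]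
        rw [hscl])
      e0 f0 (by rw [← he0, ← hf0]; exact hef P0) J
      (S.filter (fun P => (k P, e P, f P) = (k0, e0, f0))) Q s
      (fun P hP P' hP' hQ => by
        have h1 := hPQ P
        have h2 := hPQ P'
        rw [← hQ] at h2
        exact hinj P (hmem P hP).1 P' (hmem P' hP').1 (h1.trans h2.symm))
      (fun P _ x => hs P x)
      (fun P hP x => by rw [← (hmem P hP).2.1]; exact hk1 P x)
      (fun P hP => by
        obtain ⟨_, _, g3, g4⟩ := hmem P hP
        rw [← g3, ← g4]; exact hcrd P)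
      (by rw [← hk0, ← he0, ← hf0]; exact hkmono _ _ (hmin1 P0))
      (fun j hj1 hj2 => by
        rw [← hk0, ← hf0]
        exact hkmono _ _ (hmin2 P0 j (by rw [he0]; exact hj1) (by rw [hf0]; exact hj2)))
      (by rw [← hk0]; exact hJP P0 hP0S _ _)
      (fun P _ => htH P)
    refine hb.trans ?_
    refine mul_le_mul_of_nonneg_left ?_ (by positivity)
    -- the product of the weights
    have h1 : ∏ x, κ * (2 : ℝ) ^ k0 x ≤ (2 * κ) ^ Fintype.card X * ∏ x, s P0 x := by
      rw [← Finset.card_univ, ← Finset.prod_const, ← Finset.prod_mul_distrib]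
      refine Finset.prod_le_prod (fun x _ => by positivity) fun x _ => ?_
      rw [← hk0]
      have := hk2 P0 x
      calc κ * (2 : ℝ) ^ k P0 x ≤ κ * (2 * s P0 x) := by gcongr
        _ = 2 * κ * s P0 x := by ring
    have h2 : 0 ≤ ∏ x, κ * (2 : ℝ) ^ k0 x := Finset.prod_nonneg fun x _ => by positivity
    have hps : 0 < ∏ x, s P0 x := Finset.prod_pos fun x _ => hs P0 x
    have h4 : ((∏ x, s P0 x) ^ dK) ^ 2 ≤ C ^ t * T ^ t := by
      rw [← Real.mul_rpow (by linarith) hT0.le]
      have hCT : 0 < C * T := by positivity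
      rw [← Real.log_le_log_iff (by positivity) (Real.rpow_pos_of_pos hCT _), Real.log_rpow hCT,
        Real.log_mul (by linarith) hT0.ne', Real.log_pow, Real.log_pow,
        Real.log_prod (fun x _ => (hs P0 x).ne')]
      have h5 := (hlsum P0 hP0S).1
      push_cast
      linarith
    calc ((∏ x, κ * (2 : ℝ) ^ k0 x) ^ dK) ^ 2
        ≤ (((2 * κ) ^ Fintype.card X * ∏ x, s P0 x) ^ dK) ^ 2 := by gcongr
      _ = ((2 * κ) ^ (Fintype.card X * dK)) ^ 2 * (((∏ x, s P0 x) ^ dK) ^ 2) := by
          rw [mul_pow, ← pow_mul (2 * κ), mul_pow]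
      _ ≤ _ := by gcongr
  -- sum over the keys
  let keys : Finset ((X → ℤ) × Idx K M X × Idx K M X) :=
    (Fintype.piFinset fun _ : X => Finset.Icc (-(B : ℤ)) B) ×ˢ Finset.univ
  have hmaps : ∀ P ∈ S, (k P, e P, f P) ∈ keys := by
    intro P hP
    simp only [keys, Finset.mem_product, Fintype.mem_piFinset, Finset.mem_Icc, Finset.mem_univ,
      and_true]
    exact hkB P hP
  have hcardkeys : (keys.card : ℝ) = (2 * B + 1) ^ Fintype.card X * (Fintype.card X) ^ 2 := by
    simp only [keys]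
    rw [Finset.card_product, Fintype.card_piFinset]
    simp only [Finset.prod_const, Finset.card_univ, Int.card_Icc]
    have e1 : ((B : ℤ) + 1 - -(B : ℤ)).toNat = 2 * B + 1 := by omega
    rw [e1, Fintype.card_prod, card_idx]
    push_cast
    ring
  have hS := Finset.card_eq_sum_card_fiberwise (f := fun P => (k P, e P, f P)) (s := S) (t := keys)
    hmaps
  have hB1 : (2 * B + 1 : ℝ) ≤ cB * Λ := by
    have h1 : (⌈2 * R⌉₊ : ℝ) < 2 * R + 1 := Nat.ceil_lt_add_one (by positivity)
    have hBr : (B : ℝ) = (⌈2 * R⌉₊ : ℝ) + 1 := by rw [hB]; push_cast; ring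
    have h2 : R ≤ t * (c0 * Λ) := by
      rw [hR]
      have : t * L ≤ t * (c0 * Λ) := mul_le_mul_of_nonneg_left hLΛ ht0.le
      have : 0 ≤ t * L := by positivity
      linarith
    rw [hcB, hBr]
    nlinarith
  have hJ1 : (J + 1 : ℝ) ≤ cJ * Λ := by
    have h1 : (J : ℝ) < 2 * (dK * Real.log (4 * κ ^ 2) + t * L) + 1 :=
      Nat.ceil_lt_add_one (by positivity)
    have h2 : t * L ≤ t * (c0 * Λ) := mul_le_mul_of_nonneg_left hLΛ ht0.le
    have h3 : dK * Real.log (4 * κ ^ 2) ≤ dK * Real.log (4 * κ ^ 2) * Λ := by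
      have : 0 ≤ dK * Real.log (4 * κ ^ 2) := by positivity
      nlinarith
    rw [hcJ]
    nlinarith
  have hCt : 0 < C ^ t := Real.rpow_pos_of_pos (by linarith) _
  have hTt : 0 < T ^ t := Real.rpow_pos_of_pos hT0 _
  calc (S.card : ℝ) = ∑ key ∈ keys, (((S.filter fun P => (k P, e P, f P) = key).card : ℕ) : ℝ) := by
        rw [hS]; push_cast; rfl
    _ ≤ ∑ _key ∈ keys, ((J + 1) * (5 * lineC K)) ^ (2 * m) *
          (((2 * κ) ^ (Fintype.card X * dK)) ^ 2 * (C ^ t * T ^ t)) :=
        Finset.sum_le_sum fun key _ => hfib key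
    _ = (2 * B + 1) ^ Fintype.card X * (Fintype.card X) ^ 2 * (((J + 1) * (5 * lineC K)) ^ (2 * m) *
          (((2 * κ) ^ (Fintype.card X * dK)) ^ 2 * (C ^ t * T ^ t))) := by
        rw [Finset.sum_const, nsmul_eq_mul, hcardkeys]
    _ ≤ (cB * Λ) ^ Fintype.card X * (Fintype.card X) ^ 2 * (((cJ * Λ) * (5 * lineC K)) ^ (2 * m) *
          (((2 * κ) ^ (Fintype.card X * dK)) ^ 2 * (C ^ t * T ^ t))) := by
        gcongr
    _ = (cB ^ Fintype.card X * (Fintype.card X) ^ 2) *
          ((cJ * (5 * lineC K)) ^ (2 * m) * ((2 * κ) ^ (Fintype.card X * dK) ) ^ 2 * C ^ t) * T ^ t *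
          Λ ^ (Fintype.card X + 2 * m) := by
        rw [mul_pow, show cJ * Λ * (5 * lineC K) = cJ * (5 * lineC K) * Λ by ring, mul_pow _ Λ,
          pow_add]
        ring
    _ ≤ _ := by
        have hexp : Fintype.card X + 2 * m ≤ 3 * Fintype.card X := by omega
        have hX0 : (0 : ℝ) ≤ Fintype.card X := by positivity
        refine mul_le_mul_of_nonneg_left (pow_le_pow_right₀ hΛ1 hexp) ?_
        positivity

end

end Pool.Lib18ea5f
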