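import Mathlib
import Pool.Agent.Lib18ea5f.ConfDefs

set_option autoImplicit false
set_option linter.unusedSectionVars false

/-!
The height of a configuration only depends on its class.
-/

namespace Pool.Lib18ea5f

open Finset

variable {K M X : Type*} [Field K] [Field M] [NumberField M] [Algebra K M]
  [MulAction (M ≃ₐ[K] M) X] [Fintype X] [DecidableEq X]

/-- The height of a configuration only depends on its equivalence class. -/
lemma Config.height_eq_of_rel {P Q : Config K M X} (h : P.Rel Q) (d : X → ℕ) :
    P.height d = Q.height d := by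
  obtain ⟨l, -, hl0, α, β, γ, δ, hD, h⟩ := h
  set D := α * δ - β * γ with hDdef
  have hDM : algebraMap K M D ≠ 0 := by
    rw [Ne, FaithfulSMul.algebraMap_eq_zero_iff]; exact hD
  have hDe : algebraMap K M D = algebraMap K M α * algebraMap K M δ -
      algebraMap K M β * algebraMap K M γ := by
    rw [hDdef, map_sub, map_mul, map_mul]
  have hpl : ∀ x y, Q.pl x y = l x * l y * algebraMap K M D * P.pl x y := by
    intro x y
    simp only [Config.pl]
    rw [(h x).1, (h x).2, (h y).1, (h y).2, hDe]
    ring
  have hsec : Q.sec d = ((∏ y : (Σ x : X, Fin (d x)), l y.1) *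
      (∏ y : (Σ x : X, Fin (d x)), l y.1) *
      ∏ _y : (Σ x : X, Fin (d x)), algebraMap K M D) • P.sec d := by
    funext σ
    simp only [Config.sec, Pi.smul_apply, smul_eq_mul, hpl, Finset.prod_mul_distrib]
    congr 2
    congr 1
    exact Equiv.prod_comp σ (fun y => l y.1)
  unfold Config.height
  rw [hsec, Height.mulHeight_smul_eq_mulHeight]
  refine mul_ne_zero (mul_ne_zero ?_ ?_) ?_
  · exact Finset.prod_ne_zero_iff.mpr fun y _ => hl0 _
  · exact Finset.prod_ne_zero_iff.mpr fun y _ => hl0 _
  · exact Finset.prod_ne_zero_iff.mpr fun y _ => hDM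

/-- The height attached to `O(d)` on the set of the classes of configurations. -/
noncomputable def classHeight (d : X → ℕ) : Quotient (configSetoid K M X) → ℝ :=
  Quotient.lift (fun P => P.height d) fun _ _ h => Config.height_eq_of_rel h d

end Pool.Lib18ea5f
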