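import Mathlib

set_option autoImplicit false

/-!
The linear-programming step: from the height of an arbitrary big and nef class to the
anticanonical height.
-/

namespace Pool.Lib18ea5f

open Finset

lemma lp_bound (H : Fin 4 → ℝ) (hH : ∀ i, 1 ≤ H i) (C1 : ℝ) (hC1 : 1 ≤ C1)
    (hrel : ∀ i, H i ≤ C1 * ∏ j ∈ univ.erase i, H j)
    (a : Fin 4 → ℝ) (ha : ∀ i, 0 ≤ a i) (κ : ℝ) (hκ0 : 0 ≤ κ)
    (hκ : ∀ i j, i ≠ j → 2 ≤ κ * (a i + a j)) (T : ℝ)
    (hT : ∏ i, H i ^ a i ≤ T) : ∏ i, H i ≤ C1 * T ^ κ := by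
  have hHpos : ∀ i, 0 < H i := fun i => lt_of_lt_of_le one_pos (hH i)
  -- the power
  have hprod : ∏ i, H i ^ (κ * a i) ≤ T ^ κ := by
    have h1 : ∏ i, H i ^ (κ * a i) = (∏ i, H i ^ a i) ^ κ := by
      rw [← Real.finsetProd_rpow _ _ (fun i _ => Real.rpow_nonneg (hHpos i).le _)]
      refine Finset.prod_congr rfl fun i _ => ?_
      rw [← Real.rpow_mul (hHpos i).le, mul_comm]
    rw [h1]
    exact Real.rpow_le_rpow (Finset.prod_nonneg fun i _ => Real.rpow_nonneg (hHpos i).le _) hT hκ0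
  obtain ⟨i0, _, hmin⟩ := Finset.exists_min_image (univ : Finset (Fin 4)) a ⟨0, mem_univ _⟩
  suffices hmain : ∏ i, H i ≤ C1 * ∏ i, H i ^ (κ * a i) by
    refine hmain.trans ?_
    gcongr
  have hpp : 0 ≤ ∏ i, H i ^ (κ * a i) :=
    Finset.prod_nonneg fun i _ => Real.rpow_nonneg (hHpos i).le _
  rcases le_or_gt 1 (κ * a i0) with hs | hs
  · have h1 : ∏ i, H i ≤ ∏ i, H i ^ (κ * a i) := by
      refine Finset.prod_le_prod (fun i _ => (hHpos i).le) fun i _ => ?_
      have h2 : 1 ≤ κ * a i := hs.trans (mul_le_mul_of_nonneg_left (hmin i (mem_univ i)) hκ0)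
      calc H i = H i ^ (1 : ℝ) := (Real.rpow_one _).symm
        _ ≤ H i ^ (κ * a i) := Real.rpow_le_rpow_of_exponent_le (hH i) h2
    nlinarith
  · set s := κ * a i0 with hsdef
    have hs0 : 0 ≤ s := mul_nonneg hκ0 (ha i0)
    set G := ∏ j ∈ univ.erase i0, H j with hG
    have hG1 : 1 ≤ G := by
      rw [hG]
      calc (1 : ℝ) = ∏ j ∈ univ.erase i0, (1 : ℝ) := by simp
        _ ≤ _ := Finset.prod_le_prod (fun _ _ => zero_le_one) fun j _ => hH j
    have hG0 : 0 < G := by linarith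
    have e1 : ∏ i, H i = H i0 * G := (Finset.mul_prod_erase _ _ (mem_univ i0)).symm
    have e2 : ∏ i, H i ^ (κ * a i) = H i0 ^ s * ∏ j ∈ univ.erase i0, H j ^ (κ * a j) :=
      (Finset.mul_prod_erase _ (fun i => H i ^ (κ * a i)) (mem_univ i0)).symm
    have h3 : G ^ (2 - s) ≤ ∏ j ∈ univ.erase i0, H j ^ (κ * a j) := by
      rw [hG, ← Real.finsetProd_rpow _ _ (fun i _ => (hHpos i).le)]
      refine Finset.prod_le_prod (fun i _ => Real.rpow_nonneg (hHpos i).le _) fun j hj => ?_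
      apply Real.rpow_le_rpow_of_exponent_le (hH j)
      have := hκ i0 j (Finset.ne_of_mem_erase hj).symm
      rw [hsdef]; linarith
    have h4 : H i0 ^ (1 - s) ≤ (C1 * G) ^ (1 - s) :=
      Real.rpow_le_rpow (hHpos i0).le (hrel i0) (by linarith)
    have h5 : (C1 * G) ^ (1 - s) ≤ C1 * G ^ (1 - s) := by
      rw [Real.mul_rpow (by linarith) hG0.le]
      have : C1 ^ (1 - s) ≤ C1 ^ (1 : ℝ) := Real.rpow_le_rpow_of_exponent_le hC1 (by linarith)
      rw [Real.rpow_one] at this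
      have := Real.rpow_nonneg hG0.le (1 - s)
      gcongr
    have e3 : H i0 = H i0 ^ s * H i0 ^ (1 - s) := by
      rw [← Real.rpow_add (hHpos i0)]; simp
    have e4 : G ^ (1 - s) * G = G ^ (2 - s) := by
      conv_lhs => rw [← Real.rpow_one G]
      rw [Real.rpow_one, ← Real.rpow_add_one hG0.ne']
      congr 1; ring
    rw [e1, e2]
    have hHs : 0 ≤ H i0 ^ s := Real.rpow_nonneg (hHpos i0).le _
    calc H i0 * G = H i0 ^ s * H i0 ^ (1 - s) * G := by rw [← e3]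
      _ ≤ H i0 ^ s * (C1 * G ^ (1 - s)) * G := by
          have := h4.trans h5
          gcongr
      _ = C1 * (H i0 ^ s * (G ^ (1 - s) * G)) := by ring
      _ = C1 * (H i0 ^ s * G ^ (2 - s)) := by rw [e4]
      _ ≤ C1 * (H i0 ^ s * ∏ j ∈ univ.erase i0, H j ^ (κ * a j)) := by gcongr

end Pool.Lib18ea5f
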