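import Mathlib
import Pool.Agent.Lib18ea5f.Lower

set_option autoImplicit false

/-!
Lower bound for the height of the `(1,1)`-form `M(z,w)`.
-/

namespace Pool.Lib18ea5f

open Finset

variable {K : Type*} [Field K]

/-- half of the determinant as a bilinear form -/
def hd {F : Type*} [CommRing F] (u v : Sq F) : F := u (0, 0) * v (1, 1) - u (0, 1) * v (1, 0)

/-- the bilinear forms expressing `v_p v_q`. -/
noncomputable def gForm (L : Sq K →ₗ[K] Sq K) (A : Sq K →ₗ[K] Sq K) (l : Sq K →ₗ[K] K) (κ : Sq K)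
    (p q : Fin 2 × Fin 2) : Sq K →ₗ[K] Sq K →ₗ[K] K :=
  LinearMap.mk₂ K (fun v m => v p * L m q + κ q * (l v * L m p -
      κ p * (hd (L (A v)) (L m) + l v * bt (L m) κ) / dt κ))
    (by intro a b c; simp only [map_add, Pi.add_apply, hd]; ring)
    (by intro a b c; simp only [map_smul, Pi.smul_apply, smul_eq_mul, hd]; ring)
    (by intro a b c; simp only [map_add, Pi.add_apply, hd, bt]; ring)
    (by intro a b c; simp only [map_smul, Pi.smul_apply, smul_eq_mul, hd, bt]; ring)

lemma gForm_apply (L : Sq K →ₗ[K] Sq K) (A : Sq K →ₗ[K] Sq K) (l : Sq K →ₗ[K] K) (κ : Sq K)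
    (hκ : dt κ ≠ 0) (h : ∀ v, v = L (A v) + l v • κ)
    (p q : Fin 2 × Fin 2) (v : Sq K) (hv : dt v = 0) :
    gForm L A l κ p q v (A v) = v p * v q := by
  unfold gForm
  rw [LinearMap.mk₂_apply]
  set u := L (A v) with hu
  set t := l v with ht
  have hvu : v = u + t • κ := h v
  have h1 : dt u + t * bt u κ + t ^ 2 * dt κ = 0 := by
    rw [← dt_add_smul, ← hvu]; exact hv
  have h2 : hd u u = dt u := rfl
  have hp : v p = u p + t * κ p := by
    have := congrFun hvu p
    simpa using this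
  have hq : v q = u q + t * κ q := by
    have := congrFun hvu q
    simpa using this
  rw [h2, hp, hq]
  have h3 : (dt u + t * bt u κ) / dt κ = - t ^ 2 := by
    rw [div_eq_iff hκ]; linear_combination h1
  rw [mul_div_assoc, h3]
  ring

lemma bilin_expand (G : Sq K →ₗ[K] Sq K →ₗ[K] K) (v m : Sq K) :
    G v m = ∑ a : (Fin 2 × Fin 2) × (Fin 2 × Fin 2),
      G (Pi.single a.1 1) (Pi.single a.2 1) * (v a.1 * m a.2) := by
  have h1 : ∀ (f : Sq K →ₗ[K] K) (x : Sq K), f x = ∑ i, x i * f (Pi.single i 1) := by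
    intro f x
    conv_lhs => rw [← (Finset.univ_sum_single x)]
    rw [map_sum]
    refine Finset.sum_congr rfl fun i _ => ?_
    have : (Pi.single i (x i) : Sq K) = x i • Pi.single i 1 := by
      rw [← Pi.single_smul, smul_eq_mul, mul_one]
    rw [this, map_smul, smul_eq_mul]
  rw [Fintype.sum_prod_type]
  have h2 : G v m = ∑ a, v a * G (Pi.single a 1) m := by
    have := h1 (G.flip m) v
    simpa using this
  rw [h2]
  refine Finset.sum_congr rfl fun a _ => ?_
  rw [h1 (G (Pi.single a 1)) m, Finset.mul_sum]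
  refine Finset.sum_congr rfl fun b _ => ?_
  ring

variable [NumberField K]

/-- Lower bound for the height of the contraction. -/
theorem mulHeight_con_ge {B : Fin 2 → Fin 2 → Fin 2 → Fin 2 → K} (hB : NoKer B) :
    ∃ C : ℝ, 1 ≤ C ∧ ∀ z w : Fin 2 → K, z ≠ 0 → w ≠ 0 →
      con B (tens z w) ≠ 0 ∧
      Height.mulHeight z * Height.mulHeight w ≤ C * Height.mulHeight (con B (tens z w)) := by
  obtain ⟨L, l, κ, hL, hκ⟩ := exists_partial_inverse hB
  let A' : ((Fin 2 × Fin 2) × (Fin 2 × Fin 2)) × ((Fin 2 × Fin 2) × (Fin 2 × Fin 2)) → K :=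
    fun P => gForm L (con B) l κ P.1.1 P.1.2 (Pi.single P.2.1 1) (Pi.single P.2.2 1)
  set C : ℝ := Nat.card ((Fin 2 × Fin 2) × (Fin 2 × Fin 2)) ^ Height.totalWeight K *
    Height.mulHeight A' with hC
  have hC1 : 1 ≤ C := by
    rw [hC]
    have h1 : (1 : ℝ) ≤ Nat.card ((Fin 2 × Fin 2) × (Fin 2 × Fin 2)) ^ Height.totalWeight K := by
      apply one_le_pow₀
      exact_mod_cast Nat.card_pos
    have h2 := Height.one_le_mulHeight A'
    nlinarith
  refine ⟨C, hC1, fun z w hz hw => ?_⟩
  set v := tens z w with hv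
  have hv0 : v ≠ 0 := tens_ne_zero hz hw
  have hAv : con B v ≠ 0 := by
    intro h
    have hz' : (fun i => algebraMap K (AlgebraicClosure K) (z i)) ≠ 0 := by
      obtain ⟨i, hi⟩ := Function.ne_iff.mp hz
      exact Function.ne_iff.mpr ⟨i, by
        simp only [Pi.zero_apply] at hi ⊢
        intro h'; exact hi ((map_eq_zero _).mp h')⟩
    have hw' : (fun i => algebraMap K (AlgebraicClosure K) (w i)) ≠ 0 := by
      obtain ⟨i, hi⟩ := Function.ne_iff.mp hw
      exact Function.ne_iff.mpr ⟨i, by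
        simp only [Pi.zero_apply] at hi ⊢
        intro h'; exact hi ((map_eq_zero _).mp h')⟩
    apply hB _ _ hz' hw'
    funext p
    have h2 := con_bc B v p
    rw [h] at h2
    have e : tens (fun i => algebraMap K (AlgebraicClosure K) (z i))
        (fun i => algebraMap K (AlgebraicClosure K) (w i)) =
        (fun q => algebraMap K (AlgebraicClosure K) (v q)) := by
      funext q; simp [tens, hv]
    rw [e, h2]; simp
  refine ⟨hAv, ?_⟩
  have hdv : dt v = 0 := dt_tens z w
  have hH := Height.mulHeight_linearMap_apply_le A'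
    (fun a : (Fin 2 × Fin 2) × (Fin 2 × Fin 2) => v a.1 * con B v a.2)
  have e1 : (fun j : (Fin 2 × Fin 2) × (Fin 2 × Fin 2) =>
      ∑ i : (Fin 2 × Fin 2) × (Fin 2 × Fin 2), A' (j, i) * (v i.1 * con B v i.2)) =
      fun j : (Fin 2 × Fin 2) × (Fin 2 × Fin 2) => v j.1 * v j.2 := by
    funext j
    rw [← gForm_apply L (con B) l κ hκ hL j.1 j.2 v hdv, bilin_expand]
  rw [e1, Height.mulHeight_fun_mul_eq hv0 hv0, Height.mulHeight_fun_mul_eq hv0 hAv] at hH
  have hvpos := Height.mulHeight_pos v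
  have e2 : Height.mulHeight v = Height.mulHeight z * Height.mulHeight w := by
    rw [hv]; exact Height.mulHeight_fun_mul_eq hz hw
  rw [← e2]
  have h3 : Height.mulHeight v * Height.mulHeight v ≤
      Height.mulHeight v * (C * Height.mulHeight (con B v)) := by
    refine hH.trans (le_of_eq ?_)
    rw [hC]; ring
  exact le_of_mul_le_mul_left h3 hvpos

/-- Upper bound for the height of the contraction. -/
theorem mulHeight_con_le (B : Fin 2 → Fin 2 → Fin 2 → Fin 2 → K) :
    ∃ C : ℝ, 1 ≤ C ∧ ∀ z w : Fin 2 → K, z ≠ 0 → w ≠ 0 →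
      Height.mulHeight (con B (tens z w)) ≤ C * (Height.mulHeight z * Height.mulHeight w) := by
  let A' : (Fin 2 × Fin 2) × (Fin 2 × Fin 2) → K := fun P => B P.1.1 P.1.2 P.2.1 P.2.2
  set C : ℝ := Nat.card (Fin 2 × Fin 2) ^ Height.totalWeight K * Height.mulHeight A' with hC
  have hC1 : 1 ≤ C := by
    rw [hC]
    have h1 : (1 : ℝ) ≤ Nat.card (Fin 2 × Fin 2) ^ Height.totalWeight K := by
      apply one_le_pow₀
      exact_mod_cast Nat.card_pos
    have h2 := Height.one_le_mulHeight A'
    nlinarith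
  refine ⟨C, hC1, fun z w hz hw => ?_⟩
  have hH := Height.mulHeight_linearMap_apply_le A' (tens z w)
  have e1 : (fun j : Fin 2 × Fin 2 => ∑ i : Fin 2 × Fin 2, A' (j, i) * tens z w i) =
      con B (tens z w) := by
    funext j
    simp only [con, LinearMap.coe_mk, AddHom.coe_mk, A']
    rw [Fintype.sum_prod_type]
  have e2 : Height.mulHeight (tens z w) = Height.mulHeight z * Height.mulHeight w :=
    Height.mulHeight_fun_mul_eq hz hw
  rw [e1, e2] at hH
  exact hH

end Pool.Lib18ea5f
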