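import Mathlib
import Pool.Agent.Lib18ea5f.Box
import Pool.Agent.Lib18ea5f.LowerHt
import Pool.Agent.Lib18ea5f.LP

set_option autoImplicit false

/-!
The full box bound and the height relations on the open set.
-/

namespace Pool.Lib18ea5f

open Finset NumberField
open scoped LinearAlgebra.Projectivization

variable {K : Type*} [Field K] [NumberField K]

/-- Integral multiple of a tensor. -/
lemma exists_int_tensor {B : Fin 2 → Fin 2 → Fin 2 → Fin 2 → K} (hB : B ≠ 0) :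
    ∃ B0 : Fin 2 → Fin 2 → Fin 2 → Fin 2 → 𝓞 K, ∃ c : K, c ≠ 0 ∧
      ∀ i j k l, (B0 i j k l : K) = c * B i j k l := by
  have hy : (fun p : Fin 2 × Fin 2 × Fin 2 × Fin 2 => B p.1 p.2.1 p.2.2.1 p.2.2.2) ≠ 0 := by
    intro h
    apply hB
    funext i j k l
    exact congrFun h (i, j, k, l)
  obtain ⟨x, _, c, hc, hx⟩ := exists_int_rep hy
  refine ⟨fun i j k l => x (i, j, k, l), c, hc, fun i j k l => ?_⟩
  have := congrFun hx (i, j, k, l)
  simpa using this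

lemma coe_Mzw {B0 : Fin 2 → Fin 2 → Fin 2 → Fin 2 → 𝓞 K}
    {B : Fin 2 → Fin 2 → Fin 2 → Fin 2 → K} {c : K}
    (h : ∀ i j k l, (B0 i j k l : K) = c * B i j k l) (z w : Fin 2 → 𝓞 K) :
    (fun p => (Mzw B0 z w p : K)) =
      c • con B (tens (fun i => (z i : K)) (fun i => (w i : K))) := by
  funext p
  simp only [Mzw, con, tens, LinearMap.coe_mk, AddHom.coe_mk, Fin.sum_univ_two, map_add, map_mul,
    Pi.smul_apply, smul_eq_mul, h]
  ring

/-- height comparison constants for the integral tensor. -/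
lemma exists_consts {B0 : Fin 2 → Fin 2 → Fin 2 → Fin 2 → 𝓞 K}
    {B : Fin 2 → Fin 2 → Fin 2 → Fin 2 → K} {c : K} (hc : c ≠ 0)
    (h : ∀ i j k l, (B0 i j k l : K) = c * B i j k l) (hB : NoKer B) :
    ∃ CL CU : ℝ, 1 ≤ CL ∧ 1 ≤ CU ∧
    (∀ z w : Fin 2 → 𝓞 K, z ≠ 0 → w ≠ 0 → ht z * ht w ≤ CL * ht (Mzw B0 z w)) ∧
    (∀ z w : Fin 2 → 𝓞 K, z ≠ 0 → w ≠ 0 → ht (Mzw B0 z w) ≤ CU * (ht z * ht w)) := by
  obtain ⟨CL, hCL, hL⟩ := mulHeight_con_ge hB
  obtain ⟨CU, hCU, hU⟩ := mulHeight_con_le B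
  refine ⟨CL, CU, hCL, hCU, fun z w hz hw => ?_, fun z w hz hw => ?_⟩
  · have := (hL _ _ (coe_ne_zero hz) (coe_ne_zero hw)).2
    unfold ht
    rw [coe_Mzw h, Height.mulHeight_smul_eq_mulHeight _ hc]
    exact this
  · have := hU _ _ (coe_ne_zero hz) (coe_ne_zero hw)
    unfold ht
    rw [coe_Mzw h, Height.mulHeight_smul_eq_mulHeight _ hc]
    exact this

/-- Full box bound. -/
theorem box_full (K : Type*) [Field K] [NumberField K]
    {B0 : Fin 2 → Fin 2 → Fin 2 → Fin 2 → 𝓞 K}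
    {B : Fin 2 → Fin 2 → Fin 2 → Fin 2 → K} {c : K} (hc : c ≠ 0)
    (h : ∀ i j k l, (B0 i j k l : K) = c * B i j k l) (hB : NoKer B) (hB' : NoKer (sw B))
    (ε : ℝ) (hε : 0 < ε) :
    ∃ C : ℝ, 1 ≤ C ∧ ∀ (X : Fin 4 → ℝ), (∀ i, 1 ≤ X i) →
      ∀ S : Finset (Fin 4 → ℙ K (Fin 2 → K)),
      (∀ P ∈ S, (∀ i, ht (xr (P i)) ≤ X i) ∧
        form B0 (xr (P 0)) (xr (P 1)) (xr (P 2)) (xr (P 3)) = 0 ∧
        detM (Mzw B0 (xr (P 2)) (xr (P 3))) ≠ 0 ∧
        detM (Mzw (sw B0) (xr (P 0)) (xr (P 1))) ≠ 0) →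
      (S.card : ℝ) ≤ C * ((∏ i, X i) * (∏ i, X i) ^ ε) := by
  classical
  obtain ⟨CL, CU, hCL, hCU, hL, hU⟩ := exists_consts hc h hB
  have h' : ∀ i j k l, ((sw B0 i j k l : 𝓞 K) : K) = c * sw B i j k l := fun i j k l => h k l i j
  obtain ⟨CL', CU', hCL', hCU', hL', hU'⟩ := exists_consts hc h' hB'
  obtain ⟨C1, hC1, hbox1⟩ := box_half K B0 CL CU hCL hCU hL hU ε hε
  obtain ⟨C2, hC2, hbox2⟩ := box_half K (sw B0) CL' CU' hCL' hCU' hL' hU' ε hε
  refine ⟨max C1 C2, hC1.trans (le_max_left _ _), fun X hX S hS => ?_⟩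
  have hprod : ∏ i, X i = X 0 * X 1 * (X 2 * X 3) := by
    rw [Fin.prod_univ_four]; ring
  have hXpos : ∀ i, 0 < X i := fun i => lt_of_lt_of_le one_pos (hX i)
  have hQ : 0 < X 0 * X 1 * (X 2 * X 3) := by
    have := hXpos 0; have := hXpos 1; have := hXpos 2; have := hXpos 3
    positivity
  rw [hprod]
  rcases le_total (X 2 * X 3) (X 0 * X 1) with hle | hle
  · have := hbox1 (X 0) (X 1) (X 2) (X 3) (hX 0) (hX 1) (hX 2) (hX 3) hle S
      (fun P hP => by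
        obtain ⟨h1, h2, h3, _⟩ := hS P hP
        exact ⟨h1 0, h1 1, h1 2, h1 3, h2, h3⟩)
    refine this.trans ?_
    have := Real.rpow_nonneg hQ.le ε
    gcongr
    exact le_max_left _ _
  · -- rotate the coordinates
    let rotP : (Fin 4 → ℙ K (Fin 2 → K)) → (Fin 4 → ℙ K (Fin 2 → K)) :=
      fun P => ![P 2, P 3, P 0, P 1]
    have hinj : Function.Injective rotP := by
      intro P P' hPP
      have e0 := congrFun hPP 0
      have e1 := congrFun hPP 1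
      have e2 := congrFun hPP 2
      have e3 := congrFun hPP 3
      simp only [rotP] at e0 e1 e2 e3
      funext i
      fin_cases i
      · exact e2
      · exact e3
      · exact e0
      · exact e1
    have hcard : (S.image rotP).card = S.card := Finset.card_image_of_injective S hinj
    have := hbox2 (X 2) (X 3) (X 0) (X 1) (hX 2) (hX 3) (hX 0) (hX 1) hle (S.image rotP)
      (fun P' hP' => by
        obtain ⟨P, hP, rfl⟩ := Finset.mem_image.mp hP'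
        obtain ⟨h1, h2, h3, h4⟩ := hS P hP
        refine ⟨h1 2, h1 3, h1 0, h1 1, ?_, h4⟩
        rw [form_sw]
        exact h2)
    rw [hcard] at this
    refine this.trans ?_
    have e : X 2 * X 3 * (X 0 * X 1) = X 0 * X 1 * (X 2 * X 3) := by ring
    rw [e]
    have := Real.rpow_nonneg hQ.le ε
    gcongr
    exact le_max_right _ _

/-- The image height under an integral matrix. -/
lemma ht_mulT_le {M : Fin 2 × Fin 2 → 𝓞 K} (hM : detM M ≠ 0) {x : Fin 2 → 𝓞 K} (hx : x ≠ 0) :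
    ht (mulT M x) ≤ 2 ^ (Module.finrank ℚ K) * (ht M * ht x) := by
  have h1 := prod_rho hM hx
  have hM0 := detM_ne_zero_M hM
  have h2 : ∏ v : InfinitePlace K, rho M x v ^ v.mult ≤ 2 ^ (Module.finrank ℚ K) := by
    rw [← prod_const_mult (K := K)]
    exact Finset.prod_le_prod (fun v _ => pow_nonneg (rho_pos hM hx v).le _)
      (fun v _ => pow_le_pow_left₀ (rho_pos hM hx v).le (rho_le_two hM0 hx v) _)
  rw [h1] at h2
  have hg := one_le_absNorm (gI_ne_bot hM hx)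
  have hHM := ht_pos M
  have hHx := ht_pos x
  have hHy := ht_pos (mulT M x)
  rw [div_le_iff₀ (by positivity)] at h2
  nlinarith

/-- On the open set, the second point is controlled by the other three. -/
lemma ht_rel {B0 : Fin 2 → Fin 2 → Fin 2 → Fin 2 → 𝓞 K} {CU : ℝ} (_hCU : 1 ≤ CU)
    (hU : ∀ z w : Fin 2 → 𝓞 K, z ≠ 0 → w ≠ 0 → ht (Mzw B0 z w) ≤ CU * (ht z * ht w))
    {x y z w : Fin 2 → 𝓞 K} (hx : x ≠ 0) (hy : y ≠ 0) (hz : z ≠ 0) (hw : w ≠ 0)
    (hf : form B0 x y z w = 0) (hd : detM (Mzw B0 z w) ≠ 0) :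
    ht y ≤ 2 ^ (Module.finrank ℚ K) * CU * (ht x * ht z * ht w) := by
  rw [form_eq_mulT] at hf
  rw [ht_eq_of_orth (mulT_ne_zero hd hx) hy hf]
  refine (ht_mulT_le hd hx).trans ?_
  have h1 := hU z w hz hw
  have hHx := ht_pos x
  calc 2 ^ (Module.finrank ℚ K) * (ht (Mzw B0 z w) * ht x)
      ≤ 2 ^ (Module.finrank ℚ K) * ((CU * (ht z * ht w)) * ht x) := by gcongr
    _ = _ := by ring

/-- transpose the first two slots -/
def tr (B : Fin 2 → Fin 2 → Fin 2 → Fin 2 → 𝓞 K) : Fin 2 → Fin 2 → Fin 2 → Fin 2 → 𝓞 K :=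
  fun i j k l => B j i k l

lemma form_tr (B : Fin 2 → Fin 2 → Fin 2 → Fin 2 → 𝓞 K) (x y z w : Fin 2 → 𝓞 K) :
    form (tr B) x y z w = form B y x z w := by
  simp only [form, tr, Fin.sum_univ_two]; ring

lemma detM_tr (B : Fin 2 → Fin 2 → Fin 2 → Fin 2 → 𝓞 K) (z w : Fin 2 → 𝓞 K) :
    detM (Mzw (tr B) z w) = detM (Mzw B z w) := by
  simp only [detM, Mzw, con, tens, tr, LinearMap.coe_mk, AddHom.coe_mk, Fin.sum_univ_two]
  ring

lemma exists_CU (B0 : Fin 2 → Fin 2 → Fin 2 → Fin 2 → 𝓞 K) :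
    ∃ CU : ℝ, 1 ≤ CU ∧
    (∀ z w : Fin 2 → 𝓞 K, z ≠ 0 → w ≠ 0 → ht (Mzw B0 z w) ≤ CU * (ht z * ht w)) := by
  obtain ⟨CU, hCU, hU⟩ := mulHeight_con_le (fun i j k l => (B0 i j k l : K))
  refine ⟨CU, hCU, fun z w hz hw => ?_⟩
  have := hU _ _ (coe_ne_zero hz) (coe_ne_zero hw)
  have h1 : ∀ i j k l, (B0 i j k l : K) = 1 * (B0 i j k l : K) := fun i j k l => (one_mul _).symm
  unfold ht
  rw [coe_Mzw h1, one_smul]
  exact this

/-- All four relations. -/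
lemma ht_rel_all (B0 : Fin 2 → Fin 2 → Fin 2 → Fin 2 → 𝓞 K) :
    ∃ C1 : ℝ, 1 ≤ C1 ∧ ∀ P : Fin 4 → ℙ K (Fin 2 → K),
      form B0 (xr (P 0)) (xr (P 1)) (xr (P 2)) (xr (P 3)) = 0 →
      detM (Mzw B0 (xr (P 2)) (xr (P 3))) ≠ 0 →
      detM (Mzw (sw B0) (xr (P 0)) (xr (P 1))) ≠ 0 →
      ∀ i, ht (xr (P i)) ≤ C1 * ∏ j ∈ univ.erase i, ht (xr (P j)) := by
  obtain ⟨a1, ha1, hU1⟩ := exists_CU B0
  obtain ⟨a2, ha2, hU2⟩ := exists_CU (tr B0)
  obtain ⟨a3, ha3, hU3⟩ := exists_CU (sw B0)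
  obtain ⟨a4, ha4, hU4⟩ := exists_CU (tr (sw B0))
  have h2d : (1 : ℝ) ≤ 2 ^ (Module.finrank ℚ K) := one_le_pow₀ (by norm_num)
  refine ⟨2 ^ (Module.finrank ℚ K) * (a1 * a2 * a3 * a4), ?_, ?_⟩
  · have : 1 ≤ a1 * a2 * a3 * a4 := by
      have h12 : 1 ≤ a1 * a2 := by nlinarith
      have h123 : 1 ≤ a1 * a2 * a3 := by nlinarith
      nlinarith
    nlinarith
  intro P hf hd hd'
  have p0 := ht_pos (xr (P 0))
  have p1 := ht_pos (xr (P 1))
  have p2 := ht_pos (xr (P 2))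
  have p3 := ht_pos (xr (P 3))
  have n0 := xr_ne_zero (P 0)
  have n1 := xr_ne_zero (P 1)
  have n2 := xr_ne_zero (P 2)
  have n3 := xr_ne_zero (P 3)
  have e1 : ∏ j ∈ univ.erase (1 : Fin 4), ht (xr (P j)) =
      ht (xr (P 0)) * ht (xr (P 2)) * ht (xr (P 3)) := by
    have : (univ.erase (1 : Fin 4)) = {0, 2, 3} := by decide
    rw [this, Finset.prod_insert (by decide), Finset.prod_insert (by decide),
      Finset.prod_singleton]; ring
  have e0 : ∏ j ∈ univ.erase (0 : Fin 4), ht (xr (P j)) =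
      ht (xr (P 1)) * ht (xr (P 2)) * ht (xr (P 3)) := by
    have : (univ.erase (0 : Fin 4)) = {1, 2, 3} := by decide
    rw [this, Finset.prod_insert (by decide), Finset.prod_insert (by decide),
      Finset.prod_singleton]; ring
  have e2 : ∏ j ∈ univ.erase (2 : Fin 4), ht (xr (P j)) =
      ht (xr (P 3)) * ht (xr (P 0)) * ht (xr (P 1)) := by
    have : (univ.erase (2 : Fin 4)) = {0, 1, 3} := by decide
    rw [this, Finset.prod_insert (by decide), Finset.prod_insert (by decide),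
      Finset.prod_singleton]; ring
  have e3 : ∏ j ∈ univ.erase (3 : Fin 4), ht (xr (P j)) =
      ht (xr (P 2)) * ht (xr (P 0)) * ht (xr (P 1)) := by
    have : (univ.erase (3 : Fin 4)) = {0, 1, 2} := by decide
    rw [this, Finset.prod_insert (by decide), Finset.prod_insert (by decide),
      Finset.prod_singleton]; ring
  have r1 := ht_rel ha1 hU1 n0 n1 n2 n3 hf hd
  have r0 := ht_rel ha2 hU2 n1 n0 n2 n3 (by rw [form_tr]; exact hf) (by rw [detM_tr]; exact hd)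
  have r3 := ht_rel ha3 hU3 n2 n3 n0 n1 (by rw [form_sw]; exact hf) hd'
  have r2 := ht_rel ha4 hU4 n3 n2 n0 n1 (by rw [form_tr, form_sw]; exact hf)
    (by rw [detM_tr]; exact hd')
  have b1 : a1 ≤ a1 * a2 * a3 * a4 := by
    have h23 : 1 ≤ a2 * a3 := by nlinarith
    have h234 : 1 ≤ a2 * a3 * a4 := by nlinarith
    nlinarith
  have b2 : a2 ≤ a1 * a2 * a3 * a4 := by
    have h23 : 1 ≤ a1 * a3 := by nlinarith
    have h234 : 1 ≤ a1 * a3 * a4 := by nlinarith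
    nlinarith
  have b3 : a3 ≤ a1 * a2 * a3 * a4 := by
    have h23 : 1 ≤ a1 * a2 := by nlinarith
    have h234 : 1 ≤ a1 * a2 * a4 := by nlinarith
    nlinarith
  have b4 : a4 ≤ a1 * a2 * a3 * a4 := by
    have h23 : 1 ≤ a1 * a2 := by nlinarith
    have h234 : 1 ≤ a1 * a2 * a3 := by nlinarith
    nlinarith
  intro i
  fin_cases i
  · simp only [Fin.zero_eta]
    rw [e0]; refine r0.trans ?_; gcongr
  · simp only [Fin.mk_one]
    rw [e1]; refine r1.trans ?_; gcongr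
  · simp only [Fin.reduceFinMk]
    rw [e2]; refine r2.trans ?_; gcongr
  · simp only [Fin.reduceFinMk]
    rw [e3]; refine r3.trans ?_; gcongr

end Pool.Lib18ea5f
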