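import Mathlib

set_option autoImplicit false

/-!
Lower bound for the height of the values of a family of forms without common zero.
-/

namespace Pool.Lib18ea5f

open Finset NumberField MvPolynomial

attribute [local instance] MvPolynomial.gradedAlgebra in
lemma hom_comp_mul {R σ : Type*} [CommRing R] (c p : MvPolynomial σ R) (M N : ℕ)
    (hp : p.IsHomogeneous N) :
    homogeneousComponent (M + N) (c * p) = homogeneousComponent M c * p := by
  have h := DirectSum.coe_decompose_mul_add_of_right_mem (homogeneousSubmodule σ R) (i := M)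
    (j := N) (a := c) (b := p) ((mem_homogeneousSubmodule N p).mpr hp)
  have e : ∀ (φ : MvPolynomial σ R) (i : ℕ),
      (DirectSum.decompose (homogeneousSubmodule σ R) φ i : MvPolynomial σ R) =
        homogeneousComponent i φ := fun φ i => decomposition.decompose'_apply φ i
  rw [e, e] at h
  exact h

/-- Nullstellensatz lower bound. -/
theorem null_height {K : Type*} [Field K] [NumberField K] {σ ι' : Type*} [Finite σ] [Fintype ι']
    (N : ℕ) (p : ι' → MvPolynomial σ K) (hp : ∀ j, (p j).IsHomogeneous N)
    (h0 : ∀ x : σ → AlgebraicClosure K, (∀ j, aeval x (p j) = 0) → x = 0) :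
    ∃ C : ℝ, 1 ≤ C ∧ ∀ x : σ → K,
      Height.mulHeight x ^ N ≤ C * Height.mulHeight (fun j => (p j).eval x) := by
  classical
  cases nonempty_fintype σ
  set I : Ideal (MvPolynomial σ K) := Ideal.span (Set.range p) with hI
  have hzl : ∀ x ∈ zeroLocus (AlgebraicClosure K) I, x = 0 := by
    intro x hx
    apply h0
    intro j
    exact hx (p j) (Ideal.subset_span ⟨j, rfl⟩)
  have hrad : ∀ k : σ, (X k : MvPolynomial σ K) ∈ I.radical := by
    intro k
    rw [← vanishingIdeal_zeroLocus_eq_radical (K := AlgebraicClosure K) I]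
    intro x hx
    rw [hzl x hx]
    simp
  choose n hn using fun k => hrad k
  set M : ℕ := ∑ k, n k with hM
  have hX : ∀ k : σ, (X k : MvPolynomial σ K) ^ (M + N) ∈ I := by
    intro k
    have hle : n k ≤ M + N := (Finset.single_le_sum (fun _ _ => Nat.zero_le _)
      (Finset.mem_univ k)).trans (Nat.le_add_right _ _)
    exact Ideal.pow_mem_of_pow_mem I (hn k) hle
  have hex : ∀ k : σ, ∃ c : ι' → MvPolynomial σ K,
      ∑ j, c j * p j = (X k : MvPolynomial σ K) ^ (M + N) := by
    intro k
    have := hX k
    rw [hI, Ideal.mem_span_range_iff_exists_fun] at this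
    exact this
  choose c hc using hex
  let q : σ × ι' → MvPolynomial σ K := fun a => homogeneousComponent M (c a.1 a.2)
  have hq : ∀ a, (q a).IsHomogeneous M := fun a => homogeneousComponent_isHomogeneous M _
  have hqp : ∀ k : σ, ∑ j, q (k, j) * p j = (X k : MvPolynomial σ K) ^ (M + N) := by
    intro k
    have h1 := congrArg (homogeneousComponent (M + N)) (hc k)
    have hXh : ((X k : MvPolynomial σ K) ^ (M + N)).IsHomogeneous (M + N) := by
      have := (isHomogeneous_X K k).pow (M + N)
      rwa [one_mul] at this
    rw [map_sum, homogeneousComponent_eq_self hXh] at h1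
    rw [← h1]
    refine Finset.sum_congr rfl fun j _ => ?_
    rw [hom_comp_mul _ _ _ _ (hp j)]
  obtain ⟨C, hC, hmain⟩ := Height.mulHeight_eval_ge' (K := K) (N := N) hq
  refine ⟨max 1 C⁻¹, le_max_left _ _, fun x => ?_⟩
  have h1 := hmain p (x := x) (by
    intro k
    have h2 := congrArg (eval x) (hqp k)
    simpa [map_sum] using h2)
  have h2 : Height.mulHeight x ^ N ≤ C⁻¹ * Height.mulHeight (fun j => (p j).eval x) := by
    rw [← div_eq_inv_mul, le_div_iff₀ hC]
    linarith
  refine h2.trans ?_
  have := Height.mulHeight_pos (fun j => (p j).eval x)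
  gcongr
  exact le_max_right _ _

end Pool.Lib18ea5f
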