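import Mathlib
import Pool.Agent.Lib18ea5f.Pts

set_option autoImplicit false

/-!
Counting points on a line in the projective plane over a number field, inside an adelic ball.
-/

namespace Pool.Lib18ea5f

open Finset NumberField

/-- cross product -/
def cr {R : Type*} [CommRing R] (x y : Fin 3 → R) : Fin 3 → R :=
  ![x 1 * y 2 - x 2 * y 1, x 2 * y 0 - x 0 * y 2, x 0 * y 1 - x 1 * y 0]

/-- dot product -/
def dot {R : Type*} [CommRing R] (x y : Fin 3 → R) : R := x 0 * y 0 + x 1 * y 1 + x 2 * y 2

lemma cr_par {R : Type*} [CommRing R] {u x y : Fin 3 → R} (hx : dot u x = 0) (hy : dot u y = 0)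
    (k l : Fin 3) : u k * cr x y l = u l * cr x y k := by
  unfold dot at hx hy
  fin_cases k <;> fin_cases l <;> simp [cr] <;>
    first
      | linear_combination x 0 * hy - y 0 * hx
      | linear_combination -(x 0 * hy - y 0 * hx)
      | linear_combination x 1 * hy - y 1 * hx
      | linear_combination -(x 1 * hy - y 1 * hx)
      | linear_combination x 2 * hy - y 2 * hx
      | linear_combination -(x 2 * hy - y 2 * hx)

lemma dot_cr_left {R : Type*} [CommRing R] (x y : Fin 3 → R) : dot (cr x y) x = 0 := by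
  simp [dot, cr]; ring

lemma dot_cr_right {R : Type*} [CommRing R] (x y : Fin 3 → R) : dot (cr x y) y = 0 := by
  simp [dot, cr]; ring

lemma dot_comm {R : Type*} [CommRing R] (x y : Fin 3 → R) : dot x y = dot y x := by
  simp [dot]; ring

variable {K : Type*} [Field K] [NumberField K]

/-- third index -/
def oi (k s : Fin 3) : Fin 3 := -(k + s)

lemma v_eq (v : InfinitePlace K) {a b : K} (h : a = b ∨ a = -b) : v a = v b := by
  rcases h with h | h
  · rw [h]
  · rw [h, ← v.norm_embedding_eq, ← v.norm_embedding_eq, map_neg, norm_neg]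

lemma cr_comp (v : InfinitePlace K) (x y : Fin 3 → 𝓞 K) (k s : Fin 3) (h : s ≠ k) :
    v ((cr x y k : 𝓞 K) : K) =
      v ((x s : K) * (y (oi k s) : K) - (x (oi k s) : K) * (y s : K)) := by
  apply v_eq
  fin_cases k <;> fin_cases s
  · exact absurd rfl h
  · have h1 : oi 0 1 = 2 := by decide
    simp only [Fin.zero_eta, Fin.mk_one, h1]
    left; simp [cr]
  · have h1 : oi 0 2 = 1 := by decide
    simp only [Fin.zero_eta, Fin.reduceFinMk, h1]
    right; simp [cr]
  · have h1 : oi 1 0 = 2 := by decide
    simp only [Fin.zero_eta, Fin.mk_one, h1]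
    right; simp [cr]
  · exact absurd rfl h
  · have h1 : oi 1 2 = 0 := by decide
    simp only [Fin.mk_one, Fin.reduceFinMk, h1]
    left; simp [cr]
  · have h1 : oi 2 0 = 1 := by decide
    simp only [Fin.zero_eta, Fin.reduceFinMk, h1]
    left; simp [cr]
  · have h1 : oi 2 1 = 0 := by decide
    simp only [Fin.mk_one, Fin.reduceFinMk, h1]
    right; simp [cr]
  · exact absurd rfl h

lemma index_cases (k s i : Fin 3) (h : s ≠ k) : i = k ∨ i = s ∨ i = oi k s := by
  revert k s i
  decide

lemma oi_ne (k s : Fin 3) (h : s ≠ k) : oi k s ≠ k ∧ oi k s ≠ s := by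
  revert k s
  decide

/-- choice of a chart on the line. -/
lemma exists_chart (v : InfinitePlace K) {u x : Fin 3 → 𝓞 K} (k : Fin 3)
    (hk : v (u k : K) = nv v u) (hu : u ≠ 0) (hux : dot u x = 0) :
    ∃ s : Fin 3, s ≠ k ∧ nv v x ≤ 2 * v (x s : K) := by
  have hup := nv_pos v hu
  -- among the two other indices choose the larger one
  obtain ⟨s, hsk, hmax⟩ : ∃ s : Fin 3, s ≠ k ∧ ∀ i, i ≠ k → v (x i : K) ≤ v (x s : K) := by
    obtain ⟨s, hs, hm⟩ := Finset.exists_max_image (univ.erase k) (fun i => v (x i : K))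
      (by
        refine ⟨k + 1, ?_⟩
        rw [Finset.mem_erase]
        refine ⟨?_, mem_univ _⟩
        clear hk
        revert k; decide)
    exact ⟨s, Finset.ne_of_mem_erase hs, fun i hi => hm i (Finset.mem_erase.mpr ⟨hi, mem_univ _⟩)⟩
  refine ⟨s, hsk, ?_⟩
  have hs0 : 0 ≤ v (x s : K) := apply_nonneg _ _
  apply nv_le
  intro i
  by_cases hi : i = k
  · subst hi
    -- x_k u_k = - (sum of the others)
    have hdot : (u i : K) * (x i : K) = -((u s : K) * (x s : K) +
        (u (oi i s) : K) * (x (oi i s) : K)) := by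
      have h1 : (u 0 : K) * (x 0 : K) + (u 1 : K) * (x 1 : K) + (u 2 : K) * (x 2 : K) = 0 := by
        have := congrArg (fun t : 𝓞 K => (t : K)) hux
        simpa [dot] using this
      fin_cases i <;> fin_cases s
      · exact absurd rfl hsk
      · have h2 : oi 0 1 = 2 := by decide
        simp only [Fin.zero_eta, Fin.mk_one, h2]; linear_combination h1
      · have h2 : oi 0 2 = 1 := by decide
        simp only [Fin.zero_eta, Fin.reduceFinMk, h2]; linear_combination h1
      · have h2 : oi 1 0 = 2 := by decide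
        simp only [Fin.zero_eta, Fin.mk_one, h2]; linear_combination h1
      · exact absurd rfl hsk
      · have h2 : oi 1 2 = 0 := by decide
        simp only [Fin.mk_one, Fin.reduceFinMk, h2]; linear_combination h1
      · have h2 : oi 2 0 = 1 := by decide
        simp only [Fin.zero_eta, Fin.reduceFinMk, h2]; linear_combination h1
      · have h2 : oi 2 1 = 0 := by decide
        simp only [Fin.mk_one, Fin.reduceFinMk, h2]; linear_combination h1
      · exact absurd rfl hsk
    have hneg : ∀ a : K, v (-a) = v a := by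
      intro a
      rw [← v.norm_embedding_eq, ← v.norm_embedding_eq, map_neg, norm_neg]
    have h2 : v (u i : K) * v (x i : K) ≤ 2 * (nv v u * v (x s : K)) := by
      rw [← map_mul, hdot, hneg]
      refine (abs_add_le' v _ _).trans ?_
      rw [map_mul, map_mul]
      have a1 := mul_le_mul (le_nv v u s) (le_refl (v (x s : K))) hs0 (nv_nonneg v u)
      have a2 := mul_le_mul (le_nv v u (oi i s)) (hmax _ (oi_ne i s hsk).1)
        (apply_nonneg _ _) (nv_nonneg v u)
      linarith
    rw [hk] at h2
    have h3 : nv v u * v (x i : K) ≤ nv v u * (2 * v (x s : K)) := by linarith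
    exact le_of_mul_le_mul_left h3 hup
  · have := hmax i hi
    linarith

lemma nv_cr_eq (v : InfinitePlace K) {u x y : Fin 3 → 𝓞 K} (k : Fin 3)
    (hk : v (u k : K) = nv v u) (hu : u ≠ 0) (hux : dot u x = 0) (huy : dot u y = 0) :
    v ((cr x y k : 𝓞 K) : K) = nv v (cr x y) := by
  have hup := nv_pos v hu
  apply le_antisymm (le_nv v (cr x y) k)
  apply nv_le
  intro l
  have h1 : (u k : K) * ((cr x y l : 𝓞 K) : K) = (u l : K) * ((cr x y k : 𝓞 K) : K) := by
    have := congrArg (fun t : 𝓞 K => (t : K)) (cr_par hux huy k l)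
    simpa using this
  have h2 : v (u k : K) * v ((cr x y l : 𝓞 K) : K) = v (u l : K) * v ((cr x y k : 𝓞 K) : K) := by
    rw [← map_mul v, ← map_mul v, h1]
  rw [hk] at h2
  have h3 : v (u l : K) * v ((cr x y k : 𝓞 K) : K) ≤ nv v u * v ((cr x y k : 𝓞 K) : K) :=
    mul_le_mul_of_nonneg_right (le_nv v u l) (apply_nonneg _ _)
  exact le_of_mul_le_mul_left (h2.le.trans h3) hup

lemma ht_cr_eq {u x y : Fin 3 → 𝓞 K} (hu : u ≠ 0) (hux : dot u x = 0) (huy : dot u y = 0)
    (hcr : cr x y ≠ 0) : ht (cr x y) = ht u := by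
  obtain ⟨k, hk⟩ := Function.ne_iff.mp hu
  have hk' : (u k : K) ≠ 0 := by simpa using hk
  have hpar : (fun i => ((cr x y i : 𝓞 K) : K)) = (((cr x y k : 𝓞 K) : K) / (u k : K)) • (fun i => (u i : K)) := by
    funext l
    simp only [Pi.smul_apply, smul_eq_mul]
    have h1 : (u k : K) * ((cr x y l : 𝓞 K) : K) = (u l : K) * ((cr x y k : 𝓞 K) : K) := by
      have := congrArg (fun t : 𝓞 K => (t : K)) (cr_par hux huy k l)
      simpa using this
    field_simp
    linear_combination h1
  have hc : ((cr x y k : 𝓞 K) : K) / (u k : K) ≠ 0 := by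
    intro h
    apply coe_ne_zero hcr
    rw [hpar, h, zero_smul]
  unfold ht
  rw [hpar, Height.mulHeight_smul_eq_mulHeight _ hc]

/-- Points on a line, in an adelic ball. -/
theorem line_count (K : Type*) [Field K] [NumberField K] :
    ∃ C : ℝ, 1 ≤ C ∧ ∀ (α : Type _) (u : Fin 3 → 𝓞 K), u ≠ 0 →
      ∀ (S : Finset α) (x : α → Fin 3 → 𝓞 K), (∀ a, x a ≠ 0) → (∀ a ∈ S, dot u (x a) = 0) →
      ∀ (R : InfinitePlace K → ℝ) (G Y : ℝ), (∀ v, 0 < R v) → 0 < G → 0 < Y →
      (∀ a ∈ S, ∀ b ∈ S, a ≠ b → cr (x a) (x b) ≠ 0 ∧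
        G * ((Ideal.absNorm (cI (x a)) : ℝ) * Ideal.absNorm (cI (x b))) ≤
          Ideal.absNorm (cI (cr (x a) (x b)))) →
      (∀ a ∈ S, ∀ b ∈ S, ∀ v, nv v (cr (x a) (x b)) ≤ R v * (nv v (x a) * nv v (x b))) →
      (∀ a ∈ S, ht (x a) ≤ Y) →
      (S.card : ℝ) ≤ C * (1 + Y ^ 2 * (∏ v, R v ^ v.mult) / (G * ht u)) := by
  classical
  set d := Module.finrank ℚ K with hd
  set r := Fintype.card (InfinitePlace K) with hr
  refine ⟨3 ^ r * (12 ^ d * 4 ^ d), ?_, ?_⟩
  · have h1 : (1 : ℝ) ≤ 3 ^ r := one_le_pow₀ (by norm_num)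
    have h2 : (1 : ℝ) ≤ 12 ^ d := one_le_pow₀ (by norm_num)
    have h3 : (1 : ℝ) ≤ 4 ^ d := one_le_pow₀ (by norm_num)
    have h4 : (1 : ℝ) ≤ 12 ^ d * 4 ^ d := by nlinarith
    nlinarith
  intro α u hu S x hx hdot R G Y hR hG hY hsep hloc hH
  have hHu := ht_pos u
  set P := ∏ v : InfinitePlace K, R v ^ v.mult with hP
  have hPpos : 0 < P := Finset.prod_pos fun v _ => pow_pos (hR v) _
  choose k hk using fun v : InfinitePlace K => exists_nv_eq v u
  -- chart for every point of `S`
  have hch : ∀ (a : α) (v : InfinitePlace K), ∃ s : Fin 3, a ∈ S → s ≠ k v ∧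
      nv v (x a) ≤ 2 * v (x a s : K) := by
    intro a v
    by_cases ha : a ∈ S
    · obtain ⟨s, h1, h2⟩ := exists_chart v (k v) (hk v) hu (hdot a ha)
      exact ⟨s, fun _ => ⟨h1, h2⟩⟩
    · exact ⟨0, fun h => absurd h ha⟩
  choose s hs using hch
  have hcardS := Finset.card_eq_sum_card_fiberwise (f := s) (s := S)
    (t := (Finset.univ : Finset (InfinitePlace K → Fin 3))) (fun _ _ => Finset.mem_univ _)
  have hfib : ∀ b ∈ (Finset.univ : Finset (InfinitePlace K → Fin 3)),
      (((S.filter fun a => s a = b).card : ℕ) : ℝ) ≤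
        12 ^ d * 4 ^ d * (1 + Y ^ 2 * P / (G * ht u)) := by
    intro b _
    rcases (S.filter fun a => s a = b).eq_empty_or_nonempty with he | ⟨a0, ha0⟩
    · rw [he]
      simp only [Finset.card_empty, Nat.cast_zero]
      positivity
    have hmem : ∀ a ∈ S.filter (fun a => s a = b), a ∈ S ∧ ∀ v, b v ≠ k v ∧
        nv v (x a) ≤ 2 * v (x a (b v) : K) := by
      intro a ha
      obtain ⟨h1, h2⟩ := Finset.mem_filter.mp ha
      refine ⟨h1, fun v => ?_⟩
      rw [← h2]
      exact hs a v h1
    have hbk : ∀ v, b v ≠ k v := fun v => ((hmem a0 ha0).2 v).1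
    let t : α → InfinitePlace K → ℂ := fun a v =>
      v.embedding ((x a (oi (k v) (b v)) : K) / (x a (b v) : K))
    have him : ∀ v : InfinitePlace K, v.mult = 1 → ∀ a, (t a v).im = 0 := by
      intro v h a
      have hrr : v.IsReal := by
        by_contra hc
        have : v.mult = 2 := by simp [InfinitePlace.mult, hc]
        omega
      have h2 := InfinitePlace.isReal_iff.mp hrr
      have h3 := RingHom.congr_fun h2 ((x a (oi (k v) (b v)) : K) / (x a (b v) : K))
      rw [ComplexEmbedding.conjugate_coe_eq] at h3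
      exact Complex.conj_eq_iff_im.mp h3
    -- the distance formula
    have hdist : ∀ a ∈ S.filter (fun a => s a = b), ∀ c ∈ S.filter (fun a => s a = b), ∀ v,
        ‖t a v - t c v‖ = nv v (cr (x a) (x c)) /
          (v (x a (b v) : K) * v (x c (b v) : K)) := by
      intro a ha c hc v
      obtain ⟨haS, hav⟩ := hmem a ha
      obtain ⟨hcS, hcv⟩ := hmem c hc
      have pa := nv_pos v (hx a)
      have pc := nv_pos v (hx c)
      have ha0 : (x a (b v) : K) ≠ 0 := by
        intro h
        have := (hav v).2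
        rw [h, map_zero] at this
        linarith
      have hc0 : (x c (b v) : K) ≠ 0 := by
        intro h
        have := (hcv v).2
        rw [h, map_zero] at this
        linarith
      rw [← nv_cr_eq v (k v) (hk v) hu (hdot a haS) (hdot c hcS), cr_comp v _ _ _ _ (hbk v)]
      simp only [t]
      rw [← map_sub, InfinitePlace.norm_embedding_eq, ← map_mul v, ← map_div₀ v]
      have e : (x a (oi (k v) (b v)) : K) / (x a (b v) : K) -
          (x c (oi (k v) (b v)) : K) / (x c (b v) : K) =
          -(((x a (b v) : K) * (x c (oi (k v) (b v)) : K) -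
            (x a (oi (k v) (b v)) : K) * (x c (b v) : K)) /
              ((x a (b v) : K) * (x c (b v) : K))) := by
        field_simp
        ring
      rw [e, ← v.norm_embedding_eq, ← v.norm_embedding_eq, map_neg, norm_neg]
    have hlow : ∀ a ∈ S.filter (fun a => s a = b), ∀ v, v (x a (b v) : K) ≤ nv v (x a) :=
      fun a _ v => le_nv v (x a) _
    have hcov := cover (α := α) (ι := InfinitePlace K) (fun v => v.mult) mult_cases inferInstance
      (S.filter fun a => s a = b) t him
      (fun v => 4 * R v) (fun v => by have := hR v; positivity)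
      (fun a ha c hc v => by
        rw [hdist a ha c hc v]
        obtain ⟨haS, hav⟩ := hmem a ha
        obtain ⟨hcS, hcv⟩ := hmem c hc
        have pa := nv_pos v (hx a)
        have pc := nv_pos v (hx c)
        have h1 := (hav v).2
        have h2 := (hcv v).2
        have qa : 0 < v (x a (b v) : K) := by linarith
        have qc : 0 < v (x c (b v) : K) := by linarith
        rw [div_le_iff₀ (by positivity)]
        refine (hloc a haS c hcS v).trans ?_
        have h3 : nv v (x a) * nv v (x c) ≤ (2 * v (x a (b v) : K)) * (2 * v (x c (b v) : K)) :=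
          mul_le_mul h1 h2 pc.le (by positivity)
        have hRv := hR v
        calc R v * (nv v (x a) * nv v (x c))
            ≤ R v * ((2 * v (x a (b v) : K)) * (2 * v (x c (b v) : K))) := by gcongr
          _ = _ := by ring)
      (G * ht u / Y ^ 2) (by positivity)
      (fun a ha c hc hac => by
        obtain ⟨haS, hav⟩ := hmem a ha
        obtain ⟨hcS, hcv⟩ := hmem c hc
        obtain ⟨hcr0, hcrN⟩ := hsep a haS c hcS hac
        have hprod : (infN (cr (x a) (x c))) / (infN (x a) * infN (x c)) ≤
            ∏ v : InfinitePlace K, ‖t a v - t c v‖ ^ v.mult := by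
          unfold infN
          rw [← Finset.prod_mul_distrib, ← Finset.prod_div_distrib]
          refine Finset.prod_le_prod (fun v _ => ?_) fun v _ => ?_
          · have := nv_nonneg v (cr (x a) (x c))
            have := nv_nonneg v (x a)
            have := nv_nonneg v (x c)
            positivity
          · rw [hdist a ha c hc v, ← mul_pow, ← div_pow]
            have pa := nv_pos v (hx a)
            have pc := nv_pos v (hx c)
            have h1 := (hav v).2
            have h2 := (hcv v).2
            have qa : 0 < v (x a (b v) : K) := by linarith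
            have qc : 0 < v (x c (b v) : K) := by linarith
            have h3 := hlow a ha v
            have h4 := hlow c hc v
            have h5 := nv_nonneg v (cr (x a) (x c))
            gcongr
        refine le_trans ?_ hprod
        rw [← ht_mul_absNorm hcr0, ← ht_mul_absNorm (hx a), ← ht_mul_absNorm (hx c),
          ht_cr_eq hu (hdot a haS) (hdot c hcS) hcr0]
        have ca := absNorm_pos (cI_ne_bot (hx a))
        have cc := absNorm_pos (cI_ne_bot (hx c))
        have pa := ht_pos (x a)
        have pc := ht_pos (x c)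
        have hab : ht (x a) * ht (x c) ≤ Y ^ 2 := by
          rw [sq]
          exact mul_le_mul (hH a haS) (hH c hcS) pc.le hY.le
        rw [div_le_div_iff₀ (by positivity) (by positivity)]
        calc G * ht u * (ht (x a) * (Ideal.absNorm (cI (x a)) : ℝ) *
              (ht (x c) * (Ideal.absNorm (cI (x c)) : ℝ)))
            = (ht u * (G * ((Ideal.absNorm (cI (x a)) : ℝ) * Ideal.absNorm (cI (x c))))) *
              (ht (x a) * ht (x c)) := by ring
          _ ≤ (ht u * (Ideal.absNorm (cI (cr (x a) (x c))) : ℝ)) * Y ^ 2 := by gcongr)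
    rw [InfinitePlace.sum_mult_eq] at hcov
    have e1 : ∏ v : InfinitePlace K, (4 * R v) ^ v.mult = 4 ^ d * P := by
      simp_rw [mul_pow]
      rw [Finset.prod_mul_distrib, prod_const_mult]
    rw [e1] at hcov
    refine hcov.trans ?_
    rw [← hd, mul_assoc]
    gcongr
    have e2 : 4 ^ d * P / (G * ht u / Y ^ 2) = 4 ^ d * (Y ^ 2 * P / (G * ht u)) := by
      field_simp
    rw [e2]
    have h3 : (1 : ℝ) ≤ 4 ^ d := one_le_pow₀ (by norm_num)
    nlinarith
  calc (S.card : ℝ) = ∑ b ∈ (Finset.univ : Finset (InfinitePlace K → Fin 3)),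
        (((S.filter fun a => s a = b).card : ℕ) : ℝ) := by
        rw [hcardS]; push_cast; rfl
    _ ≤ ∑ b ∈ (Finset.univ : Finset (InfinitePlace K → Fin 3)),
        12 ^ d * 4 ^ d * (1 + Y ^ 2 * P / (G * ht u)) := Finset.sum_le_sum hfib
    _ = 3 ^ r * (12 ^ d * 4 ^ d) * (1 + Y ^ 2 * P / (G * ht u)) := by
        rw [Finset.sum_const, nsmul_eq_mul, Finset.card_univ, Fintype.card_fun, Fintype.card_fin]
        push_cast
        rw [← hr]; ring

end Pool.Lib18ea5f
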