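import Mathlib
import Pool.Agent.Lib18ea5f.P2Line

set_option autoImplicit false

/-!
Counting points of the projective plane over a number field.
-/

namespace Pool.Lib18ea5f

open Finset NumberField
open scoped LinearAlgebra.Projectivization

variable {K : Type*} [Field K] [NumberField K]

lemma cI_cr_le (x y : Fin 3 → 𝓞 K) : cI (cr x y) ≤ cI x * cI y := by
  unfold cI
  rw [Ideal.span_le]
  rintro _ ⟨i, rfl⟩
  fin_cases i
  · exact Ideal.sub_mem _ (Ideal.mul_mem_mul (mem_cI _ _) (mem_cI _ _))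
      (Ideal.mul_mem_mul (mem_cI _ _) (mem_cI _ _))
  · exact Ideal.sub_mem _ (Ideal.mul_mem_mul (mem_cI _ _) (mem_cI _ _))
      (Ideal.mul_mem_mul (mem_cI _ _) (mem_cI _ _))
  · exact Ideal.sub_mem _ (Ideal.mul_mem_mul (mem_cI _ _) (mem_cI _ _))
      (Ideal.mul_mem_mul (mem_cI _ _) (mem_cI _ _))

lemma cr_sep_triv {x y : Fin 3 → 𝓞 K} (h : cr x y ≠ 0) :
    1 * ((Ideal.absNorm (cI x) : ℝ) * Ideal.absNorm (cI y)) ≤
      Ideal.absNorm (cI (cr x y)) := by
  have h1 := absNorm_le_of_dvd (cI_ne_bot h) (Ideal.dvd_iff_le.mpr (cI_cr_le x y))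
  rw [one_mul]
  simpa [map_mul] using h1

lemma nv_cr_le (v : InfinitePlace K) (x y : Fin 3 → 𝓞 K) :
    nv v (cr x y) ≤ 2 * (nv v x * nv v y) := by
  have key : ∀ i j : Fin 3, v (((x i * y j - x j * y i : 𝓞 K) : K)) ≤ 2 * (nv v x * nv v y) := by
    intro i j
    have e : (((x i * y j - x j * y i : 𝓞 K)) : K) =
        (x i : K) * (y j : K) - (x j : K) * (y i : K) := by simp
    rw [e]
    refine (abs_sub_le' v _ _).trans ?_
    rw [map_mul, map_mul]
    have a1 := mul_le_mul (le_nv v x i) (le_nv v y j) (apply_nonneg _ _) (nv_nonneg v x)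
    have a2 := mul_le_mul (le_nv v x j) (le_nv v y i) (apply_nonneg _ _) (nv_nonneg v x)
    linarith
  apply nv_le
  intro i
  fin_cases i
  · exact key 1 2
  · exact key 2 0
  · exact key 0 1

/-- Integral representative of a point of the plane. -/
noncomputable def xq (P : ℙ K (Fin 3 → K)) : Fin 3 → 𝓞 K :=
  (exists_int_rep P.rep_nonzero).choose

lemma xq_ne_zero (P : ℙ K (Fin 3 → K)) : xq P ≠ 0 :=
  (exists_int_rep P.rep_nonzero).choose_spec.1

lemma xq_spec (P : ℙ K (Fin 3 → K)) :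
    ∃ c : K, c ≠ 0 ∧ (fun i => (xq P i : K)) = c • P.rep :=
  (exists_int_rep P.rep_nonzero).choose_spec.2

lemma ht_xq (P : ℙ K (Fin 3 → K)) : ht (xq P) = P.mulHeight := by
  obtain ⟨c, hc, h⟩ := xq_spec P
  have h2 := Projectivization.mulHeight_mk (K := K) P.rep_nonzero
  rw [Projectivization.mk_rep] at h2
  unfold ht
  rw [h, Height.mulHeight_smul_eq_mulHeight _ hc, h2]

lemma cr_smul (c d : K) (x y : Fin 3 → K) : cr (c • x) (d • y) = (c * d) • cr x y := by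
  funext i
  fin_cases i <;> simp [cr] <;> ring

lemma coe_cr (x y : Fin 3 → 𝓞 K) :
    (fun i => ((cr x y i : 𝓞 K) : K)) = cr (fun i => (x i : K)) (fun i => (y i : K)) := by
  funext i
  fin_cases i <;> simp [cr]

lemma eq_of_cr_rep {P Q : ℙ K (Fin 3 → K)} (h : cr P.rep Q.rep = 0) : P = Q := by
  rw [← P.mk_rep, ← Q.mk_rep]
  rw [Projectivization.mk_eq_mk_iff']
  obtain ⟨j, hj⟩ := Function.ne_iff.mp Q.rep_nonzero
  simp only [Pi.zero_apply] at hj
  refine ⟨P.rep j / Q.rep j, ?_⟩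
  have h0 := congrFun h 0
  have h1 := congrFun h 1
  have h2 := congrFun h 2
  simp [cr] at h0 h1 h2
  funext i
  simp only [Pi.smul_apply, smul_eq_mul]
  rw [div_mul_eq_mul_div, div_eq_iff hj]
  fin_cases i <;> fin_cases j <;> simp only [Fin.zero_eta, Fin.mk_one, Fin.reduceFinMk] at * <;>
    first
      | linear_combination h0
      | linear_combination h1
      | linear_combination h2
      | linear_combination -h0
      | linear_combination -h1
      | linear_combination -h2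
      | ring1

lemma eq_of_cr {P Q : ℙ K (Fin 3 → K)} (h : cr (xq P) (xq Q) = 0) : P = Q := by
  obtain ⟨c, hc, hP⟩ := xq_spec P
  obtain ⟨d, hd, hQ⟩ := xq_spec Q
  apply eq_of_cr_rep
  have h1 := coe_cr (xq P) (xq Q)
  rw [h, hP, hQ, cr_smul] at h1
  have h2 : (c * d) • cr P.rep Q.rep = 0 := by
    rw [← h1]; funext i; simp
  exact (smul_eq_zero.mp h2).resolve_left (mul_ne_zero hc hd)

lemma cr_xq_ne {P Q : ℙ K (Fin 3 → K)} (h : P ≠ Q) : cr (xq P) (xq Q) ≠ 0 :=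
  fun h' => h (eq_of_cr h')

/-- Points of bounded height on a line. -/
theorem line_count_triv (K : Type*) [Field K] [NumberField K] :
    ∃ C : ℝ, 1 ≤ C ∧ ∀ (u : Fin 3 → 𝓞 K), u ≠ 0 →
      ∀ (S : Finset (ℙ K (Fin 3 → K))), (∀ a ∈ S, dot u (xq a) = 0) →
      ∀ Y : ℝ, 0 < Y → (∀ a ∈ S, ht (xq a) ≤ Y) → (S.card : ℝ) ≤ C * (1 + Y ^ 2 / ht u) := by
  obtain ⟨C, hC, hl⟩ := line_count K
  set d := Module.finrank ℚ K with hd
  have h2d : (1 : ℝ) ≤ 2 ^ d := one_le_pow₀ (by norm_num)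
  refine ⟨C * 2 ^ d, by nlinarith, fun u hu S hS Y hY hH => ?_⟩
  have hHu := ht_pos u
  have := hl _ u hu S xq xq_ne_zero hS (fun _ => 2) 1 Y (fun _ => by norm_num) one_pos hY
    (fun a _ b _ hab => ⟨cr_xq_ne hab, cr_sep_triv (cr_xq_ne hab)⟩)
    (fun a _ b _ v => nv_cr_le v _ _) hH
  refine this.trans ?_
  rw [prod_const_mult, ← hd, one_mul, mul_assoc]
  gcongr
  have : Y ^ 2 * 2 ^ d / ht u = 2 ^ d * (Y ^ 2 / ht u) := by ring
  rw [this]
  nlinarith

/-- Dyadic summation. -/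
lemma dyadic_recip {α : Type*} (S : Finset α) (h : α → ℝ) (Z F : ℝ)
    (h1 : ∀ a ∈ S, 1 ≤ h a) (hZ : ∀ a ∈ S, h a ≤ Z) (hZ1 : 1 ≤ Z) (hF0 : 0 ≤ F)
    (hF : ∀ X : ℝ, 1 ≤ X → X ≤ Z → ∀ S' ⊆ S, (∀ a ∈ S', X ≤ h a ∧ h a ≤ 2 * X) →
      (S'.card : ℝ) ≤ F * X) :
    ∑ a ∈ S, 1 / h a ≤ (Real.logb 2 Z + 1) * F := by
  classical
  set L := ⌊Real.logb 2 Z⌋₊ with hL
  let f : α → ℕ := fun a => ⌊Real.logb 2 (h a)⌋₊
  have hmaps : ∀ a ∈ S, f a ∈ Finset.range (L + 1) := by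
    intro a ha
    rw [Finset.mem_range]
    exact Nat.lt_succ_of_le (Nat.floor_mono
      (Real.logb_le_logb_of_le (by norm_num) (by linarith [h1 a ha]) (hZ a ha)))
  rw [← Finset.sum_fiberwise_of_maps_to hmaps]
  have hfib : ∀ j ∈ Finset.range (L + 1), ∑ a ∈ S.filter (fun a => f a = j), 1 / h a ≤ F := by
    intro j hj
    have hspec : ∀ a ∈ S.filter (fun a => f a = j),
        (2 : ℝ) ^ j ≤ h a ∧ h a ≤ 2 * 2 ^ j := by
      intro a ha
      have h2 := (Finset.mem_filter.mp ha).2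
      rw [← h2]
      exact floor_logb_spec (h1 a (Finset.mem_filter.mp ha).1)
    have hjZ : (2 : ℝ) ^ j ≤ Z := by
      calc (2 : ℝ) ^ j ≤ 2 ^ L :=
            pow_le_pow_right₀ (by norm_num) (Nat.lt_succ_iff.mp (Finset.mem_range.mp hj))
        _ ≤ Z := (floor_logb_spec hZ1).1
    have hc := hF (2 ^ j) (one_le_pow₀ (by norm_num)) hjZ _ (Finset.filter_subset _ _) hspec
    calc ∑ a ∈ S.filter (fun a => f a = j), 1 / h a
        ≤ ∑ a ∈ S.filter (fun a => f a = j), 1 / 2 ^ j := by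
          refine Finset.sum_le_sum fun a ha => ?_
          have := (hspec a ha).1
          gcongr
      _ = ((S.filter (fun a => f a = j)).card : ℝ) * (1 / 2 ^ j) := by
          rw [Finset.sum_const, nsmul_eq_mul]
      _ ≤ (F * 2 ^ j) * (1 / 2 ^ j) := by gcongr
      _ = F := by field_simp
  calc ∑ j ∈ Finset.range (L + 1), ∑ a ∈ S.filter (fun a => f a = j), 1 / h a
      ≤ ∑ j ∈ Finset.range (L + 1), F := Finset.sum_le_sum hfib
    _ = (L + 1) * F := by
        rw [Finset.sum_const, nsmul_eq_mul, Finset.card_range]; push_cast; ring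
    _ ≤ (Real.logb 2 Z + 1) * F := by
        gcongr
        exact Nat.floor_le (Real.logb_nonneg (by norm_num) hZ1)

/-- The number of points of the plane of height at most `Y`. -/
theorem plane_count (K : Type*) [Field K] [NumberField K] (ε : ℝ) (hε : 0 < ε) :
    ∃ C : ℝ, 1 ≤ C ∧ ∀ (S : Finset (ℙ K (Fin 3 → K))) (Y : ℝ), 1 ≤ Y →
      (∀ P ∈ S, ht (xq P) ≤ Y) → (S.card : ℝ) ≤ C * (Y ^ 3 * Y ^ ε) := by
  classical
  obtain ⟨Cl, hCl, hline⟩ := line_count_triv K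
  obtain ⟨Cp, hCp, hpl⟩ := pline_count K (ℙ K (Fin 2 → K))
  obtain ⟨Cr, hCr, hrec⟩ := recip_sum K ε hε
  refine ⟨1 + Cl * (Cp + Cr), by nlinarith, fun S Y hY hS => ?_⟩
  have hYε : 1 ≤ Y ^ ε := Real.one_le_rpow hY hε.le
  have hY2 : 1 ≤ Y ^ 2 := one_le_pow₀ hY
  have hY3 : 1 ≤ Y ^ 3 := one_le_pow₀ hY
  -- the two parts
  set S1 := S.filter (fun P => (![P.rep 0, P.rep 1] : Fin 2 → K) ≠ 0) with hS1
  set S2 := S.filter (fun P => ¬ (![P.rep 0, P.rep 1] : Fin 2 → K) ≠ 0) with hS2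
  have hsplit : S.card = S1.card + S2.card := (Finset.card_filter_add_card_filter_not _).symm
  have hS2card : S2.card ≤ 1 := by
    rw [Finset.card_le_one]
    intro P hP Q hQ
    have h1 := (Finset.mem_filter.mp hP).2
    have h2 := (Finset.mem_filter.mp hQ).2
    push Not at h1 h2
    have a0 := congrFun h1 0
    have a1 := congrFun h1 1
    have b0 := congrFun h2 0
    have b1 := congrFun h2 1
    simp at a0 a1 b0 b1
    apply eq_of_cr_rep
    funext i
    fin_cases i <;> simp [cr, a0, a1, b0, b1]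
  -- projection to the line
  let f : ℙ K (Fin 3 → K) → ℙ K (Fin 2 → K) := fun P =>
    if h : (![P.rep 0, P.rep 1] : Fin 2 → K) ≠ 0 then Projectivization.mk K _ h
    else Projectivization.mk K ![1, 0] (by
      intro h; have := congrFun h 0; simp at this)
  set T := S1.image f with hT
  have hfspec : ∀ P ∈ S1, ∃ c : K, c ≠ 0 ∧
      (fun i => (xr (f P) i : K)) = c • (![P.rep 0, P.rep 1] : Fin 2 → K) := by
    intro P hP
    have h1 := (Finset.mem_filter.mp hP).2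
    have hfP : f P = Projectivization.mk K _ h1 := dif_pos h1
    obtain ⟨c, hc, hcx⟩ := xr_spec (f P)
    obtain ⟨a, ha⟩ := Projectivization.exists_smul_eq_mk_rep K _ h1
    rw [← hfP] at ha
    refine ⟨c * (a : K), mul_ne_zero hc a.ne_zero, ?_⟩
    rw [hcx, ← ha, mul_smul]
    rfl
  have hTht : ∀ p ∈ T, ht (xr p) ≤ Y := by
    intro p hp
    obtain ⟨P, hP, rfl⟩ := Finset.mem_image.mp hp
    obtain ⟨c, hc, hcx⟩ := hfspec P hP
    have h1 : ht (xr (f P)) = Height.mulHeight (![P.rep 0, P.rep 1] : Fin 2 → K) := by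
      unfold ht; rw [hcx, Height.mulHeight_smul_eq_mulHeight _ hc]
    have h2 : (![P.rep 0, P.rep 1] : Fin 2 → K) = P.rep ∘ (![0, 1] : Fin 2 → Fin 3) := by
      funext i; fin_cases i <;> simp
    have h3 := Height.mulHeight_comp_le (![0, 1] : Fin 2 → Fin 3) P.rep
    rw [h1, h2]
    refine h3.trans ?_
    have h4 := hS P (Finset.mem_filter.mp hP).1
    rw [ht_xq] at h4
    have h5 := Projectivization.mulHeight_mk (K := K) P.rep_nonzero
    rw [Projectivization.mk_rep] at h5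
    rw [← h5]
    exact h4
  have hcard1 := Finset.card_eq_sum_card_fiberwise (f := f) (s := S1) (t := T)
    (fun P hP => Finset.mem_image_of_mem f hP)
  have hfib : ∀ p ∈ T, (((S1.filter fun P => f P = p).card : ℕ) : ℝ) ≤
      Cl * (1 + Y ^ 2 * (1 / ht (xr p))) := by
    intro p hp
    set u : Fin 3 → 𝓞 K := ![xr p 1, - xr p 0, 0] with hu
    have hu0 : u ≠ 0 := by
      intro h
      apply rot_ne_zero (xr_ne_zero p)
      have a0 := congrFun h 0
      have a1 := congrFun h 1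
      funext i
      fin_cases i
      · exact a0
      · exact a1
    have hht : ht (xr p) ≤ ht u := by
      rw [← ht_rot (xr_ne_zero p)]
      have h1 := Height.mulHeight_comp_le (![0, 1] : Fin 2 → Fin 3) (fun i => (u i : K))
      have h2 : (fun i => (u i : K)) ∘ (![0, 1] : Fin 2 → Fin 3) = fun i => (rot (xr p) i : K) := by
        funext i
        fin_cases i <;> simp [rot, hu]
      rw [h2] at h1
      exact h1
    have hl := hline u hu0 (S1.filter fun P => f P = p)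
      (by
        intro P hP
        obtain ⟨hP1, hP2⟩ := Finset.mem_filter.mp hP
        obtain ⟨c, hc, hcx⟩ := hfspec P hP1
        rw [hP2] at hcx
        obtain ⟨d, hd, hdx⟩ := xq_spec P
        have e0 := congrFun hcx 0
        have e1 := congrFun hcx 1
        have d0 := congrFun hdx 0
        have d1 := congrFun hdx 1
        simp at e0 e1 d0 d1
        have h9 : ((dot u (xq P) : 𝓞 K) : K) =
            (xr p 1 : K) * (xq P 0 : K) - (xr p 0 : K) * (xq P 1 : K) := by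
          simp [dot, hu]; ring
        have h10 : ((dot u (xq P) : 𝓞 K) : K) = 0 := by
          rw [h9, e0, e1, d0, d1]
          ring
        exact_mod_cast h10)
      Y (by linarith) (fun P hP => hS P (Finset.mem_filter.mp (Finset.mem_filter.mp hP).1).1)
    refine hl.trans ?_
    have hp0 := ht_pos (xr p)
    have : Y ^ 2 / ht u ≤ Y ^ 2 * (1 / ht (xr p)) := by
      rw [mul_one_div]
      gcongr
    gcongr
  have hTcard := hpl T xr xr_ne_zero (fun a _ b _ hab => det2_xr_ne hab) Y hY hTht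
  have hTrec := hrec T Y hY hTht
  have hS1 : (S1.card : ℝ) ≤ Cl * (Cp * Y ^ 2 + Y ^ 2 * (Cr * (Y * Y ^ ε))) := by
    calc (S1.card : ℝ) = ∑ p ∈ T, (((S1.filter fun P => f P = p).card : ℕ) : ℝ) := by
          rw [hcard1]; push_cast; rfl
      _ ≤ ∑ p ∈ T, Cl * (1 + Y ^ 2 * (1 / ht (xr p))) := Finset.sum_le_sum hfib
      _ = Cl * ((T.card : ℝ) + Y ^ 2 * ∑ p ∈ T, 1 / ht (xr p)) := by
          rw [← Finset.mul_sum, Finset.sum_add_distrib, Finset.mul_sum, Finset.sum_const,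
            nsmul_eq_mul, mul_one]
      _ ≤ Cl * (Cp * Y ^ 2 + Y ^ 2 * (Cr * (Y * Y ^ ε))) := by gcongr
  have hA : Y ^ 2 ≤ Y ^ 3 * Y ^ ε := by
    have : Y ^ 2 ≤ Y ^ 3 := pow_le_pow_right₀ hY (by norm_num)
    nlinarith
  have hB : (1 : ℝ) ≤ Y ^ 3 * Y ^ ε := by nlinarith
  calc (S.card : ℝ) = S1.card + S2.card := by rw [hsplit]; push_cast; rfl
    _ ≤ Cl * (Cp * Y ^ 2 + Y ^ 2 * (Cr * (Y * Y ^ ε))) + 1 := by
        have : (S2.card : ℝ) ≤ 1 := by exact_mod_cast hS2card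
        linarith
    _ = Cl * (Cp * Y ^ 2 + Cr * (Y ^ 3 * Y ^ ε)) + 1 := by ring
    _ ≤ Cl * (Cp * (Y ^ 3 * Y ^ ε) + Cr * (Y ^ 3 * Y ^ ε)) + Y ^ 3 * Y ^ ε := by gcongr
    _ = _ := by ring

/-- Sum of the reciprocals of the heights in the plane. -/
theorem plane_recip (K : Type*) [Field K] [NumberField K] (ε : ℝ) (hε : 0 < ε) :
    ∃ C : ℝ, 1 ≤ C ∧ ∀ (S : Finset (ℙ K (Fin 3 → K))) (Y : ℝ), 1 ≤ Y →
      (∀ P ∈ S, ht (xq P) ≤ Y) → ∑ P ∈ S, 1 / ht (xq P) ≤ C * (Y ^ 2 * Y ^ ε) := by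
  obtain ⟨C1, hC1, hcount⟩ := plane_count K (ε / 2) (by positivity)
  obtain ⟨C2, hC2, hlog⟩ := log_pow_le (ε / 2) (by positivity) 1 1 le_rfl
  have h2ε : (1 : ℝ) ≤ 2 ^ (ε / 2) := Real.one_le_rpow (by norm_num) (by positivity)
  refine ⟨C1 * 8 * 2 ^ (ε / 2) * C2, ?_, fun S Y hY hS => ?_⟩
  · have h1 : 1 ≤ C1 * 8 := by nlinarith
    have h2 : 1 ≤ C1 * 8 * 2 ^ (ε / 2) := by nlinarith
    nlinarith
  have hYε : 1 ≤ Y ^ (ε / 2) := Real.one_le_rpow hY (by positivity)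
  have hd := dyadic_recip S (fun P => ht (xq P)) Y (C1 * 8 * 2 ^ (ε / 2) * (Y ^ 2 * Y ^ (ε / 2)))
    (fun P _ => one_le_ht _) hS hY (by positivity)
    (by
      intro X hX hXY S' _ hS'
      have h1 := hcount S' (2 * X) (by linarith) (fun P hP => (hS' P hP).2)
      refine h1.trans ?_
      have e : (2 * X) ^ (ε / 2) = 2 ^ (ε / 2) * X ^ (ε / 2) :=
        Real.mul_rpow (by norm_num) (by linarith)
      rw [e]
      have h2 : X ^ (ε / 2) ≤ Y ^ (ε / 2) := Real.rpow_le_rpow (by linarith) hXY (by positivity)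
      calc C1 * ((2 * X) ^ 3 * (2 ^ (ε / 2) * X ^ (ε / 2)))
          = C1 * 8 * 2 ^ (ε / 2) * (X ^ 2 * X ^ (ε / 2)) * X := by ring
        _ ≤ C1 * 8 * 2 ^ (ε / 2) * (Y ^ 2 * Y ^ (ε / 2)) * X := by gcongr)
  refine hd.trans ?_
  have h3 := hlog Y hY
  rw [pow_one, one_mul] at h3
  have h4 : Real.logb 2 Y + 1 ≤ C2 * Y ^ (ε / 2) := by linarith
  calc (Real.logb 2 Y + 1) * (C1 * 8 * 2 ^ (ε / 2) * (Y ^ 2 * Y ^ (ε / 2)))
      ≤ (C2 * Y ^ (ε / 2)) * (C1 * 8 * 2 ^ (ε / 2) * (Y ^ 2 * Y ^ (ε / 2))) := by gcongr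
    _ = C1 * 8 * 2 ^ (ε / 2) * C2 * (Y ^ 2 * (Y ^ (ε / 2) * Y ^ (ε / 2))) := by ring
    _ = C1 * 8 * 2 ^ (ε / 2) * C2 * (Y ^ 2 * Y ^ ε) := by
        rw [← Real.rpow_add (by linarith)]; congr 3; ring

end Pool.Lib18ea5f
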