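import Mathlib
import Pool.Agent.Lib18ea5f.P2Count

set_option autoImplicit false

/-!
Counting points of the projective plane over a number field inside an adelic ball.
-/

namespace Pool.Lib18ea5f

open Finset NumberField
open scoped LinearAlgebra.Projectivization

variable {K : Type*} [Field K] [NumberField K]

/-- The point of the plane given by a nonzero integral vector. -/
noncomputable def mkq (u : Fin 3 → 𝓞 K) (hu : u ≠ 0) : ℙ K (Fin 3 → K) :=
  Projectivization.mk K (fun i => (u i : K)) (coe_ne_zero hu)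

lemma xq_mkq (u : Fin 3 → 𝓞 K) (hu : u ≠ 0) :
    ∃ c : K, c ≠ 0 ∧ (fun i => (xq (mkq u hu) i : K)) = c • (fun i => (u i : K)) := by
  obtain ⟨c, hc, hcx⟩ := xq_spec (mkq u hu)
  obtain ⟨a, ha⟩ := Projectivization.exists_smul_eq_mk_rep K _ (coe_ne_zero hu)
  have ha' : a • (fun i => (u i : K)) = (mkq u hu).rep := ha
  refine ⟨c * (a : K), mul_ne_zero hc a.ne_zero, ?_⟩
  rw [hcx, ← ha', mul_smul]
  rfl

lemma ht_xq_mkq (u : Fin 3 → 𝓞 K) (hu : u ≠ 0) : ht (xq (mkq u hu)) = ht u := by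
  obtain ⟨c, hc, h⟩ := xq_mkq u hu
  unfold ht
  rw [h, Height.mulHeight_smul_eq_mulHeight _ hc]

lemma dot_xq_mkq {u x : Fin 3 → 𝓞 K} (hu : u ≠ 0) (h : dot u x = 0) :
    dot (xq (mkq u hu)) x = 0 := by
  obtain ⟨c, hc, hcx⟩ := xq_mkq u hu
  have e0 := congrFun hcx 0
  have e1 := congrFun hcx 1
  have e2 := congrFun hcx 2
  simp only [Pi.smul_apply, smul_eq_mul] at e0 e1 e2
  have h1 : (u 0 : K) * (x 0 : K) + (u 1 : K) * (x 1 : K) + (u 2 : K) * (x 2 : K) = 0 := by
    have := congrArg (fun t : 𝓞 K => (t : K)) h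
    simpa [dot] using this
  have h2 : ((dot (xq (mkq u hu)) x : 𝓞 K) : K) =
      (xq (mkq u hu) 0 : K) * (x 0 : K) + (xq (mkq u hu) 1 : K) * (x 1 : K) +
        (xq (mkq u hu) 2 : K) * (x 2 : K) := by simp [dot]
  have h3 : ((dot (xq (mkq u hu)) x : 𝓞 K) : K) = 0 := by
    rw [h2, e0, e1, e2]
    linear_combination c * h1
  exact_mod_cast h3

/-- Ball count. -/
theorem ball_count (K : Type*) [Field K] [NumberField K] :
    ∃ C : ℝ, 1 ≤ C ∧ ∀ (S : Finset (ℙ K (Fin 3 → K))) (R : InfinitePlace K → ℝ) (G Z W : ℝ),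
      (∀ v, 0 < R v) → 0 < G → 1 ≤ Z → W = 4 * Z ^ 2 * (∏ v, R v ^ v.mult) / G →
      (∀ a ∈ S, ∀ b ∈ S, a ≠ b →
        G * ((Ideal.absNorm (cI (xq a)) : ℝ) * Ideal.absNorm (cI (xq b))) ≤
          Ideal.absNorm (cI (cr (xq a) (xq b)))) →
      (∀ a ∈ S, ∀ b ∈ S, ∀ v, nv v (cr (xq a) (xq b)) ≤ R v * (nv v (xq a) * nv v (xq b))) →
      (∀ a ∈ S, Z ≤ ht (xq a) ∧ ht (xq a) ≤ 2 * Z) →
      (S.card : ℝ) ≤ C * ((Real.logb 2 (max W 1) + 2) * (1 + W + W ^ 2 / Z)) := by
  classical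
  obtain ⟨C1, hC1, hline⟩ := line_count K
  obtain ⟨C2, hC2, htriv⟩ := line_count_triv K
  refine ⟨1 + 6 * (C1 * C2), by nlinarith, ?_⟩
  intro S R G Z W hR hG hZ hW hsep hloc hH
  set P := ∏ v : InfinitePlace K, R v ^ v.mult with hP
  have hPpos : 0 < P := Finset.prod_pos fun v _ => pow_pos (hR v) _
  have hWpos : 0 < W := by rw [hW]; positivity
  have hlogW : 0 ≤ Real.logb 2 (max W 1) := Real.logb_nonneg (by norm_num) (le_max_right _ _)
  set Lg := Real.logb 2 (max W 1) + 2 with hLg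
  have hLg2 : 2 ≤ Lg := by linarith
  have hQpos : 0 < W ^ 2 / Z := by positivity
  have hRHS1 : 1 ≤ Lg * (1 + W + W ^ 2 / Z) := by nlinarith
  rcases S.eq_empty_or_nonempty with he | ⟨z0, hz0⟩
  · rw [he]
    simp only [Finset.card_empty, Nat.cast_zero]
    positivity
  set S' := S.erase z0 with hS'
  have hScard : (S.card : ℝ) = S'.card + 1 := by
    rw [hS', Finset.card_erase_of_mem hz0]
    have : 1 ≤ S.card := Finset.card_pos.mpr ⟨z0, hz0⟩
    push_cast [Nat.cast_sub this]; ring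
  have hmem : ∀ z ∈ S', z ∈ S ∧ z0 ≠ z := fun z hz =>
    ⟨Finset.mem_of_mem_erase hz, (Finset.ne_of_mem_erase hz).symm⟩
  let f : ℙ K (Fin 3 → K) → ℙ K (Fin 3 → K) := fun z =>
    if h : cr (xq z0) (xq z) ≠ 0 then mkq _ h else z0
  have hf : ∀ z (hz : z ∈ S'), f z = mkq _ (cr_xq_ne (hmem z hz).2) := fun z hz =>
    dif_pos (cr_xq_ne (hmem z hz).2)
  set T := S'.image f with hT
  have hTdot0 : ∀ t ∈ T, dot (xq z0) (xq t) = 0 := by
    intro t htT
    obtain ⟨z, hz, rfl⟩ := Finset.mem_image.mp htT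
    rw [hf z hz, dot_comm]
    exact dot_xq_mkq _ (dot_cr_left _ _)
  have hTht : ∀ t ∈ T, ht (xq t) ≤ W := by
    intro t htT
    obtain ⟨z, hz, rfl⟩ := Finset.mem_image.mp htT
    rw [hf z hz, ht_xq_mkq]
    obtain ⟨hzS, hne⟩ := hmem z hz
    have hcr := cr_xq_ne hne
    have h1 := hsep z0 hz0 z hzS hne
    have c0 := absNorm_pos (cI_ne_bot (xq_ne_zero z0))
    have cz := absNorm_pos (cI_ne_bot (xq_ne_zero z))
    have cc := absNorm_pos (cI_ne_bot hcr)
    have p0 := ht_pos (xq z0)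
    have pz := ht_pos (xq z)
    rw [ht_eq hcr, div_le_iff₀ cc]
    have h2 : infN (cr (xq z0) (xq z)) ≤ P * (infN (xq z0) * infN (xq z)) := by
      unfold infN
      rw [hP, ← Finset.prod_mul_distrib, ← Finset.prod_mul_distrib]
      refine Finset.prod_le_prod (fun v _ => pow_nonneg (nv_nonneg _ _) _) fun v _ => ?_
      rw [← mul_pow, ← mul_pow]
      exact pow_le_pow_left₀ (nv_nonneg _ _) (hloc z0 hz0 z hzS v) _
    rw [← ht_mul_absNorm (xq_ne_zero z0), ← ht_mul_absNorm (xq_ne_zero z)] at h2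
    refine h2.trans ?_
    have hab : ht (xq z0) * ht (xq z) ≤ 4 * Z ^ 2 := by
      calc ht (xq z0) * ht (xq z) ≤ (2 * Z) * (2 * Z) :=
            mul_le_mul (hH z0 hz0).2 (hH z hzS).2 pz.le (by positivity)
        _ = 4 * Z ^ 2 := by ring
    calc P * (ht (xq z0) * (Ideal.absNorm (cI (xq z0)) : ℝ) *
          (ht (xq z) * (Ideal.absNorm (cI (xq z)) : ℝ)))
        = (P / G) * (ht (xq z0) * ht (xq z)) *
          (G * ((Ideal.absNorm (cI (xq z0)) : ℝ) * Ideal.absNorm (cI (xq z)))) := by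
          field_simp
      _ ≤ (P / G) * (4 * Z ^ 2) * (Ideal.absNorm (cI (cr (xq z0) (xq z))) : ℝ) := by gcongr
      _ = W * (Ideal.absNorm (cI (cr (xq z0) (xq z))) : ℝ) := by rw [hW]; ring
  rcases T.eq_empty_or_nonempty with hTe | ⟨t0, ht0⟩
  · have hS'e : S' = ∅ := by
      rw [hT, Finset.image_eq_empty] at hTe; exact hTe
    rw [hScard, hS'e]
    simp only [Finset.card_empty, Nat.cast_zero, zero_add]
    have hone : (1 : ℝ) ≤ 1 + 6 * (C1 * C2) := by nlinarith
    exact one_le_mul_of_one_le_of_one_le hone hRHS1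
  have hW1 : 1 ≤ W := (one_le_ht _).trans (hTht t0 ht0)
  have hmaxW : max W 1 = W := max_eq_left hW1
  -- size of `T`
  have hz0pos := ht_pos (xq z0)
  have hTcard : (T.card : ℝ) ≤ C2 * (1 + W ^ 2 / Z) := by
    have h1 := htriv (xq z0) (xq_ne_zero z0) T hTdot0 W hWpos hTht
    refine h1.trans ?_
    have := (hH z0 hz0).1
    gcongr
  have hTrec : ∑ t ∈ T, 1 / ht (xq t) ≤ Lg * (C2 * (1 + 4 * W / Z)) := by
    have h1 := dyadic_recip T (fun t => ht (xq t)) W (C2 * (1 + 4 * W / Z))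
      (fun t _ => one_le_ht _) hTht hW1 (by positivity)
      (by
        intro X hX hXW T' hT' hT'X
        have h2 := htriv (xq z0) (xq_ne_zero z0) T' (fun a ha => hTdot0 a (hT' ha)) (2 * X)
          (by linarith) (fun a ha => (hT'X a ha).2)
        refine h2.trans ?_
        have h3 := (hH z0 hz0).1
        have h4 : (2 * X) ^ 2 / ht (xq z0) ≤ 4 * W / Z * X := by
          calc (2 * X) ^ 2 / ht (xq z0) ≤ (2 * X) ^ 2 / Z := by gcongr
            _ = 4 * X / Z * X := by ring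
            _ ≤ 4 * W / Z * X := by gcongr
        rw [mul_assoc]
        gcongr
        nlinarith)
    refine h1.trans ?_
    rw [hLg, hmaxW]
    gcongr
    linarith
  -- fibres
  have hcardS' := Finset.card_eq_sum_card_fiberwise (f := f) (s := S') (t := T)
    (fun z hz => Finset.mem_image_of_mem f hz)
  have hfib : ∀ t ∈ T, (((S'.filter fun z => f z = t).card : ℕ) : ℝ) ≤
      C1 * (1 + W * (1 / ht (xq t))) := by
    intro t _
    have hl := hline _ (xq t) (xq_ne_zero t) (S'.filter fun z => f z = t) xq xq_ne_zero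
      (by
        intro z hz
        obtain ⟨hz1, hz2⟩ := Finset.mem_filter.mp hz
        rw [← hz2, hf z hz1]
        exact dot_xq_mkq _ (dot_cr_right _ _))
      R G (2 * Z) hR hG (by linarith)
      (fun a ha b hb hab => ⟨cr_xq_ne hab, hsep a (hmem a (Finset.mem_filter.mp ha).1).1 b
        (hmem b (Finset.mem_filter.mp hb).1).1 hab⟩)
      (fun a ha b hb v => hloc a (hmem a (Finset.mem_filter.mp ha).1).1 b
        (hmem b (Finset.mem_filter.mp hb).1).1 v)
      (fun a ha => (hH a (hmem a (Finset.mem_filter.mp ha).1).1).2)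
    refine hl.trans (le_of_eq ?_)
    rw [← hP, hW]
    have := ht_pos (xq t)
    field_simp
    ring
  have hmain : (S'.card : ℝ) ≤ C1 * (C2 * (1 + W ^ 2 / Z) + W * (Lg * (C2 * (1 + 4 * W / Z)))) := by
    calc (S'.card : ℝ) = ∑ t ∈ T, (((S'.filter fun z => f z = t).card : ℕ) : ℝ) := by
          rw [hcardS']; push_cast; rfl
      _ ≤ ∑ t ∈ T, C1 * (1 + W * (1 / ht (xq t))) := Finset.sum_le_sum hfib
      _ = C1 * ((T.card : ℝ) + W * ∑ t ∈ T, 1 / ht (xq t)) := by
          rw [← Finset.mul_sum, Finset.sum_add_distrib, Finset.mul_sum, Finset.sum_const,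
            nsmul_eq_mul, mul_one]
      _ ≤ _ := by gcongr
  rw [hScard]
  have e1 : W * (1 + 4 * W / Z) = W + 4 * (W ^ 2 / Z) := by ring
  have hA : C2 * (1 + W ^ 2 / Z) + W * (Lg * (C2 * (1 + 4 * W / Z))) ≤
      6 * C2 * (Lg * (1 + W + W ^ 2 / Z)) := by
    have e2 : W * (Lg * (C2 * (1 + 4 * W / Z))) = C2 * (Lg * (W * (1 + 4 * W / Z))) := by ring
    rw [e2, e1]
    have h3 : 1 + W ^ 2 / Z ≤ Lg * (1 + W + W ^ 2 / Z) := by nlinarith
    have h4 : Lg * (W + 4 * (W ^ 2 / Z)) ≤ 4 * (Lg * (1 + W + W ^ 2 / Z)) := by nlinarith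
    have hC2' : 0 < C2 := by linarith
    have := mul_le_mul_of_nonneg_left h3 hC2'.le
    have := mul_le_mul_of_nonneg_left h4 hC2'.le
    nlinarith
  have hC1' : 0 < C1 := by linarith
  have hB := mul_le_mul_of_nonneg_left hA hC1'.le
  nlinarith

end Pool.Lib18ea5f
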