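import Mathlib
import Pool.Agent.Lib18ea5f.P2Ball

set_option autoImplicit false

/-!
Linear maps of the projective plane: gcd ideals, local sizes and the geometry of one class.
-/

namespace Pool.Lib18ea5f

open Finset NumberField
open scoped LinearAlgebra.Projectivization

/-- row of a matrix -/
def row {R : Type*} (M : Fin 3 × Fin 3 → R) (i : Fin 3) : Fin 3 → R := fun j => M (i, j)

/-- matrix times vector -/
def mv {R : Type*} [CommRing R] (M : Fin 3 × Fin 3 → R) (z : Fin 3 → R) : Fin 3 → R :=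
  fun i => dot (row M i) z

/-- cofactor matrix -/
def wd {R : Type*} [CommRing R] (M : Fin 3 × Fin 3 → R) : Fin 3 × Fin 3 → R :=
  fun p => cr (row M (p.1 + 1)) (row M (p.1 + 2)) p.2

/-- determinant -/
def det3 {R : Type*} [CommRing R] (M : Fin 3 × Fin 3 → R) : R :=
  dot (row M 0) (cr (row M 1) (row M 2))

lemma det3_mul {R : Type*} [CommRing R] (M : Fin 3 × Fin 3 → R) (z : Fin 3 → R) (j : Fin 3) :
    det3 M * z j = wd M (0, j) * mv M z 0 + wd M (1, j) * mv M z 1 + wd M (2, j) * mv M z 2 := by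
  have h1 : (1 : Fin 3) + 1 = 2 := by decide
  have h2 : (1 : Fin 3) + 2 = 0 := by decide
  have h3 : (2 : Fin 3) + 1 = 0 := by decide
  have h4 : (2 : Fin 3) + 2 = 1 := by decide
  have h5 : (0 : Fin 3) + 1 = 1 := by decide
  have h6 : (0 : Fin 3) + 2 = 2 := by decide
  simp only [det3, wd, mv, dot, row, cr, h1, h2, h3, h4, h5, h6]
  fin_cases j <;> simp <;> ring

/-- Cramer type identity. -/
lemma cramer_id {R : Type*} [CommRing R] (a b n : Fin 3 → R) (k l : Fin 3) :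
    n l * cr a b k = a l * cr n b k - b l * cr n a k + (if k = l then dot (cr n a) b else 0) := by
  fin_cases k <;> fin_cases l <;> simp [cr, dot] <;> ring

lemma row_cross {R : Type*} [CommRing R] (r z z' : Fin 3 → R) (l : Fin 3) :
    cr (cr z z') r l = dot r z * z' l - dot r z' * z l := by
  fin_cases l <;> simp [cr, dot] <;> ring

variable {K : Type*} [Field K] [NumberField K]

lemma cI_row_le (M : Fin 3 × Fin 3 → 𝓞 K) (i j : Fin 3) : row M i j ∈ cI M := mem_cI M (i, j)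

lemma dot_mem {I J : Ideal (𝓞 K)} {a b : Fin 3 → 𝓞 K} (ha : ∀ i, a i ∈ I) (hb : ∀ i, b i ∈ J) :
    dot a b ∈ I * J :=
  Ideal.add_mem _ (Ideal.add_mem _ (Ideal.mul_mem_mul (ha 0) (hb 0))
    (Ideal.mul_mem_mul (ha 1) (hb 1))) (Ideal.mul_mem_mul (ha 2) (hb 2))

lemma cr_mem {I J : Ideal (𝓞 K)} {a b : Fin 3 → 𝓞 K} (ha : ∀ i, a i ∈ I) (hb : ∀ i, b i ∈ J)
    (l : Fin 3) : cr a b l ∈ I * J := by
  fin_cases l
  · exact Ideal.sub_mem _ (Ideal.mul_mem_mul (ha _) (hb _)) (Ideal.mul_mem_mul (ha _) (hb _))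
  · exact Ideal.sub_mem _ (Ideal.mul_mem_mul (ha _) (hb _)) (Ideal.mul_mem_mul (ha _) (hb _))
  · exact Ideal.sub_mem _ (Ideal.mul_mem_mul (ha _) (hb _)) (Ideal.mul_mem_mul (ha _) (hb _))

lemma cI_mv_le (M : Fin 3 × Fin 3 → 𝓞 K) (z : Fin 3 → 𝓞 K) :
    cI (mv M z) ≤ cI M * cI z := by
  conv_lhs => unfold cI
  rw [Ideal.span_le]
  rintro _ ⟨i, rfl⟩
  exact dot_mem (cI_row_le M i) (mem_cI z)

lemma exists_gJ (M : Fin 3 × Fin 3 → 𝓞 K) (z : Fin 3 → 𝓞 K) :
    ∃ g : Ideal (𝓞 K), cI (mv M z) = cI M * cI z * g := by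
  obtain ⟨g, hg⟩ := Ideal.dvd_iff_le.mpr (cI_mv_le M z)
  exact ⟨g, hg⟩

/-- gcd ideal -/
noncomputable def gJ (M : Fin 3 × Fin 3 → 𝓞 K) (z : Fin 3 → 𝓞 K) : Ideal (𝓞 K) :=
  (exists_gJ M z).choose

lemma gJ_spec (M : Fin 3 × Fin 3 → 𝓞 K) (z : Fin 3 → 𝓞 K) :
    cI (mv M z) = cI M * cI z * gJ M z := (exists_gJ M z).choose_spec

lemma det3_ne_zero_M {M : Fin 3 × Fin 3 → 𝓞 K} (hM : det3 M ≠ 0) : M ≠ 0 := by
  rintro rfl
  apply hM
  simp [det3, dot, cr, row]

lemma mv_ne_zero {M : Fin 3 × Fin 3 → 𝓞 K} (hM : det3 M ≠ 0) {z : Fin 3 → 𝓞 K} (hz : z ≠ 0) :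
    mv M z ≠ 0 := by
  intro h
  obtain ⟨j, hj⟩ := Function.ne_iff.mp hz
  have h1 := det3_mul M z j
  rw [h] at h1
  simp only [Pi.zero_apply, mul_zero, add_zero] at h1
  rcases mul_eq_zero.mp h1 with h2 | h2
  · exact hM h2
  · exact hj h2

lemma cI_wd_le (M : Fin 3 × Fin 3 → 𝓞 K) : cI (wd M) ≤ cI M * cI M := by
  conv_lhs => unfold cI
  rw [Ideal.span_le]
  rintro _ ⟨p, rfl⟩
  exact cr_mem (cI_row_le M _) (cI_row_le M _) _

lemma wd_ne_zero {M : Fin 3 × Fin 3 → 𝓞 K} (hM : det3 M ≠ 0) : wd M ≠ 0 := by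
  intro h
  have h1 := det3_mul M (fun _ => 1) 0
  rw [h] at h1
  simp only [mul_one, Pi.zero_apply, zero_mul, add_zero] at h1
  exact hM h1

lemma gJ_dvd {M : Fin 3 × Fin 3 → 𝓞 K} {z : Fin 3 → 𝓞 K} (hz : z ≠ 0) :
    cI M * cI M * cI M * gJ M z ∣ Ideal.span {det3 M} := by
  have hcz : cI z ≠ 0 := by simpa using cI_ne_bot hz
  have h1 : Ideal.span {det3 M} * cI z ≤ (cI M * cI M * cI M * gJ M z) * cI z := by
    have hgen : ∀ j, det3 M * z j ∈ (cI M * cI M * cI M * gJ M z) * cI z := by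
      intro j
      rw [det3_mul]
      have h2 : ∀ i, wd M (i, j) * mv M z i ∈ (cI M * cI M * cI M * gJ M z) * cI z := by
        intro i
        have h3 : wd M (i, j) ∈ cI M * cI M := cI_wd_le M (mem_cI _ _)
        have h4 : mv M z i ∈ cI M * cI z * gJ M z := by
          rw [← gJ_spec]; exact mem_cI _ _
        have h5 := Ideal.mul_mem_mul h3 h4
        have e : cI M * cI M * (cI M * cI z * gJ M z) =
            (cI M * cI M * cI M * gJ M z) * cI z := by ring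
        rwa [e] at h5
      exact Ideal.add_mem _ (Ideal.add_mem _ (h2 0) (h2 1)) (h2 2)
    rw [Ideal.mul_le]
    intro a ha b hb
    rw [Ideal.mem_span_singleton'] at ha
    obtain ⟨c, rfl⟩ := ha
    have h3 : ∀ b ∈ cI z, det3 M * b ∈ (cI M * cI M * cI M * gJ M z) * cI z := by
      intro b hb
      have hle : cI z ≤ (Submodule.comap (LinearMap.mulLeft (𝓞 K) (det3 M))
          ((cI M * cI M * cI M * gJ M z) * cI z)) := by
        conv_lhs => unfold cI
        rw [Ideal.span_le]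
        rintro _ ⟨i, rfl⟩
        exact hgen i
      exact hle hb
    have h4 := Ideal.mul_mem_left ((cI M * cI M * cI M * gJ M z) * cI z) c (h3 b hb)
    rwa [← mul_assoc] at h4
  have h2 := Ideal.dvd_iff_le.mpr h1
  exact (mul_dvd_mul_iff_right hcz).mp h2

lemma gJ_ne_bot {M : Fin 3 × Fin 3 → 𝓞 K} (hM : det3 M ≠ 0) {z : Fin 3 → 𝓞 K} (hz : z ≠ 0) :
    gJ M z ≠ ⊥ := by
  intro h
  have h1 := gJ_spec M z
  rw [h, Ideal.mul_bot] at h1
  exact cI_ne_bot (mv_ne_zero hM hz) h1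

/-- Divisibility in one class. -/
lemma cI_cr_wd_le (M : Fin 3 × Fin 3 → 𝓞 K) {z z' : Fin 3 → 𝓞 K} (hg : gJ M z = gJ M z') :
    cI (cr z z') * cI (wd M) ≤ cI M * cI M * (cI z * cI z') * gJ M z := by
  have hrow : ∀ i l, cr (cr z z') (row M i) l ∈ cI M * (cI z * cI z') * gJ M z := by
    intro i l
    rw [row_cross]
    have h1 : dot (row M i) z ∈ cI M * cI z * gJ M z := by
      rw [← gJ_spec]; exact mem_cI (mv M z) i
    have h2 : dot (row M i) z' ∈ cI M * cI z' * gJ M z := by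
      rw [hg, ← gJ_spec]; exact mem_cI (mv M z') i
    refine Ideal.sub_mem _ ?_ ?_
    · have h3 := Ideal.mul_mem_mul h1 (mem_cI z' l)
      have e : cI M * cI z * gJ M z * cI z' = cI M * (cI z * cI z') * gJ M z := by ring
      rwa [e] at h3
    · have h3 := Ideal.mul_mem_mul h2 (mem_cI z l)
      have e : cI M * cI z' * gJ M z * cI z = cI M * (cI z * cI z') * gJ M z := by ring
      rwa [e] at h3
  have e0 : cI M * (cI M * (cI z * cI z') * gJ M z) =
      cI M * cI M * (cI z * cI z') * gJ M z := by ring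
  have e0' : (cI M * (cI z * cI z') * gJ M z) * cI M =
      cI M * cI M * (cI z * cI z') * gJ M z := by ring
  rw [Ideal.mul_le]
  intro a ha b hb
  have hgen : ∀ (l : Fin 3) (p : Fin 3 × Fin 3), cr z z' l * wd M p ∈
      cI M * cI M * (cI z * cI z') * gJ M z := by
    intro l p
    unfold wd
    rw [cramer_id]
    refine Ideal.add_mem _ (Ideal.sub_mem _ ?_ ?_) ?_
    · rw [← e0]; exact Ideal.mul_mem_mul (cI_row_le M _ _) (hrow _ _)
    · rw [← e0]; exact Ideal.mul_mem_mul (cI_row_le M _ _) (hrow _ _)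
    · split_ifs
      · rw [← e0']; exact dot_mem (hrow _) (cI_row_le M _)
      · exact Ideal.zero_mem _
  have h1 : ∀ l, ∀ b ∈ cI (wd M), cr z z' l * b ∈ cI M * cI M * (cI z * cI z') * gJ M z := by
    intro l b hb
    have hle : cI (wd M) ≤ (Submodule.comap (LinearMap.mulLeft (𝓞 K) (cr z z' l))
        (cI M * cI M * (cI z * cI z') * gJ M z)) := by
      conv_lhs => unfold cI
      rw [Ideal.span_le]
      rintro _ ⟨p, rfl⟩
      exact hgen l p
    exact hle hb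
  have hle : cI (cr z z') ≤ (Submodule.comap (LinearMap.mulRight (𝓞 K) b)
      (cI M * cI M * (cI z * cI z') * gJ M z)) := by
    conv_lhs => unfold cI
    rw [Ideal.span_le]
    rintro _ ⟨l, rfl⟩
    exact h1 l b hb
  exact hle ha

/-- local sizes -/
noncomputable def rh (M : Fin 3 × Fin 3 → 𝓞 K) (z : Fin 3 → 𝓞 K) (v : InfinitePlace K) : ℝ :=
  nv v (mv M z) / (nv v M * nv v z)

lemma v_dot_le (v : InfinitePlace K) (a b : Fin 3 → 𝓞 K) {A B : ℝ} (hA : 0 ≤ A)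
    (ha : ∀ i, v (a i : K) ≤ A) (hb : ∀ i, v (b i : K) ≤ B) :
    v ((dot a b : 𝓞 K) : K) ≤ 3 * (A * B) := by
  have e : ((dot a b : 𝓞 K) : K) =
      (a 0 : K) * (b 0 : K) + (a 1 : K) * (b 1 : K) + (a 2 : K) * (b 2 : K) := by simp [dot]
  rw [e]
  refine (abs_add_le' v _ _).trans ?_
  have h1 := abs_add_le' v ((a 0 : K) * (b 0 : K)) ((a 1 : K) * (b 1 : K))
  rw [map_mul, map_mul] at h1
  rw [map_mul]
  have a0 := mul_le_mul (ha 0) (hb 0) (apply_nonneg _ _) hA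
  have a1 := mul_le_mul (ha 1) (hb 1) (apply_nonneg _ _) hA
  have a2 := mul_le_mul (ha 2) (hb 2) (apply_nonneg _ _) hA
  linarith

lemma v_cr_le (v : InfinitePlace K) (a b : Fin 3 → 𝓞 K) {A B : ℝ} (hA : 0 ≤ A)
    (ha : ∀ i, v (a i : K) ≤ A) (hb : ∀ i, v (b i : K) ≤ B) (l : Fin 3) :
    v ((cr a b l : 𝓞 K) : K) ≤ 2 * (A * B) := by
  have key : ∀ i j : Fin 3, v (((a i * b j - a j * b i : 𝓞 K) : K)) ≤ 2 * (A * B) := by
    intro i j
    have e : (((a i * b j - a j * b i : 𝓞 K)) : K) =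
        (a i : K) * (b j : K) - (a j : K) * (b i : K) := by simp
    rw [e]
    refine (abs_sub_le' v _ _).trans ?_
    rw [map_mul, map_mul]
    have a1 := mul_le_mul (ha i) (hb j) (apply_nonneg _ _) hA
    have a2 := mul_le_mul (ha j) (hb i) (apply_nonneg _ _) hA
    linarith
  fin_cases l
  · exact key 1 2
  · exact key 2 0
  · exact key 0 1

lemma v_row_le (v : InfinitePlace K) (M : Fin 3 × Fin 3 → 𝓞 K) (i j : Fin 3) :
    v ((row M i j : 𝓞 K) : K) ≤ nv v M := le_nv v M (i, j)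

lemma nv_mv_le (v : InfinitePlace K) (M : Fin 3 × Fin 3 → 𝓞 K) (z : Fin 3 → 𝓞 K) :
    nv v (mv M z) ≤ 3 * (nv v M * nv v z) :=
  nv_le _ _ fun i => v_dot_le v _ _ (nv_nonneg v M) (v_row_le v M i) (le_nv v z)

lemma rh_le {M : Fin 3 × Fin 3 → 𝓞 K} (hM : M ≠ 0) {z : Fin 3 → 𝓞 K} (hz : z ≠ 0)
    (v : InfinitePlace K) : rh M z v ≤ 3 := by
  have h1 := nv_pos v hM
  have h2 := nv_pos v hz
  unfold rh
  rw [div_le_iff₀ (by positivity)]
  exact nv_mv_le v M z

lemma rh_pos {M : Fin 3 × Fin 3 → 𝓞 K} (hM : det3 M ≠ 0) {z : Fin 3 → 𝓞 K} (hz : z ≠ 0)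
    (v : InfinitePlace K) : 0 < rh M z v := by
  have h1 := nv_pos v (det3_ne_zero_M hM)
  have h2 := nv_pos v hz
  have h3 := nv_pos v (mv_ne_zero hM hz)
  unfold rh
  positivity

lemma prod_rh {M : Fin 3 × Fin 3 → 𝓞 K} (hM : det3 M ≠ 0) {z : Fin 3 → 𝓞 K} (hz : z ≠ 0) :
    ∏ v : InfinitePlace K, rh M z v ^ v.mult =
      (Ideal.absNorm (gJ M z) : ℝ) * ht (mv M z) / (ht M * ht z) := by
  have hM0 := det3_ne_zero_M hM
  have h1 : ∏ v : InfinitePlace K, rh M z v ^ v.mult = infN (mv M z) / (infN M * infN z) := by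
    unfold infN rh
    rw [← Finset.prod_mul_distrib, ← Finset.prod_div_distrib]
    refine Finset.prod_congr rfl fun v _ => ?_
    rw [div_pow, mul_pow]
  rw [h1, ← ht_mul_absNorm hM0, ← ht_mul_absNorm hz, ← ht_mul_absNorm (mv_ne_zero hM hz),
    gJ_spec]
  have c1 := absNorm_pos (cI_ne_bot hM0)
  have c2 := absNorm_pos (cI_ne_bot hz)
  have p1 := ht_pos M
  have p2 := ht_pos z
  simp only [map_mul, Nat.cast_mul]
  field_simp

/-- local distance bound in one class. -/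
lemma nv_cr_wd_le (v : InfinitePlace K) (M : Fin 3 × Fin 3 → 𝓞 K) (z z' : Fin 3 → 𝓞 K) (r : ℝ)
    (hr : 0 ≤ r) (h1 : nv v (mv M z) ≤ r * (nv v M * nv v z))
    (h2 : nv v (mv M z') ≤ r * (nv v M * nv v z')) :
    nv v (cr z z') * nv v (wd M) ≤ 10 * (r * (nv v M) ^ 2 * (nv v z * nv v z')) := by
  have n0 := nv_nonneg v M
  have n1 := nv_nonneg v z
  have n2 := nv_nonneg v z'
  set Q := 2 * (r * nv v M * (nv v z * nv v z')) with hQ
  have hQ0 : 0 ≤ Q := by positivity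
  have hrow : ∀ i l, v ((cr (cr z z') (row M i) l : 𝓞 K) : K) ≤ Q := by
    intro i l
    rw [row_cross]
    have e : (((dot (row M i) z * z' l - dot (row M i) z' * z l : 𝓞 K)) : K) =
        ((mv M z i : 𝓞 K) : K) * (z' l : K) - ((mv M z' i : 𝓞 K) : K) * (z l : K) := by
      simp [mv]
    rw [e]
    refine (abs_sub_le' v _ _).trans ?_
    rw [map_mul, map_mul]
    have a1 := mul_le_mul ((le_nv v (mv M z) i).trans h1) (le_nv v z' l) (apply_nonneg _ _)
      (by positivity)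
    have a2 := mul_le_mul ((le_nv v (mv M z') i).trans h2) (le_nv v z l) (apply_nonneg _ _)
      (by positivity)
    rw [hQ]
    nlinarith
  have hneg : ∀ a : K, v (-a) = v a := by
    intro a
    rw [← v.norm_embedding_eq, ← v.norm_embedding_eq, map_neg, norm_neg]
  have hgen : ∀ (l : Fin 3) (p : Fin 3 × Fin 3),
      v ((cr z z' l : 𝓞 K) : K) * v ((wd M p : 𝓞 K) : K) ≤ 5 * (nv v M * Q) := by
    intro l p
    have e : ((cr z z' l : 𝓞 K) : K) * ((wd M p : 𝓞 K) : K) =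
        ((row M (p.1 + 1) l : 𝓞 K) : K) * ((cr (cr z z') (row M (p.1 + 2)) p.2 : 𝓞 K) : K) -
        ((row M (p.1 + 2) l : 𝓞 K) : K) * ((cr (cr z z') (row M (p.1 + 1)) p.2 : 𝓞 K) : K) +
        (((if p.2 = l then dot (cr (cr z z') (row M (p.1 + 1))) (row M (p.1 + 2)) else 0 : 𝓞 K))
          : K) := by
      have := congrArg (fun t : 𝓞 K => (t : K))
        (cramer_id (row M (p.1 + 1)) (row M (p.1 + 2)) (cr z z') p.2 l)
      simpa [wd] using this
    rw [← map_mul, e]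
    refine (abs_add_le' v _ _).trans ?_
    have b1 := abs_sub_le' v
      (((row M (p.1 + 1) l : 𝓞 K) : K) * ((cr (cr z z') (row M (p.1 + 2)) p.2 : 𝓞 K) : K))
      (((row M (p.1 + 2) l : 𝓞 K) : K) * ((cr (cr z z') (row M (p.1 + 1)) p.2 : 𝓞 K) : K))
    rw [map_mul, map_mul] at b1
    have a1 := mul_le_mul (v_row_le v M (p.1 + 1) l) (hrow (p.1 + 2) p.2) (apply_nonneg _ _) n0
    have a2 := mul_le_mul (v_row_le v M (p.1 + 2) l) (hrow (p.1 + 1) p.2) (apply_nonneg _ _) n0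
    have a3 : v (((if p.2 = l then dot (cr (cr z z') (row M (p.1 + 1))) (row M (p.1 + 2))
        else 0 : 𝓞 K)) : K) ≤ 3 * (nv v M * Q) := by
      split_ifs
      · have := v_dot_le v (cr (cr z z') (row M (p.1 + 1))) (row M (p.1 + 2)) hQ0
          (hrow (p.1 + 1)) (v_row_le v M (p.1 + 2))
        linarith
      · simp only [map_zero]; positivity
    linarith
  obtain ⟨l, hl⟩ := exists_nv_eq v (cr z z')
  obtain ⟨p, hp⟩ := exists_nv_eq v (wd M)
  rw [← hl, ← hp]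
  refine (hgen l p).trans (le_of_eq ?_)
  rw [hQ]; ring

/-- Sum of reciprocals in one class. -/
theorem class_recip (K : Type*) [Field K] [NumberField K] (κ0 : ℝ) (hκ0 : 1 ≤ κ0) :
    ∃ C A : ℝ, 1 ≤ C ∧ 1 ≤ A ∧ ∀ (M : Fin 3 × Fin 3 → 𝓞 K), det3 M ≠ 0 →
      (ht M) ^ 2 ≤ κ0 * ht (wd M) →
      ∀ (S : Finset (ℙ K (Fin 3 → K))) (g : Ideal (𝓞 K)) (r : InfinitePlace K → ℝ) (Z : ℝ),
      1 ≤ Z → (∀ v, 0 < r v) → (∀ a ∈ S, gJ M (xq a) = g) →
      (∀ a ∈ S, ∀ v, r v ≤ rh M (xq a) v ∧ rh M (xq a) v ≤ 2 * r v) →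
      (∀ a ∈ S, Z ≤ ht (xq a) ∧ ht (xq a) ≤ 2 * Z) →
      ∑ a ∈ S, 1 / ht (mv M (xq a)) ≤
        C * (Real.logb 2 (A * Z ^ 2) + 2) * (1 + Z ^ 2 / ht M) := by
  classical
  set d := Module.finrank ℚ K with hd
  obtain ⟨C1, hC1, hball⟩ := ball_count K
  set A0 : ℝ := 4 * 20 ^ d * κ0 with hA0
  have hA01 : 1 ≤ A0 := by
    have h1 : (1 : ℝ) ≤ 20 ^ d := one_le_pow₀ (by norm_num)
    rw [hA0]; nlinarith
  have h3d : (1 : ℝ) ≤ 3 ^ d := one_le_pow₀ (by norm_num)
  refine ⟨C1 * (1 + A0 + A0 ^ 2 * 3 ^ d), A0 * 3 ^ d, ?_, ?_, ?_⟩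
  · have : 0 ≤ A0 ^ 2 * 3 ^ d := by positivity
    nlinarith
  · nlinarith
  intro M hM hgood S g r Z hZ hr hg hρ hH
  have hM0 := det3_ne_zero_M hM
  have hHM := one_le_ht M
  have hHM0 := ht_pos M
  have hlog0 : 0 ≤ Real.logb 2 (A0 * 3 ^ d * Z ^ 2) := by
    apply Real.logb_nonneg (by norm_num)
    have : (1 : ℝ) ≤ Z ^ 2 := one_le_pow₀ hZ
    have h2 : 1 ≤ A0 * 3 ^ d := by nlinarith
    nlinarith
  rcases S.eq_empty_or_nonempty with he | ⟨a0, ha0⟩
  · rw [he, Finset.sum_empty]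
    positivity
  have hwd := wd_ne_zero hM
  set N : ℝ := (Ideal.absNorm g : ℝ) with hN
  have hN1 : 1 ≤ N := by
    rw [hN, ← hg a0 ha0]; exact one_le_absNorm (gJ_ne_bot hM (xq_ne_zero a0))
  have hNpos : 0 < N := by linarith
  set q : ℝ := (∏ v : InfinitePlace K, r v ^ v.mult) / N with hq
  have hPr : 0 < ∏ v : InfinitePlace K, r v ^ v.mult :=
    Finset.prod_pos fun v _ => pow_pos (hr v) _
  have hqpos : 0 < q := by positivity
  have cM := absNorm_pos (cI_ne_bot hM0)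
  have cW := absNorm_pos (cI_ne_bot hwd)
  set R : InfinitePlace K → ℝ := fun v => 20 * r v * (nv v M) ^ 2 / nv v (wd M) with hR
  have hRpos : ∀ v, 0 < R v := fun v => by
    have := nv_pos v hM0
    have := nv_pos v hwd
    have := hr v
    simp only [hR]; positivity
  set G : ℝ := N * (Ideal.absNorm (cI M) : ℝ) ^ 2 / (Ideal.absNorm (cI (wd M)) : ℝ) with hG
  have hGpos : 0 < G := by positivity
  set W : ℝ := 4 * Z ^ 2 * (∏ v, R v ^ v.mult) / G with hW
  -- the value of W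
  have hprodR : ∏ v : InfinitePlace K, R v ^ v.mult =
      20 ^ d * (∏ v : InfinitePlace K, r v ^ v.mult) * (infN M) ^ 2 / infN (wd M) := by
    have e1 : ∀ v : InfinitePlace K, R v ^ v.mult =
        (20 : ℝ) ^ v.mult * r v ^ v.mult * (nv v M ^ v.mult) ^ 2 / nv v (wd M) ^ v.mult := by
      intro v
      simp only [hR]
      rw [div_pow, mul_pow, mul_pow, ← pow_mul, ← pow_mul, mul_comm 2 v.mult]
    simp_rw [e1]
    rw [Finset.prod_div_distrib, Finset.prod_mul_distrib, Finset.prod_mul_distrib, prod_const_mult,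
      Finset.prod_pow]
    rfl
  have hWeq : W = 4 * 20 ^ d * Z ^ 2 * q * ((ht M) ^ 2 / ht (wd M)) := by
    rw [hW, hprodR, hG, ← ht_mul_absNorm hM0, ← ht_mul_absNorm hwd, hq]
    have := ht_pos (wd M)
    field_simp
  have hWle : W ≤ A0 * Z ^ 2 * q := by
    rw [hWeq, hA0]
    have h1 : (ht M) ^ 2 / ht (wd M) ≤ κ0 := by
      rw [div_le_iff₀ (ht_pos _)]; exact hgood
    calc 4 * 20 ^ d * Z ^ 2 * q * ((ht M) ^ 2 / ht (wd M)) ≤ 4 * 20 ^ d * Z ^ 2 * q * κ0 := by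
          gcongr
      _ = 4 * 20 ^ d * κ0 * Z ^ 2 * q := by ring
  have hWpos : 0 < W := by
    rw [hW]
    have : 0 < ∏ v : InfinitePlace K, R v ^ v.mult := Finset.prod_pos fun v _ => pow_pos (hRpos v) _
    positivity
  have hq3 : q ≤ 3 ^ d := by
    rw [hq]
    have h1 : ∏ v : InfinitePlace K, r v ^ v.mult ≤ 3 ^ d := by
      rw [← prod_const_mult (K := K)]
      refine Finset.prod_le_prod (fun v _ => pow_nonneg (hr v).le _) fun v _ => ?_
      exact pow_le_pow_left₀ (hr v).le ((hρ a0 ha0 v).1.trans (rh_le hM0 (xq_ne_zero a0) v)) _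
    rw [div_le_iff₀ hNpos]
    nlinarith
  have hcount := hball S R G Z W hRpos hGpos hZ hW
    (by
      intro a ha b hb hab
      have hcr := cr_xq_ne hab
      have hdvd := Ideal.dvd_iff_le.mpr
        (cI_cr_wd_le M ((hg a ha).trans (hg b hb).symm))
      have hne : cI (cr (xq a) (xq b)) * cI (wd M) ≠ ⊥ := by
        intro h
        rcases Ideal.mul_eq_bot.mp h with h | h
        · exact cI_ne_bot hcr h
        · exact cI_ne_bot hwd h
      have h1 := absNorm_le_of_dvd hne hdvd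
      rw [hg a ha] at h1
      simp only [map_mul, Nat.cast_mul] at h1
      rw [hG, div_mul_eq_mul_div, div_le_iff₀ cW]
      calc N * (Ideal.absNorm (cI M) : ℝ) ^ 2 *
            ((Ideal.absNorm (cI (xq a)) : ℝ) * Ideal.absNorm (cI (xq b)))
          = (Ideal.absNorm (cI M) : ℝ) * Ideal.absNorm (cI M) *
            ((Ideal.absNorm (cI (xq a)) : ℝ) * Ideal.absNorm (cI (xq b))) *
            (Ideal.absNorm g : ℝ) := by rw [hN]; ring
        _ ≤ _ := h1)
    (by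
      intro a ha b hb v
      have n0 := nv_pos v hM0
      have na := nv_pos v (xq_ne_zero a)
      have nb := nv_pos v (xq_ne_zero b)
      have nw := nv_pos v hwd
      have h1 := (hρ a ha v).2
      have h2 := (hρ b hb v).2
      unfold rh at h1 h2
      rw [div_le_iff₀ (by positivity)] at h1 h2
      have h3 := nv_cr_wd_le v M (xq a) (xq b) (2 * r v) (by have := hr v; positivity) h1 h2
      simp only [hR]
      rw [div_mul_eq_mul_div, le_div_iff₀ nw]
      refine h3.trans (le_of_eq ?_)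
      ring)
    hH
  -- pointwise bound
  have hpt : ∀ a ∈ S, 1 / ht (mv M (xq a)) ≤ min 1 (1 / (ht M * Z * q)) := by
    intro a ha
    have h1 := one_le_ht (mv M (xq a))
    have h0 := ht_pos (mv M (xq a))
    refine le_min ?_ ?_
    · rw [div_le_one h0]; exact h1
    · apply one_div_le_one_div_of_le (by positivity)
      have h2 := prod_rh hM (xq_ne_zero a)
      rw [hg a ha] at h2
      have h3 : ∏ v : InfinitePlace K, r v ^ v.mult ≤
          ∏ v : InfinitePlace K, rh M (xq a) v ^ v.mult :=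
        Finset.prod_le_prod (fun v _ => pow_nonneg (hr v).le _)
          (fun v _ => pow_le_pow_left₀ (hr v).le (hρ a ha v).1 _)
      rw [h2, ← hN] at h3
      have hza := ht_pos (xq a)
      rw [le_div_iff₀ (by positivity)] at h3
      have h4 := (hH a ha).1
      rw [hq]
      rw [mul_div_assoc', div_le_iff₀ hNpos]
      calc ht M * Z * ∏ v : InfinitePlace K, r v ^ v.mult
          ≤ ht M * ht (xq a) * ∏ v : InfinitePlace K, r v ^ v.mult := by gcongr
        _ = (∏ v : InfinitePlace K, r v ^ v.mult) * (ht M * ht (xq a)) := by ring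
        _ ≤ _ := by linarith
  set m : ℝ := min 1 (1 / (ht M * Z * q)) with hm
  have hm0 : 0 ≤ m := by
    rw [hm]; exact le_min (by norm_num) (by positivity)
  have hsum : ∑ a ∈ S, 1 / ht (mv M (xq a)) ≤ S.card * m := by
    calc ∑ a ∈ S, 1 / ht (mv M (xq a)) ≤ ∑ a ∈ S, m := Finset.sum_le_sum hpt
      _ = S.card * m := by rw [Finset.sum_const, nsmul_eq_mul]
  refine hsum.trans ?_
  have hlogle : Real.logb 2 (max W 1) + 2 ≤ Real.logb 2 (A0 * 3 ^ d * Z ^ 2) + 2 := by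
    have hZ2 : (1 : ℝ) ≤ Z ^ 2 := one_le_pow₀ hZ
    have : max W 1 ≤ A0 * 3 ^ d * Z ^ 2 := by
      apply max_le
      · refine hWle.trans ?_
        calc A0 * Z ^ 2 * q ≤ A0 * Z ^ 2 * 3 ^ d := by gcongr
          _ = _ := by ring
      · have h2 : 1 ≤ A0 * 3 ^ d := by nlinarith
        nlinarith
    have := Real.logb_le_logb_of_le (b := 2) (by norm_num) (by positivity) this
    linarith
  set Lg := Real.logb 2 (A0 * 3 ^ d * Z ^ 2) + 2 with hLg
  have hLgpos : 0 < Lg := by linarith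
  have hlogW : 0 ≤ Real.logb 2 (max W 1) := Real.logb_nonneg (by norm_num) (le_max_right _ _)
  have hWm : W * m ≤ A0 * (Z ^ 2 / ht M) := by
    calc W * m ≤ (A0 * Z ^ 2 * q) * (1 / (ht M * Z * q)) := by
          apply mul_le_mul hWle (min_le_right _ _) hm0 (by positivity)
      _ = A0 * (Z / ht M) := by field_simp
      _ ≤ A0 * (Z ^ 2 / ht M) := by
          have : Z ≤ Z ^ 2 := by nlinarith
          gcongr
  have hW2m : W ^ 2 / Z * m ≤ A0 ^ 2 * 3 ^ d * (Z ^ 2 / ht M) := by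
    calc W ^ 2 / Z * m ≤ (A0 * Z ^ 2 * q) ^ 2 / Z * (1 / (ht M * Z * q)) := by
          have h1 : W ^ 2 / Z ≤ (A0 * Z ^ 2 * q) ^ 2 / Z := by gcongr
          exact mul_le_mul h1 (min_le_right _ _) hm0 (by positivity)
      _ = A0 ^ 2 * q * (Z ^ 2 / ht M) := by field_simp
      _ ≤ A0 ^ 2 * 3 ^ d * (Z ^ 2 / ht M) := by gcongr
  have hm1 : m ≤ 1 := min_le_left _ _
  have hZM : 0 < Z ^ 2 / ht M := by positivity
  calc (S.card : ℝ) * m ≤ (C1 * ((Real.logb 2 (max W 1) + 2) * (1 + W + W ^ 2 / Z))) * m := by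
        gcongr
    _ ≤ (C1 * (Lg * (1 + W + W ^ 2 / Z))) * m := by gcongr
    _ = C1 * Lg * (m + W * m + W ^ 2 / Z * m) := by ring
    _ ≤ C1 * Lg * (1 + A0 * (Z ^ 2 / ht M) + A0 ^ 2 * 3 ^ d * (Z ^ 2 / ht M)) := by gcongr
    _ ≤ C1 * Lg * ((1 + A0 + A0 ^ 2 * 3 ^ d) * (1 + Z ^ 2 / ht M)) := by
        gcongr
        have : 0 ≤ A0 ^ 2 * 3 ^ d := by positivity
        nlinarith
    _ = _ := by ring

end Pool.Lib18ea5f
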