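import Mathlib
import Pool.Agent.Lib18ea5f.P2Mat

set_option autoImplicit false

/-!
The sum of the reciprocals of the heights of `M z` over the plane.
-/

namespace Pool.Lib18ea5f

open Finset NumberField
open scoped LinearAlgebra.Projectivization

variable {K : Type*} [Field K] [NumberField K]

/-- Lower bound for each local size. -/
lemma rh_lower {M : Fin 3 × Fin 3 → 𝓞 K} (hM : det3 M ≠ 0) {x : Fin 3 → 𝓞 K} (hx : x ≠ 0)
    {X1 : ℝ} (hX1 : ht x ≤ X1) (v : InfinitePlace K) :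
    1 ≤ 3 / rh M x v ∧ 3 / rh M x v ≤ 3 ^ (Module.finrank ℚ K + 1) * (ht M * X1) := by
  classical
  have hρ := rh_pos hM hx v
  have hρ2 := rh_le (det3_ne_zero_M hM) hx v
  have hHM := one_le_ht M
  have hHx := one_le_ht x
  have hX1' : 1 ≤ X1 := hHx.trans hX1
  constructor
  · rw [le_div_iff₀ hρ]; linarith
  · set d := Module.finrank ℚ K with hd
    have h2d : (1 : ℝ) ≤ 3 ^ d := one_le_pow₀ (by norm_num)
    rcases le_or_gt 1 (rh M x v) with h1 | h1
    · calc 3 / rh M x v ≤ 3 / 1 := by gcongr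
        _ ≤ 3 ^ (d + 1) * (ht M * X1) := by
            rw [pow_succ]
            have : 1 ≤ ht M * X1 := by nlinarith
            nlinarith
    · -- product
      have hprod := prod_rh hM hx
      have hlow : 1 / (ht M * X1) ≤ ∏ w : InfinitePlace K, rh M x w ^ w.mult := by
        rw [hprod]
        have hg := one_le_absNorm (gJ_ne_bot hM hx)
        have hy := one_le_ht (mv M x)
        have hHM0 := ht_pos M
        have hHx0 := ht_pos x
        have : 1 ≤ (Ideal.absNorm (gJ M x) : ℝ) * ht (mv M x) := by nlinarith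
        gcongr
      have hup : ∏ w : InfinitePlace K, rh M x w ^ w.mult ≤ rh M x v * 3 ^ d := by
        rw [← Finset.mul_prod_erase _ _ (Finset.mem_univ v)]
        have e1 : rh M x v ^ v.mult ≤ rh M x v := by
          rcases mult_cases v with h | h
          · rw [h, pow_one]
          · rw [h, sq]; nlinarith
        have e2 : ∏ w ∈ Finset.univ.erase v, rh M x w ^ w.mult ≤ 3 ^ d := by
          calc ∏ w ∈ Finset.univ.erase v, rh M x w ^ w.mult
              ≤ ∏ w ∈ Finset.univ.erase v, (3 : ℝ) ^ w.mult :=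
                Finset.prod_le_prod (fun w _ => pow_nonneg (rh_pos hM hx w).le _)
                  (fun w _ => pow_le_pow_left₀ (rh_pos hM hx w).le
                    (rh_le (det3_ne_zero_M hM) hx w) _)
            _ ≤ ∏ w : InfinitePlace K, (3 : ℝ) ^ w.mult := by
                rw [← Finset.mul_prod_erase Finset.univ _ (Finset.mem_univ v)]
                have h1 : (1 : ℝ) ≤ 3 ^ v.mult := one_le_pow₀ (by norm_num)
                have h2 : 0 ≤ ∏ w ∈ Finset.univ.erase v, (3 : ℝ) ^ w.mult := by positivity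
                nlinarith
            _ = 3 ^ d := by rw [prod_const_mult]
        exact mul_le_mul e1 e2 (Finset.prod_nonneg fun w _ => pow_nonneg (rh_pos hM hx w).le _)
          hρ.le
      have h3 := hlow.trans hup
      have hHX : 0 < ht M * X1 := by positivity
      rw [div_le_iff₀ hHX] at h3
      rw [div_le_iff₀ hρ, pow_succ]
      nlinarith

lemma absNorm_quot3_le {M : Fin 3 × Fin 3 → 𝓞 K} (hM : det3 M ≠ 0) {D : Ideal (𝓞 K)}
    (hD : Ideal.span {det3 M} = cI M * cI M * cI M * D) :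
    (Ideal.absNorm D : ℝ) ≤ 6 ^ (Module.finrank ℚ K) * (ht M) ^ 3 := by
  have hM0 := det3_ne_zero_M hM
  have hc := absNorm_pos (cI_ne_bot hM0)
  have h1 : (Ideal.absNorm (Ideal.span {det3 M}) : ℝ) =
      Ideal.absNorm (cI M) * Ideal.absNorm (cI M) * Ideal.absNorm (cI M) * Ideal.absNorm D := by
    rw [hD]; simp [map_mul]
  rw [← prod_inf_eq_absNorm] at h1
  have h2 : ∏ v : InfinitePlace K, (v ((det3 M : 𝓞 K) : K)) ^ v.mult ≤
      6 ^ (Module.finrank ℚ K) * (infN M) ^ 3 := by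
    have e : 6 ^ (Module.finrank ℚ K) * (infN M) ^ 3 =
        ∏ v : InfinitePlace K, (6 * (nv v M) ^ 3) ^ v.mult := by
      simp_rw [mul_pow]
      rw [Finset.prod_mul_distrib, prod_const_mult]
      unfold infN
      rw [← Finset.prod_pow]
      congr 1
      refine Finset.prod_congr rfl fun v _ => ?_
      rw [← pow_mul, ← pow_mul, mul_comm]
    rw [e]
    refine Finset.prod_le_prod (fun v _ => by positivity) fun v _ => ?_
    refine pow_le_pow_left₀ (apply_nonneg _ _) ?_ _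
    unfold det3
    have n0 := nv_nonneg v M
    have h3 := v_dot_le v (row M 0) (cr (row M 1) (row M 2)) n0 (v_row_le v M 0)
      (fun i => v_cr_le v (row M 1) (row M 2) n0 (v_row_le v M 1) (v_row_le v M 2) i)
    refine h3.trans (le_of_eq ?_)
    ring
  rw [h1, ← ht_mul_absNorm hM0] at h2
  have h3 : (Ideal.absNorm (cI M) : ℝ) * Ideal.absNorm (cI M) * Ideal.absNorm (cI M) *
        Ideal.absNorm D ≤
      (Ideal.absNorm (cI M) : ℝ) * Ideal.absNorm (cI M) * Ideal.absNorm (cI M) *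
        (6 ^ (Module.finrank ℚ K) * (ht M) ^ 3) := by
    refine h2.trans (le_of_eq ?_); ring
  exact le_of_mul_le_mul_left h3 (by positivity)

/-- Uniform bound of the sum of reciprocals. -/
theorem mat_recip (K : Type*) [Field K] [NumberField K] (ε : ℝ) (hε : 0 < ε) (κ0 : ℝ)
    (hκ0 : 1 ≤ κ0) :
    ∃ C : ℝ, 1 ≤ C ∧ ∀ (M : Fin 3 × Fin 3 → 𝓞 K), det3 M ≠ 0 →
      (ht M) ^ 2 ≤ κ0 * ht (wd M) →
      ∀ (S : Finset (ℙ K (Fin 3 → K))) (Z : ℝ), 1 ≤ Z → (∀ a ∈ S, ht (xq a) ≤ Z) →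
      ∑ a ∈ S, 1 / ht (mv M (xq a)) ≤ C * (ht M * Z) ^ ε * (1 + Z ^ 2 / ht M) := by
  classical
  set d := Module.finrank ℚ K with hd
  set r := Fintype.card (InfinitePlace K) with hr
  obtain ⟨C0, A0, hC0, hA0, hclass⟩ := class_recip K κ0 hκ0
  obtain ⟨C1, hC1, hdiv⟩ := ideal_divisor_bound K (ε / 6) (by positivity)
  set c : ℝ := 3 ^ (d + 1) * A0 with hc
  have h3d1 : (1 : ℝ) ≤ 3 ^ (d + 1) := one_le_pow₀ (by norm_num)
  have hc1 : 1 ≤ c := by rw [hc]; nlinarith
  obtain ⟨C2, hC2, hlogs⟩ := log_pow_le (ε / 4) (by positivity) (r + 2) c hc1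
  set C3 : ℝ := (C1 * (6 ^ d) ^ (ε / 6)) * C2 * C0 with hC3
  have hC3pos : 0 < C3 := by positivity
  refine ⟨max 1 C3, le_max_left _ _, fun M hM hgood S Z hZ hS => ?_⟩
  have hM0 := det3_ne_zero_M hM
  have hHM := one_le_ht M
  have hHM0 := ht_pos M
  have hHMZ : 1 ≤ ht M * Z := by nlinarith
  have hZ2 : (1 : ℝ) ≤ Z ^ 2 := one_le_pow₀ hZ
  rcases S.eq_empty_or_nonempty with hSe | ⟨a0, ha0⟩
  · subst hSe
    simp only [Finset.sum_empty]
    positivity
  -- the divisor
  have hdvd0 : cI M * cI M * cI M ∣ Ideal.span {det3 M} :=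
    dvd_of_mul_right_dvd (gJ_dvd (xq_ne_zero a0))
  obtain ⟨D, hD⟩ := hdvd0
  have hcM : cI M ≠ 0 := by simpa using cI_ne_bot hM0
  have hcM2 : cI M * cI M * cI M ≠ 0 := mul_ne_zero (mul_ne_zero hcM hcM) hcM
  have hD0 : D ≠ ⊥ := by
    intro h
    rw [h, Ideal.mul_bot, Ideal.span_singleton_eq_bot] at hD
    exact hM hD
  have hgD : ∀ a : ℙ K (Fin 3 → K), gJ M (xq a) ∣ D := by
    intro a
    have := gJ_dvd (M := M) (xq_ne_zero a)
    rw [hD] at this
    exact (mul_dvd_mul_iff_left hcM2).mp this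
  obtain ⟨hfin, hcardD⟩ := hdiv D hD0
  set DF := hfin.toFinset with hDF
  have hDFcard : (DF.card : ℝ) ≤ C1 * (6 ^ d) ^ (ε / 6) * (ht M) ^ (ε / 2) := by
    rw [hDF, ← Set.ncard_eq_toFinset_card _ hfin]
    refine hcardD.trans ?_
    rw [mul_assoc]
    gcongr
    calc (Ideal.absNorm D : ℝ) ^ (ε / 6) ≤ (6 ^ d * (ht M) ^ 3) ^ (ε / 6) :=
          Real.rpow_le_rpow (by positivity) (absNorm_quot3_le hM hD) (by positivity)
      _ = (6 ^ d) ^ (ε / 6) * (ht M) ^ (ε / 2) := by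
          rw [Real.mul_rpow (by positivity) (by positivity)]
          congr 1
          rw [← Real.rpow_natCast, ← Real.rpow_mul hHM0.le]
          congr 1
          push_cast; ring
  set hh : ℙ K (Fin 3 → K) → ℕ := fun a => ⌊Real.logb 2 (ht (xq a))⌋₊ with hhh
  set kk : ℙ K (Fin 3 → K) → InfinitePlace K → ℕ :=
    fun a v => ⌊Real.logb 2 (3 / rh M (xq a) v)⌋₊ with hkk
  set Lh : ℕ := ⌊Real.logb 2 Z⌋₊ with hLh
  set Y : ℝ := 3 ^ (d + 1) * (ht M * Z) with hY
  set Lk : ℕ := ⌊Real.logb 2 Y⌋₊ with hLk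
  have hY1 : 1 ≤ Y := by rw [hY]; nlinarith
  let key : ℙ K (Fin 3 → K) → Ideal (𝓞 K) × ℕ × (InfinitePlace K → ℕ) :=
    fun a => (gJ M (xq a), hh a, kk a)
  let T : Finset (Ideal (𝓞 K) × ℕ × (InfinitePlace K → ℕ)) :=
    DF ×ˢ (Finset.range (Lh + 1) ×ˢ Fintype.piFinset (fun _ => Finset.range (Lk + 1)))
  have hmaps : ∀ a ∈ S, key a ∈ T := by
    intro a ha
    simp only [key, T, Finset.mem_product, Finset.mem_range, Fintype.mem_piFinset]
    refine ⟨?_, ?_, ?_⟩
    · rw [hDF, Set.Finite.mem_toFinset]; exact hgD a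
    · rw [hhh, hLh]
      exact Nat.lt_succ_of_le (Nat.floor_mono
        (Real.logb_le_logb_of_le (by norm_num) (ht_pos _) (hS a ha)))
    · intro v
      rw [hkk, hLk]
      refine Nat.lt_succ_of_le (Nat.floor_mono
        (Real.logb_le_logb_of_le (by norm_num) ?_ (rh_lower hM (xq_ne_zero a) (hS a ha) v).2))
      have := rh_pos hM (xq_ne_zero a) v
      positivity
  set Lg : ℝ := Real.logb 2 (A0 * Z ^ 2) + 2 with hLg
  have hLg0 : 0 < Lg := by
    have : 0 ≤ Real.logb 2 (A0 * Z ^ 2) := Real.logb_nonneg (by norm_num) (by nlinarith)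
    linarith
  set B : ℝ := C0 * Lg * (1 + Z ^ 2 / ht M) with hB
  have hBpos : 0 < B := by positivity
  have hsumS := (Finset.sum_fiberwise_of_maps_to hmaps (fun a => 1 / ht (mv M (xq a)))).symm
  have hfib : ∀ b ∈ T, ∑ a ∈ S.filter (fun a => key a = b), 1 / ht (mv M (xq a)) ≤ B := by
    rintro ⟨g, h', k'⟩ hb
    simp only [T, Finset.mem_product, Finset.mem_range, Fintype.mem_piFinset] at hb
    have hcl := hclass M hM hgood (S.filter fun a => key a = (g, h', k')) g
      (fun v => 3 / 2 / 2 ^ (k' v)) (2 ^ h') (one_le_pow₀ (by norm_num))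
      (fun v => by positivity)
      (fun a ha => congrArg Prod.fst (Finset.mem_filter.mp ha).2)
      (fun a ha v => by
        have h1 := (Finset.mem_filter.mp ha).2
        simp only [key, Prod.mk.injEq] at h1
        have h2 := congrFun h1.2.2 v
        rw [← h2]
        have hsp := floor_logb_spec
          (rh_lower hM (xq_ne_zero a) (hS a (Finset.mem_filter.mp ha).1) v).1
        have hρ := rh_pos hM (xq_ne_zero a) v
        simp only [hkk]
        set q : ℝ := 2 ^ ⌊Real.logb 2 (3 / rh M (xq a) v)⌋₊ with hq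
        have hqpos : 0 < q := by positivity
        have e1 := hsp.1
        have e2 := hsp.2
        rw [le_div_iff₀ hρ] at e1
        rw [div_le_iff₀ hρ] at e2
        constructor
        · rw [div_le_iff₀ hqpos]; linarith
        · rw [mul_div_assoc', le_div_iff₀ hqpos]; linarith)
      (fun a ha => by
        have h1 := (Finset.mem_filter.mp ha).2
        simp only [key, Prod.mk.injEq] at h1
        rw [← h1.2.1]
        exact floor_logb_spec (one_le_ht (xq a)))
    refine hcl.trans ?_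
    rw [hB, hLg]
    have hh' : (2 : ℝ) ^ h' ≤ Z := by
      calc (2 : ℝ) ^ h' ≤ 2 ^ Lh := pow_le_pow_right₀ (by norm_num) (Nat.lt_succ_iff.mp hb.2.1)
        _ ≤ Z := (floor_logb_spec hZ).1
    have hlog : Real.logb 2 (A0 * (2 ^ h') ^ 2) ≤ Real.logb 2 (A0 * Z ^ 2) :=
      Real.logb_le_logb_of_le (by norm_num) (by positivity) (by gcongr)
    have hlog0 : 0 ≤ Real.logb 2 (A0 * (2 ^ h') ^ 2) := by
      apply Real.logb_nonneg (by norm_num)
      have : (1 : ℝ) ≤ (2 ^ h') ^ 2 := one_le_pow₀ (one_le_pow₀ (by norm_num))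
      nlinarith
    gcongr
  have hTcard : (T.card : ℝ) ≤ (C1 * (6 ^ d) ^ (ε / 6) * (ht M) ^ (ε / 2)) *
      (((Lh : ℝ) + 1) * ((Lk : ℝ) + 1) ^ r) := by
    simp only [T, Finset.card_product, Fintype.card_piFinset, Finset.card_range,
      Finset.prod_const, Finset.card_univ]
    push_cast
    rw [← hr]
    gcongr
  have hlogall : (((Lh : ℝ) + 1) * ((Lk : ℝ) + 1) ^ r) * Lg ≤ C2 * (ht M * Z) ^ (ε / 2) := by
    have hX : (1 : ℝ) ≤ (ht M * Z) ^ 2 := one_le_pow₀ hHMZ
    have hlog := hlogs ((ht M * Z) ^ 2) hX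
    have hle1 : Real.logb 2 Y ≤ Real.logb 2 (c * (ht M * Z) ^ 2) := by
      apply Real.logb_le_logb_of_le (by norm_num) (by linarith)
      rw [hY, hc]
      have : ht M * Z ≤ (ht M * Z) ^ 2 := by nlinarith
      calc 3 ^ (d + 1) * (ht M * Z) ≤ 3 ^ (d + 1) * (ht M * Z) ^ 2 := by gcongr
        _ ≤ 3 ^ (d + 1) * A0 * (ht M * Z) ^ 2 := by
            have : (3 : ℝ) ^ (d + 1) ≤ 3 ^ (d + 1) * A0 := by nlinarith
            gcongr
    have hle2 : Real.logb 2 (A0 * Z ^ 2) ≤ Real.logb 2 (c * (ht M * Z) ^ 2) := by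
      apply Real.logb_le_logb_of_le (by norm_num) (by positivity)
      rw [hc]
      have h1 : A0 ≤ 3 ^ (d + 1) * A0 := by nlinarith
      have h2 : Z ≤ ht M * Z := by nlinarith
      gcongr
    have hLh' : (Lh : ℝ) + 1 ≤ Real.logb 2 (c * (ht M * Z) ^ 2) + 2 := by
      have h1 : (Lh : ℝ) ≤ Real.logb 2 Z := Nat.floor_le (Real.logb_nonneg (by norm_num) hZ)
      have h2 : Real.logb 2 Z ≤ Real.logb 2 Y := by
        apply Real.logb_le_logb_of_le (by norm_num) (by linarith)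
        rw [hY]
        have : Z ≤ ht M * Z := by nlinarith
        nlinarith
      linarith
    have hLk' : (Lk : ℝ) + 1 ≤ Real.logb 2 (c * (ht M * Z) ^ 2) + 2 := by
      have h1 : (Lk : ℝ) ≤ Real.logb 2 Y := Nat.floor_le (Real.logb_nonneg (by norm_num) hY1)
      linarith
    have hLg' : Lg ≤ Real.logb 2 (c * (ht M * Z) ^ 2) + 2 := by
      rw [hLg]; linarith
    set L := Real.logb 2 (c * (ht M * Z) ^ 2) + 2 with hL
    have hLpos : 0 < L := lt_of_lt_of_le hLg0 hLg'
    calc (((Lh : ℝ) + 1) * ((Lk : ℝ) + 1) ^ r) * Lg ≤ (L * L ^ r) * L := by gcongr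
      _ = L ^ (r + 2) := by ring
      _ ≤ C2 * ((ht M * Z) ^ 2) ^ (ε / 4) := hlog
      _ = C2 * (ht M * Z) ^ (ε / 2) := by
          congr 1
          rw [← Real.rpow_natCast, ← Real.rpow_mul (by positivity)]
          congr 1
          push_cast; ring
  calc ∑ a ∈ S, 1 / ht (mv M (xq a))
      = ∑ b ∈ T, ∑ a ∈ S.filter (fun a => key a = b), 1 / ht (mv M (xq a)) := hsumS
    _ ≤ ∑ b ∈ T, B := Finset.sum_le_sum hfib
    _ = T.card * B := by rw [Finset.sum_const, nsmul_eq_mul]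
    _ ≤ ((C1 * (6 ^ d) ^ (ε / 6) * (ht M) ^ (ε / 2)) *
      (((Lh : ℝ) + 1) * ((Lk : ℝ) + 1) ^ r)) * B := by gcongr
    _ = (C1 * (6 ^ d) ^ (ε / 6) * (ht M) ^ (ε / 2)) *
      ((((Lh : ℝ) + 1) * ((Lk : ℝ) + 1) ^ r) * Lg) * C0 * (1 + Z ^ 2 / ht M) := by
        rw [hB]; ring
    _ ≤ (C1 * (6 ^ d) ^ (ε / 6) * (ht M * Z) ^ (ε / 2)) *
      (C2 * (ht M * Z) ^ (ε / 2)) * C0 * (1 + Z ^ 2 / ht M) := by
        have h1 : ht M ≤ ht M * Z := by nlinarith
        gcongr
    _ = C3 * (ht M * Z) ^ ε * (1 + Z ^ 2 / ht M) := by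
        have hsplit : (ht M * Z) ^ ε = (ht M * Z) ^ (ε / 2) * (ht M * Z) ^ (ε / 2) := by
          rw [← Real.rpow_add (by positivity)]; congr 1; ring
        rw [hsplit, hC3]; ring
    _ ≤ max 1 C3 * (ht M * Z) ^ ε * (1 + Z ^ 2 / ht M) := by
        gcongr
        exact le_max_right _ _

end Pool.Lib18ea5f
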