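import Mathlib
import Pool.Agent.Lib18ea5f.P2Mat
import Pool.Agent.Lib18ea5f.Smooth

set_option autoImplicit false

/-!
Consequences of smoothness for `3 × 3 × 3` tensors.
-/

namespace Pool.Lib18ea5f

open Finset

/-- contraction of the middle slot -/
def My {R : Type*} [CommRing R] (T : Fin 3 → Fin 3 → Fin 3 → R) (y : Fin 3 → R) :
    Fin 3 × Fin 3 → R := fun p => ∑ j, T p.1 j p.2 * y j

/-- The trilinear form. -/
def tri {R : Type*} [CommRing R] (T : Fin 3 → Fin 3 → Fin 3 → R) (x y z : Fin 3 → R) : R :=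
  ∑ i, ∑ j, ∑ k, T i j k * (x i * y j * z k)

lemma tri_eq {R : Type*} [CommRing R] (T : Fin 3 → Fin 3 → Fin 3 → R) (x y z : Fin 3 → R) :
    tri T x y z = dot x (mv (My T y) z) := by
  simp only [tri, dot, mv, row, My, Fin.sum_univ_three]; ring

/-- transpose -/
def trp {R : Type*} (M : Fin 3 × Fin 3 → R) : Fin 3 × Fin 3 → R := fun p => M (p.2, p.1)

lemma wd_trp {R : Type*} [CommRing R] (M : Fin 3 × Fin 3 → R) : wd (trp M) = trp (wd M) := by
  have h1 : (1 : Fin 3) + 1 = 2 := by decide
  have h2 : (1 : Fin 3) + 2 = 0 := by decide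
  have h3 : (2 : Fin 3) + 1 = 0 := by decide
  have h4 : (2 : Fin 3) + 2 = 1 := by decide
  have h5 : (0 : Fin 3) + 1 = 1 := by decide
  have h6 : (0 : Fin 3) + 2 = 2 := by decide
  funext ⟨i, j⟩
  fin_cases i <;> fin_cases j <;>
    simp only [wd, trp, row, cr, h1, h2, h3, h4, h5, h6, Fin.zero_eta, Fin.mk_one,
      Fin.reduceFinMk, Matrix.cons_val_zero, Matrix.cons_val_one, Matrix.cons_val] <;> ring

lemma det3_trp {R : Type*} [CommRing R] (M : Fin 3 × Fin 3 → R) : det3 (trp M) = det3 M := by
  simp only [det3, trp, row, cr, dot, Matrix.cons_val_zero, Matrix.cons_val_one, Matrix.cons_val]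
  ring

lemma row_wd {R : Type*} [CommRing R] (M : Fin 3 × Fin 3 → R) (i j : Fin 3) :
    dot (row M j) (fun l => wd M (i, l)) = if i = j then det3 M else 0 := by
  have h1 : (1 : Fin 3) + 1 = 2 := by decide
  have h2 : (1 : Fin 3) + 2 = 0 := by decide
  have h3 : (2 : Fin 3) + 1 = 0 := by decide
  have h4 : (2 : Fin 3) + 2 = 1 := by decide
  have h5 : (0 : Fin 3) + 1 = 1 := by decide
  have h6 : (0 : Fin 3) + 2 = 2 := by decide
  fin_cases i <;> fin_cases j <;>
    simp [wd, row, cr, dot, det3, h1, h2, h3, h4] <;> ring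

section field

variable {F : Type*} [Field F]

/-- A kernel of dimension at least two. -/
lemma exists_ker2 (M : Fin 3 × Fin 3 → F) (h : wd M = 0) :
    ∃ z1 z2 : Fin 3 → F, (∀ s : Fin 2 → F, s ≠ 0 → s 0 • z1 + s 1 • z2 ≠ 0) ∧
      mv M z1 = 0 ∧ mv M z2 = 0 := by
  have hc : ∀ i k l, row M (i + 1) k * row M (i + 2) l = row M (i + 1) l * row M (i + 2) k := by
    intro i k l
    have h0 := congrFun h (i, 0)
    have h1 := congrFun h (i, 1)
    have h2 := congrFun h (i, 2)
    simp only [wd, cr, Pi.zero_apply, Matrix.cons_val_zero, Matrix.cons_val_one,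
      Matrix.cons_val] at h0 h1 h2
    fin_cases k <;> fin_cases l <;> simp only [Fin.zero_eta, Fin.mk_one, Fin.reduceFinMk] <;>
      first
        | rfl
        | linear_combination h0
        | linear_combination h1
        | linear_combination h2
        | linear_combination -h0
        | linear_combination -h1
        | linear_combination -h2
        | ring
  have hall : ∀ i j k l, row M i k * row M j l = row M i l * row M j k := by
    intro i j k l
    have hcases : i = j ∨ (∃ m : Fin 3, i = m + 1 ∧ j = m + 2) ∨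
        (∃ m : Fin 3, j = m + 1 ∧ i = m + 2) := by
      revert i j; decide
    rcases hcases with rfl | ⟨m, rfl, rfl⟩ | ⟨m, rfl, rfl⟩
    · ring
    · exact hc m k l
    · have := hc m l k
      linear_combination this
  by_cases hM : M = 0
  · refine ⟨![1, 0, 0], ![0, 1, 0], ?_, ?_, ?_⟩
    · intro s hs h'
      apply hs
      have h0 := congrFun h' 0
      have h1 := congrFun h' 1
      simp at h0 h1
      funext i; fin_cases i <;> simp [h0, h1]
    · funext i; simp [mv, dot, row, hM]
    · funext i; simp [mv, dot, row, hM]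
  · obtain ⟨⟨i, k⟩, hik⟩ := Function.ne_iff.mp hM
    have hr : row M i k ≠ 0 := hik
    have hker : ∀ z : Fin 3 → F, dot (row M i) z = 0 → mv M z = 0 := by
      intro z hz
      funext j
      have h1 : row M i k * dot (row M j) z = 0 := by
        have e : row M i k * dot (row M j) z = row M j k * dot (row M i) z := by
          simp only [dot]
          linear_combination z 0 * hall i j k 0 + z 1 * hall i j k 1 + z 2 * hall i j k 2
        rw [e, hz, mul_zero]
      exact (mul_eq_zero.mp h1).resolve_left hr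
    set r := row M i with hrdef
    fin_cases k
    · have hr' : r 0 ≠ 0 := hr
      refine ⟨![- r 1, r 0, 0], ![- r 2, 0, r 0], ?_, hker _ ?_, hker _ ?_⟩
      · intro s hs h'
        apply hs
        have h1 := congrFun h' 1
        have h2 := congrFun h' 2
        simp [hr'] at h1 h2
        funext i; fin_cases i <;> simp [h1, h2]
      · simp [dot]; ring
      · simp [dot]; ring
    · have hr' : r 1 ≠ 0 := hr
      refine ⟨![r 1, - r 0, 0], ![0, - r 2, r 1], ?_, hker _ ?_, hker _ ?_⟩
      · intro s hs h'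
        apply hs
        have h1 := congrFun h' 0
        have h2 := congrFun h' 2
        simp [hr'] at h1 h2
        funext i; fin_cases i <;> simp [h1, h2]
      · simp [dot]; ring
      · simp [dot]; ring
    · have hr' : r 2 ≠ 0 := hr
      refine ⟨![r 2, 0, - r 0], ![0, r 2, - r 1], ?_, hker _ ?_, hker _ ?_⟩
      · intro s hs h'
        apply hs
        have h1 := congrFun h' 0
        have h2 := congrFun h' 1
        simp [hr'] at h1 h2
        funext i; fin_cases i <;> simp [h1, h2]
      · simp [dot]; ring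
      · simp [dot]; ring

lemma exists_indep3 (y : Fin 3 → F) (hy : y ≠ 0) : ∃ u1 u2 : Fin 3 → F,
    ∀ g : (Fin 3 → F) →ₗ[F] F, g y = 0 → g u1 = 0 → g u2 = 0 → ∀ u, g u = 0 := by
  obtain ⟨k, hk⟩ := Function.ne_iff.mp hy
  have hk' : y k ≠ 0 := hk
  refine ⟨Pi.single (k + 1) 1, Pi.single (k + 2) 1, fun g h0 h1 h2 u => ?_⟩
  have hu : y k • u = u k • y + (y k * u (k + 1) - u k * y (k + 1)) • Pi.single (k + 1) 1 +
      (y k * u (k + 2) - u k * y (k + 2)) • Pi.single (k + 2) 1 := by
    funext i
    have hcases : i = k ∨ i = k + 1 ∨ i = k + 2 :=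
      (by decide : ∀ k i : Fin 3, i = k ∨ i = k + 1 ∨ i = k + 2) k i
    have n1 : k ≠ k + 1 := (by decide : ∀ k : Fin 3, k ≠ k + 1) k
    have n2 : k ≠ k + 2 := (by decide : ∀ k : Fin 3, k ≠ k + 2) k
    have n3 : k + 1 ≠ k + 2 := (by decide : ∀ k : Fin 3, k + 1 ≠ k + 2) k
    rcases hcases with rfl | rfl | rfl
    · simp [Pi.single_apply, n1, n2]; ring
    · simp [Pi.single_apply, n3]
    · simp [Pi.single_apply, n3.symm]
  have := congrArg g hu
  rw [map_smul, map_add, map_add, map_smul, map_smul, map_smul, h0, h1, h2] at this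
  simp only [smul_eq_mul, mul_zero, add_zero, mul_eq_zero, hk', false_or] at this
  exact this

/-- No common zero of all the partial derivatives. -/
def SmoothTri (T : Fin 3 → Fin 3 → Fin 3 → F) : Prop :=
  ∀ x y z : Fin 3 → F, x ≠ 0 → y ≠ 0 → z ≠ 0 →
    ∃ u : Fin 3 → F, tri T u y z ≠ 0 ∨ tri T x u z ≠ 0 ∨ tri T x y u ≠ 0

/-- the middle slot as a linear form -/
def linY (T : Fin 3 → Fin 3 → Fin 3 → F) (x z : Fin 3 → F) : (Fin 3 → F) →ₗ[F] F where
  toFun y := tri T x y z
  map_add' a b := by simp only [tri, Fin.sum_univ_three, Pi.add_apply]; ring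
  map_smul' c a := by
    simp only [tri, Fin.sum_univ_three, Pi.smul_apply, smul_eq_mul, RingHom.id_apply]; ring

lemma tri_eq' (T : Fin 3 → Fin 3 → Fin 3 → F) (x y z : Fin 3 → F) :
    tri T x y z = dot z (mv (trp (My T y)) x) := by
  simp only [tri, dot, mv, row, trp, My, Fin.sum_univ_three]; ring

/-- Smoothness implies that each contraction has rank at least two. -/
lemma smooth_wd [IsAlgClosed F] {T : Fin 3 → Fin 3 → Fin 3 → F} (hT : SmoothTri T)
    {y : Fin 3 → F} (hy : y ≠ 0) : wd (My T y) ≠ 0 := by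
  intro h
  obtain ⟨z1, z2, hz, hz1, hz2⟩ := exists_ker2 (My T y) h
  obtain ⟨x1, x2, hx, hx1, hx2⟩ := exists_ker2 (trp (My T y)) (by rw [wd_trp, h]; rfl)
  obtain ⟨u1, u2, hu⟩ := exists_indep3 y hy
  let xs : Fin 2 → Fin 3 → F := ![x1, x2]
  let zs : Fin 2 → Fin 3 → F := ![z1, z2]
  obtain ⟨s, t, hs, ht, h1, h2⟩ := two_bilinear (fun p => tri T (xs p.1) u1 (zs p.2))
    (fun p => tri T (xs p.1) u2 (zs p.2))
  set x := s 0 • x1 + s 1 • x2 with hxdef
  set z := t 0 • z1 + t 1 • z2 with hzdef
  have hMz : mv (My T y) z = 0 := by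
    funext i
    have e1 := congrFun hz1 i
    have e2 := congrFun hz2 i
    simp only [mv, dot, Pi.zero_apply] at e1 e2
    simp only [mv, dot, hzdef, Pi.add_apply, Pi.smul_apply, smul_eq_mul, Pi.zero_apply]
    linear_combination t 0 * e1 + t 1 * e2
  have hMx : mv (trp (My T y)) x = 0 := by
    funext i
    have e1 := congrFun hx1 i
    have e2 := congrFun hx2 i
    simp only [mv, dot, Pi.zero_apply] at e1 e2
    simp only [mv, dot, hxdef, Pi.add_apply, Pi.smul_apply, smul_eq_mul, Pi.zero_apply]
    linear_combination s 0 * e1 + s 1 * e2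
  have hexp : ∀ u : Fin 3 → F, tri T x u z =
      s 0 * t 0 * tri T x1 u z1 + s 0 * t 1 * tri T x1 u z2 + s 1 * t 0 * tri T x2 u z1 +
        s 1 * t 1 * tri T x2 u z2 := by
    intro u
    simp only [tri, Fin.sum_univ_three, hxdef, hzdef, Pi.add_apply, Pi.smul_apply, smul_eq_mul]
    ring
  have hY0 : ∀ a b : Fin 3 → F, mv (My T y) b = 0 → tri T a y b = 0 := by
    intro a b hb
    rw [tri_eq, hb]; simp [dot]
  have hY0' : ∀ a b : Fin 3 → F, mv (trp (My T y)) a = 0 → tri T a y b = 0 := by
    intro a b hb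
    rw [tri_eq', hb]; simp [dot]
  have hg1 : tri T x u1 z = 0 := by
    rw [hexp]
    simp only [Fin.sum_univ_two, xs, zs, Matrix.cons_val_zero, Matrix.cons_val_one] at h1
    linear_combination h1
  have hg2 : tri T x u2 z = 0 := by
    rw [hexp]
    simp only [Fin.sum_univ_two, xs, zs, Matrix.cons_val_zero, Matrix.cons_val_one] at h2
    linear_combination h2
  obtain ⟨u, hu'⟩ := hT x y z (hx s hs) hy (hz t ht)
  rcases hu' with h3 | h3 | h3
  · exact h3 (hY0 u z hMz)
  · exact h3 (hu (linY T x z) (hY0 x z hMz) hg1 hg2 u)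
  · exact h3 (hY0' x u hMx)

/-- pairing of two matrices -/
def pr (A N : Fin 3 × Fin 3 → F) : F := ∑ i, ∑ j, A (i, j) * N (i, j)

lemma det3_add (M N : Fin 3 × Fin 3 → F) :
    det3 (M + N) = det3 M + pr (wd M) N + pr (wd N) M + det3 N := by
  have h1 : (1 : Fin 3) + 1 = 2 := by decide
  have h2 : (1 : Fin 3) + 2 = 0 := by decide
  have h3 : (2 : Fin 3) + 1 = 0 := by decide
  have h4 : (2 : Fin 3) + 2 = 1 := by decide
  have h5 : (0 : Fin 3) + 1 = 1 := by decide
  have h6 : (0 : Fin 3) + 2 = 2 := by decide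
  simp only [det3, pr, wd, row, cr, dot, Fin.sum_univ_three, Pi.add_apply, h1, h2, h3, h4, h5, h6,
    Matrix.cons_val_zero, Matrix.cons_val_one, Matrix.cons_val]
  ring

lemma det3_sub (M N : Fin 3 × Fin 3 → F) :
    det3 (M - N) = det3 M - pr (wd M) N + pr (wd N) M - det3 N := by
  have h1 : (1 : Fin 3) + 1 = 2 := by decide
  have h2 : (1 : Fin 3) + 2 = 0 := by decide
  have h3 : (2 : Fin 3) + 1 = 0 := by decide
  have h4 : (2 : Fin 3) + 2 = 1 := by decide
  have h5 : (0 : Fin 3) + 1 = 1 := by decide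
  have h6 : (0 : Fin 3) + 2 = 2 := by decide
  simp only [det3, pr, wd, row, cr, dot, Fin.sum_univ_three, Pi.sub_apply, h1, h2, h3, h4, h5, h6,
    Matrix.cons_val_zero, Matrix.cons_val_one, Matrix.cons_val]
  ring

lemma My_add (T : Fin 3 → Fin 3 → Fin 3 → F) (y u : Fin 3 → F) :
    My T (y + u) = My T y + My T u := by
  funext p; simp only [My, Fin.sum_univ_three, Pi.add_apply]; ring

lemma My_sub (T : Fin 3 → Fin 3 → Fin 3 → F) (y u : Fin 3 → F) :
    My T (y - u) = My T y - My T u := by
  funext p; simp only [My, Fin.sum_univ_three, Pi.sub_apply]; ring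

/-- Smoothness implies that the cubic form is not identically zero. -/
lemma smooth_det3 [IsAlgClosed F] [CharZero F] {T : Fin 3 → Fin 3 → Fin 3 → F}
    (hT : SmoothTri T) : ∃ y : Fin 3 → F, det3 (My T y) ≠ 0 := by
  by_contra hcon
  push Not at hcon
  set y : Fin 3 → F := ![1, 0, 0] with hydef
  have hy : y ≠ 0 := by
    intro h; have := congrFun h 0; simp [hydef] at this
  set M := My T y with hM
  have hwd := smooth_wd hT hy
  rw [← hM] at hwd
  have hdM : det3 M = 0 := hcon y
  have hpr : ∀ u : Fin 3 → F, pr (wd M) (My T u) = 0 := by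
    intro u
    have h1 := hcon (y + u)
    have h2 := hcon (y - u)
    rw [My_add, det3_add, hcon y, hcon u] at h1
    rw [My_sub, det3_sub, hcon y, hcon u] at h2
    have h3 : (2 : F) * pr (wd (My T y)) (My T u) = 0 := by linear_combination h1 - h2
    exact (mul_eq_zero.mp h3).resolve_left two_ne_zero
  obtain ⟨⟨i0, j0⟩, hij⟩ := Function.ne_iff.mp hwd
  have hij' : wd M (i0, j0) ≠ 0 := hij
  -- rank one
  have hrank : ∀ i k l, wd M (i, l) * wd M (i0, k) = wd M (i, k) * wd M (i0, l) := by
    intro i k l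
    have horth : ∀ j, dot (row M j) (fun l => wd M (i, l)) = 0 := by
      intro j; rw [row_wd]; split_ifs
      · exact hdM
      · rfl
    have hcr : ∀ m, cr (fun l => wd M (i0, l)) (fun l => wd M (i, l)) m = 0 := by
      intro m
      have e : (fun l => wd M (i0, l)) = cr (row M (i0 + 1)) (row M (i0 + 2)) := rfl
      rw [e, row_cross, dot_comm (fun l => wd M (i, l)), horth,
        dot_comm (fun l => wd M (i, l)), horth]
      ring
    have c0 := hcr 0
    have c1 := hcr 1
    have c2 := hcr 2
    simp only [cr, Matrix.cons_val_zero, Matrix.cons_val_one, Matrix.cons_val] at c0 c1 c2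
    fin_cases k <;> fin_cases l <;> simp only [Fin.zero_eta, Fin.mk_one, Fin.reduceFinMk] <;>
      first
        | rfl
        | linear_combination c0
        | linear_combination c1
        | linear_combination c2
        | linear_combination -c0
        | linear_combination -c1
        | linear_combination -c2
        | ring
  set z : Fin 3 → F := fun l => wd M (i0, l) with hz
  set x : Fin 3 → F := fun i => wd M (i, j0) with hx
  have hz0 : z ≠ 0 := fun h => hij' (congrFun h j0)
  have hx0 : x ≠ 0 := fun h => hij' (congrFun h i0)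
  have hMz : mv M z = 0 := by
    funext j
    simp only [mv, hz, Pi.zero_apply]
    rw [row_wd]; split_ifs
    · exact hdM
    · rfl
  have hMx : mv (trp M) x = 0 := by
    funext j
    have e : x = fun l => wd (trp M) (j0, l) := by
      rw [wd_trp]; rfl
    simp only [mv, e, Pi.zero_apply]
    rw [row_wd, det3_trp]; split_ifs
    · exact hdM
    · rfl
  obtain ⟨u, hu⟩ := hT x y z hx0 hy hz0
  rcases hu with h3 | h3 | h3
  · apply h3
    rw [tri_eq, ← hM, hMz]; simp [dot]
  · apply h3
    have h4 : tri T x u z = wd M (i0, j0) * pr (wd M) (My T u) := by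
      rw [tri_eq]
      simp only [dot, mv, row, pr, Fin.sum_univ_three, hx, hz]
      have key : ∀ i j, wd M (i, j0) * wd M (i0, j) = wd M (i0, j0) * wd M (i, j) := by
        intro i j
        rw [hrank i j j0]; ring
      linear_combination
        My T u (0, 0) * key 0 0 + My T u (0, 1) * key 0 1 + My T u (0, 2) * key 0 2 +
        My T u (1, 0) * key 1 0 + My T u (1, 1) * key 1 1 + My T u (1, 2) * key 1 2 +
        My T u (2, 0) * key 2 0 + My T u (2, 1) * key 2 1 + My T u (2, 2) * key 2 2
    rw [h4, hpr, mul_zero]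
  · apply h3
    rw [tri_eq', ← hM, hMx]; simp [dot]

end field

end Pool.Lib18ea5f
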