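import Mathlib
import Pool.Agent.Lib18ea5f.P2Recip
import Pool.Agent.Lib18ea5f.P2Smooth

set_option autoImplicit false

/-!
Points of a trilinear hypersurface in a sorted box.
-/

namespace Pool.Lib18ea5f

open Finset NumberField
open scoped LinearAlgebra.Projectivization

variable {K : Type*} [Field K] [NumberField K]

/-- The height conditions needed on the tensor. -/
def Good (κ : ℝ) (T : Fin 3 → Fin 3 → Fin 3 → 𝓞 K) : Prop :=
  ∀ y : Fin 3 → 𝓞 K, y ≠ 0 →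
    ht y ≤ κ * ht (My T y) ∧ ht (My T y) ≤ κ * ht y ∧ (ht (My T y)) ^ 2 ≤ κ * ht (wd (My T y))

/-- Sorted box. -/
theorem half_box3 (K : Type*) [Field K] [NumberField K] (ε : ℝ) (hε : 0 < ε) (κ : ℝ) (hκ : 1 ≤ κ) :
    ∃ C : ℝ, 1 ≤ C ∧ ∀ (T : Fin 3 → Fin 3 → Fin 3 → 𝓞 K), Good κ T →
      ∀ X Y Z : ℝ, 1 ≤ Y → Y ≤ Z → Z ≤ X →
      ∀ S : Finset (ℙ K (Fin 3 → K) × ℙ K (Fin 3 → K) × ℙ K (Fin 3 → K)),
      (∀ p ∈ S, det3 (My T (xq p.2.1)) ≠ 0 ∧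
        dot (xq p.1) (mv (My T (xq p.2.1)) (xq p.2.2)) = 0 ∧
        ht (xq p.1) ≤ X ∧ ht (xq p.2.1) ≤ Y ∧ ht (xq p.2.2) ≤ Z) →
      (S.card : ℝ) ≤ C * ((X * Y * Z) ^ 2 * X ^ ε) := by
  classical
  obtain ⟨Cl, hCl, hline⟩ := line_count_triv K
  obtain ⟨Cm, hCm, hmat⟩ := mat_recip K (ε / 8) (by positivity) κ hκ
  obtain ⟨Cp, hCp, hplane⟩ := plane_count K (ε / 4) (by positivity)
  obtain ⟨Cr, hCr, hrec⟩ := plane_recip K (ε / 4) (by positivity)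
  have hκε : (1 : ℝ) ≤ κ ^ (ε / 8) := Real.one_le_rpow hκ (by positivity)
  set C : ℝ := Cl * (Cp ^ 2 + Cm * κ ^ (ε / 8) * (Cp + κ * Cr)) with hC
  have hκ0 : 0 < κ := by linarith
  have hC1 : 1 ≤ C := by
    have h1 : 1 ≤ Cp ^ 2 := one_le_pow₀ hCp
    have h2 : 0 ≤ Cm * κ ^ (ε / 8) * (Cp + κ * Cr) := by positivity
    rw [hC]; nlinarith
  refine ⟨C, hC1, fun T hT X Y Z hY hYZ hZX S hS => ?_⟩
  have hZ : 1 ≤ Z := hY.trans hYZ
  have hX : 1 ≤ X := hZ.trans hZX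
  have hX0 : 0 < X := by linarith
  have hY0 : 0 < Y := by linarith
  have hZ0 : 0 < Z := by linarith
  set SB := S.image (fun p => p.2.1) with hSB
  set SC := S.image (fun p => p.2.2) with hSC
  have hB : ∀ b ∈ SB, det3 (My T (xq b)) ≠ 0 ∧ ht (xq b) ≤ Y := by
    intro b hb
    obtain ⟨p, hp, rfl⟩ := Finset.mem_image.mp hb
    exact ⟨(hS p hp).1, (hS p hp).2.2.2.1⟩
  have hCc : ∀ c ∈ SC, ht (xq c) ≤ Z := by
    intro c hc
    obtain ⟨p, hp, rfl⟩ := Finset.mem_image.mp hc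
    exact (hS p hp).2.2.2.2
  have hBcard := hplane SB Y hY (fun b hb => (hB b hb).2)
  have hCcard := hplane SC Z hZ hCc
  have hBrec := hrec SB Y hY (fun b hb => (hB b hb).2)
  have hmaps : ∀ p ∈ S, p.2 ∈ SB ×ˢ SC := fun p hp =>
    Finset.mem_product.mpr ⟨Finset.mem_image_of_mem _ hp, Finset.mem_image_of_mem _ hp⟩
  have hcardS := Finset.card_eq_sum_card_fiberwise (f := fun p => p.2) (s := S) (t := SB ×ˢ SC) hmaps
  have hfib : ∀ t ∈ SB ×ˢ SC, (((S.filter fun p => p.2 = t).card : ℕ) : ℝ) ≤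
      Cl * (1 + X ^ 2 * (1 / ht (mv (My T (xq t.1)) (xq t.2)))) := by
    rintro ⟨b, c⟩ ht'
    obtain ⟨hb, hc⟩ := Finset.mem_product.mp ht'
    have hdet := (hB b hb).1
    have hw := mv_ne_zero hdet (xq_ne_zero c)
    have hinj : (S.filter fun p => p.2 = (b, c)).card =
        ((S.filter fun p => p.2 = (b, c)).image Prod.fst).card := by
      rw [Finset.card_image_of_injOn]
      intro p hp q hq hpq
      have h1 := (Finset.mem_filter.mp hp).2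
      have h2 := (Finset.mem_filter.mp hq).2
      exact Prod.ext hpq (h1.trans h2.symm)
    rw [hinj]
    have h1 := hline (mv (My T (xq b)) (xq c)) hw
      ((S.filter fun p => p.2 = (b, c)).image Prod.fst)
      (by
        intro a ha
        obtain ⟨p, hp, rfl⟩ := Finset.mem_image.mp ha
        obtain ⟨hpS, hp2⟩ := Finset.mem_filter.mp hp
        have h2 := (hS p hpS).2.1
        rw [hp2] at h2
        rw [dot_comm]; exact h2)
      X hX0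
      (by
        intro a ha
        obtain ⟨p, hp, rfl⟩ := Finset.mem_image.mp ha
        exact (hS p (Finset.mem_filter.mp hp).1).2.2.1)
    refine h1.trans (le_of_eq ?_)
    simp only
    ring
  -- inner sums
  have hinner : ∀ b ∈ SB, ∑ c ∈ SC, 1 / ht (mv (My T (xq b)) (xq c)) ≤
      Cm * κ ^ (ε / 8) * X ^ (ε / 4) * (1 + κ * Z ^ 2 * (1 / ht (xq b))) := by
    intro b hb
    obtain ⟨g1, g2, g3⟩ := hT (xq b) (xq_ne_zero b)
    have hpb := ht_pos (xq b)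
    have hpM := ht_pos (My T (xq b))
    refine (hmat (My T (xq b)) (hB b hb).1 g3 SC Z hZ hCc).trans ?_
    have h1 : (ht (My T (xq b)) * Z) ^ (ε / 8) ≤ κ ^ (ε / 8) * X ^ (ε / 4) := by
      have h2 : ht (My T (xq b)) * Z ≤ κ * (X * X) := by
        calc ht (My T (xq b)) * Z ≤ (κ * ht (xq b)) * Z := by gcongr
          _ ≤ (κ * X) * X := by
              have := (hB b hb).2
              gcongr
              linarith
          _ = κ * (X * X) := by ring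
      calc (ht (My T (xq b)) * Z) ^ (ε / 8) ≤ (κ * (X * X)) ^ (ε / 8) :=
            Real.rpow_le_rpow (by positivity) h2 (by positivity)
        _ = κ ^ (ε / 8) * X ^ (ε / 4) := by
            rw [Real.mul_rpow hκ0.le (by positivity), Real.mul_rpow hX0.le hX0.le,
              ← Real.rpow_add hX0]
            congr 2; ring
    have h3 : Z ^ 2 / ht (My T (xq b)) ≤ κ * Z ^ 2 * (1 / ht (xq b)) := by
      rw [mul_one_div, div_le_div_iff₀ hpM hpb]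
      have : 0 ≤ Z ^ 2 := by positivity
      nlinarith
    calc Cm * (ht (My T (xq b)) * Z) ^ (ε / 8) * (1 + Z ^ 2 / ht (My T (xq b)))
        ≤ Cm * (κ ^ (ε / 8) * X ^ (ε / 4)) * (1 + κ * Z ^ 2 * (1 / ht (xq b))) := by gcongr
      _ = _ := by ring
  have hXe1 : (1 : ℝ) ≤ X ^ (ε / 4) := Real.one_le_rpow hX (by positivity)
  have hYe : Y ^ (ε / 4) ≤ X ^ (ε / 4) :=
    Real.rpow_le_rpow hY0.le (hYZ.trans hZX) (by positivity)
  have hZe : Z ^ (ε / 4) ≤ X ^ (ε / 4) := Real.rpow_le_rpow hZ0.le hZX (by positivity)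
  have hXe2 : X ^ (ε / 4) * X ^ (ε / 4) ≤ X ^ ε := by
    rw [← Real.rpow_add hX0]
    exact Real.rpow_le_rpow_of_exponent_le hX (by linarith)
  have hsumall : ∑ b ∈ SB, ∑ c ∈ SC, 1 / ht (mv (My T (xq b)) (xq c)) ≤
      Cm * κ ^ (ε / 8) * X ^ (ε / 4) * (Cp * (Y ^ 3 * X ^ (ε / 4)) +
        κ * Z ^ 2 * (Cr * (Y ^ 2 * X ^ (ε / 4)))) := by
    calc ∑ b ∈ SB, ∑ c ∈ SC, 1 / ht (mv (My T (xq b)) (xq c))
        ≤ ∑ b ∈ SB, Cm * κ ^ (ε / 8) * X ^ (ε / 4) * (1 + κ * Z ^ 2 * (1 / ht (xq b))) :=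
          Finset.sum_le_sum hinner
      _ = Cm * κ ^ (ε / 8) * X ^ (ε / 4) * ((SB.card : ℝ) +
            κ * Z ^ 2 * ∑ b ∈ SB, 1 / ht (xq b)) := by
          rw [← Finset.mul_sum, Finset.sum_add_distrib, Finset.sum_const, nsmul_eq_mul, mul_one,
            Finset.mul_sum]
      _ ≤ _ := by
          gcongr
          · exact hBcard.trans (by gcongr)
          · exact hBrec.trans (by gcongr)
  have hprod : ((SB ×ˢ SC).card : ℝ) ≤ Cp ^ 2 * (Y ^ 3 * Z ^ 3 * (X ^ (ε / 4) * X ^ (ε / 4))) := by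
    rw [Finset.card_product]
    push_cast
    calc (SB.card : ℝ) * SC.card ≤ (Cp * (Y ^ 3 * X ^ (ε / 4))) * (Cp * (Z ^ 3 * X ^ (ε / 4))) := by
          refine mul_le_mul (hBcard.trans (by gcongr)) (hCcard.trans (by gcongr)) (by positivity)
            (by positivity)
      _ = _ := by ring
  have hA : Y ^ 3 * Z ^ 3 ≤ (X * Y * Z) ^ 2 := by
    have h1 : Y * Z ≤ X ^ 2 := by
      calc Y * Z ≤ X * X := mul_le_mul (hYZ.trans hZX) hZX hZ0.le hX0.le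
        _ = X ^ 2 := by ring
    calc Y ^ 3 * Z ^ 3 = (Y * Z) * (Y ^ 2 * Z ^ 2) := by ring
      _ ≤ X ^ 2 * (Y ^ 2 * Z ^ 2) := by gcongr
      _ = (X * Y * Z) ^ 2 := by ring
  have hB2 : X ^ 2 * Y ^ 3 ≤ (X * Y * Z) ^ 2 := by
    have h1 : Y ≤ Z ^ 2 := by nlinarith
    calc X ^ 2 * Y ^ 3 = X ^ 2 * Y ^ 2 * Y := by ring
      _ ≤ X ^ 2 * Y ^ 2 * Z ^ 2 := by gcongr
      _ = (X * Y * Z) ^ 2 := by ring
  calc (S.card : ℝ) = ∑ t ∈ SB ×ˢ SC, (((S.filter fun p => p.2 = t).card : ℕ) : ℝ) := by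
        rw [hcardS]; push_cast; rfl
    _ ≤ ∑ t ∈ SB ×ˢ SC, Cl * (1 + X ^ 2 * (1 / ht (mv (My T (xq t.1)) (xq t.2)))) :=
        Finset.sum_le_sum hfib
    _ = Cl * (((SB ×ˢ SC).card : ℝ) +
          X ^ 2 * ∑ b ∈ SB, ∑ c ∈ SC, 1 / ht (mv (My T (xq b)) (xq c))) := by
        rw [← Finset.mul_sum, Finset.sum_add_distrib, Finset.sum_const, nsmul_eq_mul, mul_one,
          ← Finset.mul_sum, Finset.sum_product]
    _ ≤ Cl * (Cp ^ 2 * (Y ^ 3 * Z ^ 3 * (X ^ (ε / 4) * X ^ (ε / 4))) +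
          X ^ 2 * (Cm * κ ^ (ε / 8) * X ^ (ε / 4) * (Cp * (Y ^ 3 * X ^ (ε / 4)) +
        κ * Z ^ 2 * (Cr * (Y ^ 2 * X ^ (ε / 4)))))) := by gcongr
    _ = Cl * (Cp ^ 2 * (Y ^ 3 * Z ^ 3) + Cm * κ ^ (ε / 8) * (Cp * (X ^ 2 * Y ^ 3) +
          κ * Cr * (X * Y * Z) ^ 2)) * (X ^ (ε / 4) * X ^ (ε / 4)) := by ring
    _ ≤ Cl * (Cp ^ 2 * (X * Y * Z) ^ 2 + Cm * κ ^ (ε / 8) * (Cp * (X * Y * Z) ^ 2 +
          κ * Cr * (X * Y * Z) ^ 2)) * X ^ ε := by gcongr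
    _ = C * ((X * Y * Z) ^ 2 * X ^ ε) := by rw [hC]; ring

end Pool.Lib18ea5f
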