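import Mathlib
import Pool.Agent.Lib18ea5f.P2Box
import Pool.Agent.Lib18ea5f.Null

set_option autoImplicit false

/-!
Height conditions from smoothness, and the open set is not empty.
-/

namespace Pool.Lib18ea5f

open Finset NumberField

section maps

variable {R S : Type*} [CommRing R] [CommRing S]

lemma cr_map (f : R →+* S) (a b : Fin 3 → R) :
    cr (fun i => f (a i)) (fun i => f (b i)) = fun i => f (cr a b i) := by
  funext i; fin_cases i <;> simp [cr]

lemma dot_map (f : R →+* S) (a b : Fin 3 → R) :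
    dot (fun i => f (a i)) (fun i => f (b i)) = f (dot a b) := by
  simp [dot]

lemma mv_map (f : R →+* S) (M : Fin 3 × Fin 3 → R) (z : Fin 3 → R) :
    mv (fun p => f (M p)) (fun i => f (z i)) = fun i => f (mv M z i) := by
  funext i; simp [mv, row, dot]

lemma wd_map (f : R →+* S) (M : Fin 3 × Fin 3 → R) :
    wd (fun p => f (M p)) = fun p => f (wd M p) := by
  funext p
  exact congrFun (cr_map f (row M (p.1 + 1)) (row M (p.1 + 2))) p.2

lemma det3_map (f : R →+* S) (M : Fin 3 × Fin 3 → R) :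
    det3 (fun p => f (M p)) = f (det3 M) := by
  simp [det3, dot, cr, row]

lemma My_map (f : R →+* S) (T : Fin 3 → Fin 3 → Fin 3 → R) (y : Fin 3 → R) :
    My (fun i j k => f (T i j k)) (fun j => f (y j)) = fun p => f (My T y p) := by
  funext p; simp [My]

lemma My_smul (T : Fin 3 → Fin 3 → Fin 3 → R) (c : R) (y : Fin 3 → R) :
    My T (c • y) = c • My T y := by
  funext p; simp only [My, Fin.sum_univ_three, Pi.smul_apply, smul_eq_mul]; ring

lemma det3_smul (c : R) (M : Fin 3 × Fin 3 → R) : det3 (c • M) = c ^ 3 * det3 M := by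
  simp only [det3, dot, cr, row, Pi.smul_apply, smul_eq_mul, Matrix.cons_val_zero,
    Matrix.cons_val_one, Matrix.cons_val]
  ring

lemma det3_zero' : det3 (0 : Fin 3 × Fin 3 → R) = 0 := by simp [det3, dot, cr, row]

lemma My_zero (T : Fin 3 → Fin 3 → Fin 3 → R) : My T 0 = 0 := by
  funext p; simp [My]

end maps

/-- swap slots 0 and 1 -/
def sw01 {R : Type*} (T : Fin 3 → Fin 3 → Fin 3 → R) : Fin 3 → Fin 3 → Fin 3 → R :=
  fun i j k => T j i k

/-- swap slots 1 and 2 -/
def sw12 {R : Type*} (T : Fin 3 → Fin 3 → Fin 3 → R) : Fin 3 → Fin 3 → Fin 3 → R :=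
  fun i j k => T i k j

/-- swap slots 0 and 2 -/
def sw02 {R : Type*} (T : Fin 3 → Fin 3 → Fin 3 → R) : Fin 3 → Fin 3 → Fin 3 → R :=
  fun i j k => T k j i

lemma tri_sw01 {R : Type*} [CommRing R] (T : Fin 3 → Fin 3 → Fin 3 → R) (x y z : Fin 3 → R) :
    tri (sw01 T) x y z = tri T y x z := by
  simp only [tri, sw01, Fin.sum_univ_three]; ring

lemma tri_sw12 {R : Type*} [CommRing R] (T : Fin 3 → Fin 3 → Fin 3 → R) (x y z : Fin 3 → R) :
    tri (sw12 T) x y z = tri T x z y := by
  simp only [tri, sw12, Fin.sum_univ_three]; ring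

lemma tri_sw02 {R : Type*} [CommRing R] (T : Fin 3 → Fin 3 → Fin 3 → R) (x y z : Fin 3 → R) :
    tri (sw02 T) x y z = tri T z y x := by
  simp only [tri, sw02, Fin.sum_univ_three]; ring

lemma My_sw02 {R : Type*} [CommRing R] (T : Fin 3 → Fin 3 → Fin 3 → R) (y : Fin 3 → R) :
    My (sw02 T) y = trp (My T y) := rfl

section field

variable {F : Type*} [Field F]

lemma smoothTri_sw01 {T : Fin 3 → Fin 3 → Fin 3 → F} (hT : SmoothTri T) : SmoothTri (sw01 T) := by
  intro x y z hx hy hz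
  obtain ⟨u, hu⟩ := hT y x z hy hx hz
  refine ⟨u, ?_⟩
  simp only [tri_sw01]
  tauto

lemma smoothTri_sw12 {T : Fin 3 → Fin 3 → Fin 3 → F} (hT : SmoothTri T) : SmoothTri (sw12 T) := by
  intro x y z hx hy hz
  obtain ⟨u, hu⟩ := hT x z y hx hz hy
  refine ⟨u, ?_⟩
  simp only [tri_sw12]
  tauto

lemma smoothTri_sw02 {T : Fin 3 → Fin 3 → Fin 3 → F} (hT : SmoothTri T) : SmoothTri (sw02 T) := by
  intro x y z hx hy hz
  obtain ⟨u, hu⟩ := hT z y x hz hy hx
  refine ⟨u, ?_⟩
  simp only [tri_sw02]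
  tauto

lemma mv_adj (N : Fin 3 × Fin 3 → F) (u : Fin 3 → F) :
    mv N (mv (trp (wd N)) u) = det3 N • u := by
  funext i
  have e : mv N (mv (trp (wd N)) u) i = u 0 * dot (row N i) (fun l => wd N (0, l)) +
      u 1 * dot (row N i) (fun l => wd N (1, l)) + u 2 * dot (row N i) (fun l => wd N (2, l)) := by
    simp only [mv, dot, trp, row]; ring
  rw [e, row_wd, row_wd, row_wd]
  fin_cases i <;> simp <;> ring

lemma exists_perp (y : Fin 3 → F) (hy : y ≠ 0) : ∃ a w : Fin 3 → F,
    dot y w = 0 ∧ dot a w ≠ 0 := by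
  obtain ⟨k, hk⟩ := Function.ne_iff.mp hy
  have hk' : y k ≠ 0 := hk
  clear hk
  fin_cases k
  · have h : y 0 ≠ 0 := hk'
    refine ⟨![0, 1, 0], ![- y 1, y 0, 0], ?_, ?_⟩
    · simp [dot]; ring
    · simpa [dot] using h
  · have h : y 1 ≠ 0 := hk'
    refine ⟨![0, 0, 1], ![0, - y 2, y 1], ?_, ?_⟩
    · simp [dot]; ring
    · simpa [dot] using h
  · have h : y 2 ≠ 0 := hk'
    refine ⟨![1, 0, 0], ![y 2, 0, - y 0], ?_, ?_⟩
    · simp [dot]; ring
    · simpa [dot] using h

lemma exists_ne_ne [Infinite F] {σ : Type*} (P Q : MvPolynomial σ F) (s t : σ → F)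
    (hs : MvPolynomial.eval s P ≠ 0) (ht : MvPolynomial.eval t Q ≠ 0) :
    ∃ r, MvPolynomial.eval r P ≠ 0 ∧ MvPolynomial.eval r Q ≠ 0 := by
  by_contra hcon
  push Not at hcon
  have h0 : P * Q = 0 := by
    apply MvPolynomial.funext
    intro r
    rw [map_mul, map_zero]
    by_cases h : MvPolynomial.eval r P = 0
    · rw [h, zero_mul]
    · rw [hcon r h, mul_zero]
  rcases mul_eq_zero.mp h0 with h | h
  · rw [h, map_zero] at hs; exact hs rfl
  · rw [h, map_zero] at ht; exact ht rfl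

/-- The open set is not empty. -/
lemma exists_point3 [IsAlgClosed F] [CharZero F] {T : Fin 3 → Fin 3 → Fin 3 → F}
    (hT : SmoothTri T) : ∃ x y z : Fin 3 → F, x ≠ 0 ∧ y ≠ 0 ∧ z ≠ 0 ∧ tri T x y z = 0 ∧
      det3 (My (sw01 T) x) ≠ 0 ∧ det3 (My T y) ≠ 0 ∧ det3 (My (sw12 T) z) ≠ 0 := by
  have : Infinite F := IsAlgClosed.instInfinite
  obtain ⟨x0, hx0⟩ := smooth_det3 (smoothTri_sw01 hT)
  obtain ⟨y0, hy0⟩ := smooth_det3 hT
  obtain ⟨z0, hz0⟩ := smooth_det3 (smoothTri_sw12 hT)
  set N := My (sw01 T) x0 with hN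
  have hy0' : y0 ≠ 0 := by
    rintro rfl
    rw [My_zero, det3_zero'] at hy0; exact hy0 rfl
  obtain ⟨a, w', hw1, hw2⟩ := exists_perp y0 hy0'
  set z' := mv (trp (wd N)) (cr y0 a) with hz'
  have hNz' : mv N z' = det3 N • cr y0 a := mv_adj N _
  have hcr' : cr (mv N z') w' = (-(det3 N * dot a w')) • y0 := by
    rw [hNz']
    have hw1' : y0 0 * w' 0 + y0 1 * w' 1 + y0 2 * w' 2 = 0 := hw1
    funext i
    fin_cases i
    · simp [cr, dot]; linear_combination det3 N * a 0 * hw1'
    · simp [cr, dot]; linear_combination det3 N * a 1 * hw1'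
    · simp [cr, dot]; linear_combination det3 N * a 2 * hw1'
  let P : MvPolynomial (Fin 3 ⊕ Fin 3) F :=
    det3 (My (fun i j k => MvPolynomial.C (sw12 T i j k)) (fun i => MvPolynomial.X (Sum.inl i)))
  let Q : MvPolynomial (Fin 3 ⊕ Fin 3) F :=
    det3 (My (fun i j k => MvPolynomial.C (T i j k))
      (cr (mv (fun p => MvPolynomial.C (N p)) (fun i => MvPolynomial.X (Sum.inl i)))
        (fun i => MvPolynomial.X (Sum.inr i))))
  have hP : ∀ r : Fin 3 ⊕ Fin 3 → F, MvPolynomial.eval r P =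
      det3 (My (sw12 T) (fun i => r (Sum.inl i))) := by
    intro r
    simp only [P]
    rw [← det3_map, ← My_map]
    simp
  have hQ : ∀ r : Fin 3 ⊕ Fin 3 → F, MvPolynomial.eval r Q =
      det3 (My T (cr (mv N (fun i => r (Sum.inl i))) (fun i => r (Sum.inr i)))) := by
    intro r
    simp only [Q]
    rw [← det3_map, ← My_map, ← cr_map, ← mv_map]
    simp
  obtain ⟨r, hr1, hr2⟩ := exists_ne_ne P Q (Sum.elim z0 z0) (Sum.elim z' w')
    (by rw [hP]; exact hz0)
    (by
      rw [hQ]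
      simp only [Sum.elim_inl, Sum.elim_inr]
      have e1 : (fun i => z' i) = z' := rfl
      have e2 : (fun i => w' i) = w' := rfl
      rw [e1, e2, hcr', My_smul, det3_smul]
      exact mul_ne_zero (pow_ne_zero 3 (neg_ne_zero.mpr (mul_ne_zero hx0 hw2))) hy0)
  rw [hP] at hr1
  rw [hQ] at hr2
  set z := fun i => r (Sum.inl i) with hz
  set w := fun i => r (Sum.inr i) with hw
  refine ⟨x0, cr (mv N z) w, z, ?_, ?_, ?_, ?_, hx0, hr2, hr1⟩
  · rintro rfl
    rw [hN, My_zero, det3_zero'] at hx0; exact hx0 rfl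
  · intro h
    rw [h, My_zero, det3_zero'] at hr2; exact hr2 rfl
  · intro h
    rw [h, My_zero, det3_zero'] at hr1; exact hr1 rfl
  · rw [← tri_sw01, tri_eq, ← hN]
    exact dot_cr_left _ _

end field

section height

variable {K : Type*} [Field K] [NumberField K]

/-- coefficients in the algebraic closure -/
noncomputable def bc3 (T : Fin 3 → Fin 3 → Fin 3 → K) :
    Fin 3 → Fin 3 → Fin 3 → AlgebraicClosure K :=
  fun i j k => algebraMap K (AlgebraicClosure K) (T i j k)

/-- Height conditions over `K`. -/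
lemma exists_kappa {T : Fin 3 → Fin 3 → Fin 3 → K} (hT : SmoothTri (bc3 T)) :
    ∃ κ : ℝ, 1 ≤ κ ∧ ∀ y : Fin 3 → K,
      Height.mulHeight y ≤ κ * Height.mulHeight (My T y) ∧
      Height.mulHeight (My T y) ≤ κ * Height.mulHeight y ∧
      (Height.mulHeight (My T y)) ^ 2 ≤ κ * Height.mulHeight (wd (My T y)) := by
  classical
  let MG : Fin 3 × Fin 3 → MvPolynomial (Fin 3) K :=
    My (fun i j k => MvPolynomial.C (T i j k)) MvPolynomial.X
  have hMGhom : ∀ p, (MG p).IsHomogeneous 1 := by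
    intro p
    refine MvPolynomial.IsHomogeneous.sum _ _ _ fun j _ => ?_
    have := (MvPolynomial.isHomogeneous_C (Fin 3) (T p.1 j p.2)).mul
      (MvPolynomial.isHomogeneous_X K j)
    simpa using this
  have hcrhom : ∀ (u v : Fin 3 → MvPolynomial (Fin 3) K), (∀ i, (u i).IsHomogeneous 1) →
      (∀ i, (v i).IsHomogeneous 1) → ∀ l, (cr u v l).IsHomogeneous 2 := by
    intro u v hu hv l
    fin_cases l
    · exact MvPolynomial.IsHomogeneous.sub ((hu _).mul (hv _)) ((hu _).mul (hv _))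
    · exact MvPolynomial.IsHomogeneous.sub ((hu _).mul (hv _)) ((hu _).mul (hv _))
    · exact MvPolynomial.IsHomogeneous.sub ((hu _).mul (hv _)) ((hu _).mul (hv _))
  have hwdhom : ∀ p, (wd MG p).IsHomogeneous 2 := fun p =>
    hcrhom _ _ (fun i => hMGhom _) (fun i => hMGhom _) _
  have hev : ∀ (y : Fin 3 → K), (fun p => MvPolynomial.eval y (MG p)) = My T y := by
    intro y
    rw [← My_map]
    simp
  have hevw : ∀ (y : Fin 3 → K), (fun p => MvPolynomial.eval y (wd MG p)) = wd (My T y) := by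
    intro y
    rw [← wd_map, hev]
  have haev : ∀ (y : Fin 3 → AlgebraicClosure K),
      (fun p => MvPolynomial.aeval y (MG p)) = My (bc3 T) y := by
    intro y
    have h := My_map (MvPolynomial.aeval (R := K) y).toRingHom
      (fun i j k => MvPolynomial.C (T i j k)) MvPolynomial.X
    have h' : (fun p => MvPolynomial.aeval (R := K) y (MG p)) =
      fun p => (MvPolynomial.aeval (R := K) y).toRingHom (MG p) := rfl
    rw [h', ← h]
    congr 1
    · funext i j k
      simp [bc3]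
    · funext j
      simp
  have haevw : ∀ (y : Fin 3 → AlgebraicClosure K),
      (fun p => MvPolynomial.aeval y (wd MG p)) = wd (My (bc3 T) y) := by
    intro y
    have h := wd_map (MvPolynomial.aeval (R := K) y).toRingHom MG
    have h' : (fun p => MvPolynomial.aeval (R := K) y (wd MG p)) =
      fun p => (MvPolynomial.aeval (R := K) y).toRingHom (wd MG p) := rfl
    rw [h', ← h, ← haev]
    rfl
  have hwd0 : ∀ y : Fin 3 → AlgebraicClosure K,
      (∀ p, MvPolynomial.aeval y (wd MG p) = 0) → y = 0 := by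
    intro y h
    by_contra hy
    apply smooth_wd hT hy
    rw [← haevw]
    funext p
    exact h p
  have hM0 : ∀ y : Fin 3 → AlgebraicClosure K,
      (∀ p, MvPolynomial.aeval y (MG p) = 0) → y = 0 := by
    intro y h
    by_contra hy
    apply smooth_wd hT hy
    rw [← haev]
    have : (fun p => MvPolynomial.aeval y (MG p)) = 0 := by funext p; exact h p
    rw [this]
    funext p
    have hl : ∀ l : Fin 3, cr (0 : Fin 3 → AlgebraicClosure K) 0 l = 0 := by
      intro l; fin_cases l <;> simp [cr]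
    exact hl p.2
  obtain ⟨C1, hC1, h1⟩ := null_height 1 MG hMGhom hM0
  obtain ⟨C2, hC2, h2⟩ := null_height 2 (wd MG) hwdhom hwd0
  obtain ⟨C3, hC3, h3⟩ := Height.mulHeight_eval_le' (K := K) hMGhom
  set C3' := max 1 C3 with hC3'
  have hC31 : 1 ≤ C3' := le_max_left _ _
  have g1 : ∀ y : Fin 3 → K, Height.mulHeight y ≤ C1 * Height.mulHeight (My T y) := by
    intro y
    have := h1 y
    rwa [pow_one, hev] at this
  have g2 : ∀ y : Fin 3 → K, Height.mulHeight y ^ 2 ≤ C2 * Height.mulHeight (wd (My T y)) := by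
    intro y
    have := h2 y
    rwa [hevw] at this
  have g3 : ∀ y : Fin 3 → K, Height.mulHeight (My T y) ≤ C3' * Height.mulHeight y := by
    intro y
    have := h3 y
    rw [pow_one, hev] at this
    refine this.trans ?_
    have := Height.mulHeight_pos y
    gcongr
    exact le_max_right _ _
  refine ⟨C1 * (C3' ^ 2 * C2), ?_, fun y => ?_⟩
  · have a1 : 1 ≤ C3' ^ 2 := one_le_pow₀ hC31
    have a2 : 1 ≤ C3' ^ 2 * C2 := by nlinarith
    nlinarith
  have hy := Height.mulHeight_pos y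
  have hMy := Height.mulHeight_pos (My T y)
  have hwy := Height.mulHeight_pos (wd (My T y))
  have a1 : 1 ≤ C3' ^ 2 := one_le_pow₀ hC31
  have a2 : 1 ≤ C3' ^ 2 * C2 := by nlinarith
  have a3 : C3' ≤ C3' ^ 2 := by nlinarith
  refine ⟨(g1 y).trans ?_, (g3 y).trans ?_, ?_⟩
  · have : C1 ≤ C1 * (C3' ^ 2 * C2) := by nlinarith
    gcongr
  · have : C3' ≤ C1 * (C3' ^ 2 * C2) := by
      calc C3' ≤ 1 * (C3' ^ 2 * 1) := by linarith
        _ ≤ C1 * (C3' ^ 2 * C2) := by gcongr
    gcongr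
  · calc (Height.mulHeight (My T y)) ^ 2 ≤ (C3' * Height.mulHeight y) ^ 2 := by
          have := g3 y
          gcongr
      _ = C3' ^ 2 * Height.mulHeight y ^ 2 := by ring
      _ ≤ C3' ^ 2 * (C2 * Height.mulHeight (wd (My T y))) := by
          have := g2 y
          gcongr
      _ = 1 * (C3' ^ 2 * C2) * Height.mulHeight (wd (My T y)) := by ring
      _ ≤ C1 * (C3' ^ 2 * C2) * Height.mulHeight (wd (My T y)) := by gcongr

/-- Height conditions for an integral multiple of the tensor. -/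
lemma good_of_smooth {T : Fin 3 → Fin 3 → Fin 3 → K} (hT : SmoothTri (bc3 T))
    {T0 : Fin 3 → Fin 3 → Fin 3 → 𝓞 K} {c : K} (hc : c ≠ 0)
    (hcT : ∀ i j k, (T0 i j k : K) = c * T i j k) :
    ∃ κ : ℝ, 1 ≤ κ ∧ Good κ T0 := by
  obtain ⟨κ, hκ, h⟩ := exists_kappa hT
  refine ⟨κ, hκ, fun y _ => ?_⟩
  have hM : (fun p => ((My T0 y p : 𝓞 K) : K)) = c • My T (fun i => (y i : K)) := by
    funext p
    simp only [My, Fin.sum_univ_three, map_add, map_mul, hcT, Pi.smul_apply, smul_eq_mul]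
    ring
  have hw : (fun p => ((wd (My T0 y) p : 𝓞 K) : K)) = (c ^ 2) • wd (My T (fun i => (y i : K))) := by
    have e : (fun p => ((wd (My T0 y) p : 𝓞 K) : K)) =
        wd (fun p => ((My T0 y p : 𝓞 K) : K)) := (wd_map (algebraMap (𝓞 K) K) (My T0 y)).symm
    rw [e, hM]
    funext ⟨i, j⟩
    have hl : ∀ (a b : Fin 3 → K) (l : Fin 3), cr (c • a) (c • b) l = c ^ 2 * cr a b l := by
      intro a b l
      fin_cases l <;> simp [cr] <;> ring
    exact hl _ _ _
  have h1 := h (fun i => (y i : K))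
  unfold ht
  rw [hM, hw, Height.mulHeight_smul_eq_mulHeight _ hc,
    Height.mulHeight_smul_eq_mulHeight _ (pow_ne_zero 2 hc)]
  exact h1

end height

end Pool.Lib18ea5f
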