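import Mathlib
import Pool.Agent.Lib18ea5f.P2Good

set_option autoImplicit false

/-!
Points of a smooth trilinear hypersurface in an arbitrary box.
-/

namespace Pool.Lib18ea5f

open Finset NumberField
open scoped LinearAlgebra.Projectivization

variable {K : Type*} [Field K] [NumberField K]

lemma Good.mono {κ κ' : ℝ} (h : κ ≤ κ') {T : Fin 3 → Fin 3 → Fin 3 → 𝓞 K} (hT : Good κ T) :
    Good κ' T := by
  intro y hy
  obtain ⟨h1, h2, h3⟩ := hT y hy
  have p1 := ht_pos (My T y)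
  have p2 := ht_pos y
  have p3 := ht_pos (wd (My T y))
  refine ⟨h1.trans ?_, h2.trans ?_, h3.trans ?_⟩ <;> gcongr

lemma exists_int_tensor3 {B : Fin 3 → Fin 3 → Fin 3 → K} (hB : B ≠ 0) :
    ∃ (B0 : Fin 3 → Fin 3 → Fin 3 → 𝓞 K) (c : K), c ≠ 0 ∧
      ∀ i j k, (B0 i j k : K) = c * B i j k := by
  have h1 : (fun p : Fin 3 × Fin 3 × Fin 3 => B p.1 p.2.1 p.2.2) ≠ 0 := by
    intro h
    apply hB
    funext i j k
    exact congrFun h (i, j, k)
  obtain ⟨y, _, c, hc, hy⟩ := exists_int_rep h1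
  refine ⟨fun i j k => y (i, j, k), c, hc, fun i j k => ?_⟩
  have := congrFun hy (i, j, k)
  simpa using this

/-- all six orderings -/
theorem box_full3 (K : Type*) [Field K] [NumberField K] {B : Fin 3 → Fin 3 → Fin 3 → K}
    (hB : SmoothTri (bc3 B)) {T0 : Fin 3 → Fin 3 → Fin 3 → 𝓞 K} {c : K} (hc : c ≠ 0)
    (hcT : ∀ i j k, (T0 i j k : K) = c * B i j k) (ε : ℝ) (hε : 0 < ε) :
    ∃ C : ℝ, 1 ≤ C ∧ ∀ X : Fin 3 → ℝ, (∀ i, 1 ≤ X i) →
      ∀ S : Finset (Fin 3 → ℙ K (Fin 3 → K)),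
      (∀ P ∈ S, (∀ i, ht (xq (P i)) ≤ X i) ∧ tri T0 (xq (P 0)) (xq (P 1)) (xq (P 2)) = 0 ∧
        det3 (My (sw01 T0) (xq (P 0))) ≠ 0 ∧ det3 (My T0 (xq (P 1))) ≠ 0 ∧
        det3 (My (sw12 T0) (xq (P 2))) ≠ 0) →
      (S.card : ℝ) ≤ C * ((∏ i, X i) ^ 2 * (∏ i, X i) ^ ε) := by
  classical
  obtain ⟨κ1, hκ1, g1⟩ := good_of_smooth hB hc hcT
  obtain ⟨κ2, hκ2, g2⟩ := good_of_smooth (T := sw02 B) (T0 := sw02 T0)
    (smoothTri_sw02 hB) hc (fun i j k => hcT k j i)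
  obtain ⟨κ3, hκ3, g3⟩ := good_of_smooth (T := sw01 B) (T0 := sw01 T0)
    (smoothTri_sw01 hB) hc (fun i j k => hcT j i k)
  obtain ⟨κ4, hκ4, g4⟩ := good_of_smooth (T := sw02 (sw01 B)) (T0 := sw02 (sw01 T0))
    (smoothTri_sw02 (smoothTri_sw01 hB)) hc (fun i j k => hcT j k i)
  obtain ⟨κ5, hκ5, g5⟩ := good_of_smooth (T := sw12 B) (T0 := sw12 T0)
    (smoothTri_sw12 hB) hc (fun i j k => hcT i k j)
  obtain ⟨κ6, hκ6, g6⟩ := good_of_smooth (T := sw02 (sw12 B)) (T0 := sw02 (sw12 T0))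
    (smoothTri_sw02 (smoothTri_sw12 hB)) hc (fun i j k => hcT k i j)
  set κ := κ1 + κ2 + κ3 + κ4 + κ5 + κ6 with hκ
  replace g1 := g1.mono (κ' := κ) (by linarith)
  replace g2 := g2.mono (κ' := κ) (by linarith)
  replace g3 := g3.mono (κ' := κ) (by linarith)
  replace g4 := g4.mono (κ' := κ) (by linarith)
  replace g5 := g5.mono (κ' := κ) (by linarith)
  replace g6 := g6.mono (κ' := κ) (by linarith)
  obtain ⟨C, hC, hhalf⟩ := half_box3 K ε hε κ (by linarith)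
  refine ⟨C, hC, fun X hX S hS => ?_⟩
  have key : ∀ (a b d : Fin 3) (T' : Fin 3 → Fin 3 → Fin 3 → 𝓞 K), Good κ T' →
      (∀ P Q : Fin 3 → ℙ K (Fin 3 → K), P a = Q a → P b = Q b → P d = Q d → P = Q) →
      X a * X b * X d = ∏ i, X i →
      (∀ P ∈ S, det3 (My T' (xq (P b))) ≠ 0) →
      (∀ P ∈ S, tri T' (xq (P a)) (xq (P b)) (xq (P d)) = 0) →
      X b ≤ X d → X d ≤ X a →
      (S.card : ℝ) ≤ C * ((∏ i, X i) ^ 2 * (∏ i, X i) ^ ε) := by
    intro a b d T' hT' hinj hprod hdet htri h1 h2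
    let f : (Fin 3 → ℙ K (Fin 3 → K)) →
        ℙ K (Fin 3 → K) × ℙ K (Fin 3 → K) × ℙ K (Fin 3 → K) := fun P => (P a, P b, P d)
    have hcard : (S.image f).card = S.card := by
      apply Finset.card_image_of_injOn
      intro P _ Q _ hPQ
      simp only [f, Prod.mk.injEq] at hPQ
      exact hinj P Q hPQ.1 hPQ.2.1 hPQ.2.2
    have hb := hhalf T' hT' (X a) (X b) (X d) (hX b) h1 h2 (S.image f) (by
      intro p hp
      obtain ⟨P, hP, rfl⟩ := Finset.mem_image.mp hp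
      refine ⟨hdet P hP, ?_, (hS P hP).1 a, (hS P hP).1 b, (hS P hP).1 d⟩
      rw [← tri_eq]; exact htri P hP)
    rw [hcard, hprod] at hb
    refine hb.trans ?_
    have hXa : X a ≤ ∏ i, X i := by
      rw [← hprod]
      have := hX a
      have := hX b
      have := hX d
      have h3 : 1 ≤ X b * X d := by nlinarith
      nlinarith
    have hpos : 0 ≤ X a := by linarith [hX a]
    have h4 := Real.rpow_le_rpow hpos hXa hε.le
    gcongr
  have e3 : ∏ i, X i = X 0 * X 1 * X 2 := by rw [Fin.prod_univ_three]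
  have hext : ∀ P Q : Fin 3 → ℙ K (Fin 3 → K), P 0 = Q 0 → P 1 = Q 1 → P 2 = Q 2 → P = Q := by
    intro P Q h0 h1 h2
    funext i
    fin_cases i
    · exact h0
    · exact h1
    · exact h2
  rcases le_total (X 0) (X 1) with h01 | h01 <;> rcases le_total (X 1) (X 2) with h12 | h12 <;>
    rcases le_total (X 0) (X 2) with h02 | h02
  · -- 0 ≤ 1 ≤ 2 : largest 2, smallest 0, middle 1
    refine key 2 0 1 (sw02 (sw01 T0)) g4 (fun P Q a b c => hext P Q b c a)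
      (by rw [e3]; ring) (fun P hP => ?_) (fun P hP => ?_) h01 h12
    · rw [My_sw02, det3_trp]; exact (hS P hP).2.2.1
    · rw [tri_sw02, tri_sw01]; exact (hS P hP).2.1
  · -- 0 ≤ 1 ≤ 2, 2 ≤ 0
    refine key 2 0 1 (sw02 (sw01 T0)) g4 (fun P Q a b c => hext P Q b c a)
      (by rw [e3]; ring) (fun P hP => ?_) (fun P hP => ?_) h01 h12
    · rw [My_sw02, det3_trp]; exact (hS P hP).2.2.1
    · rw [tri_sw02, tri_sw01]; exact (hS P hP).2.1
  · -- 0 ≤ 2 ≤ 1 : largest 1, smallest 0, middle 2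
    refine key 1 0 2 (sw01 T0) g3 (fun P Q a b c => hext P Q b a c)
      (by rw [e3]; ring) (fun P hP => ?_) (fun P hP => ?_) h02 h12
    · exact (hS P hP).2.2.1
    · rw [tri_sw01]; exact (hS P hP).2.1
  · -- 2 ≤ 0 ≤ 1 : largest 1, smallest 2, middle 0
    refine key 1 2 0 (sw02 (sw12 T0)) g6 (fun P Q a b c => hext P Q c a b)
      (by rw [e3]; ring) (fun P hP => ?_) (fun P hP => ?_) h02 h01
    · rw [My_sw02, det3_trp]; exact (hS P hP).2.2.2.2
    · rw [tri_sw02, tri_sw12]; exact (hS P hP).2.1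
  · -- 1 ≤ 0 ≤ 2 : largest 2, smallest 1, middle 0
    refine key 2 1 0 (sw02 T0) g2 (fun P Q a b c => hext P Q c b a)
      (by rw [e3]; ring) (fun P hP => ?_) (fun P hP => ?_) h01 h02
    · rw [My_sw02, det3_trp]; exact (hS P hP).2.2.2.1
    · rw [tri_sw02]; exact (hS P hP).2.1
  · -- 1 ≤ 2 ≤ 0 : largest 0, smallest 1, middle 2
    refine key 0 1 2 T0 g1 (fun P Q a b c => hext P Q a b c)
      (by rw [e3]) (fun P hP => ?_) (fun P hP => ?_) h12 h02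
    · exact (hS P hP).2.2.2.1
    · exact (hS P hP).2.1
  · -- 2 ≤ 1 ≤ 0, 0 ≤ 2
    refine key 0 2 1 (sw12 T0) g5 (fun P Q a b c => hext P Q a c b)
      (by rw [e3]; ring) (fun P hP => ?_) (fun P hP => ?_) h12 h01
    · exact (hS P hP).2.2.2.2
    · rw [tri_sw12]; exact (hS P hP).2.1
  · -- 2 ≤ 1 ≤ 0
    refine key 0 2 1 (sw12 T0) g5 (fun P Q a b c => hext P Q a c b)
      (by rw [e3]; ring) (fun P hP => ?_) (fun P hP => ?_) h12 h01
    · exact (hS P hP).2.2.2.2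
    · rw [tri_sw12]; exact (hS P hP).2.1

end Pool.Lib18ea5f
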