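import Mathlib
import Pool.Agent.Lib18ea5f.Assign

set_option autoImplicit false
set_option linter.unusedSectionVars false

/-!
Weighted versions of the assignment duality, averaging and parity statements.
-/

namespace Pool.Lib18ea5f

open Finset

/-- a permutation without points that stay in their class, if no class has more than one half of
the elements. -/
lemma exists_perm_ne {Y ι : Type*} [Fintype Y] [DecidableEq Y] [DecidableEq ι] (g : Y → ι)
    (h : ∀ i, 2 * (Finset.univ.filter fun y => g y = i).card ≤ Fintype.card Y) :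
    ∃ σ : Equiv.Perm Y, ∀ y, g (σ y) ≠ g y := by
  classical
  let t : Y → Finset Y := fun y => Finset.univ.filter fun y' => g y' ≠ g y
  have hall : ∀ s : Finset Y, s.card ≤ (s.biUnion t).card := by
    intro s
    rcases s.eq_empty_or_nonempty with rfl | ⟨y0, hy0⟩
    · simp
    by_cases hex : ∃ y1 ∈ s, g y1 ≠ g y0
    · obtain ⟨y1, hy1, hne⟩ := hex
      have : s.biUnion t = Finset.univ := by
        rw [Finset.eq_univ_iff_forall]
        intro y
        rw [Finset.mem_biUnion]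
        by_cases h : g y = g y0
        · refine ⟨y1, hy1, ?_⟩
          simp only [t, Finset.mem_filter, Finset.mem_univ, true_and]
          rw [h]; exact hne.symm
        · refine ⟨y0, hy0, ?_⟩
          simp only [t, Finset.mem_filter, Finset.mem_univ, true_and]
          exact h
      rw [this, Finset.card_univ]
      exact Finset.card_le_univ _
    · push Not at hex
      have h1 : s ⊆ Finset.univ.filter fun y => g y = g y0 := by
        intro y hy
        simp only [Finset.mem_filter, Finset.mem_univ, true_and]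
        exact hex y hy
      have h2 : (Finset.univ.filter fun y => g y = g y0)ᶜ ⊆ s.biUnion t := by
        intro y hy
        rw [Finset.mem_biUnion]
        refine ⟨y0, hy0, ?_⟩
        simp only [Finset.mem_compl, Finset.mem_filter, Finset.mem_univ, true_and] at hy
        simp only [t, Finset.mem_filter, Finset.mem_univ, true_and]
        exact hy
      have h3 := Finset.card_le_card h1
      have h4 := Finset.card_le_card h2
      rw [Finset.card_compl] at h4
      have h5 := h (g y0)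
      have h6 : (Finset.univ.filter fun y => g y = g y0).card ≤ Fintype.card Y :=
        Finset.card_le_univ _
      omega
  obtain ⟨f, hinj, hft⟩ := (Finset.all_card_le_biUnion_card_iff_exists_injective t).mp hall
  refine ⟨Equiv.ofBijective f (Finite.injective_iff_bijective.mp hinj), fun y => ?_⟩
  have h1 := hft y
  simp only [t, Finset.mem_filter, Finset.mem_univ, true_and] at h1
  simpa only [Equiv.ofBijective_apply] using h1

variable {X : Type*} [Fintype X] [DecidableEq X]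

/-- the multiset attached to a weight -/
abbrev Mul (d : X → ℕ) : Type _ := Σ x : X, Fin (d x)

lemma sum_mul (d : X → ℕ) (F : X → ℝ) : ∑ y : Mul d, F y.1 = ∑ x, (d x : ℝ) * F x := by
  rw [Fintype.sum_sigma]
  refine Finset.sum_congr rfl fun x _ => ?_
  simp

lemma card_mul (d : X → ℕ) : Fintype.card (Mul d) = ∑ x, d x := by
  simp [Mul, Fintype.card_sigma]

lemma card_filter_mul (d : X → ℕ) (A : Finset X) :
    (Finset.univ.filter fun y : Mul d => y.1 ∈ A).card = ∑ x ∈ A, d x := by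
  classical
  have h1 : (Finset.univ.filter fun y : Mul d => y.1 ∈ A) = A.sigma fun _ => Finset.univ := by
    ext y
    simp
  rw [h1, Finset.card_sigma]
  simp

/-- optimal half-potentials for the weight `w` -/
def WOpt (w : X → ℕ) (c : X → X → ℤ) (τ : X → ℝ) : Prop :=
  Feas c τ ∧ ∀ τ', Feas c τ' → ∑ x, (w x : ℝ) * τ' x ≤ ∑ x, (w x : ℝ) * τ x

lemma wfeas_le {w : X → ℕ} {c : X → X → ℤ} {τ : X → ℝ} (h : Feas c τ) (p : Equiv.Perm (Mul w))
    (hp : ∀ z, (p z).1 ≠ z.1) :
    2 * ∑ x, (w x : ℝ) * τ x ≤ ∑ z : Mul w, (c z.1 (p z).1 : ℝ) := by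
  have h0 := sum_mul w τ
  have h1 : ∑ z : Mul w, τ (p z).1 = ∑ z : Mul w, τ z.1 := Equiv.sum_comp p (fun z => τ z.1)
  have h2 : ∑ z : Mul w, (τ z.1 + τ (p z).1) ≤ ∑ z : Mul w, (c z.1 (p z).1 : ℝ) :=
    Finset.sum_le_sum fun z _ => h z.1 (p z).1 (hp z).symm
  rw [Finset.sum_add_distrib, h1] at h2
  linarith

lemma wexists (w : X → ℕ) (hw : ∀ x, 0 < w x) (hw2 : ∀ x, 2 * w x ≤ ∑ y, w y)
    (c : X → X → ℤ) (hs : ∀ x y, c x y = c y x) :
    ∃ τ : X → ℝ, Feas c τ ∧ ∃ p : Equiv.Perm (Mul w), (∀ z, (p z).1 ≠ z.1) ∧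
      ∑ z : Mul w, (c z.1 (p z).1 : ℝ) = 2 * ∑ x, (w x : ℝ) * τ x := by
  classical
  obtain ⟨p0, hp0⟩ := exists_perm_ne (Y := Mul w) (fun y => y.1) (fun x => by
    have h1 := card_filter_mul w {x}
    simp only [Finset.mem_singleton, Finset.sum_singleton] at h1
    rw [h1, card_mul]
    exact hw2 x)
  obtain ⟨u, v, p, hf, ht⟩ := egervary (X := Mul w) (fun y z => y.1 ≠ z.1)
    (fun y z => c y.1 z.1) p0 (fun y => (hp0 y).symm)
  -- averages over the fibres
  let U : X → ℝ := fun x => ∑ i : Fin (w x), ((u ⟨x, i⟩ : ℝ) + v ⟨x, i⟩) / 2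
  refine ⟨fun x => U x / w x, fun x y hxy => ?_, p, fun z => (ht z).1.symm, ?_⟩
  · have hx : (0 : ℝ) < w x := by exact_mod_cast hw x
    have hy : (0 : ℝ) < w y := by exact_mod_cast hw y
    have h1 : ∑ i : Fin (w x), ∑ j : Fin (w y), (((u ⟨x, i⟩ : ℝ) + v ⟨x, i⟩) / 2 +
        ((u ⟨y, j⟩ : ℝ) + v ⟨y, j⟩) / 2) ≤ ∑ _i : Fin (w x), ∑ _j : Fin (w y), (c x y : ℝ) := by
      refine Finset.sum_le_sum fun i _ => Finset.sum_le_sum fun j _ => ?_
      have h1 := hf ⟨x, i⟩ ⟨y, j⟩ hxy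
      have h2 := hf ⟨y, j⟩ ⟨x, i⟩ hxy.symm
      simp only at h1 h2
      rw [← hs x y] at h2
      have h1' : (u ⟨x, i⟩ : ℝ) + v ⟨y, j⟩ ≤ c x y := by exact_mod_cast h1
      have h2' : (u ⟨y, j⟩ : ℝ) + v ⟨x, i⟩ ≤ c x y := by exact_mod_cast h2
      linarith
    simp_rw [Finset.sum_add_distrib] at h1
    simp only [Finset.sum_const, Finset.card_univ, Fintype.card_fin, nsmul_eq_mul] at h1
    rw [← Finset.mul_sum] at h1
    have h3 : (w y : ℝ) * U x + (w x : ℝ) * U y ≤ (w x : ℝ) * ((w y : ℝ) * c x y) := h1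
    show U x / w x + U y / w y ≤ c x y
    rw [div_add_div _ _ hx.ne' hy.ne', div_le_iff₀ (by positivity)]
    linarith
  · have h1 : ∀ z : Mul w, (c z.1 (p z).1 : ℝ) = (u z : ℝ) + v (p z) := by
      intro z
      have := (ht z).2
      rw [← this]; push_cast; rfl
    simp_rw [h1]
    rw [Finset.sum_add_distrib, Equiv.sum_comp p (fun z => (v z : ℝ))]
    have h2 : ∀ x, (w x : ℝ) * (U x / w x) = U x := by
      intro x
      have hx : (0 : ℝ) < w x := by exact_mod_cast hw x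
      field_simp
    simp_rw [h2]
    simp only [U]
    rw [← Finset.sum_add_distrib, Fintype.sum_sigma, Finset.mul_sum]
    refine Finset.sum_congr rfl fun x _ => ?_
    rw [Finset.mul_sum]
    refine Finset.sum_congr rfl fun i _ => ?_
    ring

/-- tight permutations for an optimal potential -/
lemma wopt_tight {w : X → ℕ} (hw : ∀ x, 0 < w x) (hw2 : ∀ x, 2 * w x ≤ ∑ y, w y)
    {c : X → X → ℤ} (hs : ∀ x y, c x y = c y x) {τ : X → ℝ} (h : WOpt w c τ) :
    ∃ p : Equiv.Perm (Mul w), ∀ z, (p z).1 ≠ z.1 ∧ τ z.1 + τ (p z).1 = c z.1 (p z).1 := by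
  obtain ⟨τ0, hf0, p, hp, he⟩ := wexists w hw hw2 c hs
  have h1 := wfeas_le h.1 p hp
  have h2 := h.2 τ0 hf0
  have heq : ∑ z : Mul w, (c z.1 (p z).1 : ℝ) = 2 * ∑ x, (w x : ℝ) * τ x := by linarith
  have h0 := sum_mul w τ
  have h3 : ∑ z : Mul w, τ (p z).1 = ∑ z : Mul w, τ z.1 := Equiv.sum_comp p (fun z => τ z.1)
  have h4 : ∑ z : Mul w, (τ z.1 + τ (p z).1) = ∑ z : Mul w, (c z.1 (p z).1 : ℝ) := by
    rw [Finset.sum_add_distrib, h3]; linarith
  have h5 := (Finset.sum_eq_sum_iff_of_le (fun z _ => h.1 z.1 (p z).1 (hp z).symm)).mp h4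
  exact ⟨p, fun z => ⟨hp z, h5 z (Finset.mem_univ z)⟩⟩

lemma wopt_exists {w : X → ℕ} (hw : ∀ x, 0 < w x) (hw2 : ∀ x, 2 * w x ≤ ∑ y, w y)
    {c : X → X → ℤ} (hs : ∀ x y, c x y = c y x) : ∃ τ, WOpt w c τ := by
  obtain ⟨τ0, hf0, p, hp, he⟩ := wexists w hw hw2 c hs
  refine ⟨τ0, hf0, fun τ' hf' => ?_⟩
  have := wfeas_le hf' p hp
  linarith

/-- Averaging over a finite group. -/
theorem exists_inv_wopt {G W : Type*} [Group G] [Fintype G] [MulAction G X] [MulAction G W]
    (w : X → ℕ) (hw : ∀ x, 0 < w x) (hw2 : ∀ x, 2 * w x ≤ ∑ y, w y)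
    (hwG : ∀ (g : G) x, w (g • x) = w x)
    (c : W → X → X → ℤ) (hs : ∀ v x y, c v x y = c v y x)
    (hinv : ∀ (g : G) v x y, c (g • v) (g • x) (g • y) = c v x y) :
    ∃ τ : W → X → ℝ, (∀ (g : G) v x, τ (g • v) (g • x) = τ v x) ∧ ∀ v, WOpt w (c v) (τ v) := by
  classical
  choose τ0 h0 using fun v => wopt_exists hw hw2 (hs v)
  have hcard : (0 : ℝ) < Fintype.card G := by exact_mod_cast Fintype.card_pos
  refine ⟨fun v x => (∑ g : G, τ0 (g • v) (g • x)) / Fintype.card G, fun h v x => ?_, fun v => ?_⟩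
  · simp only
    congr 1
    rw [← Equiv.sum_comp (Equiv.mulRight h) (fun g : G => τ0 (g • v) (g • x))]
    refine Finset.sum_congr rfl fun g _ => ?_
    simp only [Equiv.coe_mulRight, mul_smul]
  · -- sums are invariant
    have hsum : ∀ (g : G) (F : X → ℝ), ∑ x, (w x : ℝ) * F (g • x) = ∑ x, (w x : ℝ) * F x := by
      intro g F
      have e := Equiv.sum_comp (MulAction.toPerm g : Equiv.Perm X) (fun x => (w x : ℝ) * F x)
      simp only [MulAction.toPerm_apply, hwG] at e
      exact e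
    have hopt : ∀ g : G, WOpt w (c v) (fun x => τ0 (g • v) (g • x)) := by
      intro g
      obtain ⟨hf, hm⟩ := h0 (g • v)
      refine ⟨fun x y hxy => ?_, fun τ' hτ' => ?_⟩
      · have := hf (g • x) (g • y) (fun h => hxy (MulAction.injective g h))
        rwa [hinv] at this
      · have h1 := hm (fun x => τ' (g⁻¹ • x)) (fun x y hxy => by
          have h2 := hτ' (g⁻¹ • x) (g⁻¹ • y) (fun h => hxy (MulAction.injective _ h))
          have h3 := hinv g v (g⁻¹ • x) (g⁻¹ • y)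
          rw [smul_inv_smul, smul_inv_smul] at h3
          rw [h3]; exact h2)
        rw [hsum g⁻¹ τ'] at h1
        rw [hsum g (fun x => τ0 (g • v) x)]
        exact h1
    refine ⟨fun x y hxy => ?_, fun τ' hτ' => ?_⟩
    · simp only
      rw [← add_div, ← Finset.sum_add_distrib, div_le_iff₀ hcard]
      calc ∑ g : G, (τ0 (g • v) (g • x) + τ0 (g • v) (g • y))
          ≤ ∑ _g : G, (c v x y : ℝ) := Finset.sum_le_sum fun g _ => (hopt g).1 x y hxy
        _ = c v x y * Fintype.card G := by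
            rw [Finset.sum_const, Finset.card_univ, nsmul_eq_mul]; ring
    · have e1 : ∑ x, (w x : ℝ) * ((∑ g : G, τ0 (g • v) (g • x)) / Fintype.card G) =
          (∑ g : G, ∑ x, (w x : ℝ) * τ0 (g • v) (g • x)) / Fintype.card G := by
        rw [Finset.sum_comm, Finset.sum_div]
        refine Finset.sum_congr rfl fun x _ => ?_
        rw [← Finset.mul_sum, mul_div_assoc]
      rw [e1, le_div_iff₀ hcard]
      calc (∑ x, (w x : ℝ) * τ' x) * Fintype.card G
          = ∑ _g : G, ∑ x, (w x : ℝ) * τ' x := by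
            rw [Finset.sum_const, Finset.card_univ, nsmul_eq_mul]; ring
        _ ≤ _ := Finset.sum_le_sum fun g _ => (hopt g).2 τ' hτ'

/-- Parity of the optimal half-potentials. -/
theorem wparity {w : X → ℕ} (hw : ∀ x, 0 < w x) (hw2 : ∀ x, 2 * w x ≤ ∑ y, w y)
    (hgen : ∀ A : Finset X, 2 * ∑ x ∈ A, w x ≠ ∑ x, w x)
    {c : X → X → ℤ} (hs : ∀ x y, c x y = c y x) {τ : X → ℝ} (h : WOpt w c τ)
    (hpl : ∀ x y z t, x ≠ y → x ≠ z → x ≠ t → y ≠ z → y ≠ t → z ≠ t →
      ¬ (c x y + c z t < c x z + c y t ∧ c x y + c z t < c x t + c y z)) :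
    ∃ ε : ℤ, (ε = 0 ∨ ε = 1) ∧ ∀ x, ∃ k : ℤ, 2 * τ x = 2 * k + ε := by
  classical
  obtain ⟨p, hpt⟩ := wopt_tight hw hw2 hs h
  have hf := h.1
  -- partners
  let q : X → X := fun x => (p ⟨x, ⟨0, hw x⟩⟩).1
  have hq : ∀ x, q x ≠ x := fun x => (hpt ⟨x, ⟨0, hw x⟩⟩).1
  have ht : ∀ x, τ x + τ (q x) = c x (q x) := fun x => (hpt ⟨x, ⟨0, hw x⟩⟩).2
  have key : ∀ ε : ℤ, (∃ x, ∃ k : ℤ, 2 * τ x = 2 * k + ε) → ∀ z, ∃ k : ℤ, 2 * τ z = 2 * k + ε := by
    rintro ε ⟨x, k, hk⟩ z
    by_contra hz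
    push Not at hz
    set y := q x with hy
    set t := q z with htdef
    have hxy : τ x + τ y = c x y := ht x
    have hzt : τ z + τ t = c z t := ht z
    have hcl : ∀ s : X, ∀ u : X, (∃ k : ℤ, 2 * τ s = 2 * k + ε) →
        (∀ k : ℤ, 2 * τ u ≠ 2 * k + ε) → s ≠ u ∧ τ s + τ u < c s u := by
      rintro s u ⟨k, hk⟩ hu
      have hne : s ≠ u := by rintro rfl; exact hu k hk
      refine ⟨hne, lt_of_le_of_ne (hf s u hne) fun heq => ?_⟩
      apply hu (c s u - k - ε)
      push_cast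
      linarith
    have hyc : ∃ k : ℤ, 2 * τ y = 2 * k + ε :=
      ⟨c x y - k - ε, by push_cast; linarith⟩
    have htc : ∀ k : ℤ, 2 * τ t ≠ 2 * k + ε := by
      intro k' hk'
      apply hz (c z t - k' - ε)
      push_cast
      linarith
    have h1 := hcl x z ⟨k, hk⟩ hz
    have h2 := hcl x t ⟨k, hk⟩ htc
    have h3 := hcl y z hyc hz
    have h4 := hcl y t hyc htc
    refine hpl x y z t (hq x).symm h1.1 h2.1 h3.1 h4.1 (hq z).symm ⟨?_, ?_⟩
    · have : ((c x y + c z t : ℤ) : ℝ) < ((c x z + c y t : ℤ) : ℝ) := by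
        push_cast; linarith [h1.2, h4.2]
      exact_mod_cast this
    · have : ((c x y + c z t : ℤ) : ℝ) < ((c x t + c y z : ℤ) : ℝ) := by
        push_cast; linarith [h2.2, h3.2]
      exact_mod_cast this
  by_cases h0 : ∃ x, ∃ k : ℤ, 2 * τ x = 2 * k + (0 : ℤ)
  · exact ⟨0, Or.inl rfl, key 0 h0⟩
  by_cases h1 : ∃ x, ∃ k : ℤ, 2 * τ x = 2 * k + (1 : ℤ)
  · exact ⟨1, Or.inr rfl, key 1 h1⟩
  exfalso
  push Not at h0 h1
  -- the fractional parts avoid 0 and 1/2
  have hfr : ∀ x, Int.fract (τ x) ≠ 0 ∧ Int.fract (τ x) ≠ 1 / 2 := by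
    intro x
    have hx := Int.floor_add_fract (τ x)
    constructor
    · intro h
      apply h0 x ⌊τ x⌋
      push_cast; linarith
    · intro h
      apply h1 x ⌊τ x⌋
      push_cast; linarith
  have hsw : ∀ z : Mul w, Int.fract (τ z.1) + Int.fract (τ (p z).1) = 1 := by
    intro z
    have e1 := Int.floor_add_fract (τ z.1)
    have e2 := Int.floor_add_fract (τ (p z).1)
    have e3 := (hpt z).2
    have a1 := Int.fract_nonneg (τ z.1)
    have a2 := Int.fract_nonneg (τ (p z).1)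
    have b1 := Int.fract_lt_one (τ z.1)
    have b2 := Int.fract_lt_one (τ (p z).1)
    have c1 : 0 < Int.fract (τ z.1) := lt_of_le_of_ne a1 (hfr z.1).1.symm
    have hZ : Int.fract (τ z.1) + Int.fract (τ (p z).1) =
        ((c z.1 (p z).1 - ⌊τ z.1⌋ - ⌊τ (p z).1⌋ : ℤ) : ℝ) := by
      push_cast; linarith
    have l1 : (0 : ℝ) < ((c z.1 (p z).1 - ⌊τ z.1⌋ - ⌊τ (p z).1⌋ : ℤ) : ℝ) := by
      rw [← hZ]; linarith
    have l2 : ((c z.1 (p z).1 - ⌊τ z.1⌋ - ⌊τ (p z).1⌋ : ℤ) : ℝ) < 2 := by rw [← hZ]; linarith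
    have l1' : 0 < c z.1 (p z).1 - ⌊τ z.1⌋ - ⌊τ (p z).1⌋ := by exact_mod_cast l1
    have l2' : c z.1 (p z).1 - ⌊τ z.1⌋ - ⌊τ (p z).1⌋ < 2 := by exact_mod_cast l2
    have l3 : c z.1 (p z).1 - ⌊τ z.1⌋ - ⌊τ (p z).1⌋ = 1 := by omega
    rw [hZ, l3]; norm_num
  set A : Finset X := Finset.univ.filter fun x => Int.fract (τ x) < 1 / 2 with hA
  set P := Finset.univ.filter fun z : Mul w => z.1 ∈ A with hP
  set Q := Finset.univ.filter fun z : Mul w => ¬ z.1 ∈ A with hQ
  have hPQ : P.card = Q.card := by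
    apply le_antisymm
    · apply Finset.card_le_card_of_injOn p
      · intro z hz
        simp only [hP, hQ, hA, Finset.coe_filter, Finset.mem_filter, Finset.mem_univ, true_and,
          Set.mem_ofPred_eq] at hz ⊢
        have := hsw z
        linarith
      · exact p.injective.injOn
    · apply Finset.card_le_card_of_injOn p
      · intro z hz
        simp only [hP, hQ, hA, Finset.coe_filter, Finset.mem_filter, Finset.mem_univ, true_and,
          Set.mem_ofPred_eq] at hz ⊢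
        have h2 := hsw z
        have h3 : Int.fract (τ z.1) ≠ 1 / 2 := (hfr z.1).2
        have h4 : 1 / 2 < Int.fract (τ z.1) := lt_of_le_of_ne (not_lt.mp hz) h3.symm
        linarith
      · exact p.injective.injOn
  have hcard : P.card + Q.card = Fintype.card (Mul w) := by
    rw [← Finset.card_univ]
    exact Finset.card_filter_add_card_filter_not _
  have hPA : P.card = ∑ x ∈ A, w x := card_filter_mul w A
  rw [card_mul] at hcard
  apply hgen A
  omega

end Pool.Lib18ea5f
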