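import Mathlib
import Pool.Agent.Lib18ea5f.Trans
import Pool.Agent.Lib18ea5f.WAssign

set_option autoImplicit false
set_option linter.unusedSectionVars false

/-!
Weighted transport along almost tight edges.
-/

namespace Pool.Lib18ea5f

open Finset

variable {X : Type*} [Fintype X] [DecidableEq X]

theorem walk_far_w (δ : X → X → ℝ) (hs : ∀ x y, δ x y = δ y x) (hδ : ∀ x y, x ≠ y → 0 ≤ δ x y)
    (η : ℝ) (hη : 0 ≤ η) (q : X → X) (hp : ∀ x, q x ≠ x) (hpt : ∀ x, δ x (q x) = 0)
    (h4 : ∀ x y z t, x ≠ y → x ≠ z → x ≠ t → y ≠ z → y ≠ t → z ≠ t →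
      min (δ x y + δ z t) (δ x t + δ y z) - η ≤ δ x z + δ y t)
    (n : ℕ) {x z : X} (w : (farG δ hs (n * η)).Walk x z) :
    w.length ≤ n → x ≠ z →
      n * η - (w.length - 1) * η < δ x z := by
  induction w with
  | nil => intro _ h; exact absurd rfl h
  | @cons x y z h w ih =>
    intro hl hxz
    rw [SimpleGraph.Walk.length_cons] at hl
    have hxy : x ≠ y ∧ n * η < δ x y := h
    by_cases hyz : y = z
    · subst hyz
      have h1 : (0 : ℝ) ≤ (w.length : ℝ) * η := by positivity
      rw [SimpleGraph.Walk.length_cons]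
      push_cast
      linarith [hxy.2]
    have ih' := ih (by omega) hyz
    have hlpos : 1 ≤ w.length := by
      rcases Nat.eq_zero_or_pos w.length with h0 | h0
      · exact absurd (SimpleGraph.Walk.eq_of_length_eq_zero h0) hyz
      · exact h0
    have hlr : (1 : ℝ) ≤ w.length := by exact_mod_cast hlpos
    have hln : (w.length : ℝ) ≤ n := by
      have : w.length ≤ n := by omega
      exact_mod_cast this
    have hpos : 0 < δ y z := by
      refine lt_of_le_of_lt ?_ ih'
      have : 0 ≤ ((n : ℝ) - (w.length - 1)) * η := mul_nonneg (by linarith) hη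
      linarith
    have hpos2 : 0 < δ y x := by
      rw [hs]
      refine lt_of_le_of_lt ?_ hxy.2
      positivity
    set t := q y with ht
    have h0 : δ y t = 0 := hpt y
    have htx : x ≠ t := by
      intro h
      rw [← h] at h0
      linarith
    have htz : z ≠ t := by
      intro h
      rw [← h] at h0
      linarith
    have hyt : y ≠ t := (hp y).symm
    have h5 := h4 x y z t hxy.1 hxz htx hyz hyt htz
    rw [h0, add_zero] at h5
    have h6 := hδ z t htz
    have h7 := hδ x t htx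
    rw [SimpleGraph.Walk.length_cons]
    push_cast
    refine lt_of_lt_of_le ?_ h5
    have hm : (n : ℝ) * η - (w.length - 1) * η < min (δ x y + δ z t) (δ x t + δ y z) := by
      apply lt_min
      · have : 0 ≤ ((w.length : ℝ) - 1) * η := mul_nonneg (by linarith) hη
        linarith [hxy.2]
      · linarith
    linarith

theorem reach_far_w (δ : X → X → ℝ) (hs : ∀ x y, δ x y = δ y x) (hδ : ∀ x y, x ≠ y → 0 ≤ δ x y)
    (η : ℝ) (hη : 0 ≤ η) (q : X → X) (hp : ∀ x, q x ≠ x) (hpt : ∀ x, δ x (q x) = 0)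
    (h4 : ∀ x y z t, x ≠ y → x ≠ z → x ≠ t → y ≠ z → y ≠ t → z ≠ t →
      min (δ x y + δ z t) (δ x t + δ y z) - η ≤ δ x z + δ y t)
    {x z : X} (h : (farG δ hs (Fintype.card X * η)).Reachable x z) (hxz : x ≠ z) :
    0 < δ x z := by
  classical
  obtain ⟨w⟩ := h
  have hw := w.toPath.2.length_lt
  have h1 := walk_far_w δ hs hδ η hη q hp hpt h4 (Fintype.card X) (w.toPath : _) (by omega) hxz
  refine lt_of_le_of_lt ?_ h1
  have h2 : (((w.toPath : (farG δ hs (Fintype.card X * η)).Walk x z).length : ℕ) : ℝ) ≤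
      Fintype.card X := by exact_mod_cast hw.le
  have h3 : 0 ≤ ((Fintype.card X : ℝ) -
      ((((w.toPath : (farG δ hs (Fintype.card X * η)).Walk x z).length : ℕ) : ℝ) - 1)) * η :=
    mul_nonneg (by linarith) hη
  linarith

/-- An assignment for the weight `d` along almost tight pairs. -/
theorem wtransport {w : X → ℕ} (hw : ∀ x, 0 < w x)
    (hgen : ∀ A : Finset X, 2 * ∑ x ∈ A, w x ≠ ∑ x, w x)
    (δ : X → X → ℝ) (hs : ∀ x y, δ x y = δ y x) (hδ : ∀ x y, x ≠ y → 0 ≤ δ x y)
    (η : ℝ) (hη : 0 ≤ η) (p : Equiv.Perm (Mul w)) (hp : ∀ z, (p z).1 ≠ z.1)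
    (hpt : ∀ z, δ z.1 (p z).1 = 0)
    (h4 : ∀ x y z t, x ≠ y → x ≠ z → x ≠ t → y ≠ z → y ≠ t → z ≠ t →
      min (δ x y + δ z t) (δ x t + δ y z) - η ≤ δ x z + δ y t)
    (d : X → ℕ)
    (hnef : ∀ A : Finset X, 2 * ∑ x ∈ A, w x < ∑ x, w x → 2 * ∑ x ∈ A, d x ≤ ∑ x, d x) :
    ∃ σ : Equiv.Perm (Mul d), ∀ y, (σ y).1 ≠ y.1 ∧ δ y.1 (σ y).1 ≤ Fintype.card X * η := by
  classical
  set Γ := farG δ hs (Fintype.card X * η) with hΓ
  let cc : X → Γ.ConnectedComponent := Γ.connectedComponentMk
  let q : X → X := fun x => (p ⟨x, ⟨0, hw x⟩⟩).1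
  have hq : ∀ x, q x ≠ x := fun x => hp ⟨x, ⟨0, hw x⟩⟩
  have hqt : ∀ x, δ x (q x) = 0 := fun x => hpt ⟨x, ⟨0, hw x⟩⟩
  have hB : ∀ k : Γ.ConnectedComponent,
      2 * ∑ x ∈ Finset.univ.filter (fun x => cc x = k), w x < ∑ x, w x := by
    intro k
    set B : Finset X := Finset.univ.filter (fun x => cc x = k) with hBdef
    set P := Finset.univ.filter fun z : Mul w => z.1 ∈ B with hP
    have h1 : (P.image p) ⊆ Pᶜ := by
      intro y hy
      obtain ⟨z, hz, rfl⟩ := Finset.mem_image.mp hy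
      rw [Finset.mem_compl]
      intro h
      simp only [hP, hBdef, Finset.mem_filter, Finset.mem_univ, true_and] at hz h
      have h2 : Γ.Reachable z.1 (p z).1 :=
        SimpleGraph.ConnectedComponent.eq.mp (hz.trans h.symm)
      have h3 := reach_far_w δ hs hδ η hη q hq hqt h4 h2 (hp z).symm
      rw [hpt z] at h3
      exact lt_irrefl _ h3
    have h2 := Finset.card_le_card h1
    rw [Finset.card_image_of_injective _ p.injective, Finset.card_compl] at h2
    have h3 : P.card ≤ Fintype.card (Mul w) := Finset.card_le_univ _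
    have h5 : P.card = ∑ x ∈ B, w x := card_filter_mul w B
    rw [card_mul] at h2 h3
    have h6 := hgen B
    omega
  obtain ⟨σ, hσ⟩ := exists_perm_ne (Y := Mul d) (fun y => cc y.1) (fun k => by
    have h1 := hnef _ (hB k)
    have h2 := card_filter_mul d (Finset.univ.filter (fun x => cc x = k))
    have h3 : (Finset.univ.filter fun y : Mul d => cc y.1 = k) =
        (Finset.univ.filter fun y : Mul d => y.1 ∈ Finset.univ.filter (fun x => cc x = k)) := by
      ext y; simp
    rw [h3, h2, card_mul]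
    exact h1)
  refine ⟨σ, fun y => ?_⟩
  have h2 : (σ y).1 ≠ y.1 := fun h => hσ y (by rw [h])
  refine ⟨h2, ?_⟩
  by_contra hcon
  push Not at hcon
  apply hσ y
  have hadj : Γ.Adj y.1 (σ y).1 := by
    rw [hΓ]
    exact ⟨h2.symm, hcon⟩
  exact SimpleGraph.ConnectedComponent.eq.mpr hadj.reachable.symm

end Pool.Lib18ea5f
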