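import Mathlib
import Pool.Agent.Lib18ea5f.Balance
import Pool.Agent.Lib18ea5f.WLocalI

set_option autoImplicit false
set_option linter.unusedSectionVars false

/-!
Balancing a configuration, for weights.
-/

namespace Pool.Lib18ea5f

open Finset NumberField
open scoped Pointwise

/-- Balancing: every configuration can be rescaled to a balanced one. -/
theorem wbalanced (K M X : Type*) [Field K] [Field M] [NumberField M] [Algebra K M]
    [Finite (M ≃ₐ[K] M)] [Fintype X] [DecidableEq X] [MulAction (M ≃ₐ[K] M) X]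
    (m : X → ℕ) (hm : ∀ x, 0 < m x)
    (hm2 : ∀ x, 2 * m x ≤ ∑ y, m y) (hmG : ∀ (g : M ≃ₐ[K] M) x, m (g • x) = m x)
    (hgen : ∀ A : Finset X, 2 * ∑ x ∈ A, m x ≠ ∑ x, m x) :
    ∃ C : ℝ, 0 < C ∧ ∀ p : X → X → 𝓞 M, Pfam K p →
      ∃ (l : X → 𝓞 M) (J : Ideal (𝓞 M)) (S : X → ℝ), J ≠ ⊥ ∧
        (∀ (g : M ≃ₐ[K] M) x, l (g • x) = g • l x) ∧ (∀ x, l x ≠ 0) ∧
        (∀ (g : M ≃ₐ[K] M) x, S (g • x) = S x) ∧ (∀ x, 0 < S x) ∧
        (∀ x y, x ≠ y → l x * l y * p x y ∈ J) ∧
        (∀ (w : InfinitePlace M) x y, x ≠ y → w ((l x * l y * p x y : 𝓞 M) : M) ≤ S x * S y) ∧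
        ∀ dd : X → ℕ,
          (∀ A : Finset X, 2 * ∑ x ∈ A, m x < ∑ x, m x → 2 * ∑ x ∈ A, dd x ≤ ∑ x, dd x) →
          ∏ y : Mul dd, (S y.1 ^ Module.finrank ℚ M) ^ 2 ≤
            C ^ Fintype.card (Mul dd) *
            ht (fun σ : Equiv.Perm (Mul dd) => ∏ y, p y.1 (σ y).1) *
            (Ideal.absNorm J : ℝ) ^ Fintype.card (Mul dd) := by
  classical
  obtain ⟨C0, hC0, hmink⟩ := mink_inv K M
  set d := Module.finrank ℚ M with hd
  set n := Fintype.card X with hn
  refine ⟨C0 ^ 2 * Real.exp (3 * n + 1) ^ d, by positivity, fun p hp => ?_⟩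
  obtain ⟨J, b, hJ, hb, hbG, hbJ, hfin⟩ := wfinite_part hp hm hm2 hmG hgen
  obtain ⟨φ, hφG, hφle, hinf⟩ := winf_part hp hm hm2 hmG hgen
  -- representatives
  let r : X → X := fun x => (Quotient.out (Quotient.mk (MulAction.orbitRel (M ≃ₐ[K] M) X) x))
  have hr : ∀ x, ∃ g : M ≃ₐ[K] M, g • r x = x := by
    intro x
    have h1 : (MulAction.orbitRel (M ≃ₐ[K] M) X) (r x) x := Quotient.mk_out x
    rw [MulAction.orbitRel_apply, MulAction.mem_orbit_iff] at h1
    obtain ⟨g, hg⟩ := h1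
    exact ⟨g⁻¹, by rw [← hg, inv_smul_smul]⟩
  have hrG : ∀ (g : M ≃ₐ[K] M) x, r (g • x) = r x := by
    intro g x
    simp only [r]
    congr 1
    apply Quotient.sound
    change (MulAction.orbitRel (M ≃ₐ[K] M) X) (g • x) x
    rw [MulAction.orbitRel_apply]
    exact MulAction.mem_orbit x g
  choose gx hgx using hr
  have hz : ∀ x : X, ∃ z ∈ b x, z ≠ 0 ∧ (∀ h ∈ MulAction.stabilizer (M ≃ₐ[K] M) x, h • z = z) ∧
      ∃ S : ℝ, 0 < S ∧ (∀ w : InfinitePlace M, w (z : M) ≤ S * Real.exp (φ w x)) ∧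
      S ^ d * ∏ w : InfinitePlace M, Real.exp (φ w x) ^ w.mult ≤ C0 * (Ideal.absNorm (b x) : ℝ) := by
    intro x
    refine hmink (MulAction.stabilizer (M ≃ₐ[K] M) x) (b x) (hb x) (fun h hh => ?_)
      (fun w => φ w x) (fun h hh w => ?_)
    · rw [← hbG, MulAction.mem_stabilizer_iff.mp hh]
    · have h1 := hφG h w x
      rwa [MulAction.mem_stabilizer_iff.mp hh] at h1
  choose z hzb hz0 hzH S0 hS0 hzw hSprod using hz
  let l : X → 𝓞 M := fun x => gx x • z (r x)
  let S : X → ℝ := fun x => S0 (r x)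
  have hlG : ∀ (g : M ≃ₐ[K] M) x, l (g • x) = g • l x := by
    intro g x
    simp only [l]
    rw [hrG, smul_smul]
    have h1 : ((g * gx x)⁻¹ * gx (g • x)) ∈ MulAction.stabilizer (M ≃ₐ[K] M) (r x) := by
      rw [MulAction.mem_stabilizer_iff, mul_smul]
      have h2 := hgx (g • x)
      rw [hrG] at h2
      rw [h2, mul_inv_rev, mul_smul, inv_smul_smul]
      rw [inv_smul_eq_iff]
      exact (hgx x).symm
    have h2 := hzH (r x) _ h1
    rw [mul_smul, inv_smul_eq_iff] at h2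
    exact h2
  have hl0 : ∀ x, l x ≠ 0 := by
    intro x h
    simp only [l] at h
    rw [smul_eq_zero_iff_eq] at h
    exact hz0 _ h
  have hSG : ∀ (g : M ≃ₐ[K] M) x, S (g • x) = S x := by
    intro g x
    simp only [S]
    rw [hrG]
  have hSpos : ∀ x, 0 < S x := fun x => hS0 _
  have hlb : ∀ x, l x ∈ b x := by
    intro x
    simp only [l]
    have h1 := Ideal.smul_mem_pointwise_smul (gx x) _ _ (hzb (r x))
    rwa [← hbG, hgx] at h1
  have hlw : ∀ (w : InfinitePlace M) x, w (l x : M) ≤ S x * Real.exp (φ w x) := by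
    intro w x
    have e : w (l x : M) = ((gx x)⁻¹ • w) (z (r x) : M) := by
      rw [InfinitePlace.smul_apply]
      rfl
    rw [e]
    refine (hzw (r x) ((gx x)⁻¹ • w)).trans (le_of_eq ?_)
    have h1 := hφG (gx x) ((gx x)⁻¹ • w) (r x)
    rw [smul_inv_smul, hgx] at h1
    rw [← h1]
  have hSprod' : ∀ x, S x ^ d * ∏ w : InfinitePlace M, Real.exp (φ w x) ^ w.mult ≤
      C0 * (Ideal.absNorm (b x) : ℝ) := by
    intro x
    have h1 := hSprod (r x)
    have e1 : ∏ w : InfinitePlace M, Real.exp (φ w x) ^ w.mult =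
        ∏ w : InfinitePlace M, Real.exp (φ w (r x)) ^ w.mult := by
      rw [← Equiv.prod_comp (MulAction.toPerm (gx x) : Equiv.Perm (InfinitePlace M))
        (fun w => Real.exp (φ w x) ^ w.mult)]
      refine Finset.prod_congr rfl fun w _ => ?_
      simp only [MulAction.toPerm_apply]
      rw [mult_smul_eq]
      have h2 := hφG (gx x) w (r x)
      rw [hgx] at h2
      rw [h2]
    have e2 : Ideal.absNorm (b x) = Ideal.absNorm (b (r x)) := by
      have h2 := hbG (gx x) (r x)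
      rw [hgx] at h2
      rw [h2, absNorm_smul]
    rw [e1, e2]
    exact h1
  refine ⟨l, J, S, hJ, hlG, hl0, hSG, hSpos, fun x y hxy => hbJ x y hxy _ (hlb x) _ (hlb y),
    fun w x y hxy => ?_, fun dd hnef => ?_⟩
  · push_cast
    rw [map_mul, map_mul]
    have h1 := hlw w x
    have h2 := hlw w y
    have h3 := hφle w x y hxy
    have p1 := hSpos x
    have p2 := hSpos y
    calc w (l x : M) * w (l y : M) * w (p x y : M)
        ≤ (S x * Real.exp (φ w x)) * (S y * Real.exp (φ w y)) *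
          Real.exp (-(φ w x + φ w y)) := by
          gcongr
      _ = S x * S y * (Real.exp (φ w x) * Real.exp (φ w y) * Real.exp (-(φ w x + φ w y))) := by
          ring
      _ = S x * S y := by
          rw [← Real.exp_add, ← Real.exp_add]
          simp
  · set N := Fintype.card (Mul dd) with hN
    have eC : (C0 ^ 2 * Real.exp (3 * n + 1) ^ d) ^ N =
        (C0 ^ 2) ^ N * Real.exp (N * (3 * n + 1)) ^ d := by
      rw [mul_pow, ← pow_mul (Real.exp (3 * (n : ℝ) + 1)), mul_comm d N, pow_mul (Real.exp (3 * (n : ℝ) + 1)),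
        ← Real.exp_nat_mul]
    rw [eC]
    set I : Equiv.Perm (Mul dd) → 𝓞 M := fun σ => ∏ y : Mul dd, p y.1 (σ y).1 with hI
    have hinf' : ∀ w : InfinitePlace M,
        Real.exp (-(2 * ∑ y : Mul dd, φ w y.1) - N * (3 * n + 1)) ≤ nv w I := hinf dd hnef
    have hfin' : Ideal.absNorm (cI I) * (∏ y : Mul dd, Ideal.absNorm (b y.1) ^ 2) ≤
        Ideal.absNorm J ^ N := hfin dd hnef
    have hI0 : I ≠ 0 := by
      intro h
      obtain ⟨w⟩ : Nonempty (InfinitePlace M) := inferInstance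
      have h1 := hinf' w
      rw [h] at h1
      have h2 : nv w (0 : Equiv.Perm (Mul dd) → 𝓞 M) = 0 := by
        unfold nv
        simp
      rw [h2] at h1
      exact absurd h1 (not_le.mpr (Real.exp_pos _))
    have hcI := cI_ne_bot hI0
    have hNcI := absNorm_pos hcI
    have hNJ := absNorm_pos hJ
    let E : X → ℝ := fun x => ∏ w : InfinitePlace M, Real.exp (φ w x) ^ w.mult
    have hE : ∀ x, 0 < E x := fun x => Finset.prod_pos fun w _ => pow_pos (Real.exp_pos _) _
    -- product of Minkowski bounds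
    have h1 : (∏ y : Mul dd, (S y.1 ^ d) ^ 2) * ∏ y : Mul dd, E y.1 ^ 2 ≤
        (C0 ^ 2) ^ N * ∏ y : Mul dd, (Ideal.absNorm (b y.1) : ℝ) ^ 2 := by
      rw [← Finset.prod_mul_distrib]
      have e : (C0 ^ 2) ^ N * ∏ y : Mul dd, (Ideal.absNorm (b y.1) : ℝ) ^ 2 =
          ∏ y : Mul dd, (C0 ^ 2 * (Ideal.absNorm (b y.1) : ℝ) ^ 2) := by
        rw [Finset.prod_mul_distrib, Finset.prod_const, Finset.card_univ]
      rw [e]
      refine Finset.prod_le_prod (fun y _ => ?_) fun y _ => ?_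
      · have := hSpos y.1
        have := hE y.1
        positivity
      · rw [← mul_pow, ← mul_pow]
        refine pow_le_pow_left₀ ?_ (hSprod' y.1) 2
        have := hSpos y.1
        have := hE y.1
        positivity
    have h2 : (∏ y : Mul dd, (Ideal.absNorm (b y.1) : ℝ) ^ 2) * (Ideal.absNorm (cI I) : ℝ) ≤
        (Ideal.absNorm J : ℝ) ^ N := by
      rw [mul_comm]
      exact_mod_cast hfin'
    -- infinite part
    have h3' : 1 ≤ (∏ y : Mul dd, E y.1 ^ 2) * (Real.exp (N * (3 * n + 1)) ^ d * infN I) := by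
      have e1 : ∏ w : InfinitePlace M, Real.exp (-(2 * ∑ y : Mul dd, φ w y.1) -
          N * (3 * n + 1)) ^ w.mult ≤ infN I := by
        unfold infN
        refine Finset.prod_le_prod (fun w _ => by positivity) fun w _ => ?_
        exact pow_le_pow_left₀ (Real.exp_pos _).le (hinf' w) _
      have e2 : ∏ y : Mul dd, E y.1 ^ 2 =
          ∏ w : InfinitePlace M, Real.exp (2 * ∑ y : Mul dd, φ w y.1) ^ w.mult := by
        simp only [E]
        simp_rw [← Finset.prod_pow]
        rw [Finset.prod_comm]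
        refine Finset.prod_congr rfl fun w _ => ?_
        simp_rw [← pow_mul, mul_comm w.mult 2, pow_mul]
        rw [Finset.prod_pow]
        congr 1
        rw [Finset.prod_pow, ← Real.exp_sum, ← Real.exp_nat_mul]
        push_cast
        rfl
      rw [← prod_const_mult (K := M) (Real.exp (N * (3 * n + 1))), e2]
      have p1 : 0 ≤ ∏ w : InfinitePlace M, Real.exp (2 * ∑ y : Mul dd, φ w y.1) ^ w.mult :=
        Finset.prod_nonneg fun w _ => by positivity
      have p2 : 0 ≤ ∏ w : InfinitePlace M, Real.exp ((N : ℝ) * (3 * n + 1)) ^ w.mult :=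
        Finset.prod_nonneg fun w _ => by positivity
      refine le_trans (le_of_eq ?_) (mul_le_mul_of_nonneg_left
        (mul_le_mul_of_nonneg_left e1 p2) p1)
      rw [← Finset.prod_mul_distrib, ← Finset.prod_mul_distrib]
      symm
      refine Finset.prod_eq_one fun w _ => ?_
      rw [← mul_pow, ← mul_pow, ← Real.exp_add, ← Real.exp_add]
      have : 2 * ∑ y : Mul dd, φ w y.1 + ((N : ℝ) * (3 * n + 1) +
          (-(2 * ∑ y : Mul dd, φ w y.1) - N * (3 * n + 1))) = 0 := by ring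
      rw [this, Real.exp_zero, one_pow]
    rw [ht_eq hI0]
    have pS : 0 ≤ ∏ y : Mul dd, (S y.1 ^ d) ^ 2 := Finset.prod_nonneg fun y _ => by positivity
    have pE : 0 < ∏ y : Mul dd, E y.1 ^ 2 := Finset.prod_pos fun y _ => by
      have := hE y.1; positivity
    have pI : 0 ≤ infN I := Finset.prod_nonneg fun w _ => pow_nonneg (nv_nonneg w I) _
    have pB : 0 ≤ ∏ y : Mul dd, (Ideal.absNorm (b y.1) : ℝ) ^ 2 :=
      Finset.prod_nonneg fun y _ => by positivity
    generalize (∏ y : Mul dd, (S y.1 ^ d) ^ 2) = PS at *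
    generalize (∏ y : Mul dd, E y.1 ^ 2) = PE at *
    generalize (∏ y : Mul dd, (Ideal.absNorm (b y.1) : ℝ) ^ 2) = PB at *
    have h4 : PS * (Ideal.absNorm (cI I) : ℝ) ≤
        (C0 ^ 2) ^ N * (Ideal.absNorm J : ℝ) ^ N * (Real.exp (N * (3 * n + 1)) ^ d * infN I) := by
      have pX : 0 ≤ Real.exp ((N : ℝ) * (3 * n + 1)) ^ d * infN I := by positivity
      calc PS * (Ideal.absNorm (cI I) : ℝ)
          = (PS * (Ideal.absNorm (cI I) : ℝ)) * 1 := by ring
        _ ≤ (PS * (Ideal.absNorm (cI I) : ℝ)) *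
            (PE * (Real.exp (N * (3 * n + 1)) ^ d * infN I)) := by gcongr
        _ = (PS * PE) * (Ideal.absNorm (cI I) : ℝ) *
            (Real.exp (N * (3 * n + 1)) ^ d * infN I) := by ring
        _ ≤ ((C0 ^ 2) ^ N * PB) * (Ideal.absNorm (cI I) : ℝ) *
            (Real.exp (N * (3 * n + 1)) ^ d * infN I) := by gcongr
        _ = (C0 ^ 2) ^ N * (PB * (Ideal.absNorm (cI I) : ℝ)) *
            (Real.exp (N * (3 * n + 1)) ^ d * infN I) := by ring
        _ ≤ _ := by gcongr
    have e5 : (C0 ^ 2) ^ N * Real.exp (N * (3 * n + 1)) ^ d *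
        (infN I / (Ideal.absNorm (cI I) : ℝ)) * (Ideal.absNorm J : ℝ) ^ N =
        ((C0 ^ 2) ^ N * (Ideal.absNorm J : ℝ) ^ N * (Real.exp (N * (3 * n + 1)) ^ d * infN I)) /
          (Ideal.absNorm (cI I) : ℝ) := by
      field_simp
    rw [e5, le_div_iff₀ hNcI]
    exact h4

end Pool.Lib18ea5f
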