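import Mathlib
import Pool.Agent.Lib18ea5f.ConfRep
import Pool.Agent.Lib18ea5f.WBalance

set_option autoImplicit false
set_option linter.unusedSectionVars false

/-!
Balanced representatives of configurations, for weights.
-/

namespace Pool.Lib18ea5f

open Finset NumberField

lemma three_le_card {X : Type*} [Fintype X] [DecidableEq X] (m : X → ℕ) (hm : ∀ x, 0 < m x)
    (hm2 : ∀ x, 2 * m x ≤ ∑ y, m y) (hgen : ∀ A : Finset X, 2 * ∑ x ∈ A, m x ≠ ∑ x, m x) :
    3 ≤ Fintype.card X := by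
  by_contra hcon
  push Not at hcon
  have h0 : Fintype.card X ≠ 0 := by
    intro h
    have : IsEmpty X := Fintype.card_eq_zero_iff.mp h
    apply hgen ∅
    simp
  have h1 : Fintype.card X ≠ 1 := by
    intro h
    obtain ⟨x, hx⟩ := Fintype.card_eq_one_iff.mp h
    have hu : (Finset.univ : Finset X) = {x} := by
      ext y; simp [hx y]
    have h2 := hm2 x
    rw [hu, Finset.sum_singleton] at h2
    have := hm x
    omega
  have h2 : Fintype.card X = 2 := by omega
  rw [← Finset.card_univ, Finset.card_eq_two] at h2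
  obtain ⟨x, y, hxy, hu⟩ := h2
  have h3 := hm2 x
  have h4 := hm2 y
  have h5 := hgen {x}
  rw [hu, Finset.sum_pair hxy] at h3 h4 h5
  rw [Finset.sum_singleton] at h5
  omega

section rep

variable (K M X : Type*) [Field K] [NumberField K] [Field M] [NumberField M] [Algebra K M]
  [FiniteDimensional K M] [IsGalois K M]
  [Fintype X] [DecidableEq X] [MulAction (M ≃ₐ[K] M) X]

theorem wexists_rep (m : X → ℕ) (hm : ∀ x, 0 < m x)
    (hm2 : ∀ x, 2 * m x ≤ ∑ y, m y) (hmG : ∀ (g : M ≃ₐ[K] M) x, m (g • x) = m x)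
    (hgen : ∀ A : Finset X, 2 * ∑ x ∈ A, m x ≠ ∑ x, m x) :
    ∃ C κ : ℝ, 1 ≤ C ∧ 1 ≤ κ ∧ ∀ P : Config K M X, ∃ (Q : Config K M X) (s : X → ℝ),
      P.Rel Q ∧ (∀ x, 0 < s x) ∧ (∀ (g : M ≃ₐ[K] M) x, s (g • x) = s x) ∧
      (∀ x y, x ≠ y → 1 ≤ s x * s y) ∧
      (∀ d : X → ℕ,
        (∀ A : Finset X, 2 * ∑ x ∈ A, m x < ∑ x, m x → 2 * ∑ x ∈ A, d x ≤ ∑ x, d x) →
        (∏ x, s x ^ d x) ^ (2 * Module.finrank ℚ M) ≤
          C ^ (∑ x, d x) * Height.mulHeight (P.sec d)) ∧
      (fun q : Idx K M X × Idx K M X => wdg (K := K) Q.a Q.b q.1 q.2) ≠ 0 ∧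
      tH (pw (fun e : Idx K M X => s (rp e.1)))
        (fun q : Idx K M X × Idx K M X => wdg (K := K) Q.a Q.b q.1 q.2) ≤
        (κ ^ 2) ^ Module.finrank ℚ K := by
  classical
  have h3 := three_le_card m hm hm2 hgen
  set dM := Module.finrank ℚ M with hdM
  have hdM0 : 0 < dM := Module.finrank_pos
  obtain ⟨C, hC, hbal⟩ := wbalanced K M X m hm hm2 hmG hgen
  obtain ⟨κ, hκ, hwdg⟩ := tH_wdg_le K M X
  refine ⟨max C 1, κ, le_max_right _ _, hκ, fun P => ?_⟩
  -- integral representatives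
  obtain ⟨D, hD, z, hz⟩ := clear_den M (fun q : X × Bool => if q.2 then P.a q.1 else P.b q.1)
  let a0 : X → 𝓞 M := fun x => z (x, true)
  let b0 : X → 𝓞 M := fun x => z (x, false)
  have ha0 : ∀ x, (a0 x : M) = (D : M) * P.a x := fun x => by
    have := hz (x, true); simpa using this
  have hb0 : ∀ x, (b0 x : M) = (D : M) * P.b x := fun x => by
    have := hz (x, false); simpa using this
  have hDM : (D : M) ≠ 0 := by exact_mod_cast hD
  have hDK : (D : K) ≠ 0 := by exact_mod_cast hD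
  have ha0e : ∀ (g : M ≃ₐ[K] M) x, a0 (g • x) = g • a0 x := by
    intro g x
    apply RingOfIntegers.ext
    have : ((g • a0 x : 𝓞 M) : M) = g (a0 x : M) := rfl
    rw [this, ha0, ha0, P.ha, map_mul, map_natCast]
  have hb0e : ∀ (g : M ≃ₐ[K] M) x, b0 (g • x) = g • b0 x := by
    intro g x
    apply RingOfIntegers.ext
    have : ((g • b0 x : 𝓞 M) : M) = g (b0 x : M) := rfl
    rw [this, hb0, hb0, P.hb, map_mul, map_natCast]
  let p : X → X → 𝓞 M := fun x y => a0 x * b0 y - a0 y * b0 x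
  have hpc : ∀ x y, (p x y : M) = (D : M) ^ 2 * P.pl x y := by
    intro x y
    change (a0 x : M) * (b0 y : M) - (a0 y : M) * (b0 x : M) = _
    rw [ha0, hb0, ha0, hb0]
    unfold Config.pl
    ring
  have hp : Pfam K p := by
    refine ⟨fun x y hxy h => ?_, fun x y => ?_, fun x y z t => ?_, fun g x y => ?_⟩
    · have h1 := hpc x y
      rw [h] at h1
      exact (mul_ne_zero (pow_ne_zero _ hDM) (P.hne x y hxy)) h1.symm
    · simp only [p]; ring
    · simp only [p]; ring
    · simp only [p]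
      rw [ha0e, ha0e, hb0e, hb0e, smul_sub, smul_mul', smul_mul']
  obtain ⟨l, J, S, hJ, hlG, hl0, hSG, hS, hlJ, hlw, hprod⟩ := hbal p hp
  have hNJ := absNorm_pos hJ
  let a1 : X → 𝓞 M := fun x => l x * a0 x
  let b1 : X → 𝓞 M := fun x => l x * b0 x
  have ha1 : Eqv K (fun x => (a1 x : M)) := by
    intro g x
    simp only [a1]
    rw [hlG, ha0e, ← smul_mul']
    rfl
  have hb1 : Eqv K (fun x => (b1 x : M)) := by
    intro g x
    simp only [b1]
    rw [hlG, hb0e, ← smul_mul']
    rfl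
  have hab : ∀ x y, a1 x * b1 y - a1 y * b1 x = l x * l y * p x y := by
    intro x y
    simp only [a1, b1, p]; ring
  let Q : Config K M X :=
    { a := fun x => (a1 x : M)
      b := fun x => (b1 x : M)
      ha := ha1
      hb := hb1
      hne := fun x y hxy h => by
        have h1 : ((a1 x * b1 y - a1 y * b1 x : 𝓞 M) : M) = 0 := h
        rw [hab] at h1
        have h2 : l x * l y * p x y = 0 := RingOfIntegers.ext h1
        exact (mul_ne_zero (mul_ne_zero (hl0 x) (hl0 y)) (hp.ne0 x y hxy)) h2 }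
  set ρ := (Ideal.absNorm J : ℝ) ^ ((2 * dM : ℕ) : ℝ)⁻¹ with hρdef
  have hρ : 0 < ρ := Real.rpow_pos_of_pos hNJ _
  have hρJ : ρ ^ (2 * dM) = (Ideal.absNorm J : ℝ) :=
    Real.rpow_inv_natCast_pow hNJ.le (by omega)
  have hrel : P.Rel Q := by
    refine ⟨fun x => (l x : M), fun g x => by simp only [hlG]; rfl, fun x h => hl0 x ?_,
      (D : K), 0, 0, (D : K), ?_, fun x => ?_⟩
    · have h' : (l x : M) = 0 := h
      exact RingOfIntegers.ext h'
    · simp only [mul_zero, sub_zero]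
      exact mul_ne_zero hDK hDK
    · simp only [map_natCast, map_zero, zero_mul, add_zero, zero_add]
      constructor
      · change (l x : M) * (a0 x : M) = _
        rw [ha0]
      · change (l x : M) * (b0 x : M) = _
        rw [hb0]
  obtain ⟨x0, y0, hxy0⟩ : ∃ x0 y0 : X, x0 ≠ y0 := by
    have : 1 < Fintype.card X := by omega
    exact Fintype.exists_pair_of_one_lt_card this
  have hwne : (fun q : Idx K M X × Idx K M X => wdg (K := K) Q.a Q.b q.1 q.2) ≠ 0 := by
    obtain ⟨e, f, _, _, hef⟩ := exists_wdg_ne (K := K) ha1 hb1 (Q.hne x0 y0 hxy0)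
    intro h
    exact hef (congrFun h (e, f))
  refine ⟨Q, fun x => S x / ρ, hrel, fun x => div_pos (hS x) hρ, fun g x => by simp only [hSG],
    fun x y hxy => ?_, fun d hnef => ?_, hwne, ?_⟩
  · -- norms
    have h1 : Ideal.absNorm J ∣ Ideal.absNorm (Ideal.span {l x * l y * p x y}) := by
      apply map_dvd
      rw [Ideal.dvd_span_singleton]
      exact hlJ x y hxy
    have hne : l x * l y * p x y ≠ 0 :=
      mul_ne_zero (mul_ne_zero (hl0 x) (hl0 y)) (hp.ne0 x y hxy)
    have h2 : (Ideal.absNorm J : ℝ) ≤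
        ∏ w : InfinitePlace M, w ((l x * l y * p x y : 𝓞 M) : M) ^ w.mult := by
      rw [prod_inf_eq_absNorm]
      have h4 : Ideal.absNorm (Ideal.span {l x * l y * p x y}) ≠ 0 := by
        rw [Ne, Ideal.absNorm_eq_zero_iff, Ideal.span_singleton_eq_bot]; exact hne
      exact_mod_cast Nat.le_of_dvd (Nat.pos_of_ne_zero h4) h1
    have h5 : ∏ w : InfinitePlace M, w ((l x * l y * p x y : 𝓞 M) : M) ^ w.mult ≤
        (S x * S y) ^ dM := by
      rw [hdM, ← prod_const_mult (K := M)]
      refine Finset.prod_le_prod (fun w _ => pow_nonneg (apply_nonneg _ _) _) fun w _ => ?_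
      exact pow_le_pow_left₀ (apply_nonneg _ _) (hlw w x y hxy) _
    have h6 : (ρ ^ 2) ^ dM ≤ (S x * S y) ^ dM := by
      rw [← pow_mul, hρJ]
      exact h2.trans h5
    have h7 : ρ ^ 2 ≤ S x * S y :=
      le_of_pow_le_pow_left₀ hdM0.ne' (mul_pos (hS x) (hS y)).le h6
    have e : S x / ρ * (S y / ρ) = S x * S y / ρ ^ 2 := by
      field_simp
    rw [e, le_div_iff₀ (by positivity), one_mul]
    exact h7
  · -- product
    let Y := Mul d
    have hcardY : Fintype.card Y = ∑ x, d x := card_mul d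
    have hprod' := hprod d hnef
    have e1 : ∏ y : Y, (S y.1 ^ dM) ^ 2 = (∏ x, S x ^ d x) ^ (2 * dM) := by
      rw [← Finset.prod_pow]
      simp only [Y]
      rw [Fintype.prod_sigma]
      refine Finset.prod_congr rfl fun x _ => ?_
      simp only [Finset.prod_const, Finset.card_univ, Fintype.card_fin]
      rw [← pow_mul, ← pow_mul, ← pow_mul]
      congr 1
      ring
    have e2 : (∏ x, (S x / ρ) ^ d x) ^ (2 * dM) =
        (∏ x, S x ^ d x) ^ (2 * dM) / (Ideal.absNorm J : ℝ) ^ Fintype.card Y := by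
      have e0 : (ρ ^ Fintype.card Y) ^ (2 * dM) = (Ideal.absNorm J : ℝ) ^ Fintype.card Y := by
        rw [← pow_mul, mul_comm, pow_mul, hρJ]
      simp_rw [div_pow]
      rw [Finset.prod_div_distrib, div_pow, Finset.prod_pow_eq_pow_sum, ← hcardY, e0]
    have e3 : ht (fun σ : Equiv.Perm Y => ∏ y, p y.1 (σ y).1) = Height.mulHeight (P.sec d) := by
      unfold ht
      have e4 : (fun σ : Equiv.Perm Y => ((∏ y, p y.1 (σ y).1 : 𝓞 M) : M)) =
          ((D : M) ^ 2) ^ Fintype.card Y • P.sec d := by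
        funext σ
        change algebraMap (𝓞 M) M (∏ y, p y.1 (σ y).1) = _
        rw [map_prod, Pi.smul_apply, smul_eq_mul]
        unfold Config.sec
        rw [← Finset.card_univ, ← Finset.prod_const, ← Finset.prod_mul_distrib]
        exact Finset.prod_congr rfl fun y _ => hpc _ _
      rw [e4, Height.mulHeight_smul_eq_mulHeight _ (pow_ne_zero _ (pow_ne_zero _ hDM))]
    rw [e2, div_le_iff₀ (by positivity), ← e1]
    rw [e3] at hprod'
    refine hprod'.trans ?_
    have := Height.mulHeight_pos (P.sec d)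
    rw [← hcardY]
    gcongr
    exact le_max_left _ _
  · exact hwdg a1 b1 ha1 hb1 J hJ S hS hSG (fun x y hxy => by rw [hab]; exact hlJ x y hxy)
      (fun w x y hxy => by rw [hab]; exact hlw w x y hxy) ρ hρ hρJ hwne

end rep

end Pool.Lib18ea5f
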