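import Mathlib
import Pool.Agent.Lib18ea5f.ConfPivot
import Pool.Agent.Lib18ea5f.WRep

set_option autoImplicit false
set_option linter.unusedSectionVars false

/-!
Pivots, for weights, and the bound for unstable pairs.
-/

namespace Pool.Lib18ea5f

open Finset NumberField

section

variable (K M X : Type*) [Field K] [NumberField K] [Field M] [NumberField M] [Algebra K M]
  [FiniteDimensional K M] [IsGalois K M]
  [Fintype X] [DecidableEq X] [MulAction (M ≃ₐ[K] M) X]

theorem wexists_rep2 (m : X → ℕ) (hm : ∀ x, 0 < m x)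
    (hm2 : ∀ x, 2 * m x ≤ ∑ y, m y) (hmG : ∀ (g : M ≃ₐ[K] M) x, m (g • x) = m x)
    (hgen : ∀ A : Finset X, 2 * ∑ x ∈ A, m x ≠ ∑ x, m x) :
    ∃ C κ : ℝ, 1 ≤ C ∧ 1 ≤ κ ∧ ∀ P : Config K M X, ∃ (Q : Config K M X) (s : X → ℝ)
      (e f : Idx K M X),
      P.Rel Q ∧ (∀ x, 0 < s x) ∧ (∀ (g : M ≃ₐ[K] M) x, s (g • x) = s x) ∧
      (∀ x y, x ≠ y → 1 ≤ s x * s y) ∧
      (∀ d : X → ℕ,
        (∀ A : Finset X, 2 * ∑ x ∈ A, m x < ∑ x, m x → 2 * ∑ x ∈ A, d x ≤ ∑ x, d x) →
        (∏ x, s x ^ d x) ^ (2 * Module.finrank ℚ M) ≤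
          C ^ (∑ x, d x) * Height.mulHeight (P.sec d)) ∧
      e ≠ f ∧ (crd (K := K) Q.a e = 1 ∧ crd (K := K) Q.a f = 0 ∧
        crd (K := K) Q.b e = 0 ∧ crd (K := K) Q.b f = 1) ∧
      s (rp e.1) ≤ s (rp f.1) ∧ (∀ j : Idx K M X, j ≠ e → j ≠ f → s (rp f.1) ≤ s (rp j.1)) ∧
      tH (pw (fun e : Idx K M X => s (rp e.1)))
        (fun q : Idx K M X × Idx K M X => wdg (K := K) Q.a Q.b q.1 q.2) ≤
        (κ ^ 2) ^ Module.finrank ℚ K := by
  classical
  have h3 := three_le_card m hm hm2 hgen
  obtain ⟨C, κ, hC, hκ, hrep⟩ := wexists_rep K M X m hm hm2 hmG hgen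
  refine ⟨C, κ, hC, hκ, fun P => ?_⟩
  obtain ⟨Q, s, hPQ, hs, hsG, hss, hprod, hwne, htH⟩ := hrep P
  have hscl : ∀ x : X, s (rp (cl (K := K) (M := M) x)) = s x := by
    intro x
    obtain ⟨g, hg⟩ := exists_smul_rp (K := K) (M := M) x
    conv_rhs => rw [← hg, hsG]
  have : Nonempty X := ⟨(Fintype.card_pos_iff.mp (by omega)).some⟩
  obtain ⟨x0, _, hx0⟩ := Finset.exists_min_image (Finset.univ : Finset X) s Finset.univ_nonempty
  obtain ⟨y0, hy0m, hy0⟩ := Finset.exists_min_image (Finset.univ.erase x0) s (by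
    rw [← Finset.card_pos, Finset.card_erase_of_mem (Finset.mem_univ _), Finset.card_univ]
    omega)
  have hxy : x0 ≠ y0 := (Finset.ne_of_mem_erase hy0m).symm
  obtain ⟨e, f, he, hf, hef⟩ := exists_wdg_ne (K := K) Q.ha Q.hb (Q.hne x0 y0 hxy)
  have hefne : e ≠ f := by
    rintro rfl
    apply hef
    unfold wdg
    ring
  set w := wdg (K := K) Q.a Q.b e f with hw
  -- the normalised configuration
  set ae := crd (K := K) Q.a e with hae
  set af := crd (K := K) Q.a f with haf
  set be := crd (K := K) Q.b e with hbe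
  set bf := crd (K := K) Q.b f with hbf
  have hwv : w = ae * bf - af * be := rfl
  have hdet : bf / w * (ae / w) - -af / w * (-be / w) ≠ 0 := by
    have : bf / w * (ae / w) - -af / w * (-be / w) = 1 / w := by
      have e1 : bf / w * (ae / w) - -af / w * (-be / w) = (ae * bf - af * be) / w / w := by
        field_simp
      rw [e1, ← hwv, div_self hef]
    rw [this]
    exact one_div_ne_zero hef
  let Q' : Config K M X :=
    { a := fun x => algebraMap K M (bf / w) * Q.a x + algebraMap K M (-af / w) * Q.b x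
      b := fun x => algebraMap K M (-be / w) * Q.a x + algebraMap K M (ae / w) * Q.b x
      ha := fun g x => by
        simp only [map_add, map_mul, AlgEquiv.commutes, Q.ha, Q.hb]
      hb := fun g x => by
        simp only [map_add, map_mul, AlgEquiv.commutes, Q.ha, Q.hb]
      hne := fun x y hxy h => by
        have h1 : (algebraMap K M (bf / w) * Q.a x + algebraMap K M (-af / w) * Q.b x) *
            (algebraMap K M (-be / w) * Q.a y + algebraMap K M (ae / w) * Q.b y) -
            (algebraMap K M (bf / w) * Q.a y + algebraMap K M (-af / w) * Q.b y) *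
            (algebraMap K M (-be / w) * Q.a x + algebraMap K M (ae / w) * Q.b x) =
            algebraMap K M (bf / w * (ae / w) - -af / w * (-be / w)) *
              (Q.a x * Q.b y - Q.a y * Q.b x) := by
          rw [map_sub, map_mul, map_mul]; ring
        rw [h1] at h
        refine (mul_ne_zero ?_ (Q.hne x y hxy)) h
        rw [Ne, FaithfulSMul.algebraMap_eq_zero_iff]
        exact hdet }
  have hQQ' : Q.Rel Q' := by
    refine ⟨fun _ => 1, fun g x => (map_one g).symm, fun _ => one_ne_zero, bf / w, -af / w,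
      -be / w, ae / w, hdet, fun x => ?_⟩
    simp only [one_mul, Q']
    exact ⟨trivial, trivial⟩
  have hca : ∀ j : Idx K M X, crd (K := K) Q'.a j =
      bf / w * crd (K := K) Q.a j + -af / w * crd (K := K) Q.b j := fun j => crd_lin _ _ _ _ _
  have hcb : ∀ j : Idx K M X, crd (K := K) Q'.b j =
      -be / w * crd (K := K) Q.a j + ae / w * crd (K := K) Q.b j := fun j => crd_lin _ _ _ _ _
  have hwdg : ∀ i j : Idx K M X, wdg (K := K) Q'.a Q'.b i j =
      (1 / w) * wdg (K := K) Q.a Q.b i j := by
    intro i j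
    have e0 : (1 : K) / w = bf / w * (ae / w) - -af / w * (-be / w) := by
      have e1 : bf / w * (ae / w) - -af / w * (-be / w) = (ae * bf - af * be) / w / w := by
        field_simp
      rw [e1, ← hwv, div_self hef]
    rw [e0]
    unfold wdg
    rw [hca, hcb, hca, hcb]
    ring
  refine ⟨Q', s, e, f, hPQ.trans hQQ', hs, hsG, hss, hprod, hefne, ⟨?_, ?_, ?_, ?_⟩, ?_, ?_, ?_⟩
  · rw [hca, ← hae, ← hbe]
    have e1 : bf / w * ae + -af / w * be = (ae * bf - af * be) / w := by ring
    rw [e1, ← hwv, div_self hef]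
  · rw [hca, ← haf, ← hbf]; ring
  · rw [hcb, ← hae, ← hbe]; ring
  · rw [hcb, ← haf, ← hbf]
    have e1 : -be / w * af + ae / w * bf = (ae * bf - af * be) / w := by ring
    rw [e1, ← hwv, div_self hef]
  · rw [he, hf, hscl, hscl]
    exact hx0 y0 (Finset.mem_univ _)
  · intro j hje hjf
    refine pivot (fun o => s (rp o)) x0 y0 hxy ?_ ?_ e f he hf hefne j hje hjf
    · simp only [hscl]
      exact hx0 y0 (Finset.mem_univ _)
    · intro z hz1 hz2
      simp only [hscl]
      exact hy0 z (Finset.mem_erase.mpr ⟨hz1, Finset.mem_univ _⟩)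
  · have e1 : (fun q : Idx K M X × Idx K M X => wdg (K := K) Q'.a Q'.b q.1 q.2) =
        (1 / w) • (fun q : Idx K M X × Idx K M X => wdg (K := K) Q.a Q.b q.1 q.2) := by
      funext q
      rw [Pi.smul_apply, smul_eq_mul, hwdg]
    rw [e1, tH_smul hwne (one_div_ne_zero hef)]
    exact htH

/-- The height of a configuration for `e_x + e_y` is trivial. -/
lemma mulHeight_pair (P : Config K M X) {x y : X} (hxy : x ≠ y) :
    Height.mulHeight (P.sec (fun z => (if z = x then 1 else 0) + (if z = y then 1 else 0))) = 1 := by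
  classical
  set d : X → ℕ := fun z => (if z = x then 1 else 0) + (if z = y then 1 else 0) with hd
  have hdx : d x = 1 := by simp [hd, hxy]
  have hdy : d y = 1 := by simp [hd, hxy.symm]
  have hd0 : ∀ z, z ≠ x → z ≠ y → d z = 0 := by
    intro z h1 h2
    simp [hd, h1, h2]
  let yx : Mul d := ⟨x, ⟨0, by omega⟩⟩
  let yy : Mul d := ⟨y, ⟨0, by omega⟩⟩
  have hne : yx ≠ yy := fun h => hxy (congrArg Sigma.fst h)
  have hall : ∀ z : Mul d, z = yx ∨ z = yy := by
    rintro ⟨z, i⟩
    by_cases h1 : z = x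
    · left
      subst h1
      have : i = ⟨0, by omega⟩ := by
        apply Fin.ext
        have := i.2
        simp only
        omega
      rw [this]
    by_cases h2 : z = y
    · right
      subst h2
      have : i = ⟨0, by omega⟩ := by
        apply Fin.ext
        have := i.2
        simp only
        omega
      rw [this]
    · exact absurd i.2 (by have := hd0 z h1 h2; omega)
  have hu : (Finset.univ : Finset (Mul d)) = {yx, yy} := by
    ext z
    simp only [Finset.mem_univ, Finset.mem_insert, Finset.mem_singleton, true_iff]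
    exact hall z
  have hval : ∀ σ : Equiv.Perm (Mul d), P.sec d σ = P.pl x (σ yx).1 * P.pl y (σ yy).1 := by
    intro σ
    unfold Config.sec
    rw [hu, Finset.prod_pair hne]
  have hself : ∀ z, P.pl z z = 0 := by
    intro z
    unfold Config.pl
    ring
  set σ0 : Equiv.Perm (Mul d) := Equiv.swap yx yy with hσ0
  have hσ0v : P.sec d σ0 ≠ 0 := by
    rw [hval, hσ0, Equiv.swap_apply_left, Equiv.swap_apply_right]
    exact mul_ne_zero (P.hne x y hxy) (P.hne y x hxy.symm)
  have hother : ∀ σ, σ ≠ σ0 → P.sec d σ = 0 := by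
    intro σ hσ
    rw [hval]
    rcases hall (σ yx) with h1 | h1
    · rw [h1]
      change P.pl x x * _ = 0
      rw [hself, zero_mul]
    · exfalso
      apply hσ
      ext1 z
      have h2 : σ yy = yx := by
        rcases hall (σ yy) with h | h
        · exact h
        · exfalso
          exact hne (σ.injective (h1.trans h.symm))
      rcases hall z with hz | hz
      · rw [hz, h1, hσ0, Equiv.swap_apply_left]
      · rw [hz, h2, hσ0, Equiv.swap_apply_right]
  have hsub : Subsingleton (Function.support (P.sec d)) := by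
    refine ⟨fun u v => Subtype.ext ?_⟩
    have h1 : ∀ u : Function.support (P.sec d), u.1 = σ0 := by
      intro u
      by_contra h
      exact u.2 (hother u.1 h)
    rw [h1 u, h1 v]
  rw [Height.mulHeight_eq_mulHeight_restrict_support]
  exact Height.mulHeight_eq_one_of_subsingleton _

end

end Pool.Lib18ea5f
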