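import Mathlib
import Pool.Agent.Lib18ea5f.ConfCount
import Pool.Agent.Lib18ea5f.WPivot

set_option autoImplicit false
set_option linter.unusedSectionVars false

/-!
Counting configurations of bounded height, for weights.
-/

namespace Pool.Lib18ea5f

open Finset NumberField

/-- the linear program with the corrections from the unstable pairs -/
lemma lp3 {X : Type*} [Fintype X] [DecidableEq X] (l : X → ℝ) (h : ∀ x y, x ≠ y → 0 ≤ l x + l y)
    (u : X → ℝ) (c : X → X → ℝ) (hcs : ∀ x y, c x y = c y x) (hcd : ∀ x, c x x = 0)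
    (B : ℝ) (hB : ∀ x y, x ≠ y → c x y ≠ 0 → l x + l y ≤ B) (hB0 : 0 ≤ B)
    (he : ∀ x, 0 ≤ u x + ∑ y, c x y)
    (he2 : ∀ x, 2 * (u x + ∑ y, c x y) ≤ ∑ z, (u z + ∑ y, c z y)) :
    -((∑ x, ∑ y, |c x y|) * B / 2) ≤ ∑ x, u x * l x := by
  have h1 := lp1 l h (fun x => u x + ∑ y, c x y) he he2
  have h2 : ∑ x, (u x + ∑ y, c x y) * l x = ∑ x, u x * l x + ∑ x, ∑ y, c x y * l x := by
    rw [← Finset.sum_add_distrib]
    refine Finset.sum_congr rfl fun x _ => ?_
    rw [add_mul, Finset.sum_mul]
  have h3 : ∑ x, ∑ y, c x y * l x = ∑ x, ∑ y, c x y * l y := by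
    rw [Finset.sum_comm]
    refine Finset.sum_congr rfl fun x _ => Finset.sum_congr rfl fun y _ => ?_
    rw [hcs]
  have h4 : 2 * ∑ x, ∑ y, c x y * l x ≤ ∑ x, ∑ y, |c x y| * B := by
    have e : 2 * ∑ x, ∑ y, c x y * l x = ∑ x, ∑ y, c x y * (l x + l y) := by
      rw [two_mul]
      conv_lhs => rw [h3]
      rw [← h3]
      nth_rewrite 2 [h3]
      rw [← Finset.sum_add_distrib]
      refine Finset.sum_congr rfl fun x _ => ?_
      rw [← Finset.sum_add_distrib]
      refine Finset.sum_congr rfl fun y _ => ?_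
      ring
    rw [e]
    refine Finset.sum_le_sum fun x _ => Finset.sum_le_sum fun y _ => ?_
    by_cases hxy : x = y
    · subst hxy
      rw [hcd]; simp
    by_cases hc : c x y = 0
    · rw [hc]; simp
    have h5 := h x y hxy
    have h6 := hB x y hxy hc
    calc c x y * (l x + l y) ≤ |c x y| * (l x + l y) :=
          mul_le_mul_of_nonneg_right (le_abs_self _) h5
      _ ≤ |c x y| * B := mul_le_mul_of_nonneg_left h6 (abs_nonneg _)
  have h5 : ∑ x, ∑ y, |c x y| * B = (∑ x, ∑ y, |c x y|) * B := by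
    rw [Finset.sum_mul]
    refine Finset.sum_congr rfl fun x _ => ?_
    rw [Finset.sum_mul]
  rw [h2] at h1
  rw [h5] at h4
  linarith

section

variable {K M X : Type*} [Field K] [NumberField K] [Field M] [NumberField M] [Algebra K M]
  [FiniteDimensional K M] [IsGalois K M]
  [Fintype X] [DecidableEq X] [MulAction (M ≃ₐ[K] M) X]

/-- The count for finite families of inequivalent configurations. -/
theorem wconf_count (w : X → ℕ) (hw : ∀ x, 0 < w x)
    (hw2 : ∀ x, 2 * w x ≤ ∑ y, w y) (hwG : ∀ (g : M ≃ₐ[K] M) x, w (g • x) = w x)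
    (hgen : ∀ A : Finset X, 2 * ∑ x ∈ A, w x ≠ ∑ x, w x) (d : X → ℕ)
    (hnef : ∀ A : Finset X, 2 * ∑ x ∈ A, w x < ∑ x, w x → 2 * ∑ x ∈ A, d x ≤ ∑ x, d x)
    (t : ℝ) (ht0 : 0 < t) (c : X → X → ℝ) (hcs : ∀ x y, c x y = c y x) (hcd : ∀ x, c x x = 0)
    (hcu : ∀ x y, x ≠ y → 2 * (w x + w y) < ∑ z, w z → c x y = 0)
    (ht : ∀ x, 0 ≤ t * d x - 2 + ∑ y, c x y ∧
      2 * (t * d x - 2 + ∑ y, c x y) ≤ ∑ z, (t * d z - 2 + ∑ y, c z y)) :
    ∃ C' : ℝ, 0 < C' ∧ ∀ T : ℝ, 1 ≤ T → ∀ S : Finset (Config K M X),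
      (∀ P ∈ S, P.height d ≤ T) → (∀ P ∈ S, ∀ P' ∈ S, P.Rel P' → P = P') →
      (S.card : ℝ) ≤ C' * T ^ t * (1 + Real.log T) ^ (3 * Fintype.card X) := by
  classical
  have h3 := three_le_card w hw hw2 hgen
  obtain ⟨C0, κ, hC0, hκ, hrep⟩ := wexists_rep2 K M X w hw hw2 hwG hgen
  set dK := Module.finrank ℚ K with hdK
  set dM := Module.finrank ℚ M with hdM
  set r := Module.finrank K M with hr
  have hr0 : 0 < r := Module.finrank_pos
  have hdK0 : 0 < dK := Module.finrank_pos
  have hdr : dK * r = dM := Module.finrank_mul_finrank ℚ K M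
  obtain ⟨m, hm⟩ : ∃ m, Fintype.card X = m + 2 := ⟨Fintype.card X - 2, by omega⟩
  have hκ0 : 0 < κ := lt_of_lt_of_le one_pos hκ
  have hXne : Nonempty X := ⟨(Fintype.card_pos_iff.mp (by omega)).some⟩
  have hlogC0 : 0 ≤ Real.log C0 := Real.log_nonneg hC0
  set E := (∑ x, ∑ y, |c x y|) * Real.log C0 / 2 with hE
  have hcabs : 0 ≤ ∑ x, ∑ y, |c x y| :=
    Finset.sum_nonneg fun x _ => Finset.sum_nonneg fun y _ => abs_nonneg _
  have hE0 : 0 ≤ E := by positivity
  set B0 := C0 ^ (∑ x, d x) with hB0def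
  have hB0 : 1 ≤ B0 := one_le_pow₀ hC0
  set C := B0 * Real.exp (dK * E / t) with hCdef
  have hexp1 : 1 ≤ Real.exp (dK * E / t) := Real.one_le_exp (by positivity)
  have hC : 1 ≤ C := by
    rw [hCdef]
    nlinarith
  have hlogB0 : 0 ≤ Real.log B0 := Real.log_nonneg hB0
  have hlogCeq : Real.log C = Real.log B0 + dK * E / t := by
    rw [hCdef, Real.log_mul (by linarith) (Real.exp_pos _).ne', Real.log_exp]
  have hlogC : 0 ≤ Real.log C := Real.log_nonneg hC
  choose Q s e f hPQ hs hsG hss hprod hef hcrd hmin1 hmin2 htH using hrep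
  have hscl : ∀ P, ∀ x : X, s P (rp (cl (K := K) (M := M) x)) = s P x := by
    intro P x
    obtain ⟨g, hg⟩ := exists_smul_rp (K := K) (M := M) x
    conv_rhs => rw [← hg, hsG]
  let k : Config K M X → X → ℤ := fun P x => ⌈Real.logb 2 (s P x)⌉
  have hk1 : ∀ P x, s P x ≤ (2 : ℝ) ^ k P x := by
    intro P x
    have h1 : Real.logb 2 (s P x) ≤ (k P x : ℝ) := Int.le_ceil _
    rw [Real.logb_le_iff_le_rpow (by norm_num) (hs P x), Real.rpow_intCast] at h1
    exact h1
  have hk2 : ∀ P x, (2 : ℝ) ^ k P x ≤ 2 * s P x := by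
    intro P x
    have h1 : (k P x : ℝ) < Real.logb 2 (s P x) + 1 := Int.ceil_lt_add_one _
    have h2 : Real.logb 2 (s P x) + 1 = Real.logb 2 (2 * s P x) := by
      rw [Real.logb_mul (by norm_num) (hs P x).ne', Real.logb_self_eq_one (by norm_num)]
      ring
    rw [h2] at h1
    have h4 := h1.le
    rw [Real.le_logb_iff_rpow_le (by norm_num) (by have := hs P x; positivity),
      Real.rpow_intCast] at h4
    exact h4
  -- constants
  set c0 := 1 + Real.log C with hc0
  have hc0pos : 1 ≤ c0 := by rw [hc0]; linarith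
  set cB := 4 * t * c0 + 7 with hcB
  set cJ := 2 * (dK * Real.log (4 * κ ^ 2) + t * c0) + 2 with hcJ
  have hlogκ : 0 ≤ Real.log (4 * κ ^ 2) := Real.log_nonneg (by nlinarith)
  have hcBpos : 0 < cB := by positivity
  have hcJpos : 0 < cJ := by positivity
  have hlC := one_le_lineC K
  refine ⟨(cB ^ Fintype.card X * (Fintype.card X) ^ 2) *
    ((cJ * (5 * lineC K)) ^ (2 * m) * ((2 * κ) ^ (Fintype.card X * dK) ) ^ 2 * C ^ t), ?_,
    fun T hT S hST hinj => ?_⟩
  · have : (0 : ℝ) < Fintype.card X := by exact_mod_cast (by omega : 0 < Fintype.card X)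
    have h2 : 0 < C ^ t := Real.rpow_pos_of_pos (by linarith) _
    positivity
  have hT0 : 0 < T := by linarith
  have hlogT : 0 ≤ Real.log T := Real.log_nonneg hT
  set Λ := 1 + Real.log T with hΛ
  have hΛ1 : 1 ≤ Λ := by rw [hΛ]; linarith
  set L := Real.log C + Real.log T with hL
  have hL0 : 0 ≤ L := by positivity
  have hLΛ : L ≤ c0 * Λ := by
    rw [hL, hc0, hΛ]
    nlinarith
  set R := t * L / 2 with hR
  have hR0 : 0 ≤ R := by positivity
  -- bounds for a single configuration
  have hlsum : ∀ P ∈ S, dK * (2 * ∑ x, Real.log (s P x)) ≤ t * L ∧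
      ∀ x, Real.log (s P x) ≤ R ∧ -R ≤ Real.log (s P x) := by
    intro P hP
    have hl : ∀ x y, x ≠ y → 0 ≤ Real.log (s P x) + Real.log (s P y) := by
      intro x y hxy
      rw [← Real.log_mul (hs P x).ne' (hs P y).ne']
      exact Real.log_nonneg (hss P x y hxy)
    have hH := hST P hP
    have hmh : Height.mulHeight (P.sec d) ≤ T ^ (2 * r) := by
      unfold Config.height at hH
      have h1 := Height.mulHeight_pos (P.sec d)
      have h2 : Height.mulHeight (P.sec d) =
          (Height.mulHeight (P.sec d) ^ (1 / (2 * (r : ℝ)))) ^ (2 * r) := by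
        rw [← Real.rpow_natCast, ← Real.rpow_mul h1.le]
        have : (1 / (2 * (r : ℝ)) * ((2 * r : ℕ) : ℝ)) = 1 := by
          push_cast
          have : (r : ℝ) ≠ 0 := by exact_mod_cast hr0.ne'
          field_simp
        rw [this, Real.rpow_one]
      rw [h2]
      exact pow_le_pow_left₀ (Real.rpow_nonneg h1.le _) hH _
    have hpr := (hprod P d hnef).trans
      (mul_le_mul_of_nonneg_left hmh (by linarith : (0 : ℝ) ≤ B0))
    have hlp : (2 * dM : ℝ) * ∑ x, d x * Real.log (s P x) ≤
        Real.log B0 + 2 * r * Real.log T := by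
      have h1 : 0 < ∏ x, s P x ^ d x := Finset.prod_pos fun x _ => pow_pos (hs P x) _
      have h2 := Real.log_le_log (pow_pos h1 _) hpr
      rw [Real.log_pow, Real.log_prod (fun x _ => (pow_pos (hs P x) _).ne'),
        Real.log_mul (by linarith) (pow_pos hT0 _).ne', Real.log_pow] at h2
      simp_rw [Real.log_pow] at h2
      push_cast at h2
      have e : Real.log B0 = (∑ x, (d x : ℝ)) * Real.log C0 := by
        rw [hB0def, Real.log_pow]; push_cast; rfl
      rw [e]
      exact h2
    have hrR : (1 : ℝ) ≤ r := by exact_mod_cast hr0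
    have hlp2 : (dK : ℝ) * ∑ x, d x * Real.log (s P x) ≤ Real.log B0 + Real.log T := by
      have e1 : (dM : ℝ) = dK * r := by rw [← hdr]; push_cast; ring
      rw [e1] at hlp
      have h1 : (2 * r : ℝ) * ((dK : ℝ) * ∑ x, d x * Real.log (s P x)) ≤
          (2 * r) * (Real.log B0 + Real.log T) := by
        calc (2 * r : ℝ) * ((dK : ℝ) * ∑ x, d x * Real.log (s P x))
            = (2 * (dK * r) : ℝ) * ∑ x, d x * Real.log (s P x) := by ring
          _ ≤ Real.log B0 + 2 * r * Real.log T := hlp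
          _ ≤ 2 * r * Real.log B0 + 2 * r * Real.log T := by nlinarith
          _ = (2 * r) * (Real.log B0 + Real.log T) := by ring
      exact le_of_mul_le_mul_left h1 (by positivity)
    have hun : ∀ x y, x ≠ y → c x y ≠ 0 →
        Real.log (s P x) + Real.log (s P y) ≤ Real.log C0 := by
      intro x y hxy hcxy
      have hun1 : ¬ 2 * (w x + w y) < ∑ z, w z := fun h => hcxy (hcu x y hxy h)
      have hpair := hprod P (fun z => (if z = x then 1 else 0) + (if z = y then 1 else 0)) (by
        intro A hA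
        rw [Finset.sum_add_distrib, Finset.sum_add_distrib, Finset.sum_ite_eq', Finset.sum_ite_eq',
          Finset.sum_ite_eq', Finset.sum_ite_eq']
        simp only [Finset.mem_univ, if_true]
        by_cases hxA : x ∈ A
        · by_cases hyA : y ∈ A
          · exfalso
            have h4 : w x + w y ≤ ∑ z ∈ A, w z := by
              rw [← Finset.sum_pair hxy]
              refine Finset.sum_le_sum_of_subset ?_
              intro z hz
              rcases Finset.mem_insert.mp hz with h | h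
              · rw [h]; exact hxA
              · rw [Finset.mem_singleton.mp h]; exact hyA
            omega
          · simp [hxA, hyA]
        · split_ifs <;> simp)
      rw [mulHeight_pair K M X P hxy, mul_one, Finset.sum_add_distrib, Finset.sum_ite_eq',
        Finset.sum_ite_eq'] at hpair
      simp only [Finset.mem_univ, if_true] at hpair
      have hpp : ∏ z, s P z ^ ((if z = x then 1 else 0) + (if z = y then 1 else 0)) =
          s P x * s P y := by
        simp_rw [pow_add]
        rw [Finset.prod_mul_distrib]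
        congr 1
        · rw [Finset.prod_eq_single x (fun z _ hz => by simp [hz]) (by simp)]
          simp
        · rw [Finset.prod_eq_single y (fun z _ hz => by simp [hz]) (by simp)]
          simp
      rw [hpp] at hpair
      have h5 := Real.log_le_log (pow_pos (mul_pos (hs P x) (hs P y)) _) hpair
      rw [Real.log_pow, Real.log_pow, Real.log_mul (hs P x).ne' (hs P y).ne'] at h5
      have hdM1 : (1 : ℝ) ≤ dM := by
        have : 0 < dM := Module.finrank_pos
        exact_mod_cast this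
      have h6 := hl x y hxy
      push_cast at h5
      nlinarith
    have hlp3 := lp3 (fun x => Real.log (s P x)) hl (fun x => t * d x - 2) c hcs hcd
      (Real.log C0) hun hlogC0 (fun x => (ht x).1) (fun x => (ht x).2)
    rw [← hE] at hlp3
    have e2 : ∑ x, (t * (d x : ℝ) - 2) * Real.log (s P x) =
        t * ∑ x, d x * Real.log (s P x) - 2 * ∑ x, Real.log (s P x) := by
      rw [Finset.mul_sum, Finset.mul_sum, ← Finset.sum_sub_distrib]
      exact Finset.sum_congr rfl fun x _ => by ring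
    rw [e2] at hlp3
    have hdK1 : (1 : ℝ) ≤ dK := by exact_mod_cast hdK0
    have hfirst : dK * (2 * ∑ x, Real.log (s P x)) ≤ t * L := by
      calc dK * (2 * ∑ x, Real.log (s P x)) ≤ dK * (t * ∑ x, d x * Real.log (s P x) + E) := by
            apply mul_le_mul_of_nonneg_left _ (by positivity)
            linarith
        _ = t * (dK * ∑ x, d x * Real.log (s P x)) + dK * E := by ring
        _ ≤ t * (Real.log B0 + Real.log T) + dK * E := by
            linarith [mul_le_mul_of_nonneg_left hlp2 ht0.le]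
        _ = t * L := by
            rw [hL, hlogCeq]
            field_simp
            ring
    have hsum0 : 0 ≤ ∑ x, Real.log (s P x) := by
      have := lp1 (fun x => Real.log (s P x)) hl (fun _ => 1) (fun _ => by norm_num)
        (fun x => by
          rw [Finset.sum_const, Finset.card_univ, nsmul_eq_mul]
          have : (3 : ℝ) ≤ Fintype.card X := by exact_mod_cast h3
          linarith)
      simpa using this
    have hle : ∀ x, Real.log (s P x) ≤ R := by
      intro x
      refine (lp2 (fun x => Real.log (s P x)) hl h3 x).trans ?_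
      rw [hR]
      have : 2 * ∑ x, Real.log (s P x) ≤ dK * (2 * ∑ x, Real.log (s P x)) := by nlinarith
      linarith
    refine ⟨hfirst, fun x => ⟨hle x, ?_⟩⟩
    obtain ⟨y, hy⟩ : ∃ y : X, y ≠ x := by
      have : 1 < Fintype.card X := by omega
      exact Fintype.exists_ne_of_one_lt_card this x
    have h1 := hl x y hy.symm
    have h2 := hle y
    linarith
  -- range of the dyadic exponents
  set B : ℕ := ⌈2 * R⌉₊ + 1 with hB
  have hlog2 : 1 / 2 ≤ Real.log 2 := by
    have := Real.log_two_gt_d9; linarith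
  have hlogb : ∀ y : ℝ, 0 < y → Real.log y ≤ R → -R ≤ Real.log y →
      Real.logb 2 y ≤ 2 * R ∧ -(2 * R) ≤ Real.logb 2 y := by
    intro y hy h1 h2
    have hl2 : 0 < Real.log 2 := by linarith
    unfold Real.logb
    rw [div_le_iff₀ hl2, le_div_iff₀ hl2]
    constructor <;> nlinarith
  have hkB : ∀ P ∈ S, ∀ x, -(B : ℤ) ≤ k P x ∧ k P x ≤ B := by
    intro P hP x
    obtain ⟨_, hx⟩ := hlsum P hP
    obtain ⟨h1, h2⟩ := hlogb (s P x) (hs P x) (hx x).1 (hx x).2
    have h3 : 2 * R ≤ (⌈2 * R⌉₊ : ℝ) := Nat.le_ceil _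
    have h4 : (k P x : ℝ) < Real.logb 2 (s P x) + 1 := Int.ceil_lt_add_one _
    have h5 : Real.logb 2 (s P x) ≤ (k P x : ℝ) := Int.le_ceil _
    have hBr : (B : ℝ) = (⌈2 * R⌉₊ : ℝ) + 1 := by rw [hB]; push_cast; ring
    constructor
    · have : (-(B : ℤ) : ℝ) ≤ (k P x : ℝ) := by push_cast; linarith
      exact_mod_cast this
    · have : (k P x : ℝ) ≤ ((B : ℤ) : ℝ) := by push_cast; linarith
      exact_mod_cast this
  -- J
  set J : ℕ := ⌈2 * (dK * Real.log (4 * κ ^ 2) + t * L)⌉₊ with hJdef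
  have hJP : ∀ P ∈ S, ∀ x y : X, ((κ * (2 : ℝ) ^ k P x) * (κ * (2 : ℝ) ^ k P y)) ^ dK ≤ 2 ^ J := by
    intro P hP x y
    obtain ⟨_, hx⟩ := hlsum P hP
    have p1 : 0 < (2 : ℝ) ^ k P x := by positivity
    have p2 : 0 < (2 : ℝ) ^ k P y := by positivity
    have hpos : 0 < (κ * (2 : ℝ) ^ k P x) * (κ * (2 : ℝ) ^ k P y) := by positivity
    rw [← Real.rpow_natCast 2 J]
    have h1 : (κ * (2 : ℝ) ^ k P x) * (κ * (2 : ℝ) ^ k P y) ≤
        (4 * κ ^ 2) * (s P x * s P y) := by
      calc (κ * (2 : ℝ) ^ k P x) * (κ * (2 : ℝ) ^ k P y)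
          ≤ (κ * (2 * s P x)) * (κ * (2 * s P y)) := by
            have := hk2 P x
            have := hk2 P y
            have := hs P x
            have := hs P y
            gcongr
        _ = _ := by ring
    have h2 : Real.log (((κ * (2 : ℝ) ^ k P x) * (κ * (2 : ℝ) ^ k P y)) ^ dK) ≤
        dK * Real.log (4 * κ ^ 2) + dK * (Real.log (s P x) + Real.log (s P y)) := by
      rw [Real.log_pow]
      have h3 := Real.log_le_log hpos h1
      rw [Real.log_mul (by positivity) (mul_pos (hs P x) (hs P y)).ne',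
        Real.log_mul (hs P x).ne' (hs P y).ne'] at h3
      have h4 : (0 : ℝ) ≤ dK := by positivity
      nlinarith
    have h3 : dK * (Real.log (s P x) + Real.log (s P y)) ≤ t * L := by
      obtain ⟨hf, _⟩ := hlsum P hP
      have hl : ∀ x y, x ≠ y → 0 ≤ Real.log (s P x) + Real.log (s P y) := by
        intro x y hxy
        rw [← Real.log_mul (hs P x).ne' (hs P y).ne']
        exact Real.log_nonneg (hss P x y hxy)
      have g1 := lp2 (fun x => Real.log (s P x)) hl h3 x
      have g2 := lp2 (fun x => Real.log (s P x)) hl h3 y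
      have h4 : (0 : ℝ) ≤ dK := by positivity
      nlinarith
    have h4 : dK * Real.log (4 * κ ^ 2) + t * L ≤ (J : ℝ) * Real.log 2 := by
      have h5 : 2 * (dK * Real.log (4 * κ ^ 2) + t * L) ≤ (J : ℝ) := Nat.le_ceil _
      have h6 : 0 ≤ dK * Real.log (4 * κ ^ 2) + t * L := by positivity
      nlinarith
    rw [← Real.log_le_log_iff (by positivity) (by positivity), Real.log_rpow (by norm_num)]
    linarith
  -- the fibres
  have hfib : ∀ key : (X → ℤ) × Idx K M X × Idx K M X,
      (((S.filter fun P => (k P, e P, f P) = key).card : ℕ) : ℝ) ≤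
        ((J + 1) * (5 * lineC K)) ^ (2 * m) * (((2 * κ) ^ (Fintype.card X * dK)) ^ 2 *
          (C ^ t * T ^ t)) := by
    rintro ⟨k0, e0, f0⟩
    rcases (S.filter fun P => (k P, e P, f P) = (k0, e0, f0)).eq_empty_or_nonempty with he | ⟨P0, hP0⟩
    · rw [he, Finset.card_empty, Nat.cast_zero]
      have h1 : 0 < C ^ t := Real.rpow_pos_of_pos (by linarith) _
      have h2 : 0 < T ^ t := Real.rpow_pos_of_pos hT0 _
      positivity
    have hmem : ∀ P ∈ S.filter (fun P => (k P, e P, f P) = (k0, e0, f0)), P ∈ S ∧ k P = k0 ∧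
        e P = e0 ∧ f P = f0 := by
      intro P hP
      obtain ⟨h1, h2⟩ := Finset.mem_filter.mp hP
      simp only [Prod.mk.injEq] at h2
      exact ⟨h1, h2.1, h2.2.1, h2.2.2⟩
    obtain ⟨hP0S, hk0, he0, hf0⟩ := hmem P0 hP0
    have hkmono : ∀ x y : X, s P0 x ≤ s P0 y → k P0 x ≤ k P0 y := by
      intro x y hxy
      exact Int.ceil_le_ceil (Real.logb_le_logb_of_le (by norm_num) (hs P0 x) hxy)
    have hb := fibre_bound (K := K) (M := M) hm hκ k0
      (fun x => by
        rw [← hk0]
        simp only [k]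
        rw [hscl])
      e0 f0 (by rw [← he0, ← hf0]; exact hef P0) J
      (S.filter (fun P => (k P, e P, f P) = (k0, e0, f0))) Q s
      (fun P hP P' hP' hQ => by
        have h1 := hPQ P
        have h2 := hPQ P'
        rw [← hQ] at h2
        exact hinj P (hmem P hP).1 P' (hmem P' hP').1 (h1.trans h2.symm))
      (fun P _ x => hs P x)
      (fun P hP x => by rw [← (hmem P hP).2.1]; exact hk1 P x)
      (fun P hP => by
        obtain ⟨_, _, g3, g4⟩ := hmem P hP
        rw [← g3, ← g4]; exact hcrd P)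
      (by rw [← hk0, ← he0, ← hf0]; exact hkmono _ _ (hmin1 P0))
      (fun j hj1 hj2 => by
        rw [← hk0, ← hf0]
        exact hkmono _ _ (hmin2 P0 j (by rw [he0]; exact hj1) (by rw [hf0]; exact hj2)))
      (by rw [← hk0]; exact hJP P0 hP0S _ _)
      (fun P _ => htH P)
    refine hb.trans ?_
    refine mul_le_mul_of_nonneg_left ?_ (by positivity)
    -- the product of the weights
    have h1 : ∏ x, κ * (2 : ℝ) ^ k0 x ≤ (2 * κ) ^ Fintype.card X * ∏ x, s P0 x := by
      rw [← Finset.card_univ, ← Finset.prod_const, ← Finset.prod_mul_distrib]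
      refine Finset.prod_le_prod (fun x _ => by positivity) fun x _ => ?_
      rw [← hk0]
      have := hk2 P0 x
      calc κ * (2 : ℝ) ^ k P0 x ≤ κ * (2 * s P0 x) := by gcongr
        _ = 2 * κ * s P0 x := by ring
    have h2 : 0 ≤ ∏ x, κ * (2 : ℝ) ^ k0 x := Finset.prod_nonneg fun x _ => by positivity
    have hps : 0 < ∏ x, s P0 x := Finset.prod_pos fun x _ => hs P0 x
    have h4 : ((∏ x, s P0 x) ^ dK) ^ 2 ≤ C ^ t * T ^ t := by
      rw [← Real.mul_rpow (by linarith) hT0.le]
      have hCT : 0 < C * T := by positivity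
      rw [← Real.log_le_log_iff (by positivity) (Real.rpow_pos_of_pos hCT _), Real.log_rpow hCT,
        Real.log_mul (by linarith) hT0.ne', Real.log_pow, Real.log_pow,
        Real.log_prod (fun x _ => (hs P0 x).ne')]
      have h5 := (hlsum P0 hP0S).1
      push_cast
      linarith
    calc ((∏ x, κ * (2 : ℝ) ^ k0 x) ^ dK) ^ 2
        ≤ (((2 * κ) ^ Fintype.card X * ∏ x, s P0 x) ^ dK) ^ 2 := by gcongr
      _ = ((2 * κ) ^ (Fintype.card X * dK)) ^ 2 * (((∏ x, s P0 x) ^ dK) ^ 2) := by
          rw [mul_pow, ← pow_mul (2 * κ), mul_pow]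
      _ ≤ _ := by gcongr
  -- sum over the keys
  let keys : Finset ((X → ℤ) × Idx K M X × Idx K M X) :=
    (Fintype.piFinset fun _ : X => Finset.Icc (-(B : ℤ)) B) ×ˢ Finset.univ
  have hmaps : ∀ P ∈ S, (k P, e P, f P) ∈ keys := by
    intro P hP
    simp only [keys, Finset.mem_product, Fintype.mem_piFinset, Finset.mem_Icc, Finset.mem_univ,
      and_true]
    exact hkB P hP
  have hcardkeys : (keys.card : ℝ) = (2 * B + 1) ^ Fintype.card X * (Fintype.card X) ^ 2 := by
    simp only [keys]
    rw [Finset.card_product, Fintype.card_piFinset]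
    simp only [Finset.prod_const, Finset.card_univ, Int.card_Icc]
    have e1 : ((B : ℤ) + 1 - -(B : ℤ)).toNat = 2 * B + 1 := by omega
    rw [e1, Fintype.card_prod, card_idx]
    push_cast
    ring
  have hS := Finset.card_eq_sum_card_fiberwise (f := fun P => (k P, e P, f P)) (s := S) (t := keys)
    hmaps
  have hB1 : (2 * B + 1 : ℝ) ≤ cB * Λ := by
    have h1 : (⌈2 * R⌉₊ : ℝ) < 2 * R + 1 := Nat.ceil_lt_add_one (by positivity)
    have hBr : (B : ℝ) = (⌈2 * R⌉₊ : ℝ) + 1 := by rw [hB]; push_cast; ring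
    have h2 : R ≤ t * (c0 * Λ) := by
      rw [hR]
      have : t * L ≤ t * (c0 * Λ) := mul_le_mul_of_nonneg_left hLΛ ht0.le
      have : 0 ≤ t * L := by positivity
      linarith
    rw [hcB, hBr]
    nlinarith
  have hJ1 : (J + 1 : ℝ) ≤ cJ * Λ := by
    have h1 : (J : ℝ) < 2 * (dK * Real.log (4 * κ ^ 2) + t * L) + 1 :=
      Nat.ceil_lt_add_one (by positivity)
    have h2 : t * L ≤ t * (c0 * Λ) := mul_le_mul_of_nonneg_left hLΛ ht0.le
    have h3 : dK * Real.log (4 * κ ^ 2) ≤ dK * Real.log (4 * κ ^ 2) * Λ := by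
      have : 0 ≤ dK * Real.log (4 * κ ^ 2) := by positivity
      nlinarith
    rw [hcJ]
    nlinarith
  have hCt : 0 < C ^ t := Real.rpow_pos_of_pos (by linarith) _
  have hTt : 0 < T ^ t := Real.rpow_pos_of_pos hT0 _
  calc (S.card : ℝ) = ∑ key ∈ keys, (((S.filter fun P => (k P, e P, f P) = key).card : ℕ) : ℝ) := by
        rw [hS]; push_cast; rfl
    _ ≤ ∑ _key ∈ keys, ((J + 1) * (5 * lineC K)) ^ (2 * m) *
          (((2 * κ) ^ (Fintype.card X * dK)) ^ 2 * (C ^ t * T ^ t)) :=
        Finset.sum_le_sum fun key _ => hfib key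
    _ = (2 * B + 1) ^ Fintype.card X * (Fintype.card X) ^ 2 * (((J + 1) * (5 * lineC K)) ^ (2 * m) *
          (((2 * κ) ^ (Fintype.card X * dK)) ^ 2 * (C ^ t * T ^ t))) := by
        rw [Finset.sum_const, nsmul_eq_mul, hcardkeys]
    _ ≤ (cB * Λ) ^ Fintype.card X * (Fintype.card X) ^ 2 * (((cJ * Λ) * (5 * lineC K)) ^ (2 * m) *
          (((2 * κ) ^ (Fintype.card X * dK)) ^ 2 * (C ^ t * T ^ t))) := by
        gcongr
    _ = (cB ^ Fintype.card X * (Fintype.card X) ^ 2) *
          ((cJ * (5 * lineC K)) ^ (2 * m) * ((2 * κ) ^ (Fintype.card X * dK) ) ^ 2 * C ^ t) * T ^ t *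
          Λ ^ (Fintype.card X + 2 * m) := by
        rw [mul_pow, show cJ * Λ * (5 * lineC K) = cJ * (5 * lineC K) * Λ by ring, mul_pow _ Λ,
          pow_add]
        ring
    _ ≤ _ := by
        have hexp : Fintype.card X + 2 * m ≤ 3 * Fintype.card X := by omega
        have hX0 : (0 : ℝ) ≤ Fintype.card X := by positivity
        refine mul_le_mul_of_nonneg_left (pow_le_pow_right₀ hΛ1 hexp) ?_
        positivity

end

end Pool.Lib18ea5f
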