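import Mathlib
import Pool.Agent.Lib18ea5f.FullBox

set_option autoImplicit false

/-!
# Weak Manin conjecture for smooth divisors of multidegree `(1,1,1,1)` in `(P^1)^4`

These are the smooth Fano threefolds of Picard rank 4, number 4.1 of the Mori-Mukai list.
-/

namespace Pool.Agent.Results.MP_18ea5f_nt.WeakManinP1Four

open Finset NumberField
open scoped LinearAlgebra.Projectivization

/-- The value at `v = (v 0, v 1, v 2, v 3)` of the form of multidegree `(1,1,1,1)` with
coefficients `B`. -/
def form {R : Type*} [CommRing R] (B : Fin 2 → Fin 2 → Fin 2 → Fin 2 → R)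
    (v : Fin 4 → Fin 2 → R) : R :=
  ∑ i, ∑ j, ∑ k, ∑ l, B i j k l * (v 0 i * v 1 j * v 2 k * v 3 l)

/-- The determinant of the `2 × 2` matrix of the form in the slots `0, 1` when the slots `2, 3`
are specialised to `z, w`. -/
def detA {R : Type*} [CommRing R] (B : Fin 2 → Fin 2 → Fin 2 → Fin 2 → R)
    (z w : Fin 2 → R) : R :=
  (∑ k, ∑ l, B 0 0 k l * (z k * w l)) * (∑ k, ∑ l, B 1 1 k l * (z k * w l)) -
  (∑ k, ∑ l, B 0 1 k l * (z k * w l)) * (∑ k, ∑ l, B 1 0 k l * (z k * w l))

/-- The determinant of the `2 × 2` matrix of the form in the slots `2, 3` when the slots `0, 1`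
are specialised to `x, y`. -/
def detB {R : Type*} [CommRing R] (B : Fin 2 → Fin 2 → Fin 2 → Fin 2 → R)
    (x y : Fin 2 → R) : R :=
  (∑ i, ∑ j, B i j 0 0 * (x i * y j)) * (∑ i, ∑ j, B i j 1 1 * (x i * y j)) -
  (∑ i, ∑ j, B i j 0 1 * (x i * y j)) * (∑ i, ∑ j, B i j 1 0 * (x i * y j))

/-- The coefficients viewed in the algebraic closure. -/
noncomputable def bc {K : Type} [Field K] (B : Fin 2 → Fin 2 → Fin 2 → Fin 2 → K) :
    Fin 2 → Fin 2 → Fin 2 → Fin 2 → AlgebraicClosure K :=
  fun i j k l => algebraMap K (AlgebraicClosure K) (B i j k l)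

/-- The divisor `X : form B = 0` in `(P^1)^4` is smooth: over the algebraic closure there is no
point at which all the partial derivatives of the form vanish.  (The partial derivatives in the
variables of the slot `i` are the values of the form with the `i`-th argument replaced by the
standard basis vectors.) -/
def SmoothDivisor {K : Type} [Field K] (B : Fin 2 → Fin 2 → Fin 2 → Fin 2 → K) : Prop :=
  ∀ v : Fin 4 → Fin 2 → AlgebraicClosure K, (∀ i, v i ≠ 0) →
    ∃ (i : Fin 4) (u : Fin 2 → AlgebraicClosure K), form (bc B) (Function.update v i u) ≠ 0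

/-- `v` lies on `X` and in the open set `U = X \ {detA = 0 or detB = 0}`. -/
def InU {R : Type*} [CommRing R] (B : Fin 2 → Fin 2 → Fin 2 → Fin 2 → R)
    (v : Fin 4 → Fin 2 → R) : Prop :=
  form B v = 0 ∧ detA B (v 2) (v 3) ≠ 0 ∧ detB B (v 0) (v 1) ≠ 0

open Pool.Lib18ea5f in
theorem result (K : Type) [Field K] [NumberField K] (B : Fin 2 → Fin 2 → Fin 2 → Fin 2 → K)
    (hB : SmoothDivisor B) :
    -- `U` is not empty
    (∃ v : Fin 4 → Fin 2 → AlgebraicClosure K, (∀ i, v i ≠ 0) ∧ InU (bc B) v) ∧
    -- the counting function for the class `a 0 h_0 + ... + a 3 h_3`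
    ∀ a : Fin 4 → ℝ, (∀ i, 0 ≤ a i) → (∀ i j, i ≠ j → 0 < a i + a j) →
    ∀ κ : ℝ, (∀ i j, i ≠ j → 2 ≤ κ * (a i + a j)) →
    ∀ ε : ℝ, 0 < ε → ∃ C : ℝ, ∀ T : ℝ, 1 ≤ T →
      {P : Fin 4 → ℙ K (Fin 2 → K) | InU B (fun i => (P i).rep) ∧
        ∏ i, (P i).mulHeight ^ (a i) ≤ T}.Finite ∧
      ({P : Fin 4 → ℙ K (Fin 2 → K) | InU B (fun i => (P i).rep) ∧
        ∏ i, (P i).mulHeight ^ (a i) ≤ T}.ncard : ℝ) ≤ C * T ^ (κ + ε) := by
  classical
  -- translation of the definitions
  have tform : ∀ {R : Type} [CommRing R] (B : Fin 2 → Fin 2 → Fin 2 → Fin 2 → R)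
      (v : Fin 4 → Fin 2 → R), form B v = Pool.Lib18ea5f.form B (v 0) (v 1) (v 2) (v 3) :=
    fun B v => rfl
  have tdetA : ∀ {R : Type} [CommRing R] (B : Fin 2 → Fin 2 → Fin 2 → Fin 2 → R)
      (z w : Fin 2 → R), detA B z w = dt (con B (tens z w)) := fun B z w => rfl
  have tdetB : ∀ {R : Type} [CommRing R] (B : Fin 2 → Fin 2 → Fin 2 → Fin 2 → R)
      (x y : Fin 2 → R), detB B x y = dt (con (sw B) (tens x y)) := fun B x y => rfl
  have hsm : SmoothForm (bcT B) := by
    intro x y z w hx hy hz hw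
    obtain ⟨i, u, hu⟩ := hB ![x, y, z, w] (by
      intro i
      fin_cases i
      · exact hx
      · exact hy
      · exact hz
      · exact hw)
    refine ⟨u, ?_⟩
    rw [tform] at hu
    have hbc : bc B = bcT B := rfl
    rw [hbc] at hu
    fin_cases i
    · left; simpa using hu
    · right; left; simpa using hu
    · right; right; left; simpa using hu
    · right; right; right; simpa using hu
  have hNK : NoKer B := fun z w hz hw => smooth_con_ne_zero hsm hz hw
  have hNK' : NoKer (sw B) := by
    intro z w hz hw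
    have h1 : bcT (sw B) = sw (bcT B) := rfl
    rw [h1]
    exact smooth_con_ne_zero (smooth_sw hsm) hz hw
  refine ⟨?_, ?_⟩
  · obtain ⟨x, y, z, w, hx, hy, hz, hw, hf, h1, h2⟩ := exists_point hsm
    refine ⟨![x, y, z, w], ?_, ?_, ?_, ?_⟩
    · intro i
      fin_cases i
      · exact hx
      · exact hy
      · exact hz
      · exact hw
    · exact hf
    · exact h1
    · exact h2
  · have hB0 : B ≠ 0 := by
      rintro rfl
      have := hNK ![1, 0] ![1, 0] (by intro h; have := congrFun h 0; simp at this)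
        (by intro h; have := congrFun h 0; simp at this)
      apply this
      funext p
      simp [con, bcT]
    obtain ⟨B0, c, hc, hcB⟩ := exists_int_tensor hB0
    obtain ⟨C1, hC1, hrel⟩ := ht_rel_all B0
    intro a ha hapos κ hκ ε hε
    have hκpos : 0 < κ := by
      have h1 := hapos 0 1 (by decide)
      have h2 := hκ 0 1 (by decide)
      by_contra hneg
      have : κ * (a 0 + a 1) ≤ 0 := mul_nonpos_of_nonpos_of_nonneg (not_lt.mp hneg) h1.le
      linarith
    set ε' := ε / (2 * κ) with hε'
    have hε'0 : 0 < ε' := by positivity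
    obtain ⟨Cb, hCb, hbox⟩ := box_full K hc hcB hNK hNK' ε' hε'0
    obtain ⟨Cl, hCl, hlog⟩ := log_pow_le ε' hε'0 4 C1 hC1
    -- the final constant
    set C : ℝ := Cl * (Cb * ((16 * C1) * (16 * C1) ^ ε')) with hC
    refine ⟨C, fun T hT => ?_⟩
    -- the translation of membership in `U`
    have hmem : ∀ P : Fin 4 → ℙ K (Fin 2 → K), InU B (fun i => (P i).rep) →
        Pool.Lib18ea5f.form B0 (xr (P 0)) (xr (P 1)) (xr (P 2)) (xr (P 3)) = 0 ∧
        detM (Mzw B0 (xr (P 2)) (xr (P 3))) ≠ 0 ∧
        detM (Mzw (sw B0) (xr (P 0)) (xr (P 1))) ≠ 0 := by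
      intro P hP
      obtain ⟨hf, hA, hBB⟩ := hP
      choose d hd hdx using fun i : Fin 4 => xr_spec (P i)
      have e : ∀ i j, (xr (P i) j : K) = d i * (P i).rep j := by
        intro i j
        have := congrFun (hdx i) j
        simpa using this
      refine ⟨?_, ?_, ?_⟩
      · have h1 : ((Pool.Lib18ea5f.form B0 (xr (P 0)) (xr (P 1)) (xr (P 2)) (xr (P 3)) : 𝓞 K) : K)
            = c * (d 0 * d 1 * d 2 * d 3) * form B (fun i => (P i).rep) := by
          simp only [Pool.Lib18ea5f.form, form, Fin.sum_univ_two, map_add, map_mul, hcB, e]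
          ring
        rw [hf, mul_zero] at h1
        exact_mod_cast h1
      · intro h0
        have h1 : ((detM (Mzw B0 (xr (P 2)) (xr (P 3))) : 𝓞 K) : K) =
            (c * (d 2 * d 3)) ^ 2 * detA B ((P 2).rep) ((P 3).rep) := by
          simp only [detM, Mzw, con, tens, detA, LinearMap.coe_mk, AddHom.coe_mk,
            Fin.sum_univ_two, map_add, map_mul, map_sub, hcB, e]
          ring
        rw [h0] at h1
        have h2 := mul_eq_zero.mp (h1.symm.trans (by simp))
        rcases h2 with h2 | h2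
        · exact absurd h2 (pow_ne_zero 2 (mul_ne_zero hc (mul_ne_zero (hd 2) (hd 3))))
        · exact hA h2
      · intro h0
        have h1 : ((detM (Mzw (sw B0) (xr (P 0)) (xr (P 1))) : 𝓞 K) : K) =
            (c * (d 0 * d 1)) ^ 2 * detB B ((P 0).rep) ((P 1).rep) := by
          simp only [detM, Mzw, con, tens, detB, sw, LinearMap.coe_mk, AddHom.coe_mk,
            Fin.sum_univ_two, map_add, map_mul, map_sub, hcB, e]
          ring
        rw [h0] at h1
        have h2 := mul_eq_zero.mp (h1.symm.trans (by simp))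
        rcases h2 with h2 | h2
        · exact absurd h2 (pow_ne_zero 2 (mul_ne_zero hc (mul_ne_zero (hd 0) (hd 1))))
        · exact hBB h2
    have hTκ : 1 ≤ T ^ κ := Real.one_le_rpow hT hκpos.le
    set Bd : ℝ := C1 * T ^ κ with hBd
    have hBd1 : 1 ≤ Bd := by rw [hBd]; nlinarith
    -- bound for finite subsets
    have hfinS : ∀ S : Finset (Fin 4 → ℙ K (Fin 2 → K)),
        (∀ P ∈ S, InU B (fun i => (P i).rep) ∧ ∏ i, (P i).mulHeight ^ (a i) ≤ T) →
        (S.card : ℝ) ≤ C * T ^ (κ + ε) := by
      intro S hS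
      have hprodH : ∀ P ∈ S, ∏ i, ht (xr (P i)) ≤ Bd := by
        intro P hP
        obtain ⟨hU, hTP⟩ := hS P hP
        obtain ⟨m1, m2, m3⟩ := hmem P hU
        apply lp_bound (fun i => ht (xr (P i))) (fun i => one_le_ht _) C1 hC1
          (hrel P m1 m2 m3) a ha κ hκpos.le hκ T
        simpa only [ht_xr] using hTP
      let f : (Fin 4 → ℙ K (Fin 2 → K)) → (Fin 4 → ℕ) :=
        fun P i => ⌊Real.logb 2 (ht (xr (P i)))⌋₊
      set L : ℕ := ⌊Real.logb 2 Bd⌋₊ with hL
      let TT : Finset (Fin 4 → ℕ) := Fintype.piFinset (fun _ => Finset.range (L + 1))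
      have hle : ∀ P ∈ S, ∀ i, ht (xr (P i)) ≤ Bd := by
        intro P hP i
        refine le_trans ?_ (hprodH P hP)
        rw [← Finset.mul_prod_erase univ _ (Finset.mem_univ i)]
        have h1 : (1 : ℝ) ≤ ∏ j ∈ univ.erase i, ht (xr (P j)) := by
          calc (1 : ℝ) = ∏ j ∈ univ.erase i, (1 : ℝ) := by simp
            _ ≤ _ := Finset.prod_le_prod (fun _ _ => zero_le_one) fun j _ => one_le_ht _
        have h2 := ht_pos (xr (P i))
        nlinarith
      have hmaps : ∀ P ∈ S, f P ∈ TT := by
        intro P hP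
        rw [Fintype.mem_piFinset]
        intro i
        rw [Finset.mem_range]
        exact Nat.lt_succ_of_le (Nat.floor_mono
          (Real.logb_le_logb_of_le (by norm_num) (ht_pos _) (hle P hP i)))
      have hcardS := Finset.card_eq_sum_card_fiberwise (f := f) (s := S) (t := TT) hmaps
      have hfib : ∀ g ∈ TT, (((S.filter fun P => f P = g).card : ℕ) : ℝ) ≤
          Cb * ((16 * Bd) * (16 * Bd) ^ ε') := by
        intro g _
        rcases (S.filter fun P => f P = g).eq_empty_or_nonempty with he | ⟨P0, hP0⟩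
        · rw [he]
          simp only [Finset.card_empty, Nat.cast_zero]
          positivity
        have hspec : ∀ P ∈ S.filter (fun P => f P = g), ∀ i,
            (2 : ℝ) ^ (g i) ≤ ht (xr (P i)) ∧ ht (xr (P i)) ≤ 2 * 2 ^ (g i) := by
          intro P hP i
          have h1 := (Finset.mem_filter.mp hP).2
          have h2 := congrFun h1 i
          rw [← h2]
          exact floor_logb_spec (one_le_ht _)
        have hb := hbox (fun i => 2 * 2 ^ (g i)) (fun i => by
            have : (1 : ℝ) ≤ 2 ^ (g i) := one_le_pow₀ (by norm_num)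
            linarith) (S.filter fun P => f P = g)
          (fun P hP => ⟨fun i => (hspec P hP i).2, hmem P (hS P (Finset.mem_filter.mp hP).1).1⟩)
        have hprodX : ∏ i : Fin 4, (2 * (2 : ℝ) ^ (g i)) ≤ 16 * Bd := by
          rw [Finset.prod_mul_distrib]
          have h1 : ∏ i : Fin 4, (2 : ℝ) ^ (g i) ≤ ∏ i, ht (xr (P0 i)) :=
            Finset.prod_le_prod (fun i _ => by positivity) fun i _ => (hspec P0 hP0 i).1
          have h2 := hprodH P0 (Finset.mem_filter.mp hP0).1
          have h3 : ∏ _i : Fin 4, (2 : ℝ) = 16 := by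
            simp; norm_num
          rw [h3]
          have := h1.trans h2
          gcongr
        refine hb.trans ?_
        have hpos : 0 ≤ ∏ i : Fin 4, (2 * (2 : ℝ) ^ (g i)) :=
          Finset.prod_nonneg fun i _ => by positivity
        have h4 := Real.rpow_le_rpow hpos hprodX hε'0.le
        have h5 := Real.rpow_nonneg hpos ε'
        gcongr
      have hTTcard : (TT.card : ℝ) ≤ Cl * (T ^ κ) ^ ε' := by
        have h1 : (TT.card : ℝ) = ((L : ℝ) + 1) ^ 4 := by
          simp only [TT, Fintype.card_piFinset, Finset.card_range, Finset.prod_const,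
            Finset.card_univ, Fintype.card_fin]
          push_cast; ring
        rw [h1]
        refine le_trans ?_ (hlog (T ^ κ) hTκ)
        have h2 : (L : ℝ) ≤ Real.logb 2 Bd := Nat.floor_le (Real.logb_nonneg (by norm_num) hBd1)
        apply pow_le_pow_left₀ (by positivity)
        rw [← hBd]
        linarith
      calc (S.card : ℝ) = ∑ g ∈ TT, (((S.filter fun P => f P = g).card : ℕ) : ℝ) := by
            rw [hcardS]; push_cast; rfl
        _ ≤ ∑ g ∈ TT, Cb * ((16 * Bd) * (16 * Bd) ^ ε') := Finset.sum_le_sum hfib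
        _ = TT.card * (Cb * ((16 * Bd) * (16 * Bd) ^ ε')) := by
            rw [Finset.sum_const, nsmul_eq_mul]
        _ ≤ (Cl * (T ^ κ) ^ ε') * (Cb * ((16 * Bd) * (16 * Bd) ^ ε')) := by gcongr
        _ = C * (T ^ κ * ((T ^ κ) ^ ε' * (T ^ κ) ^ ε')) := by
            have e1 : (16 * Bd) ^ ε' = (16 * C1) ^ ε' * (T ^ κ) ^ ε' := by
              rw [hBd, ← mul_assoc, Real.mul_rpow (by positivity) (by positivity)]
            rw [e1, hC, hBd]; ring
        _ = C * T ^ (κ + ε) := by
            have hT0 : 0 < T := by linarith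
            have e2 : (T ^ κ) ^ ε' * (T ^ κ) ^ ε' = T ^ ε := by
              rw [← Real.rpow_mul hT0.le, ← Real.rpow_add hT0]
              congr 1
              rw [hε']; field_simp; ring
            rw [e2, ← Real.rpow_add hT0]
    -- conclusion
    set S0 := {P : Fin 4 → ℙ K (Fin 2 → K) | InU B (fun i => (P i).rep) ∧
        ∏ i, (P i).mulHeight ^ (a i) ≤ T} with hS0
    have hfinite : S0.Finite := by
      by_contra hinf
      obtain ⟨n, hn⟩ := exists_nat_gt (C * T ^ (κ + ε))
      obtain ⟨S, hSsub, hScard⟩ := Set.Infinite.exists_subset_card_eq hinf n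
      have := hfinS S (fun P hP => hSsub hP)
      rw [hScard] at this
      linarith
    refine ⟨hfinite, ?_⟩
    rw [Set.ncard_eq_toFinset_card _ hfinite]
    exact hfinS _ (fun P hP => by
      have := (Set.Finite.mem_toFinset hfinite).mp hP
      exact this)

end Pool.Agent.Results.MP_18ea5f_nt.WeakManinP1Four
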