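import Mathlib
import Pool.Agent.Lib18ea5f.P2Full

set_option autoImplicit false

/-!
# Weak Manin conjecture for smooth divisors of multidegree `(1,1,1)` in `P^2 × P^2 × P^2`

These are Fano fivefolds with `-K = 2 (h_0 + h_1 + h_2)`.
-/

namespace Pool.Agent.Results.MP_18ea5f_nt.WeakManinTrilinear

open Finset NumberField
open scoped LinearAlgebra.Projectivization

/-- The value at `v = (v 0, v 1, v 2)` of the form of multidegree `(1,1,1)` with
coefficients `B`. -/
def form {R : Type*} [CommRing R] (B : Fin 3 → Fin 3 → Fin 3 → R)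
    (v : Fin 3 → Fin 3 → R) : R :=
  ∑ i, ∑ j, ∑ k, B i j k * (v 0 i * v 1 j * v 2 k)

/-- The `3 × 3` matrix obtained from the form by specialising the slot `s` to `u`. -/
def contr {R : Type*} [CommRing R] (B : Fin 3 → Fin 3 → Fin 3 → R) (s : Fin 3)
    (u : Fin 3 → R) : Matrix (Fin 3) (Fin 3) R := fun p q =>
  ∑ j, (![B j p q, B p j q, B p q j] s) * u j

/-- The coefficients viewed in the algebraic closure. -/
noncomputable def bc {K : Type} [Field K] (B : Fin 3 → Fin 3 → Fin 3 → K) :
    Fin 3 → Fin 3 → Fin 3 → AlgebraicClosure K :=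
  fun i j k => algebraMap K (AlgebraicClosure K) (B i j k)

/-- The divisor `X : form B = 0` in `P^2 × P^2 × P^2` is smooth: over the algebraic closure there
is no point at which all the partial derivatives of the form vanish.  (The partial derivatives in
the variables of the slot `i` are the values of the form with the `i`-th argument replaced by the
standard basis vectors.) -/
def SmoothDivisor {K : Type} [Field K] (B : Fin 3 → Fin 3 → Fin 3 → K) : Prop :=
  ∀ v : Fin 3 → Fin 3 → AlgebraicClosure K, (∀ i, v i ≠ 0) →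
    ∃ (i : Fin 3) (u : Fin 3 → AlgebraicClosure K), form (bc B) (Function.update v i u) ≠ 0

/-- `v` lies on `X` and in the open set `U`, the complement of the three divisors
`det (contr B s (v s)) = 0`. -/
def InU {R : Type*} [CommRing R] (B : Fin 3 → Fin 3 → Fin 3 → R)
    (v : Fin 3 → Fin 3 → R) : Prop :=
  form B v = 0 ∧ ∀ s, (contr B s (v s)).det ≠ 0

open Pool.Lib18ea5f in
theorem result (K : Type) [Field K] [NumberField K] (B : Fin 3 → Fin 3 → Fin 3 → K)
    (hB : SmoothDivisor B) :
    -- `U` is not empty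
    (∃ v : Fin 3 → Fin 3 → AlgebraicClosure K, (∀ i, v i ≠ 0) ∧ InU (bc B) v) ∧
    -- the counting function for the class `a 0 h_0 + a 1 h_1 + a 2 h_2`
    ∀ a : Fin 3 → ℝ, (∀ i, 0 < a i) →
    ∀ κ : ℝ, (∀ i, 2 ≤ κ * a i) →
    ∀ ε : ℝ, 0 < ε → ∃ C : ℝ, ∀ T : ℝ, 1 ≤ T →
      {P : Fin 3 → ℙ K (Fin 3 → K) | InU B (fun i => (P i).rep) ∧
        ∏ i, (P i).mulHeight ^ (a i) ≤ T}.Finite ∧
      ({P : Fin 3 → ℙ K (Fin 3 → K) | InU B (fun i => (P i).rep) ∧
        ∏ i, (P i).mulHeight ^ (a i) ≤ T}.ncard : ℝ) ≤ C * T ^ (κ + ε) := by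
  classical
  have tform : ∀ {R : Type} [CommRing R] (B : Fin 3 → Fin 3 → Fin 3 → R)
      (v : Fin 3 → Fin 3 → R), form B v = tri B (v 0) (v 1) (v 2) := fun B v => rfl
  have tdet0 : ∀ {R : Type} [CommRing R] (B : Fin 3 → Fin 3 → Fin 3 → R) (u : Fin 3 → R),
      (contr B 0 u).det = det3 (My (sw01 B) u) := by
    intro R _ B u
    simp only [Matrix.det_fin_three, contr, det3, My, sw01, row, cr, dot, Fin.sum_univ_three,
      Matrix.cons_val_zero, Matrix.cons_val_one, Matrix.cons_val]
    ring
  have tdet1 : ∀ {R : Type} [CommRing R] (B : Fin 3 → Fin 3 → Fin 3 → R) (u : Fin 3 → R),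
      (contr B 1 u).det = det3 (My B u) := by
    intro R _ B u
    simp only [Matrix.det_fin_three, contr, det3, My, row, cr, dot, Fin.sum_univ_three,
      Matrix.cons_val_zero, Matrix.cons_val_one, Matrix.cons_val]
    ring
  have tdet2 : ∀ {R : Type} [CommRing R] (B : Fin 3 → Fin 3 → Fin 3 → R) (u : Fin 3 → R),
      (contr B 2 u).det = det3 (My (sw12 B) u) := by
    intro R _ B u
    simp only [Matrix.det_fin_three, contr, det3, My, sw12, row, cr, dot, Fin.sum_univ_three,
      Matrix.cons_val_zero, Matrix.cons_val_one, Matrix.cons_val]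
    ring
  have hsm : SmoothTri (bc3 B) := by
    intro x y z hx hy hz
    obtain ⟨i, u, hu⟩ := hB ![x, y, z] (by
      intro i
      fin_cases i
      · exact hx
      · exact hy
      · exact hz)
    refine ⟨u, ?_⟩
    rw [tform] at hu
    have hbc : bc B = bc3 B := rfl
    rw [hbc] at hu
    fin_cases i
    · left; simpa using hu
    · right; left; simpa using hu
    · right; right; simpa using hu
  refine ⟨?_, ?_⟩
  · obtain ⟨x, y, z, hx, hy, hz, hf, h1, h2, h3⟩ := exists_point3 hsm
    refine ⟨![x, y, z], ?_, hf, ?_⟩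
    · intro i
      fin_cases i
      · exact hx
      · exact hy
      · exact hz
    · intro s
      fin_cases s
      · have := tdet0 (bc B) x
        intro h
        exact h1 (this.symm.trans h)
      · have := tdet1 (bc B) y
        intro h
        exact h2 (this.symm.trans h)
      · have := tdet2 (bc B) z
        intro h
        exact h3 (this.symm.trans h)
  · have hB0 : B ≠ 0 := by
      rintro rfl
      have e1 : (![1, 0, 0] : Fin 3 → AlgebraicClosure K) ≠ 0 := by
        intro h; have := congrFun h 0; simp at this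
      obtain ⟨u, hu⟩ := hsm ![1, 0, 0] ![1, 0, 0] ![1, 0, 0] e1 e1 e1
      simp [tri, bc3] at hu
    obtain ⟨B0, c, hc, hcB⟩ := exists_int_tensor3 hB0
    intro a ha κ hκ ε hε
    have hκpos : 0 < κ := by
      have h1 := ha 0
      have h2 := hκ 0
      by_contra hneg
      have : κ * a 0 ≤ 0 := mul_nonpos_of_nonpos_of_nonneg (not_lt.mp hneg) h1.le
      linarith
    set ε' := ε / (2 * κ) with hε'
    have hε'0 : 0 < ε' := by positivity
    obtain ⟨Cb, hCb, hbox⟩ := box_full3 K hsm hc hcB ε' hε'0
    obtain ⟨Cl, hCl, hlog⟩ := log_pow_le ε' hε'0 3 1 le_rfl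
    set C : ℝ := Cl * (Cb * (64 * 8 ^ ε')) with hC
    refine ⟨C, fun T hT => ?_⟩
    have hT0 : 0 < T := by linarith
    -- the translation of membership in `U`
    have hmem : ∀ P : Fin 3 → ℙ K (Fin 3 → K), InU B (fun i => (P i).rep) →
        tri B0 (xq (P 0)) (xq (P 1)) (xq (P 2)) = 0 ∧
        det3 (My (sw01 B0) (xq (P 0))) ≠ 0 ∧ det3 (My B0 (xq (P 1))) ≠ 0 ∧
        det3 (My (sw12 B0) (xq (P 2))) ≠ 0 := by
      intro P hP
      obtain ⟨hf, hdet⟩ := hP
      choose d hd hdx using fun i : Fin 3 => xq_spec (P i)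
      have e : ∀ i j, (xq (P i) j : K) = d i * (P i).rep j := by
        intro i j
        have := congrFun (hdx i) j
        simpa using this
      have gen : ∀ (T' : Fin 3 → Fin 3 → Fin 3 → 𝓞 K) (TB : Fin 3 → Fin 3 → Fin 3 → K),
          (∀ i j k, (T' i j k : K) = c * TB i j k) → ∀ s,
          det3 (My TB ((P s).rep)) ≠ 0 → det3 (My T' (xq (P s))) ≠ 0 := by
        intro T' TB hTT s hne h0
        have h1 : ((det3 (My T' (xq (P s))) : 𝓞 K) : K) =
            (c * d s) ^ 3 * det3 (My TB ((P s).rep)) := by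
          rw [← det3_smul]
          have h2 : ((det3 (My T' (xq (P s))) : 𝓞 K) : K) =
              det3 (fun p => ((My T' (xq (P s)) p : 𝓞 K) : K)) :=
            (det3_map (algebraMap (𝓞 K) K) _).symm
          rw [h2]
          congr 1
          funext p
          simp only [My, Fin.sum_univ_three, map_add, map_mul, hTT, e, Pi.smul_apply, smul_eq_mul]
          ring
        rw [h0] at h1
        have h2 := mul_eq_zero.mp (h1.symm.trans (by simp))
        rcases h2 with h2 | h2
        · exact absurd h2 (pow_ne_zero 3 (mul_ne_zero hc (hd s)))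
        · exact hne h2
      refine ⟨?_, ?_, ?_, ?_⟩
      · have h1 : ((tri B0 (xq (P 0)) (xq (P 1)) (xq (P 2)) : 𝓞 K) : K)
            = c * (d 0 * d 1 * d 2) * form B (fun i => (P i).rep) := by
          simp only [tri, form, Fin.sum_univ_three, map_add, map_mul, hcB, e]
          ring
        rw [hf, mul_zero] at h1
        exact_mod_cast h1
      · apply gen (sw01 B0) (sw01 B) (fun i j k => hcB j i k)
        rw [← tdet0]; exact hdet 0
      · apply gen B0 B hcB
        rw [← tdet1]; exact hdet 1
      · apply gen (sw12 B0) (sw12 B) (fun i j k => hcB i k j)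
        rw [← tdet2]; exact hdet 2
    have hTκ : 1 ≤ T ^ (κ / 2) := Real.one_le_rpow hT (by positivity)
    set Bd : ℝ := T ^ (κ / 2) with hBd
    -- bound for finite subsets
    have hfinS : ∀ S : Finset (Fin 3 → ℙ K (Fin 3 → K)),
        (∀ P ∈ S, InU B (fun i => (P i).rep) ∧ ∏ i, (P i).mulHeight ^ (a i) ≤ T) →
        (S.card : ℝ) ≤ C * T ^ (κ + ε) := by
      intro S hS
      have hprodH : ∀ P ∈ S, ∏ i, ht (xq (P i)) ≤ Bd := by
        intro P hP
        obtain ⟨_, hTP⟩ := hS P hP
        have h1 : ∏ i, ht (xq (P i)) ≤ (∏ i, (P i).mulHeight ^ (a i)) ^ (κ / 2) := by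
          rw [← Real.finsetProd_rpow _ _
            (fun i _ => Real.rpow_nonneg (by rw [← ht_xq]; exact (ht_pos _).le) _)]
          refine Finset.prod_le_prod (fun i _ => (ht_pos _).le) fun i _ => ?_
          rw [← ht_xq, ← Real.rpow_mul (ht_pos _).le]
          calc ht (xq (P i)) = ht (xq (P i)) ^ (1 : ℝ) := (Real.rpow_one _).symm
            _ ≤ ht (xq (P i)) ^ (a i * (κ / 2)) := by
                apply Real.rpow_le_rpow_of_exponent_le (one_le_ht _)
                have := hκ i
                linarith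
        refine h1.trans ?_
        rw [hBd]
        apply Real.rpow_le_rpow _ hTP (by positivity)
        exact Finset.prod_nonneg fun i _ => Real.rpow_nonneg
          (by rw [← ht_xq]; exact (ht_pos _).le) _
      let f : (Fin 3 → ℙ K (Fin 3 → K)) → (Fin 3 → ℕ) :=
        fun P i => ⌊Real.logb 2 (ht (xq (P i)))⌋₊
      set L : ℕ := ⌊Real.logb 2 Bd⌋₊ with hL
      let TT : Finset (Fin 3 → ℕ) := Fintype.piFinset (fun _ => Finset.range (L + 1))
      have hle : ∀ P ∈ S, ∀ i, ht (xq (P i)) ≤ Bd := by
        intro P hP i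
        refine le_trans ?_ (hprodH P hP)
        rw [← Finset.mul_prod_erase univ _ (Finset.mem_univ i)]
        have h1 : (1 : ℝ) ≤ ∏ j ∈ univ.erase i, ht (xq (P j)) := by
          calc (1 : ℝ) = ∏ j ∈ univ.erase i, (1 : ℝ) := by simp
            _ ≤ _ := Finset.prod_le_prod (fun _ _ => zero_le_one) fun j _ => one_le_ht _
        have h2 := ht_pos (xq (P i))
        nlinarith
      have hmaps : ∀ P ∈ S, f P ∈ TT := by
        intro P hP
        rw [Fintype.mem_piFinset]
        intro i
        rw [Finset.mem_range]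
        exact Nat.lt_succ_of_le (Nat.floor_mono
          (Real.logb_le_logb_of_le (by norm_num) (ht_pos _) (hle P hP i)))
      have hcardS := Finset.card_eq_sum_card_fiberwise (f := f) (s := S) (t := TT) hmaps
      have hfib : ∀ g ∈ TT, (((S.filter fun P => f P = g).card : ℕ) : ℝ) ≤
          Cb * ((8 * Bd) ^ 2 * (8 * Bd) ^ ε') := by
        intro g _
        rcases (S.filter fun P => f P = g).eq_empty_or_nonempty with he | ⟨P0, hP0⟩
        · rw [he]
          simp only [Finset.card_empty, Nat.cast_zero]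
          positivity
        have hspec : ∀ P ∈ S.filter (fun P => f P = g), ∀ i,
            (2 : ℝ) ^ (g i) ≤ ht (xq (P i)) ∧ ht (xq (P i)) ≤ 2 * 2 ^ (g i) := by
          intro P hP i
          have h1 := (Finset.mem_filter.mp hP).2
          have h2 := congrFun h1 i
          rw [← h2]
          exact floor_logb_spec (one_le_ht _)
        have hb := hbox (fun i => 2 * 2 ^ (g i)) (fun i => by
            have : (1 : ℝ) ≤ 2 ^ (g i) := one_le_pow₀ (by norm_num)
            linarith) (S.filter fun P => f P = g)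
          (fun P hP => ⟨fun i => (hspec P hP i).2, hmem P (hS P (Finset.mem_filter.mp hP).1).1⟩)
        have hprodX : ∏ i : Fin 3, (2 * (2 : ℝ) ^ (g i)) ≤ 8 * Bd := by
          rw [Finset.prod_mul_distrib]
          have h1 : ∏ i : Fin 3, (2 : ℝ) ^ (g i) ≤ ∏ i, ht (xq (P0 i)) :=
            Finset.prod_le_prod (fun i _ => by positivity) fun i _ => (hspec P0 hP0 i).1
          have h2 := hprodH P0 (Finset.mem_filter.mp hP0).1
          have h3 : ∏ _i : Fin 3, (2 : ℝ) = 8 := by
            simp; norm_num
          rw [h3]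
          have := h1.trans h2
          gcongr
        refine hb.trans ?_
        have hpos : 0 ≤ ∏ i : Fin 3, (2 * (2 : ℝ) ^ (g i)) :=
          Finset.prod_nonneg fun i _ => by positivity
        have h4 := Real.rpow_le_rpow hpos hprodX hε'0.le
        have h5 := Real.rpow_nonneg hpos ε'
        gcongr
      have hTTcard : (TT.card : ℝ) ≤ Cl * Bd ^ ε' := by
        have h1 : (TT.card : ℝ) = ((L : ℝ) + 1) ^ 3 := by
          simp only [TT, Fintype.card_piFinset, Finset.card_range, Finset.prod_const,
            Finset.card_univ, Fintype.card_fin]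
          push_cast; ring
        rw [h1]
        refine le_trans ?_ (hlog Bd hTκ)
        have h2 : (L : ℝ) ≤ Real.logb 2 Bd := Nat.floor_le (Real.logb_nonneg (by norm_num) hTκ)
        apply pow_le_pow_left₀ (by positivity)
        rw [one_mul]
        linarith
      calc (S.card : ℝ) = ∑ g ∈ TT, (((S.filter fun P => f P = g).card : ℕ) : ℝ) := by
            rw [hcardS]; push_cast; rfl
        _ ≤ ∑ g ∈ TT, Cb * ((8 * Bd) ^ 2 * (8 * Bd) ^ ε') := Finset.sum_le_sum hfib
        _ = TT.card * (Cb * ((8 * Bd) ^ 2 * (8 * Bd) ^ ε')) := by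
            rw [Finset.sum_const, nsmul_eq_mul]
        _ ≤ (Cl * Bd ^ ε') * (Cb * ((8 * Bd) ^ 2 * (8 * Bd) ^ ε')) := by gcongr
        _ = C * (Bd ^ 2 * (Bd ^ ε' * Bd ^ ε')) := by
            have e1 : (8 * Bd) ^ ε' = 8 ^ ε' * Bd ^ ε' :=
              Real.mul_rpow (by positivity) (by positivity)
            rw [e1, hC]; ring
        _ ≤ C * T ^ (κ + ε) := by
            have hCpos : 0 ≤ C := by positivity
            have e2 : Bd ^ 2 * (Bd ^ ε' * Bd ^ ε') = T ^ (κ + ε / 2) := by
              rw [hBd, ← Real.rpow_natCast, ← Real.rpow_mul hT0.le, ← Real.rpow_mul hT0.le,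
                ← Real.rpow_add hT0, ← Real.rpow_add hT0]
              congr 1
              rw [hε']; push_cast; field_simp; ring
            rw [e2]
            have : T ^ (κ + ε / 2) ≤ T ^ (κ + ε) :=
              Real.rpow_le_rpow_of_exponent_le hT (by linarith)
            gcongr
    -- conclusion
    set S0 := {P : Fin 3 → ℙ K (Fin 3 → K) | InU B (fun i => (P i).rep) ∧
        ∏ i, (P i).mulHeight ^ (a i) ≤ T} with hS0
    have hfinite : S0.Finite := by
      by_contra hinf
      obtain ⟨n, hn⟩ := exists_nat_gt (C * T ^ (κ + ε))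
      obtain ⟨S, hSsub, hScard⟩ := Set.Infinite.exists_subset_card_eq hinf n
      have := hfinS S (fun P hP => hSsub hP)
      rw [hScard] at this
      linarith
    refine ⟨hfinite, ?_⟩
    rw [Set.ncard_eq_toFinset_card _ hfinite]
    exact hfinS _ (fun P hP => by
      have := (Set.Finite.mem_toFinset hfinite).mp hP
      exact this)

end Pool.Agent.Results.MP_18ea5f_nt.WeakManinTrilinear
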