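import Mathlib
import Pool.Agent.V5.Final
import Pool.Agent.V5.Smooth
import Pool.Agent.V5.Null
import Pool.Agent.V5.Res
import Pool.Agent.V5.Crt
import Pool.Agent.V5.Cell
import Pool.Agent.V5.Dir
import Pool.Agent.V5.Rel
import Pool.Agent.V5.ZRel
import Pool.Agent.V5.LineN
import Pool.Agent.V5.Ideals

set_option autoImplicit false

/-!
# Weak Manin conjecture for smooth quintic del Pezzo threefolds over number fields

`X ⊂ Gr(2,5)` is the variety of the planes on which three given alternating forms vanish,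
smooth of dimension `3` (the Fano threefold `V_5`, with `-K = 2 H` and `Pic = ℤ H`).
-/

namespace Pool.Agent.Results.MP_18ea5f_nt.WeakManinV5

open Finset NumberField
open scoped LinearAlgebra.Projectivization

/-- The value at `(x, y)` of the bilinear form with matrix `m`. -/
def bil {F : Type*} [CommRing F] (m : Fin 5 → Fin 5 → F) (x y : Fin 5 → F) : F :=
  ∑ i, ∑ j, m i j * (x i * y j)

/-- `ω` is a triple of alternating `5 × 5` matrices. -/
def IsAlt {F : Type*} [CommRing F] (ω : Fin 3 → Fin 5 → Fin 5 → F) : Prop :=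
  ∀ k i, ω k i i = 0 ∧ ∀ j, ω k i j = - ω k j i

/-- The form `ω_a = a_0 ω_0 + a_1 ω_1 + a_2 ω_2`. -/
def comb {F : Type*} [CommRing F] (ω : Fin 3 → Fin 5 → Fin 5 → F) (a : Fin 3 → F)
    (i j : Fin 5) : F := ∑ k, a k * ω k i j

/-- The Plücker coordinates of the plane spanned by `x` and `y`
(nonzero iff `x`, `y` are linearly independent). -/
def pl {F : Type*} [CommRing F] (x y : Fin 5 → F) (q : Fin 5 × Fin 5) : F :=
  x q.1 * y q.2 - x q.2 * y q.1

/-- `p` is the Plücker vector of a plane `⟨x, y⟩` with `ω_k(x, y) = 0` for `k = 0, 1, 2`. -/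
def OnX {F : Type*} [CommRing F] (ω : Fin 3 → Fin 5 → Fin 5 → F) (p : Fin 5 × Fin 5 → F) : Prop :=
  ∃ x y, p = pl x y ∧ ∀ k, bil (ω k) x y = 0

/-- Jacobian criterion: `X` is smooth of codimension `3` in `Gr(2,5)`.  At the plane `⟨x, y⟩` the
differential of `ω_a` is `φ ↦ ω_a(φ x, y) + ω_a(x, φ y)`; it is zero iff
`ω_a(x, z) = ω_a(y, z) = 0` for all `z`. -/
def Smooth {F : Type*} [CommRing F] (ω : Fin 3 → Fin 5 → Fin 5 → F) : Prop :=
  ∀ x y : Fin 5 → F, pl x y ≠ 0 → (∀ k, bil (ω k) x y = 0) →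
    ∀ a : Fin 3 → F, a ≠ 0 → ∃ z, bil (comb ω a) x z ≠ 0 ∨ bil (comb ω a) y z ≠ 0

/-- The forms over the algebraic closure. -/
noncomputable def bc {K : Type} [Field K] (ω : Fin 3 → Fin 5 → Fin 5 → K) :
    Fin 3 → Fin 5 → Fin 5 → AlgebraicClosure K :=
  fun k i j => algebraMap K (AlgebraicClosure K) (ω k i j)

theorem result (K : Type) [Field K] [NumberField K] (ω : Fin 3 → Fin 5 → Fin 5 → K)
    (hω : IsAlt ω) (hs : Smooth (bc ω)) :
    ∀ r ε : ℝ, 0 < r → 0 < ε → ∃ C : ℝ, ∀ T : ℝ, 1 ≤ T →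
      {P : ℙ K (Fin 5 × Fin 5 → K) | OnX ω P.rep ∧ P.mulHeight ^ r ≤ T}.Finite ∧
      ({P : ℙ K (Fin 5 × Fin 5 → K) | OnX ω P.rep ∧ P.mulHeight ^ r ≤ T}.ncard : ℝ) ≤
        C * T ^ (2 / r + ε) :=
  fun r ε hr hε =>
    Pool.V5.final Pool.V5.smooth_proof Pool.V5.Null_proof
      (Pool.V5.Main_proof (Pool.V5.Siegel_proof Pool.V5.Bal_proof Pool.V5.dir_proof)
        Pool.V5.Rel.rel_proof Pool.V5.zrel_proof Pool.V5.ZCount_proof Pool.V5.LineN_proof
        (Pool.V5.Count_proof Pool.V5.crt_proof Pool.V5.res_proof Pool.V5.cell_proof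
          Pool.V5.Bal_proof Pool.V5.Ideals.ideals_proof))
      K ω hω hs r ε hr hε

end Pool.Agent.Results.MP_18ea5f_nt.WeakManinV5
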